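import Mathlib
import Pool.Agent.H6.GammaLocal

/-!
Local behaviour of the complex Gamma function along vertical lines.
-/

set_option autoImplicit false

open Complex Filter Topology Finset

namespace Pool.Agent.H5

open Pool.Agent.H6 (norm_ge_of_re psiSeq psi tendsto_psiSeq)

/-- the local remainder term -/
noncomputable def remc (w u : ℂ) : ℂ := u / w - (log (w + u) - log w)

lemma exp_remc {w u : ℂ} (hw : 0 < w.re) (hwu : 0 < (w + u).re) :
    w / (w + u) = exp (-(u / w) + remc w u) := by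
  have h1 : w ≠ 0 := by
    intro h; simp [h] at hw
  have h2 : w + u ≠ 0 := by
    intro h; rw [h] at hwu; simp at hwu
  have : -(u / w) + remc w u = log w - log (w + u) := by
    unfold remc; ring
  rw [this, Complex.exp_sub, Complex.exp_log h1, Complex.exp_log h2]

/-- bound of the remainder in a direction `e` of norm one -/
lemma norm_remc_le {w : ℂ} {c : ℝ} (hc : 0 < c) (hw : c ≤ w.re) (e : ℂ) (he : ‖e‖ = 1)
    {u : ℝ} (hu : 0 ≤ u) (hre : ∀ τ ∈ Set.Icc (0 : ℝ) u, c ≤ (w + τ * e).re) :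
    ‖remc w (u * e)‖ ≤ u ^ 2 / (2 * c ^ 2) := by
  have hwn : c ≤ ‖w‖ := norm_ge_of_re hw
  have hw0 : w ≠ 0 := by
    intro h; simp [h] at hw; linarith
  have hder : ∀ τ ∈ Set.Icc (0 : ℝ) u,
      HasDerivAt (fun τ : ℝ => remc w (τ * e)) (e * (1 / w - 1 / (w + τ * e))) τ := by
    intro τ hτ
    unfold remc
    have h0 : HasDerivAt (fun τ : ℝ => (τ : ℂ) * e) e τ := by
      have : HasDerivAt (fun τ : ℝ => (τ : ℂ)) 1 τ := (hasDerivAt_id τ).ofReal_comp
      simpa using this.mul_const e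
    have h1 : HasDerivAt (fun τ : ℝ => (τ : ℂ) * e / w) (e / w) τ := h0.div_const w
    have h2 : HasDerivAt (fun τ : ℝ => w + (τ : ℂ) * e) e τ := h0.const_add w
    have h3 : HasDerivAt (fun τ : ℝ => log (w + (τ : ℂ) * e))
        (e / (w + (τ : ℂ) * e)) τ := by
      apply h2.clog_real
      left
      have := hre τ hτ
      linarith
    exact (h1.sub (h3.sub_const (log w))).congr_deriv (by ring)
  have hmain := image_norm_le_of_norm_deriv_right_le_deriv_boundary
    (f := fun τ : ℝ => remc w (τ * e)) (f' := fun τ => e * (1 / w - 1 / (w + τ * e)))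
    (a := 0) (b := u) (B := fun τ => τ ^ 2 / (2 * c ^ 2)) (B' := fun τ => τ / c ^ 2)
    (fun τ hτ => (hder τ hτ).continuousAt.continuousWithinAt)
    (fun τ hτ => (hder τ ⟨hτ.1, hτ.2.le⟩).hasDerivWithinAt)
    (by simp [remc])
    (by
      intro τ
      refine ((hasDerivAt_pow 2 τ).div_const (2 * c ^ 2)).congr_deriv ?_
      field_simp
      ring)
    (by
      intro τ hτ
      have hk := hre τ ⟨hτ.1, hτ.2.le⟩
      have hn2 : c ≤ ‖w + τ * e‖ := norm_ge_of_re hk
      have hne : w + τ * e ≠ 0 := by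
        intro h
        rw [h] at hn2
        simp at hn2
        linarith
      have e' : e * (1 / w - 1 / (w + τ * e))
          = e * e * τ / (w * (w + τ * e)) := by
        rw [div_sub_div _ _ hw0 hne, mul_div_assoc']
        congr 1; ring
      rw [e', norm_div, norm_mul, norm_mul, norm_mul, he, Complex.norm_real, Real.norm_eq_abs,
        abs_of_nonneg hτ.1, one_mul, one_mul]
      apply div_le_div_of_nonneg_left hτ.1 (by positivity)
      nlinarith [norm_nonneg w, norm_nonneg (w + τ * e)])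
    (Set.right_mem_Icc.mpr hu)
  simpa using hmain

lemma norm_remc_vert {w : ℂ} {c : ℝ} (hc : 0 < c) (hw : c ≤ w.re) (τ : ℝ) :
    ‖remc w (τ * I)‖ ≤ τ ^ 2 / (2 * c ^ 2) := by
  rcases le_total 0 τ with h | h
  · refine norm_remc_le hc hw I (by simp) h (fun t _ => ?_)
    simpa using hw
  · have := norm_remc_le hc hw (-I) (by simp) (u := -τ) (by linarith) (fun t _ => by simpa using hw)
    simpa using this

lemma norm_remc_one {w : ℂ} {c : ℝ} (hc : 0 < c) (hw : c ≤ w.re) :
    ‖remc w 1‖ ≤ 1 / (2 * c ^ 2) := by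
  have := norm_remc_le hc hw 1 (by simp) (u := 1) (by norm_num) (fun t ht => by
    have := ht.1
    simp; linarith)
  simpa using this

lemma gammaSeq_shiftc {s u : ℂ} (hs : 1 ≤ s.re) (hsu : 1 ≤ (s + u).re) {n : ℕ} (hn : n ≠ 0) :
    GammaSeq (s + u) n =
      GammaSeq s n * exp (u * psiSeq s n + ∑ j ∈ range (n + 1), remc (s + j) u) := by
  unfold GammaSeq psiSeq
  have hn' : (n : ℂ) ≠ 0 := by exact_mod_cast hn
  have h1 : (n : ℂ) ^ (s + u) = (n : ℂ) ^ s * exp (u * (Real.log n : ℂ)) := by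
    rw [cpow_add _ _ hn', cpow_def_of_ne_zero hn' (u : ℂ), Complex.natCast_log, mul_comm (u : ℂ)]
  have hne : ∀ j : ℕ, s + j ≠ 0 := by
    intro j h
    have := congrArg Complex.re h
    simp at this
    have : (0:ℝ) ≤ j := Nat.cast_nonneg j
    linarith
  have hneu : ∀ j : ℕ, s + u + j ≠ 0 := by
    intro j h
    have := congrArg Complex.re h
    simp at this hsu
    have : (0:ℝ) ≤ j := Nat.cast_nonneg j
    linarith
  have h2 : ∏ j ∈ range (n + 1), ((s + j) / (s + u + j))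
      = exp (- u * ∑ j ∈ range (n + 1), 1 / (s + j) + ∑ j ∈ range (n + 1), remc (s + j) u) := by
    rw [Finset.mul_sum, ← Finset.sum_add_distrib, Complex.exp_sum]
    apply Finset.prod_congr rfl
    intro j _
    have hj : (0:ℝ) ≤ j := Nat.cast_nonneg j
    have := exp_remc (w := s + j) (u := u) (by simp; linarith) (by simp at hsu ⊢; linarith)
    rw [show s + u + j = s + j + u by ring, this]
    congr 1
    ring
  have h3 : ∏ j ∈ range (n + 1), (s + j) =
      (∏ j ∈ range (n + 1), ((s + j) / (s + u + j))) * ∏ j ∈ range (n + 1), (s + u + j) := by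
    rw [← Finset.prod_mul_distrib]
    apply Finset.prod_congr rfl
    intro j _
    field_simp [hneu j]
  have hP : ∏ j ∈ range (n + 1), (s + j) ≠ 0 := Finset.prod_ne_zero_iff.mpr (fun j _ => hne j)
  have hQ : ∏ j ∈ range (n + 1), (s + u + j) ≠ 0 :=
    Finset.prod_ne_zero_iff.mpr (fun j _ => hneu j)
  rw [h1]
  have h4 : exp (u * ((Real.log n : ℂ) - ∑ j ∈ range (n + 1), 1 / (s + j))
      + ∑ j ∈ range (n + 1), remc (s + j) u)
      = exp (u * (Real.log n : ℂ)) * (∏ j ∈ range (n + 1), ((s + j) / (s + u + j))) := by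
    rw [h2, ← Complex.exp_add]
    congr 1
    ring
  rw [h4, div_mul_eq_mul_div, div_eq_div_iff hQ hP]
  rw [h3]
  ring

lemma sum_inv_sq_le {σ : ℝ} (hσ : 1 ≤ σ) (n : ℕ) :
    ∑ j ∈ range n, 1 / (2 * (σ + j) ^ 2) ≤ 1 / σ := by
  have key : ∀ n : ℕ, ∑ j ∈ range (n + 1), 1 / (2 * (σ + j) ^ 2) ≤ 1 / σ - 1 / (2 * (σ + n)) := by
    intro n
    induction n with
    | zero =>
      simp
      have h1 : σ⁻¹ * (σ ^ 2)⁻¹ ≥ 0 := by positivity
      have h2 : (σ ^ 2)⁻¹ ≤ σ⁻¹ := by
        apply inv_anti₀ (by linarith)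
        nlinarith
      have e1 : (σ ^ 2)⁻¹ * 2⁻¹ ≤ σ⁻¹ * 2⁻¹ := by nlinarith
      linarith
    | succ n ih =>
      rw [Finset.sum_range_succ]
      have hn : (0:ℝ) ≤ n := Nat.cast_nonneg n
      have h3 : 1 / (2 * (σ + (n + 1 : ℕ)) ^ 2) ≤ 1 / (2 * (σ + n)) - 1 / (2 * (σ + (n + 1 : ℕ))) := by
        push_cast
        have h4 : 1 / (2 * (σ + n)) - 1 / (2 * (σ + (n + 1))) = 1 / (2 * (σ + n) * (σ + (n + 1))) := by
          field_simp
          ring
        rw [h4]
        apply one_div_le_one_div_of_le (by positivity)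
        nlinarith
      linarith
  rcases n with _ | n
  · simp; linarith
  · refine (key n).trans ?_
    have hn : (0:ℝ) ≤ n := Nat.cast_nonneg n
    have : 0 ≤ 1 / (2 * (σ + n)) := by positivity
    linarith

lemma summable_inv_sq {σ : ℝ} (hσ : 1 ≤ σ) : Summable (fun j : ℕ => 1 / (2 * (σ + j) ^ 2)) := by
  refine summable_of_sum_range_le (c := 1 / σ) (fun j => by positivity) (sum_inv_sq_le hσ)

lemma tsum_inv_sq_le {σ : ℝ} (hσ : 1 ≤ σ) : ∑' j : ℕ, 1 / (2 * (σ + j) ^ 2) ≤ 1 / σ :=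
  (summable_inv_sq hσ).tsum_le_of_sum_range_le (sum_inv_sq_le hσ)

/-- total remainder -/
noncomputable def rhoV (s : ℂ) (τ : ℝ) : ℂ := ∑' j : ℕ, remc (s + j) (τ * I)

lemma norm_remc_nat {s : ℂ} (hs : 1 ≤ s.re) (τ : ℝ) (j : ℕ) :
    ‖remc (s + j) (τ * I)‖ ≤ τ ^ 2 * (1 / (2 * (s.re + j) ^ 2)) := by
  have hj : (0:ℝ) ≤ j := Nat.cast_nonneg j
  have := norm_remc_vert (w := s + j) (c := s.re + j) (by linarith) (by simp) τ
  calc _ ≤ _ := this
    _ = _ := by ring

lemma summable_remV {s : ℂ} (hs : 1 ≤ s.re) (τ : ℝ) :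
    Summable (fun j : ℕ => remc (s + j) (τ * I)) :=
  Summable.of_norm_bounded ((summable_inv_sq hs).mul_left (τ ^ 2)) (norm_remc_nat hs τ)

lemma norm_rhoV_le {s : ℂ} (hs : 1 ≤ s.re) (τ : ℝ) : ‖rhoV s τ‖ ≤ τ ^ 2 / s.re := by
  have h1 : ‖rhoV s τ‖ ≤ ∑' j : ℕ, τ ^ 2 * (1 / (2 * (s.re + j) ^ 2)) :=
    tsum_of_norm_bounded ((summable_inv_sq hs).mul_left (τ ^ 2)).hasSum
      (norm_remc_nat hs τ)
  rw [tsum_mul_left] at h1
  have := tsum_inv_sq_le hs
  calc _ ≤ _ := h1
    _ ≤ τ ^ 2 * (1 / s.re) := by gcongr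
    _ = _ := by ring

/-- Local form of the Gamma function on vertical lines. -/
theorem gamma_vert {s : ℂ} (hs : 1 ≤ s.re) (τ : ℝ) :
    Gamma (s + τ * I) = Gamma s * exp (τ * I * psi s + rhoV s τ) := by
  have h1 := GammaSeq_tendsto_Gamma (s + τ * I)
  have h2 : Tendsto (fun n => GammaSeq s n *
      exp (τ * I * psiSeq s n + ∑ j ∈ range (n + 1), remc (s + j) (τ * I))) atTop
      (𝓝 (Gamma s * exp (τ * I * psi s + rhoV s τ))) := by
    apply (GammaSeq_tendsto_Gamma s).mul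
    apply (Complex.continuous_exp.tendsto _).comp
    exact ((tendsto_psiSeq hs).const_mul _).add
      (((summable_remV hs τ).hasSum.tendsto_sum_nat).comp (tendsto_add_atTop_nat 1))
  refine tendsto_nhds_unique h1 (h2.congr' ?_)
  filter_upwards [eventually_ne_atTop 0] with n hn
  rw [gammaSeq_shiftc hs (by simpa using hs) hn]

lemma tendsto_log_sub {s : ℂ} (hs : 1 ≤ s.re) :
    Tendsto (fun n : ℕ => (Real.log n : ℂ) - log (s + (n + 1 : ℕ))) atTop (𝓝 0) := by
  have h0 : Tendsto (fun n : ℕ => (1 : ℂ) + (s + 1) / n) atTop (𝓝 1) := by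
    have : Tendsto (fun n : ℕ => (s + 1) / (n : ℂ)) atTop (𝓝 0) := by
      have h1 : Tendsto (fun n : ℕ => ((n : ℂ))⁻¹) atTop (𝓝 0) := tendsto_inv_atTop_nhds_zero_nat
      simpa [div_eq_mul_inv] using h1.const_mul (s + 1)
    simpa using this.const_add 1
  have h1 : Tendsto (fun n : ℕ => -log ((1 : ℂ) + (s + 1) / n)) atTop (𝓝 0) := by
    have h2 : ContinuousAt log (1 : ℂ) := continuousAt_clog (by simp)
    have := (h2.tendsto.comp h0).neg
    simpa using this
  refine h1.congr' ?_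
  filter_upwards [eventually_ge_atTop 1] with n hn
  have hn' : (0 : ℝ) < n := by exact_mod_cast hn
  have hnc : (n : ℂ) ≠ 0 := by exact_mod_cast hn'.ne'
  have h3 : s + ((n + 1 : ℕ) : ℂ) = ((n : ℝ) : ℂ) * (1 + (s + 1) / n) := by
    push_cast; field_simp; ring
  have h4 : (1 : ℂ) + (s + 1) / n ≠ 0 := by
    intro h
    have h5 : s + ((n + 1 : ℕ) : ℂ) = 0 := by rw [h3, h, mul_zero]
    have := congrArg Complex.re h5
    simp at this
    linarith
  rw [h3, Complex.log_ofReal_mul hn' h4]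
  ring

lemma norm_psi_sub_log_le {s : ℂ} (hs : 1 ≤ s.re) : ‖psi s - log s‖ ≤ 1 / s.re := by
  have h1 := tendsto_psiSeq hs
  have h2 : ∀ n : ℕ, psiSeq s n = ((Real.log n : ℂ) - log (s + (n + 1 : ℕ))) + log s
      - ∑ j ∈ range (n + 1), remc (s + j) 1 := by
    intro n
    unfold psiSeq remc
    rw [Finset.sum_sub_distrib]
    have h3 : ∑ j ∈ range (n + 1), (log (s + j + 1) - log (s + j))
        = log (s + (n + 1 : ℕ)) - log s := by
      have := Finset.sum_range_sub (fun j : ℕ => log (s + j)) (n + 1)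
      simp only [Nat.cast_zero, add_zero] at this
      rw [← this]
      refine Finset.sum_congr rfl (fun j _ => ?_)
      push_cast
      rw [add_assoc]
    rw [h3]
    ring
  have h4 : Tendsto (fun n => psiSeq s n - ((Real.log n : ℂ) - log (s + (n + 1 : ℕ))) - log s) atTop
      (𝓝 (psi s - 0 - log s)) := ((h1.sub (tendsto_log_sub hs)).sub_const _)
  have h5 : ∀ n, ‖psiSeq s n - ((Real.log n : ℂ) - log (s + (n + 1 : ℕ))) - log s‖ ≤ 1 / s.re := by
    intro n
    rw [h2 n]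
    have e : ((Real.log n : ℂ) - log (s + (n + 1 : ℕ))) + log s
      - ∑ j ∈ range (n + 1), remc (s + j) 1 - ((Real.log n : ℂ) - log (s + (n + 1 : ℕ))) - log s
      = - ∑ j ∈ range (n + 1), remc (s + j) 1 := by ring
    rw [e, norm_neg]
    refine (norm_sum_le _ _).trans ((Finset.sum_le_sum (fun j _ => ?_)).trans (sum_inv_sq_le hs (n + 1)))
    have hj : (0:ℝ) ≤ j := Nat.cast_nonneg j
    exact norm_remc_one (w := s + j) (c := s.re + j) (by linarith) (by simp)
  have := le_of_tendsto' h4.norm h5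
  simpa using this

end Pool.Agent.H5
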