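import Mathlib

set_option autoImplicit false

namespace Pool.Agent.H5

open Finset

/-- number of affine points, in the frozen form -/
def cnt (a b : ℤ) (p : ℕ) : ℕ :=
  (((Finset.range p) ×ˢ (Finset.range p)).filter
    (fun xy : ℕ × ℕ => (p : ℤ) ∣ (xy.2 : ℤ) ^ 2 - ((xy.1 : ℤ) ^ 3 + a * (xy.1 : ℤ) + b))).card

lemma sum_range_zmod {M : Type*} [AddCommMonoid M] (p : ℕ) [NeZero p] (g : ZMod p → M) :
    ∑ x ∈ Finset.range p, g (x : ZMod p) = ∑ x : ZMod p, g x := by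
  refine Finset.sum_bij (fun n _ => (n : ZMod p)) (fun _ _ => Finset.mem_univ _) ?_ ?_ ?_
  · intro a ha b hb hab
    have := (ZMod.natCast_eq_natCast_iff' a b p).1 hab
    rwa [Nat.mod_eq_of_lt (Finset.mem_range.1 ha), Nat.mod_eq_of_lt (Finset.mem_range.1 hb)] at this
  · intro z _
    exact ⟨z.val, Finset.mem_range.2 (ZMod.val_lt z), by simp⟩
  · intro a _
    rfl

lemma cnt_eq (a b : ℤ) (p : ℕ) [hp : Fact p.Prime] (hp2 : p ≠ 2) :
    (cnt a b p : ℤ) = p + ∑ x : ZMod p, quadraticChar (ZMod p) (x ^ 3 + a * x + b) := by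
  classical
  have hchar : ringChar (ZMod p) ≠ 2 := by
    rw [ZMod.ringChar_zmod_n]; exact hp2
  have h1 : (cnt a b p : ℤ) = ∑ x ∈ Finset.range p, ∑ y ∈ Finset.range p,
      (if (p : ℤ) ∣ (y : ℤ) ^ 2 - ((x : ℤ) ^ 3 + a * (x : ℤ) + b) then (1 : ℤ) else 0) := by
    rw [cnt, Finset.card_filter, Finset.sum_product]
    push_cast
    rfl
  have h2 : ∀ x y : ℕ, ((p : ℤ) ∣ (y : ℤ) ^ 2 - ((x : ℤ) ^ 3 + a * (x : ℤ) + b)) ↔
      ((y : ZMod p) ^ 2 = (x : ZMod p) ^ 3 + a * (x : ZMod p) + b) := by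
    intro x y
    rw [← ZMod.intCast_zmod_eq_zero_iff_dvd]
    push_cast
    rw [sub_eq_zero]
  rw [h1]
  simp_rw [h2]
  have h3 : ∀ x : ZMod p, ∑ y ∈ Finset.range p,
      (if ((y : ZMod p) ^ 2 = x ^ 3 + a * x + b) then (1 : ℤ) else 0)
        = quadraticChar (ZMod p) (x ^ 3 + a * x + b) + 1 := by
    intro x
    rw [sum_range_zmod p (fun y : ZMod p => if (y ^ 2 = x ^ 3 + a * x + b) then (1 : ℤ) else 0)]
    rw [← quadraticChar_card_sqrts hchar]
    rw [Finset.sum_boole]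
    congr 1
    congr 1
    ext y
    simp
  rw [sum_range_zmod p (fun x : ZMod p => ∑ y ∈ Finset.range p,
      (if ((y : ZMod p) ^ 2 = x ^ 3 + a * x + b) then (1 : ℤ) else 0))]
  simp_rw [h3]
  rw [Finset.sum_add_distrib]
  simp [ZMod.card]
  ring

end Pool.Agent.H5
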