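import Mathlib
import Pool.Agent.H5.PointCount

set_option autoImplicit false

namespace Pool.Agent.H5

open Finset

abbrev GI := GaussianInt

def gi_i : GI := ⟨0, 1⟩

lemma gi_i_sq : gi_i ^ 2 = -1 := by
  rw [pow_two]; rfl

lemma gi_i_prim : IsPrimitiveRoot gi_i 4 := by
  refine IsPrimitiveRoot.mk_of_lt _ (by norm_num) ?_ ?_
  · calc gi_i ^ 4 = (gi_i ^ 2) ^ 2 := by ring
      _ = 1 := by rw [gi_i_sq]; norm_num
  · intro l hl hl4
    have h1 : gi_i ≠ 1 := by
      intro h; exact absurd (congrArg Zsqrtd.im h) (by decide)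
    have h3 : gi_i ^ 3 = -gi_i := by
      calc gi_i ^ 3 = gi_i ^ 2 * gi_i := by ring
        _ = _ := by rw [gi_i_sq]; ring
    interval_cases l
    · simpa using h1
    · rw [gi_i_sq]; decide
    · rw [h3]; intro h; exact absurd (congrArg Zsqrtd.im h) (by decide)

/-- quadratic character with values in the Gaussian integers -/
noncomputable def chi2 (p : ℕ) [Fact p.Prime] : MulChar (ZMod p) GI :=
  (quadraticChar (ZMod p)).ringHomComp (Int.castRingHom GI)

lemma chi2_apply (p : ℕ) [Fact p.Prime] (x : ZMod p) :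
    chi2 p x = ((quadraticChar (ZMod p) x : ℤ) : GI) := rfl

lemma exists_quartic (p : ℕ) [hp : Fact p.Prime] (h1 : p % 4 = 1) :
    ∃ ψ : MulChar (ZMod p) GI, ψ ^ 2 = chi2 p ∧ ψ ^ 4 = 1 := by
  have hchar : ringChar (ZMod p) ≠ 2 := by
    rw [ZMod.ringChar_zmod_n]; intro h; rw [h] at h1; norm_num at h1
  have h4 : 4 ∣ Fintype.card (ZMod p) - 1 := by
    rw [ZMod.card]; have := hp.out.two_le; omega
  obtain ⟨ψ, hψ⟩ := MulChar.exists_mulChar_orderOf (ZMod p) h4 gi_i_prim
  have hψ4 : ψ ^ 4 = 1 := by rw [← hψ]; exact pow_orderOf_eq_one ψ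
  refine ⟨ψ, ?_, hψ4⟩
  have hψ2 : ψ ^ 2 ≠ 1 := by
    intro h
    have := orderOf_dvd_of_pow_eq_one h
    rw [hψ] at this
    norm_num at this
  -- values of psi^2 are ±1
  have hval : ∀ x : ZMod p, x ≠ 0 → (ψ x) ^ 2 = 1 ∨ (ψ x) ^ 2 = -1 := by
    intro x hx
    have : (ψ x) ^ 4 = 1 := by
      have := congrArg (fun f : MulChar (ZMod p) GI => f x) hψ4
      simp only [MulChar.pow_apply' ψ (by norm_num : (4:ℕ) ≠ 0)] at this
      rw [this, MulChar.one_apply]
      exact isUnit_iff_ne_zero.2 hx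
    have h2 : ((ψ x) ^ 2) ^ 2 = 1 := by rw [← pow_mul]; exact this
    exact sq_eq_one_iff.1 h2
  obtain ⟨z, hz⟩ : ∃ z : ZMod p, z ≠ 0 ∧ (ψ z) ^ 2 = -1 := by
    by_contra hcon
    push Not at hcon
    apply hψ2
    refine MulChar.ext (fun u => ?_)
    rw [MulChar.pow_apply_coe, MulChar.one_apply_coe]
    rcases hval u u.ne_zero with h | h
    · exact h
    · exact absurd h (hcon u u.ne_zero)
  have hsq : ∀ x : ZMod p, x ≠ 0 → IsSquare x → (ψ x) ^ 2 = 1 := by
    rintro x hx ⟨y, rfl⟩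
    have hy : y ≠ 0 := by rintro rfl; simp at hx
    rw [map_mul, mul_pow]
    rcases hval y hy with h | h <;> rw [h] <;> norm_num
  have hz' : ¬ IsSquare z := by
    intro h
    have h1 := hsq z hz.1 h
    rw [hz.2] at h1
    exact absurd (congrArg Zsqrtd.re h1) (by decide)
  refine MulChar.ext (fun u => ?_)
  rw [MulChar.pow_apply_coe, chi2_apply]
  by_cases hu : IsSquare (u : ZMod p)
  · rw [hsq u u.ne_zero hu, (quadraticChar_one_iff_isSquare u.ne_zero).2 hu]; simp
  · have h2 : quadraticChar (ZMod p) u = -1 := quadraticChar_neg_one_iff_not_isSquare.2 hu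
    rw [h2]
    -- u * z is a square
    have h3 : quadraticChar (ZMod p) z = -1 := quadraticChar_neg_one_iff_not_isSquare.2 hz'
    have h4 : quadraticChar (ZMod p) (u * z) = 1 := by rw [map_mul, h2, h3]; norm_num
    have h5 : IsSquare ((u : ZMod p) * z) :=
      (quadraticChar_one_iff_isSquare (mul_ne_zero u.ne_zero hz.1)).1 h4
    have h6 := hsq _ (mul_ne_zero u.ne_zero hz.1) h5
    rw [map_mul, mul_pow, hz.2] at h6
    have : (ψ (u : ZMod p)) ^ 2 = -1 := by linear_combination -h6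
    rw [this]; simp

end Pool.Agent.H5
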