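import Mathlib
import Pool.Agent.H5.Quartic

set_option autoImplicit false

namespace Pool.Agent.H5

open Finset

lemma gi_unit_mul_star {x : GI} (hx : IsUnit x) : x * star x = 1 := by
  have h1 := Zsqrtd.norm_eq_one_iff.2 hx
  have h2 : x.norm = 1 := by
    have h3 := GaussianInt.norm_nonneg x
    omega
  rw [← Zsqrtd.norm_eq_mul_conj, h2]; simp

lemma inv_apply_star {p : ℕ} [hp : Fact p.Prime] (ψ : MulChar (ZMod p) GI) (x : ZMod p) :
    ψ⁻¹ x = star (ψ x) := by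
  by_cases hx : x = 0
  · subst hx
    rw [MulChar.map_zero, MulChar.map_zero]; simp
  · have hu : IsUnit x := isUnit_iff_ne_zero.2 hx
    have h1 : ψ x * ψ⁻¹ x = 1 := by
      rw [← MulChar.mul_apply, mul_inv_cancel, MulChar.one_apply hu]
    have h2 : IsUnit (ψ x) := IsUnit.of_mul_eq_one _ h1
    have h3 := gi_unit_mul_star h2
    have h4 : ψ x ≠ 0 := h2.ne_zero
    exact mul_left_cancel₀ h4 (h1.trans h3.symm)

lemma jacobi_star {p : ℕ} [hp : Fact p.Prime] (ψ φ : MulChar (ZMod p) GI) :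
    jacobiSum ψ⁻¹ φ⁻¹ = star (jacobiSum ψ φ) := by
  unfold jacobiSum
  rw [star_sum]
  refine Finset.sum_congr rfl (fun x _ => ?_)
  rw [inv_apply_star, inv_apply_star, star_mul']

lemma chi2_ne_one (p : ℕ) [hp : Fact p.Prime] (hp2 : p ≠ 2) : chi2 p ≠ 1 := by
  have hchar : ringChar (ZMod p) ≠ 2 := by
    rw [ZMod.ringChar_zmod_n]; exact hp2
  obtain ⟨a, ha⟩ := quadraticChar_exists_neg_one hchar
  intro h
  have h1 : chi2 p a = (-1 : ℤ) := by rw [chi2_apply, ha]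
  have ha0 : a ≠ 0 := by
    rintro rfl
    rw [quadraticChar_zero] at ha
    norm_num at ha
  rw [h, MulChar.one_apply (isUnit_iff_ne_zero.2 ha0)] at h1
  exact absurd (congrArg Zsqrtd.re h1) (by simp)

lemma chi2_sq (p : ℕ) [hp : Fact p.Prime] : chi2 p ^ 2 = 1 := by
  refine MulChar.ext (fun u => ?_)
  rw [MulChar.pow_apply_coe, chi2_apply, MulChar.one_apply_coe]
  have := quadraticChar_sq_one (F := ZMod p) u.ne_zero
  rw [← Int.cast_pow, this]; simp

lemma chi2_inv (p : ℕ) [hp : Fact p.Prime] : (chi2 p)⁻¹ = chi2 p := by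
  have := chi2_sq p
  rw [pow_two] at this
  exact (eq_inv_of_mul_eq_one_left this).symm

lemma jacobi_norm {p : ℕ} [hp : Fact p.Prime] (h1 : p % 4 = 1) (ψ : MulChar (ZMod p) GI)
    (hψ : ψ ^ 2 = chi2 p) :
    jacobiSum ψ (chi2 p) * star (jacobiSum ψ (chi2 p)) = (p : GI) := by
  have hp2 : p ≠ 2 := by rintro rfl; norm_num at h1
  have hc := chi2_ne_one p hp2
  have hψ1 : ψ ≠ 1 := by rintro rfl; rw [one_pow] at hψ; exact hc hψ.symm
  have hψ2 : ψ * chi2 p ≠ 1 := by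
    intro h
    have h2 : ψ = chi2 p := by
      rw [← chi2_inv p]
      exact eq_inv_of_mul_eq_one_left h
    rw [h2, chi2_sq p] at hψ
    exact hc hψ.symm
  rw [← jacobi_star]
  have hinj := GaussianInt.toComplex_injective
  apply hinj
  rw [map_mul]
  have hr : ringChar ℂ ≠ ringChar (ZMod p) := by
    rw [ZMod.ringChar_zmod_n, ringChar.eq_zero]
    exact (hp.out.ne_zero).symm
  have key := jacobiSum_mul_jacobiSum_inv (F := ZMod p) (F' := ℂ) hr
    (χ := ψ.ringHomComp GaussianInt.toComplex) (φ := (chi2 p).ringHomComp GaussianInt.toComplex)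
    ((MulChar.ringHomComp_ne_one_iff hinj).2 hψ1)
    ((MulChar.ringHomComp_ne_one_iff hinj).2 hc)
    (by rw [← MulChar.ringHomComp_mul]; exact (MulChar.ringHomComp_ne_one_iff hinj).2 hψ2)
  rw [MulChar.ringHomComp_inv, MulChar.ringHomComp_inv, jacobiSum_ringHomComp,
    jacobiSum_ringHomComp] at key
  rw [key, ZMod.card]
  simp

/-- 2+2i -/
def m8 : GI := ⟨2, 2⟩

lemma jacobi_congr {p : ℕ} [hp : Fact p.Prime] (h1 : p % 4 = 1) (ψ : MulChar (ZMod p) GI)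
    (hψ : ψ ^ 2 = chi2 p) (hψ4 : ψ ^ 4 = 1) :
    m8 ∣ jacobiSum ψ (chi2 p) + 1 := by
  classical
  have hp2 : p ≠ 2 := by rintro rfl; norm_num at h1
  have hc := chi2_ne_one p hp2
  have hψ1 : ψ ≠ 1 := by rintro rfl; rw [one_pow] at hψ; exact hc hψ.symm
  have hs1 : ∑ x : ZMod p, ψ x = 0 := MulChar.sum_eq_zero_of_ne_one hψ1
  have hs2 : ∑ x : ZMod p, chi2 p x = 0 := MulChar.sum_eq_zero_of_ne_one hc
  have hs3 : ∑ x : ZMod p, chi2 p (1 - x) = 0 := by
    rw [← hs2]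
    exact (Equiv.subLeft (1 : ZMod p)).sum_comp (fun x => chi2 p x)
  have hexp : jacobiSum ψ (chi2 p) = ∑ x : ZMod p, ψ x + ∑ x : ZMod p, chi2 p (1 - x) - p
      + ∑ x : ZMod p, (ψ x - 1) * (chi2 p (1 - x) - 1) := by
    unfold jacobiSum
    have : ∀ x : ZMod p, ψ x * chi2 p (1 - x)
        = ψ x + chi2 p (1 - x) - 1 + (ψ x - 1) * (chi2 p (1 - x) - 1) := by intro x; ring
    rw [Finset.sum_congr rfl (fun x _ => this x), sum_add_distrib, sum_sub_distrib,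
      sum_add_distrib]
    simp [ZMod.card]
  rw [hs1, hs3] at hexp
  -- each term divisible
  have hval : ∀ x : ZMod p, x ≠ 0 → ∃ z : GI, ψ x - 1 = (⟨1, 1⟩ : GI) * z := by
    intro x hx
    obtain ⟨k, _, hk⟩ := MulChar.exists_apply_eq_pow hψ4 gi_i_prim hx
    rw [hk]
    have hd : (gi_i - 1) ∣ gi_i ^ k - 1 := by
      simpa using sub_dvd_pow_sub_pow gi_i 1 k
    obtain ⟨w, hw⟩ := hd
    refine ⟨gi_i * w, ?_⟩
    rw [hw, ← mul_assoc]
    congr 1
  have hval2 : ∀ y : ZMod p, y ≠ 0 → ∃ z : GI, chi2 p y - 1 = 2 * z := by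
    intro y hy
    rw [chi2_apply]
    rcases quadraticChar_dichotomy hy with h | h
    · exact ⟨0, by rw [h]; simp⟩
    · exact ⟨-1, by rw [h]; push_cast; ring⟩
  have hterm : ∀ x : ZMod p, m8 ∣ (ψ x - 1) * (chi2 p (1 - x) - 1) := by
    intro x
    by_cases hx : x = 0
    · subst hx; rw [sub_zero, map_one]; simp
    by_cases hx1 : x = 1
    · subst hx1; rw [map_one]; simp
    obtain ⟨z, hz⟩ := hval x hx
    obtain ⟨w, hw⟩ := hval2 (1 - x) (sub_ne_zero.2 (Ne.symm hx1))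
    rw [hz, hw]
    refine ⟨z * w, ?_⟩
    have : m8 = (⟨1, 1⟩ : GI) * 2 := by decide
    rw [this]; ring
  have hsum : m8 ∣ ∑ x : ZMod p, (ψ x - 1) * (chi2 p (1 - x) - 1) :=
    Finset.dvd_sum (fun x _ => hterm x)
  have hp4 : m8 ∣ ((1 : GI) - (p : GI)) := by
    obtain ⟨k, hk⟩ : ∃ k : ℕ, p = 4 * k + 1 := ⟨p / 4, by omega⟩
    refine ⟨(⟨-1, 1⟩ : GI) * (k : GI), ?_⟩
    have h4 : m8 * (⟨-1, 1⟩ : GI) = -4 := by decide
    rw [← mul_assoc, h4, hk]; push_cast; ring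
  rw [hexp]
  have : (0 : GI) + 0 - (p : GI) + ∑ x : ZMod p, (ψ x - 1) * (chi2 p (1 - x) - 1) + 1
    = (1 - (p : GI)) + ∑ x : ZMod p, (ψ x - 1) * (chi2 p (1 - x) - 1) := by ring
  rw [this]
  exact dvd_add hp4 hsum

end Pool.Agent.H5
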