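import Mathlib
import Pool.Agent.H5.Jacobi

set_option autoImplicit false

namespace Pool.Agent.H5

open Finset

lemma sum_char_eq {p : ℕ} [hp : Fact p.Prime] (h1 : p % 4 = 1) (ψ : MulChar (ZMod p) GI)
    (hψ : ψ ^ 2 = chi2 p) (hψ4 : ψ ^ 4 = 1) :
    ∑ u : ZMod p, chi2 p (u ^ 3 - u) = jacobiSum ψ (chi2 p) + star (jacobiSum ψ (chi2 p)) := by
  classical
  have hchar : ringChar (ZMod p) ≠ 2 := by
    rw [ZMod.ringChar_zmod_n]; rintro rfl; norm_num at h1
  have hneg : chi2 p (-1) = 1 := by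
    rw [chi2_apply, quadraticChar_neg_one hchar, ZMod.card, ZMod.χ₄_nat_one_mod_four h1]; simp
  have hsub : ∀ v : ZMod p, chi2 p (v - 1) = chi2 p (1 - v) := by
    intro v
    have : v - 1 = (-1) * (1 - v) := by ring
    rw [this, map_mul, hneg, one_mul]
  have hu : ∀ u : ZMod p, chi2 p (u ^ 3 - u) = ψ (u ^ 2) * chi2 p (1 - u ^ 2) := by
    intro u
    have : u ^ 3 - u = u * (u ^ 2 - 1) := by ring
    rw [this, map_mul, hsub]
    congr 1
    rw [← hψ, MulChar.pow_apply' ψ (by norm_num : (2:ℕ) ≠ 0), map_pow]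
  have hinv : ψ * chi2 p = ψ⁻¹ := by
    rw [← hψ, ← pow_succ']
    apply eq_inv_of_mul_eq_one_left
    rw [← pow_succ]; exact hψ4
  calc ∑ u : ZMod p, chi2 p (u ^ 3 - u)
      = ∑ u : ZMod p, ψ (u ^ 2) * chi2 p (1 - u ^ 2) := Finset.sum_congr rfl (fun u _ => hu u)
    _ = ∑ v : ZMod p, ∑ u : ZMod p with u ^ 2 = v, ψ (u ^ 2) * chi2 p (1 - u ^ 2) := by
        rw [Finset.sum_fiberwise]
    _ = ∑ v : ZMod p, (chi2 p v + 1) * (ψ v * chi2 p (1 - v)) := by
        refine Finset.sum_congr rfl (fun v _ => ?_)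
        have h2 : ∀ u ∈ Finset.univ.filter (fun u : ZMod p => u ^ 2 = v),
            ψ (u ^ 2) * chi2 p (1 - u ^ 2) = ψ v * chi2 p (1 - v) := by
          intro u hu
          rw [(Finset.mem_filter.1 hu).2]
        rw [Finset.sum_congr rfl h2, Finset.sum_const, nsmul_eq_mul]
        congr 1
        have h3 := quadraticChar_card_sqrts hchar v
        rw [chi2_apply]
        have h4 : (Finset.univ.filter (fun u : ZMod p => u ^ 2 = v)) = {x | x ^ 2 = v}.toFinset := by
          ext u; simp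
        rw [h4]
        have h5 : ((#{x | x ^ 2 = v}.toFinset : ℤ) : GI) = ((quadraticChar (ZMod p) v + 1 : ℤ) : GI) := by
          rw [h3]
        push_cast at h5
        exact h5
    _ = ∑ v : ZMod p, (ψ⁻¹ v * (chi2 p)⁻¹ (1 - v)) + ∑ v : ZMod p, ψ v * chi2 p (1 - v) := by
        rw [← Finset.sum_add_distrib]
        refine Finset.sum_congr rfl (fun v _ => ?_)
        rw [← hinv, MulChar.mul_apply, chi2_inv]; ring
    _ = jacobiSum ψ (chi2 p) + star (jacobiSum ψ (chi2 p)) := by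
        rw [← jacobi_star]; unfold jacobiSum; ring

/-- a Gaussian integer `A+Bi` is primary: `B` even, `A + B = 1 mod 4`. -/
def Primary (z : GI) : Prop := z.im % 2 = 0 ∧ (z.re + z.im) % 4 = 1

lemma primary_of_dvd {z : GI} (h : m8 ∣ z - 1) : Primary z := by
  obtain ⟨w, hw⟩ := h
  have h1 := congrArg Zsqrtd.re hw
  have h2 := congrArg Zsqrtd.im hw
  simp [m8] at h1 h2
  unfold Primary
  omega

/-- The trace of Frobenius for `y^2 = x^3 - d^2 x` at `p = 1 mod 4`. -/
theorem trace_one_mod_four (p : ℕ) [hp : Fact p.Prime] (h1 : p % 4 = 1) :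
    ∃ π : GI, Primary π ∧ π.re ^ 2 + π.im ^ 2 = p ∧
      ∀ d : ℤ, (p : ℤ) - cnt (-d ^ 2) 0 p = legendreSym p d * (2 * π.re) := by
  classical
  have hp2 : p ≠ 2 := by rintro rfl; norm_num at h1
  obtain ⟨ψ, hψ, hψ4⟩ := exists_quartic p h1
  set J := jacobiSum ψ (chi2 p) with hJ
  refine ⟨-J, ?_, ?_, ?_⟩
  · apply primary_of_dvd
    have := jacobi_congr h1 ψ hψ hψ4
    rw [← hJ] at this
    have h2 : -J - 1 = -(J + 1) := by ring
    rw [h2]; exact (dvd_neg).2 this
  · have h2 := jacobi_norm h1 ψ hψ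
    rw [← hJ] at h2
    have h3 := congrArg Zsqrtd.re h2
    simp at h3
    simp
    linarith [h3]
  · intro d
    have h2 : ∑ u : ZMod p, chi2 p (u ^ 3 - u) = ((2 * J.re : ℤ) : GI) := by
      rw [sum_char_eq h1 ψ hψ hψ4, ← hJ]
      ext
      · simp; ring
      · simp
    have h3 : ∑ u : ZMod p, quadraticChar (ZMod p) (u ^ 3 - u) = 2 * J.re := by
      have : ((∑ u : ZMod p, quadraticChar (ZMod p) (u ^ 3 - u) : ℤ) : GI) = ((2 * J.re : ℤ) : GI) := by
        rw [← h2]; push_cast; rfl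
      exact_mod_cast this
    rw [cnt_eq _ _ p hp2]
    have h4 : ∑ x : ZMod p, quadraticChar (ZMod p) (x ^ 3 + ((-d ^ 2 : ℤ) : ZMod p) * x + ((0 : ℤ) : ZMod p))
        = legendreSym p d * ∑ u : ZMod p, quadraticChar (ZMod p) (u ^ 3 - u) := by
      by_cases hd : (d : ZMod p) = 0
      · have h5 : legendreSym p d = 0 := by
          unfold legendreSym; rw [hd]; simp
        rw [h5, zero_mul]
        have h6 : ∀ x : ZMod p, quadraticChar (ZMod p) (x ^ 3 + ((-d ^ 2 : ℤ) : ZMod p) * x + ((0 : ℤ) : ZMod p))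
            = quadraticChar (ZMod p) x := by
          intro x
          push_cast
          rw [hd]
          have : x ^ 3 + -(0:ZMod p) ^ 2 * x + 0 = x ^ 2 * x := by ring
          rw [this, map_mul]
          by_cases hx : x = 0
          · subst hx; simp
          · rw [quadraticChar_sq_one' hx, one_mul]
        rw [Finset.sum_congr rfl (fun x _ => h6 x)]
        apply quadraticChar_sum_zero
        rw [ZMod.ringChar_zmod_n]; exact hp2
      · have h7 : ∑ x : ZMod p, quadraticChar (ZMod p) (x ^ 3 + ((-d ^ 2 : ℤ) : ZMod p) * x + ((0 : ℤ) : ZMod p))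
          = ∑ u : ZMod p, quadraticChar (ZMod p) (((d : ZMod p) * u) ^ 3 + ((-d ^ 2 : ℤ) : ZMod p) * ((d : ZMod p) * u) + ((0 : ℤ) : ZMod p)) := by
          symm
          exact Equiv.sum_comp (Equiv.mulLeft₀ (d : ZMod p) hd)
            (fun x => quadraticChar (ZMod p) (x ^ 3 + ((-d ^ 2 : ℤ) : ZMod p) * x + ((0 : ℤ) : ZMod p)))
        rw [h7, Finset.mul_sum]
        refine Finset.sum_congr rfl (fun u _ => ?_)
        push_cast
        have : ((d : ZMod p) * u) ^ 3 + -(d : ZMod p) ^ 2 * ((d : ZMod p) * u) + 0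
            = (d : ZMod p) ^ 2 * (d : ZMod p) * (u ^ 3 - u) := by ring
        rw [this, map_mul, map_mul, quadraticChar_sq_one' hd, one_mul]
        rfl
    rw [h4, h3]
    simp

theorem trace_three_mod_four (p : ℕ) [hp : Fact p.Prime] (h3 : p % 4 = 3) (d : ℤ) :
    (p : ℤ) - cnt (-d ^ 2) 0 p = 0 := by
  have hp2 : p ≠ 2 := by rintro rfl; norm_num at h3
  rw [cnt_eq _ _ p hp2]
  have hchar : ringChar (ZMod p) ≠ 2 := by
    rw [ZMod.ringChar_zmod_n]; exact hp2
  have hneg : quadraticChar (ZMod p) (-1) = -1 := by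
    rw [quadraticChar_neg_one hchar, ZMod.card, ZMod.χ₄_nat_three_mod_four h3]
  set f : ZMod p → ℤ := fun x => quadraticChar (ZMod p) (x ^ 3 + ((-d ^ 2 : ℤ) : ZMod p) * x + ((0 : ℤ) : ZMod p)) with hf
  have h1 : ∑ x : ZMod p, f x = ∑ x : ZMod p, f (-x) := by
    exact (Equiv.sum_comp (Equiv.neg (ZMod p)) f).symm
  have h2 : ∀ x, f (-x) = - f x := by
    intro x
    rw [hf]
    simp only
    have : (-x) ^ 3 + ((-d ^ 2 : ℤ) : ZMod p) * (-x) + ((0 : ℤ) : ZMod p)
      = (-1) * (x ^ 3 + ((-d ^ 2 : ℤ) : ZMod p) * x + ((0 : ℤ) : ZMod p)) := by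
      push_cast; ring
    rw [this, map_mul, hneg]; ring
  rw [Finset.sum_congr rfl (fun x _ => h2 x), Finset.sum_neg_distrib] at h1
  have h4 : ∑ x : ZMod p, f x = 0 := by linarith
  rw [h4]; ring

end Pool.Agent.H5
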