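import Mathlib
import Pool.Agent.H5.Trace

set_option autoImplicit false

namespace Pool.Agent.H5

open Finset

lemma primary_iff (z : GI) : Primary z ↔
    (((z.im : ZMod 4) = 0 ∨ (z.im : ZMod 4) = 2) ∧ (z.re : ZMod 4) + (z.im : ZMod 4) = 1) := by
  unfold Primary
  have h0 : ((z.im : ZMod 4) = 0) ↔ (4 : ℤ) ∣ z.im := by
    exact_mod_cast ZMod.intCast_zmod_eq_zero_iff_dvd z.im 4
  have h2 : ((z.im : ZMod 4) = 2) ↔ (4 : ℤ) ∣ z.im - 2 := by
    rw [← sub_eq_zero]
    have := ZMod.intCast_zmod_eq_zero_iff_dvd (z.im - 2) 4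
    push_cast at this
    exact this
  have h1 : ((z.re : ZMod 4) + (z.im : ZMod 4) = 1) ↔ (4 : ℤ) ∣ z.re + z.im - 1 := by
    rw [← sub_eq_zero]
    have := ZMod.intCast_zmod_eq_zero_iff_dvd (z.re + z.im - 1) 4
    push_cast at this
    exact this
  rw [h0, h2, h1]
  omega

lemma primary_one : Primary (1 : GI) := by unfold Primary; decide

lemma primary_mul {z w : GI} (hz : Primary z) (hw : Primary w) : Primary (z * w) := by
  rw [primary_iff] at *
  simp only [Zsqrtd.re_mul, Zsqrtd.im_mul]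
  push_cast
  generalize (z.re : ZMod 4) = a at *
  generalize (z.im : ZMod 4) = b at *
  generalize (w.re : ZMod 4) = c at *
  generalize (w.im : ZMod 4) = e at *
  revert a b c e
  decide

lemma primary_of_mul {z w : GI} (hz : Primary z) (hzw : Primary (z * w)) : Primary w := by
  rw [primary_iff] at *
  simp only [Zsqrtd.re_mul, Zsqrtd.im_mul] at hzw
  push_cast at hzw
  generalize (z.re : ZMod 4) = a at *
  generalize (z.im : ZMod 4) = b at *
  generalize (w.re : ZMod 4) = c at *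
  generalize (w.im : ZMod 4) = e at *
  revert a b c e
  decide

lemma primary_star {z : GI} (hz : Primary z) : Primary (star z) := by
  unfold Primary at *
  simp only [Zsqrtd.re_star, Zsqrtd.im_star]
  omega

lemma norm_def (z : GI) : z.norm = z.re ^ 2 + z.im ^ 2 := by
  rw [Zsqrtd.norm]; ring

lemma primary_norm_odd {z : GI} (hz : Primary z) : z.norm % 2 = 1 := by
  unfold Primary at hz
  rw [norm_def]
  obtain ⟨a, ha⟩ : ∃ a, z.re = 2 * a + 1 := ⟨z.re / 2, by omega⟩
  obtain ⟨b, hb⟩ : ∃ b, z.im = 2 * b := ⟨z.im / 2, by omega⟩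
  rw [ha, hb]
  have : (2 * a + 1) ^ 2 + (2 * b) ^ 2 = 2 * (2 * a ^ 2 + 2 * a + 2 * b ^ 2) + 1 := by ring
  omega

lemma exists_unit_primary {z : GI} (hz : z.norm % 2 = 1) : ∃ u : GI, IsUnit u ∧ Primary (u * z) := by
  have hz' : ((z.re : ZMod 4)) ^ 2 + ((z.im : ZMod 4)) ^ 2 = 1 ∨
      ((z.re : ZMod 4)) ^ 2 + ((z.im : ZMod 4)) ^ 2 = 3 := by
    rw [norm_def] at hz
    have : ((z.re : ZMod 4)) ^ 2 + ((z.im : ZMod 4)) ^ 2 = ((z.re ^ 2 + z.im ^ 2 : ℤ) : ZMod 4) := by
      push_cast; ring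
    rw [this]
    generalize z.re ^ 2 + z.im ^ 2 = t at hz
    have h4 : t % 4 = 1 ∨ t % 4 = 3 := by omega
    rcases h4 with h | h
    · left
      have : (t : ZMod 4) = ((1 : ℤ) : ZMod 4) := by
        rw [ZMod.intCast_eq_intCast_iff]; exact h
      simpa using this
    · right
      have : (t : ZMod 4) = ((3 : ℤ) : ZMod 4) := by
        rw [ZMod.intCast_eq_intCast_iff]; exact h
      simpa using this
  have hcase : Primary (1 * z) ∨ Primary ((-1) * z) ∨ Primary ((⟨0, 1⟩ : GI) * z) ∨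
      Primary ((⟨0, -1⟩ : GI) * z) := by
    rw [primary_iff, primary_iff, primary_iff, primary_iff]
    simp only [Zsqrtd.re_mul, Zsqrtd.im_mul, Zsqrtd.re_one, Zsqrtd.im_one, Zsqrtd.re_neg, Zsqrtd.im_neg]
    push_cast
    generalize (z.re : ZMod 4) = a at *
    generalize (z.im : ZMod 4) = b at *
    revert a b
    decide
  have hu1 : IsUnit (⟨0, 1⟩ : GI) := by
    refine IsUnit.of_mul_eq_one (⟨0, -1⟩ : GI) ?_
    decide
  have hu2 : IsUnit (⟨0, -1⟩ : GI) := by
    refine IsUnit.of_mul_eq_one (⟨0, 1⟩ : GI) ?_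
    decide
  rcases hcase with h | h | h | h
  · exact ⟨1, isUnit_one, h⟩
  · exact ⟨-1, isUnit_one.neg, h⟩
  · exact ⟨_, hu1, h⟩
  · exact ⟨_, hu2, h⟩

lemma primary_unit {u : GI} (hu : IsUnit u) (hp : Primary u) : u = 1 := by
  have h1 := Zsqrtd.norm_eq_one_iff.2 hu
  have h2 : u.norm = 1 := by
    have h3 := GaussianInt.norm_nonneg u
    omega
  rw [norm_def] at h2
  unfold Primary at hp
  have hb : u.im = 0 := by
    have : u.im ^ 2 ≤ 1 := by nlinarith [sq_nonneg u.re]
    have h4 : u.im ≤ 1 := by nlinarith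
    have h5 : -1 ≤ u.im := by nlinarith
    omega
  rw [hb] at h2
  have ha : u.re = 1 := by
    have h6 : (u.re - 1) * (u.re + 1) = 0 := by linarith [h2, sq (u.re)]
    rcases mul_eq_zero.1 h6 with h | h
    · omega
    · omega
  ext
  · simpa using ha
  · simpa using hb

end Pool.Agent.H5
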