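import Mathlib
import Pool.Agent.H5.Primary

set_option autoImplicit false

namespace Pool.Agent.H5

open Finset

/-- primary Gaussian integers of norm `n` -/
def PS (n : ℕ) : Set GI := {z | Primary z ∧ z.norm = n}

lemma PS_finite (n : ℕ) : (PS n).Finite := by
  have h : (PS n) ⊆ (fun ab : ℤ × ℤ => (⟨ab.1, ab.2⟩ : GI)) ''
      ((Set.Icc (-(n:ℤ)) n) ×ˢ (Set.Icc (-(n:ℤ)) n)) := by
    rintro z ⟨_, hz⟩
    rw [norm_def] at hz
    refine ⟨(z.re, z.im), ⟨?_, ?_⟩, rfl⟩
    · constructor <;> nlinarith [sq_nonneg z.im, sq_nonneg z.re, sq_nonneg (z.re - 1), sq_nonneg (z.re + 1)]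
    · constructor <;> nlinarith [sq_nonneg z.im, sq_nonneg z.re, sq_nonneg (z.im - 1), sq_nonneg (z.im + 1)]
  exact Set.Finite.subset (((Set.finite_Icc _ _).prod (Set.finite_Icc _ _)).image _) h

/-- the finite set of primary Gaussian integers of norm `n` -/
noncomputable def P (n : ℕ) : Finset GI := (PS_finite n).toFinset

lemma mem_P {n : ℕ} {z : GI} : z ∈ P n ↔ Primary z ∧ z.norm = n := by
  unfold P; rw [Set.Finite.mem_toFinset]; rfl

/-- the sum of the primary Gaussian integers of norm `n` -/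
noncomputable def C (n : ℕ) : GI := ∑ z ∈ P n, z

lemma C_star (n : ℕ) : star (C n) = C n := by
  unfold C
  rw [star_sum]
  refine Finset.sum_bij (fun z _ => star z) ?_ ?_ ?_ ?_
  · intro z hz
    rw [mem_P] at *
    exact ⟨primary_star hz.1, by rw [Zsqrtd.norm_conj]; exact hz.2⟩
  · intro a _ b _ h; exact star_injective h
  · intro z hz
    rw [mem_P] at hz
    exact ⟨star z, by rw [mem_P]; exact ⟨primary_star hz.1, by rw [Zsqrtd.norm_conj]; exact hz.2⟩, star_star z⟩
  · intro z _; rfl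

/-- the (integer) coefficient: sum of the real parts -/
noncomputable def c (n : ℕ) : ℤ := (C n).re

lemma C_eq (n : ℕ) : C n = (c n : GI) := by
  have h := congrArg Zsqrtd.im (C_star n)
  rw [Zsqrtd.im_star] at h
  ext
  · simp [c]
  · simp; omega

lemma c_eq_sum (n : ℕ) : c n = ∑ z ∈ P n, z.re := by
  unfold c C
  induction (P n) using Finset.induction_on with
  | empty => simp
  | insert a s ha ih => rw [Finset.sum_insert ha, Finset.sum_insert ha, Zsqrtd.re_add, ih]

lemma norm_cast_mul (z : GI) : z * star z = ((z.norm : ℤ) : GI) := (Zsqrtd.norm_eq_mul_conj z).symm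

lemma coprime_of_norm {m n : ℕ} (hmn : m.Coprime n) {z w : GI} (hz : z.norm = m) (hw : w.norm = n) :
    IsCoprime z w := by
  have h : IsCoprime (m : ℤ) (n : ℤ) := Nat.isCoprime_iff_coprime.2 hmn
  obtain ⟨a, b, hab⟩ := h
  refine ⟨(a : GI) * star z, (b : GI) * star w, ?_⟩
  have h1 : (a : GI) * star z * z = ((a * m : ℤ) : GI) := by
    have := norm_cast_mul z
    rw [hz] at this
    push_cast at *
    rw [← this]; ring
  have h2 : (b : GI) * star w * w = ((b * n : ℤ) : GI) := by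
    have := norm_cast_mul w
    rw [hw] at this
    push_cast at *
    rw [← this]; ring
  rw [h1, h2, ← Int.cast_add, hab]; simp

lemma eq_of_dvd_primary {z w : GI} {m : ℕ} (hm : m ≠ 0) (hz : Primary z) (hw : Primary w) (hzn : z.norm = m)
    (hwn : w.norm = m) (h : z ∣ w) : z = w := by
  obtain ⟨t, ht⟩ := h
  have h1 : Primary t := primary_of_mul hz (ht ▸ hw)
  have h2 : t.norm = 1 := by
    have := congrArg Zsqrtd.norm ht
    rw [Zsqrtd.norm_mul, hzn, hwn] at this
    have hm' : (m : ℤ) ≠ 0 := by exact_mod_cast hm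
    exact mul_left_cancel₀ hm' (by linarith)
  have h3 : IsUnit t := Zsqrtd.norm_eq_one_iff.1 (by rw [h2]; rfl)
  rw [ht, primary_unit h3 h1, mul_one]

lemma exists_factor {m n : ℕ} (hm : m ≠ 0) (hmn : m.Coprime n) {v : GI} (hv : Primary v)
    (hvn : v.norm = (m * n : ℕ)) : ∃ z ∈ P m, ∃ w ∈ P n, z * w = v := by
  classical
  obtain ⟨g, hg⟩ : ∃ g : GI, g = EuclideanDomain.gcd v (m : GI) := ⟨_, rfl⟩
  have hgv : g ∣ v := hg ▸ EuclideanDomain.gcd_dvd_left _ _
  have hgm : g ∣ (m : GI) := hg ▸ EuclideanDomain.gcd_dvd_right _ _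
  obtain ⟨x, y, hxy⟩ : ∃ x y : GI, g = v * x + m * y := by
    refine ⟨EuclideanDomain.gcdA v (m : GI), EuclideanDomain.gcdB v (m : GI), ?_⟩
    rw [hg]; exact EuclideanDomain.gcd_eq_gcd_ab _ _
  -- m divides norm g
  have h1 : (m : ℤ) ∣ g.norm := by
    have h2 : (m : GI) ∣ ((g.norm : ℤ) : GI) := by
      rw [← norm_cast_mul g]
      have h3 := norm_cast_mul v
      rw [hvn] at h3
      push_cast at h3
      have : g * star g = v * star v * (x * star x) + m * (y * star v * star x + v * x * star y + m * y * star y) := by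
        rw [hxy]
        simp only [star_add, star_mul', star_natCast]
        ring
      rw [this, h3]
      refine dvd_add ⟨n * (x * star x), by ring⟩ ⟨_, rfl⟩
    have h4 : ((m : ℤ) : GI) ∣ ((g.norm : ℤ) : GI) := by exact_mod_cast h2
    exact (Zsqrtd.intCast_dvd_intCast _ _).1 h4
  have h5 : g.norm ∣ (m * n : ℕ) := by
    obtain ⟨t, ht⟩ := hgv
    rw [← hvn, ht, Zsqrtd.norm_mul]; exact ⟨_, rfl⟩
  have h6 : g.norm ∣ (m * m : ℕ) := by
    obtain ⟨t, ht⟩ := hgm
    have : (m : GI).norm = (m * m : ℕ) := by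
      rw [Zsqrtd.norm_natCast]; push_cast; ring
    rw [← this, ht, Zsqrtd.norm_mul]; exact ⟨_, rfl⟩
  have h7 : g.norm = m := by
    have h8 : g.norm ∣ m := by
      have h9 : IsCoprime (m : ℤ) (n : ℤ) := Nat.isCoprime_iff_coprime.2 hmn
      obtain ⟨a, b, hab⟩ := h9
      have : (m : ℤ) = a * (m * m : ℕ) + b * (m * n : ℕ) := by
        push_cast
        calc (m : ℤ) = m * (a * m + b * n) := by rw [hab]; ring
          _ = _ := by ring
      rw [this]
      exact dvd_add (h6.mul_left a) (h5.mul_left b)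
    exact Int.dvd_antisymm (GaussianInt.norm_nonneg g) (by positivity) h8 h1
  obtain ⟨w0, hw0⟩ := hgv
  have hgodd : g.norm % 2 = 1 := by
    have h10 := primary_norm_odd hv
    rw [hw0, Zsqrtd.norm_mul] at h10
    rcases Int.emod_two_eq_zero_or_one g.norm with h | h
    · rw [Int.mul_emod, h] at h10; simp at h10
    · exact h
  obtain ⟨u, hu, hpu⟩ := exists_unit_primary hgodd
  have huu := gi_unit_mul_star hu
  have hun : u.norm = 1 := by
    have h1 := Zsqrtd.norm_eq_one_iff.2 hu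
    have h3 := GaussianInt.norm_nonneg u
    omega
  refine ⟨u * g, ?_, star u * w0, ?_, ?_⟩
  · rw [mem_P]; refine ⟨hpu, ?_⟩
    rw [Zsqrtd.norm_mul, hun, h7, one_mul]
  · rw [mem_P]
    have hmul : (u * g) * (star u * w0) = v := by
      rw [hw0]
      calc (u * g) * (star u * w0) = (u * star u) * (g * w0) := by ring
        _ = g * w0 := by rw [huu, one_mul]
    refine ⟨primary_of_mul hpu (hmul ▸ hv), ?_⟩
    have h11 := congrArg Zsqrtd.norm hmul
    rw [Zsqrtd.norm_mul, Zsqrtd.norm_mul, hun, h7, hvn, one_mul] at h11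
    have hm' : (m : ℤ) ≠ 0 := by exact_mod_cast hm
    push_cast at h11
    exact mul_left_cancel₀ hm' h11
  · rw [hw0]
    calc (u * g) * (star u * w0) = (u * star u) * (g * w0) := by ring
      _ = g * w0 := by rw [huu, one_mul]

theorem C_mul {m n : ℕ} (hmn : m.Coprime n) (hm : m ≠ 0) : C (m * n) = C m * C n := by
  classical
  unfold C
  rw [Finset.sum_mul_sum, ← Finset.sum_product']
  symm
  refine Finset.sum_bij (fun zw _ => zw.1 * zw.2) ?_ ?_ ?_ ?_
  · rintro ⟨z, w⟩ h
    rw [Finset.mem_product, mem_P, mem_P] at h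
    rw [mem_P]
    refine ⟨primary_mul h.1.1 h.2.1, ?_⟩
    simp only [Zsqrtd.norm_mul]
    rw [h.1.2, h.2.2]; push_cast; ring
  · rintro ⟨z, w⟩ h ⟨z', w'⟩ h' heq
    rw [Finset.mem_product, mem_P, mem_P] at h h'
    simp only at h h' heq
    have h1 : IsCoprime z w' := coprime_of_norm hmn h.1.2 h'.2.2
    have h2 : z ∣ z' := h1.dvd_of_dvd_mul_right (heq ▸ ⟨w, rfl⟩)
    have h3 : z = z' := eq_of_dvd_primary hm h.1.1 h'.1.1 h.1.2 h'.1.2 h2
    have hz0 : z ≠ 0 := by
      rintro rfl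
      have := h.1.2
      rw [Zsqrtd.norm_zero] at this
      exact hm (by exact_mod_cast this.symm)
    rw [← h3] at heq
    have h4 : w = w' := mul_left_cancel₀ hz0 heq
    rw [h3, h4]
  · intro v hv
    rw [mem_P] at hv
    obtain ⟨z, hz, w, hw, hzw⟩ := exists_factor hm hmn hv.1 hv.2
    exact ⟨(z, w), Finset.mem_product.2 ⟨hz, hw⟩, hzw⟩
  · rintro ⟨z, w⟩ _; rfl

end Pool.Agent.H5
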