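import Mathlib
import Pool.Agent.H5.Coeff

set_option autoImplicit false

namespace Pool.Agent.H5

open Finset

lemma P_zero_of_even {n : ℕ} (hn : n % 2 = 0) : P n = ∅ := by
  rw [Finset.eq_empty_iff_forall_notMem]
  intro z hz
  rw [mem_P] at hz
  have := primary_norm_odd hz.1
  rw [hz.2] at this
  omega

lemma C_of_even {n : ℕ} (hn : n % 2 = 0) : C n = 0 := by
  unfold C; rw [P_zero_of_even hn]; simp

lemma C_one : C 1 = 1 := by
  have : P 1 = {1} := by
    ext z
    rw [mem_P, Finset.mem_singleton]
    constructor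
    · rintro ⟨h1, h2⟩
      have h3 : IsUnit z := Zsqrtd.norm_eq_one_iff.1 (by rw [h2]; rfl)
      exact primary_unit h3 h1
    · rintro rfl
      exact ⟨primary_one, by simp⟩
  unfold C; rw [this]; simp

/-- a primary element of prime norm is prime -/
lemma prime_of_norm_prime {z : GI} {p : ℕ} (hp : p.Prime) (hz : z.norm = p) : Prime z := by
  apply Irreducible.prime
  rw [irreducible_iff]
  constructor
  · intro hu
    have h1 := Zsqrtd.norm_eq_one_iff.2 hu
    rw [hz] at h1
    simp at h1
    exact hp.one_lt.ne' h1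
  · intro a b hab
    have h2 : a.norm * b.norm = p := by rw [← Zsqrtd.norm_mul, ← hab, hz]
    have h3 : a.norm.natAbs * b.norm.natAbs = p := by
      rw [← Int.natAbs_mul, h2]; simp
    rcases Nat.Prime.eq_one_or_self_of_dvd hp a.norm.natAbs ⟨_, h3.symm⟩ with h | h
    · left; exact Zsqrtd.norm_eq_one_iff.1 h
    · right
      rw [h] at h3
      have : b.norm.natAbs = 1 := by
        have hp0 := hp.pos
        nlinarith [Nat.eq_of_mul_eq_mul_left hp0 (h3.trans (mul_one p).symm)]
      exact Zsqrtd.norm_eq_one_iff.1 this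

/-- inert primes: recursion -/
lemma C_inert (p : ℕ) [hp : Fact p.Prime] (h3 : p % 4 = 3) (k : ℕ) :
    C (p ^ (k + 2)) = -(p : GI) * C (p ^ k) := by
  have hprime := GaussianInt.prime_of_nat_prime_of_mod_four_eq_three p h3
  have hprim : Primary (-(p : GI)) := by
    unfold Primary; simp; omega
  unfold C
  rw [Finset.mul_sum]
  symm
  refine Finset.sum_bij (fun z _ => -(p : GI) * z) ?_ ?_ ?_ ?_
  · intro z hz
    rw [mem_P] at *
    refine ⟨primary_mul hprim hz.1, ?_⟩
    rw [Zsqrtd.norm_mul, hz.2, Zsqrtd.norm_neg, Zsqrtd.norm_natCast]; push_cast; ring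
  · intro a _ b _ h
    exact mul_left_cancel₀ (neg_ne_zero.2 hprime.ne_zero) h
  · intro v hv
    rw [mem_P] at hv
    have h4 : (p : GI) ∣ v * star v := by
      rw [norm_cast_mul, hv.2]
      push_cast
      exact dvd_pow_self _ (by omega)
    have h5 : (p : GI) ∣ v := by
      rcases hprime.dvd_or_dvd h4 with h | h
      · exact h
      · obtain ⟨t, ht⟩ := h
        refine ⟨star t, ?_⟩
        rw [← star_star v, ht]; simp [star_mul']
    obtain ⟨t, ht⟩ := h5
    refine ⟨-t, ?_, by rw [ht]; ring⟩
    rw [mem_P]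
    have h6 : -(p : GI) * (-t) = v := by rw [ht]; ring
    refine ⟨primary_of_mul hprim (h6 ▸ hv.1), ?_⟩
    have h7 := congrArg Zsqrtd.norm ht
    rw [Zsqrtd.norm_mul, hv.2, Zsqrtd.norm_natCast] at h7
    rw [Zsqrtd.norm_neg]
    have hp0 : (p : ℤ) * p ≠ 0 := by
      have := hp.out.ne_zero
      positivity
    push_cast at *
    apply mul_left_cancel₀ hp0
    rw [← h7]; ring
  · intro z _; rfl


lemma C_inert_one (p : ℕ) (h3 : p % 4 = 3) : C p = 0 := by
  have : P p = ∅ := by
    rw [Finset.eq_empty_iff_forall_notMem]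
    intro z hz
    rw [mem_P] at hz
    have h1 := hz.2
    rw [norm_def] at h1
    obtain ⟨a, ha⟩ : ∃ a, z.re = 2 * a + 1 := ⟨z.re / 2, by have := hz.1; unfold Primary at this; omega⟩
    obtain ⟨b, hb⟩ : ∃ b, z.im = 2 * b := ⟨z.im / 2, by have := hz.1; unfold Primary at this; omega⟩
    rw [ha, hb] at h1
    have h2 : (2 * a + 1) ^ 2 + (2 * b) ^ 2 = 4 * (a ^ 2 + a + b ^ 2) + 1 := by ring
    omega
  unfold C; rw [this]; simp

/-- split primes: `P p = {π, star π}` and the recursion. -/
lemma C_split (p : ℕ) [hp : Fact p.Prime] {π : GI} (hπ : Primary π) (hn : π.norm = p) :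
    C p = π + star π ∧ ∀ k, C (p ^ (k + 2)) = (π + star π) * C (p ^ (k + 1)) - (p : GI) * C (p ^ k) := by
  classical
  have hprime : Prime π := prime_of_norm_prime hp.out hn
  have hns : (star π).norm = p := by rw [Zsqrtd.norm_conj]; exact hn
  have hprime' : Prime (star π) := prime_of_norm_prime hp.out hns
  have hπs : Primary (star π) := primary_star hπ
  have hp0 : (p : ℤ) ≠ 0 := by exact_mod_cast hp.out.ne_zero
  have hpn : p ≠ 0 := hp.out.ne_zero
  have hpodd : (p : ℤ) % 2 = 1 := by
    have := primary_norm_odd hπ; rwa [hn] at this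
  have hne : π ≠ star π := by
    intro h
    have h1 := congrArg Zsqrtd.im h
    rw [Zsqrtd.im_star] at h1
    have h2 : π.im = 0 := by omega
    rw [norm_def, h2] at hn
    have h3 : (π.re.natAbs) * (π.re.natAbs) = p := by
      zify; rw [abs_mul_abs_self]; rw [← hn]; ring
    have := hp.out
    rw [← h3] at this
    have hne1 : π.re.natAbs ≠ 1 := by
      intro h5
      rw [h5] at this
      exact Nat.not_prime_one (by simpa using this)
    exact Nat.not_prime_mul hne1 hne1 this
  have hcop : ¬ π ∣ star π := by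
    intro h
    exact hne (eq_of_dvd_primary hpn hπ hπs hn hns h)
  have hpp : (p : GI) = π * star π := by
    rw [norm_cast_mul, hn]; simp
  -- the union decomposition
  have hunion : ∀ k, P (p ^ (k + 1)) = (P (p ^ k)).image (fun z => π * z) ∪
      (P (p ^ k)).image (fun z => star π * z) := by
    intro k
    ext v
    rw [Finset.mem_union, Finset.mem_image, Finset.mem_image]
    constructor
    · intro hv
      rw [mem_P] at hv
      have h4 : π ∣ v * star v := by
        rw [norm_cast_mul, hv.2]
        push_cast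
        rw [pow_succ, hpp]
        exact ⟨(π * star π) ^ k * star π, by ring⟩
      rcases hprime.dvd_or_dvd h4 with h | h
      · left
        obtain ⟨t, ht⟩ := h
        refine ⟨t, ?_, ht.symm⟩
        rw [mem_P]
        refine ⟨primary_of_mul hπ (ht ▸ hv.1), ?_⟩
        have h7 := congrArg Zsqrtd.norm ht
        rw [Zsqrtd.norm_mul, hv.2, hn] at h7
        apply mul_left_cancel₀ hp0
        rw [← h7]; push_cast; ring
      · right
        obtain ⟨t, ht⟩ := h
        have ht' : v = star π * star t := by
          rw [← star_star v, ht]; simp [star_mul']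
        refine ⟨star t, ?_, ht'.symm⟩
        rw [mem_P]
        refine ⟨primary_of_mul hπs (ht' ▸ hv.1), ?_⟩
        have h7 := congrArg Zsqrtd.norm ht'
        rw [Zsqrtd.norm_mul, hv.2, hns] at h7
        apply mul_left_cancel₀ hp0
        rw [← h7]; push_cast; ring
    · rintro (⟨z, hz, rfl⟩ | ⟨z, hz, rfl⟩)
      · rw [mem_P] at *
        refine ⟨primary_mul hπ hz.1, ?_⟩
        rw [Zsqrtd.norm_mul, hz.2, hn]; push_cast; ring
      · rw [mem_P] at *
        refine ⟨primary_mul hπs hz.1, ?_⟩
        rw [Zsqrtd.norm_mul, hz.2, hns]; push_cast; ring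
  have hinj : ∀ k, Set.InjOn (fun z => π * z) (P (p ^ k) : Set GI) :=
    fun k a _ b _ h => mul_left_cancel₀ hprime.ne_zero h
  have hinj' : ∀ k, Set.InjOn (fun z => star π * z) (P (p ^ k) : Set GI) :=
    fun k a _ b _ h => mul_left_cancel₀ hprime'.ne_zero h
  constructor
  · have h0 := hunion 0
    have hP1 : P 1 = {1} := by
      ext z
      rw [mem_P, Finset.mem_singleton]
      constructor
      · rintro ⟨h1, h2⟩
        have h3 : IsUnit z := Zsqrtd.norm_eq_one_iff.1 (by rw [h2]; rfl)
        exact primary_unit h3 h1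
      · rintro rfl
        exact ⟨primary_one, by simp⟩
    simp only [zero_add, pow_one, pow_zero, hP1, Finset.image_singleton, mul_one] at h0
    unfold C
    rw [h0, Finset.sum_union (by simpa using hne)]
    simp
  · intro k
    have hU := hunion (k + 1)
    have hinter : (P (p ^ (k + 1))).image (fun z => π * z) ∩ (P (p ^ (k + 1))).image (fun z => star π * z)
        = (P (p ^ k)).image (fun z => (p : GI) * z) := by
      ext v
      rw [Finset.mem_inter, Finset.mem_image, Finset.mem_image, Finset.mem_image]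
      constructor
      · rintro ⟨⟨a, ha, hav⟩, ⟨b, hb, hbv⟩⟩
        rw [mem_P] at ha hb
        have h1 : π ∣ star π * b := ⟨a, by rw [hbv, hav]⟩
        rcases hprime.dvd_or_dvd h1 with h | h
        · exact absurd h hcop
        · obtain ⟨t, ht⟩ := h
          refine ⟨t, ?_, ?_⟩
          · rw [mem_P]
            refine ⟨primary_of_mul hπ (ht ▸ hb.1), ?_⟩
            have h7 := congrArg Zsqrtd.norm ht
            rw [Zsqrtd.norm_mul, hb.2, hn] at h7
            apply mul_left_cancel₀ hp0
            rw [← h7]; push_cast; ring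
          · rw [← hbv, ht, hpp]; ring
      · rintro ⟨z, hz, rfl⟩
        rw [mem_P] at hz
        refine ⟨⟨star π * z, ?_, by rw [hpp]; ring⟩, ⟨π * z, ?_, by rw [hpp]; ring⟩⟩
        · rw [mem_P]
          refine ⟨primary_mul hπs hz.1, ?_⟩
          rw [Zsqrtd.norm_mul, hz.2, hns]; push_cast; ring
        · rw [mem_P]
          refine ⟨primary_mul hπ hz.1, ?_⟩
          rw [Zsqrtd.norm_mul, hz.2, hn]; push_cast; ring
    have hsum := Finset.sum_union_inter (s₁ := (P (p ^ (k + 1))).image (fun z => π * z))
      (s₂ := (P (p ^ (k + 1))).image (fun z => star π * z)) (f := fun z => z)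
    rw [hinter, ← hU, Finset.sum_image (hinj (k+1)), Finset.sum_image (hinj' (k+1)),
      Finset.sum_image (fun a _ b _ h => mul_left_cancel₀ (by exact_mod_cast hpn) h),
      ← Finset.mul_sum, ← Finset.mul_sum, ← Finset.mul_sum] at hsum
    unfold C
    linear_combination hsum

end Pool.Agent.H5
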