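import Mathlib
import Pool.Agent.H5.PrimePow

set_option autoImplicit false

namespace Pool.Agent.H5

open Finset

/-- coefficients of the Hecke series attached to `y^2 = x^3 - d^2 x` -/
noncomputable def bd (d : ℤ) (n : ℕ) : ℤ := jacobiSym d n * c n

lemma c_zero : c 0 = 0 := by
  unfold c; rw [C_of_even (by norm_num)]; simp

lemma c_one : c 1 = 1 := by
  unfold c; rw [C_one]; simp

lemma c_mul {m n : ℕ} (hmn : m.Coprime n) (hm : m ≠ 0) : c (m * n) = c m * c n := by
  have h := C_mul hmn hm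
  rw [C_eq, C_eq, C_eq, ← Int.cast_mul] at h
  exact_mod_cast h

lemma bd_mul (d : ℤ) {m n : ℕ} (hmn : m.Coprime n) : bd d (m * n) = bd d m * bd d n := by
  rcases Nat.eq_zero_or_pos m with rfl | hm
  · have : n = 1 := by simpa using hmn
    subst this
    simp [bd, c_zero]
  rcases Nat.eq_zero_or_pos n with rfl | hn
  · have : m = 1 := by simpa using hmn
    subst this
    simp [bd, c_zero]
  have : NeZero m := ⟨hm.ne'⟩
  have : NeZero n := ⟨hn.ne'⟩
  unfold bd
  rw [jacobiSym.mul_right, c_mul hmn hm.ne']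
  ring

lemma abs_c_le (n : ℕ) : |(c n : ℝ)| ≤ ∑ _z ∈ P n, Real.sqrt n := by
  rw [c_eq_sum]
  push_cast
  refine (Finset.abs_sum_le_sum_abs _ _).trans (Finset.sum_le_sum (fun z hz => ?_))
  rw [mem_P] at hz
  apply Real.abs_le_sqrt
  have := hz.2
  rw [norm_def] at this
  have h2 : ((z.re : ℝ)) ^ 2 + ((z.im : ℝ)) ^ 2 = n := by exact_mod_cast this
  nlinarith [sq_nonneg (z.im : ℝ)]

lemma summable_lattice {σ : ℝ} (hσ : 3 / 2 < σ) :
    Summable (fun n : ℕ => |(c n : ℝ)| * (n : ℝ) ^ (-σ)) := by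
  classical
  have hsum := EisensteinSeries.summable_one_div_norm_rpow (k := 2 * σ - 1) (by linarith)
  refine summable_of_sum_le (c := ∑' x : Fin 2 → ℤ, ‖x‖ ^ (-(2 * σ - 1))) (fun n => by positivity) ?_
  intro u
  have hinj : Set.InjOn (fun y : (Σ _ : ℕ, GI) => (![y.2.re, y.2.im] : Fin 2 → ℤ))
      ((u.sigma P : Finset (Σ _ : ℕ, GI)) : Set (Σ _ : ℕ, GI)) := by
    rintro ⟨n, z⟩ hz ⟨m, w⟩ hw h
    rw [Finset.mem_coe, Finset.mem_sigma, mem_P] at hz hw
    simp only at hz hw h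
    have h1 : z = w := by
      ext
      · exact congrFun h 0
      · exact congrFun h 1
    subst h1
    have : n = m := by
      have := hz.2.2.symm.trans hw.2.2
      exact_mod_cast this
    subst this; rfl
  calc ∑ n ∈ u, |(c n : ℝ)| * (n : ℝ) ^ (-σ)
      ≤ ∑ n ∈ u, ∑ z ∈ P n, (‖(![z.re, z.im] : Fin 2 → ℤ)‖) ^ (-(2 * σ - 1)) := by
        refine Finset.sum_le_sum (fun n _ => ?_)
        refine (mul_le_mul_of_nonneg_right (abs_c_le n) (by positivity)).trans ?_
        rw [Finset.sum_mul]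
        refine Finset.sum_le_sum (fun z hz => ?_)
        rw [mem_P] at hz
        have hn : (n : ℝ) = (z.re : ℝ) ^ 2 + (z.im : ℝ) ^ 2 := by
          have := hz.2
          rw [norm_def] at this
          have h2 : ((z.re : ℝ)) ^ 2 + ((z.im : ℝ)) ^ 2 = n := by exact_mod_cast this
          exact h2.symm
        have hnpos : 0 < (n : ℝ) := by
          rcases Nat.eq_zero_or_pos n with h0 | h0
          · exfalso
            have := primary_norm_odd hz.1
            rw [hz.2, h0] at this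
            norm_num at this
          · exact_mod_cast h0
        have hnorm : ‖(![z.re, z.im] : Fin 2 → ℤ)‖ = max |(z.re : ℝ)| |(z.im : ℝ)| := by
          rw [EisensteinSeries.norm_eq_max_natAbs]
          simp [Nat.cast_natAbs]
        rw [hnorm]
        set M := max |(z.re : ℝ)| |(z.im : ℝ)| with hM
        have hMsq : M ^ 2 ≤ n := by
          rw [hn]
          rcases max_choice |(z.re : ℝ)| |(z.im : ℝ)| with h | h
          · rw [hM, h, sq_abs]; nlinarith [sq_nonneg (z.im : ℝ)]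
          · rw [hM, h, sq_abs]; nlinarith [sq_nonneg (z.re : ℝ)]
        have hMpos : 0 < M := by
          by_contra hcon
          have hM0 : M ≤ 0 := not_lt.1 hcon
          have h1 : |(z.re : ℝ)| ≤ 0 := (le_max_left _ _).trans hM0
          have h2 : |(z.im : ℝ)| ≤ 0 := (le_max_right _ _).trans hM0
          have h3 : (z.re : ℝ) = 0 := abs_nonpos_iff.1 h1
          have h4 : (z.im : ℝ) = 0 := abs_nonpos_iff.1 h2
          rw [h3, h4] at hn
          rw [hn] at hnpos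
          norm_num at hnpos
        have e1 : Real.sqrt n * (n : ℝ) ^ (-σ) = (n : ℝ) ^ (1 / 2 - σ) := by
          rw [Real.sqrt_eq_rpow, ← Real.rpow_add hnpos]; ring_nf
        rw [e1]
        have e2 : M ^ (-(2 * σ - 1)) = (M ^ 2) ^ (1 / 2 - σ) := by
          rw [← Real.rpow_natCast M 2, ← Real.rpow_mul hMpos.le]
          congr 1; push_cast; ring
        rw [e2]
        exact Real.rpow_le_rpow_of_nonpos (by positivity) hMsq (by linarith)
    _ = ∑ y ∈ u.sigma P, ‖(![y.2.re, y.2.im] : Fin 2 → ℤ)‖ ^ (-(2 * σ - 1)) := by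
        rw [Finset.sum_sigma]
    _ = ∑ x ∈ (u.sigma P).image (fun y : (Σ _ : ℕ, GI) => (![y.2.re, y.2.im] : Fin 2 → ℤ)),
          ‖x‖ ^ (-(2 * σ - 1)) := by
        rw [Finset.sum_image hinj]
    _ ≤ ∑' x : Fin 2 → ℤ, ‖x‖ ^ (-(2 * σ - 1)) :=
        hsum.sum_le_tsum _ (fun x _ => by positivity)


lemma bd_zero (d : ℤ) : bd d 0 = 0 := by simp [bd, c_zero]

lemma bd_one (d : ℤ) : bd d 1 = 1 := by simp [bd, c_one]

lemma abs_bd_le (d : ℤ) (n : ℕ) : |(bd d n : ℝ)| ≤ |(c n : ℝ)| := by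
  unfold bd
  push_cast
  rw [abs_mul]
  have : |((jacobiSym d n : ℤ) : ℝ)| ≤ 1 := by
    rcases jacobiSym.trichotomy d n with h | h | h <;> rw [h] <;> norm_num
  calc |((jacobiSym d n : ℤ) : ℝ)| * |(c n : ℝ)| ≤ 1 * |(c n : ℝ)| := by gcongr
    _ = _ := one_mul _

lemma summable_bd (d : ℤ) {s : ℂ} (hs : 3 / 2 < s.re) :
    Summable (fun n : ℕ => ‖(bd d n : ℂ) * (n : ℂ) ^ (-s)‖) := by
  refine Summable.of_nonneg_of_le (fun n => norm_nonneg _) (fun n => ?_) (summable_lattice hs)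
  rw [norm_mul]
  rcases Nat.eq_zero_or_pos n with rfl | hn
  · rw [bd_zero]; simp [c_zero]
  · have h1 : ‖((n : ℕ) : ℂ) ^ (-s)‖ = (n : ℝ) ^ (-s.re) := by
      rw [Complex.norm_natCast_cpow_of_pos hn]; simp
    rw [h1]
    have h2 : ‖((bd d n : ℤ) : ℂ)‖ = |(bd d n : ℝ)| := by
      rw [Complex.norm_intCast]
    rw [h2]
    exact mul_le_mul_of_nonneg_right (abs_bd_le d n) (by positivity)

/-- the Hecke L-series -/
noncomputable def Lser (d : ℤ) (s : ℂ) : ℂ := ∑' n : ℕ, (bd d n : ℂ) * (n : ℂ) ^ (-s)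

lemma euler_hasProd (d : ℤ) {s : ℂ} (hs : 3 / 2 < s.re) :
    HasProd (fun p : Nat.Primes => ∑' e : ℕ, (bd d ((p : ℕ) ^ e) : ℂ) * (((p : ℕ) ^ e : ℕ) : ℂ) ^ (-s))
      (Lser d s) := by
  refine EulerProduct.eulerProduct_hasProd (f := fun n : ℕ => (bd d n : ℂ) * (n : ℂ) ^ (-s))
    ?_ ?_ (summable_bd d hs) ?_
  · simp [bd_one]
  · intro m n hmn
    rw [bd_mul d hmn]
    push_cast
    rw [Complex.natCast_mul_natCast_cpow]
    ring
  · simp [bd_zero]

lemma local_factor {a q x : ℂ} {t : ℕ → ℂ} (h0 : t 0 = 1) (h1 : t 1 = a)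
    (hrec : ∀ e, t (e + 2) = a * t (e + 1) - q * t e) (hsum : Summable (fun e => t e * x ^ e)) :
    ∑' e, t e * x ^ e = (1 - a * x + q * x ^ 2)⁻¹ := by
  set S := ∑' e, t e * x ^ e with hS
  have hsum1 : Summable (fun e => t (e + 1) * x ^ (e + 1)) := (summable_nat_add_iff 1).2 hsum
  have e1 : S = 1 + ∑' e, t (e + 1) * x ^ (e + 1) := by
    rw [hS, hsum.tsum_eq_zero_add, h0]; simp
  have e2 : ∑' e, t (e + 1) * x ^ (e + 1) = a * x + ∑' e, t (e + 2) * x ^ (e + 2) := by
    rw [hsum1.tsum_eq_zero_add]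
    simp [h1]
  have e3 : ∑' e, t (e + 2) * x ^ (e + 2) = a * x * (S - 1) - q * x ^ 2 * S := by
    have : ∀ e, t (e + 2) * x ^ (e + 2) = a * x * (t (e + 1) * x ^ (e + 1)) - q * x ^ 2 * (t e * x ^ e) := by
      intro e; rw [hrec]; ring
    rw [tsum_congr this, (hsum1.mul_left _).tsum_sub (hsum.mul_left _), tsum_mul_left, tsum_mul_left,
      ← hS]
    have : ∑' e, t (e + 1) * x ^ (e + 1) = S - 1 := by rw [e1]; ring
    rw [this]
  have key : S * (1 - a * x + q * x ^ 2) = 1 := by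
    have : S = 1 + (a * x + (a * x * (S - 1) - q * x ^ 2 * S)) := by
      rw [← e3, ← e2, ← e1]
    linear_combination this
  exact eq_inv_of_mul_eq_one_left key

end Pool.Agent.H5
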