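import Mathlib

set_option autoImplicit false

namespace Pool.Agent.H5

open Finset

/-- the Jacobi symbol as a function on `ZMod N` -/
noncomputable def JZ (N : ℕ) (z : ZMod N) : ℤ := jacobiSym (z.val : ℤ) N

lemma JZ_intCast (N : ℕ) [NeZero N] (a : ℤ) : JZ N (a : ZMod N) = jacobiSym a N := by
  unfold JZ
  rw [ZMod.val_intCast, ← jacobiSym.mod_left]

section prime

variable (p : ℕ) [Fact p.Prime]

/-- the quadratic character with complex values -/
noncomputable def chc : MulChar (ZMod p) ℂ := (quadraticChar (ZMod p)).ringHomComp (Int.castRingHom ℂ)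

lemma chc_apply (z : ZMod p) : chc p z = ((quadraticChar (ZMod p) z : ℤ) : ℂ) := rfl

lemma JZ_prime (z : ZMod p) : ((JZ p z : ℤ) : ℂ) = chc p z := by
  rw [chc_apply]
  unfold JZ
  rw [← jacobiSym.legendreSym.to_jacobiSym, legendreSym]
  congr 2
  simp

variable {p}

lemma chc_mul_self {t : ZMod p} (ht : t ≠ 0) : chc p t * chc p t = 1 := by
  rw [chc_apply, ← Int.cast_mul, ← sq, quadraticChar_sq_one ht]; simp

lemma chc_inv (t : ZMod p) : chc p t⁻¹ = chc p t := by
  by_cases ht : t = 0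
  · subst ht; simp
  have h := chc_mul_self ht
  have h2 : chc p t * chc p t⁻¹ = 1 := by
    rw [← map_mul, mul_inv_cancel₀ ht, map_one]
  have h3 : chc p t ≠ 0 := by
    intro h0; rw [h0] at h2; simp at h2
  exact mul_left_cancel₀ h3 (h2.trans h.symm)

lemma chc_ne_one (hp : p ≠ 2) : chc p ≠ 1 := by
  have h2 : ringChar (ZMod p) ≠ 2 := by rwa [ZMod.ringChar_zmod_n]
  exact (MulChar.ringHomComp_ne_one_iff (f := Int.castRingHom ℂ) (RingHom.injective_int _)).2
    (quadraticChar_ne_one h2)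

/-- the Gauss sum -/
noncomputable def gg (p : ℕ) [Fact p.Prime] : ℂ := gaussSum (chc p) (ZMod.stdAddChar (N := p))

lemma gg_sq (hp : p ≠ 2) : gg p ^ 2 = chc p (-1) * p := by
  have hq : (chc p).IsQuadratic := (quadraticChar_isQuadratic (ZMod p)).comp _
  have h : gaussSum (chc p) (ZMod.stdAddChar (N := p)) ^ 2 = chc p (-1) * (Fintype.card (ZMod p)) :=
    gaussSum_sq (chc_ne_one hp) hq (ZMod.isPrimitive_stdAddChar p)
  rw [gg, h, ZMod.card]

lemma sum_chc (hp : p ≠ 2) : ∑ x : ZMod p, chc p x = 0 :=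
  MulChar.sum_eq_zero_of_ne_one (chc_ne_one hp)

lemma G1 (hp : p ≠ 2) (t : ZMod p) :
    ∑ x : ZMod p, chc p x * ZMod.stdAddChar (t * x) = chc p t * gg p := by
  by_cases ht : t = 0
  · subst ht
    simp only [zero_mul, AddChar.map_zero_eq_one, mul_one]
    rw [sum_chc hp]
    rw [MulChar.map_nonunit _ (by simp), zero_mul]
  · rw [gg, gaussSum, Finset.mul_sum]
    have : ∀ x, chc p x * ZMod.stdAddChar (t * x)
        = chc p t * (chc p (t * x) * ZMod.stdAddChar (t * x)) := by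
      intro x
      rw [map_mul (chc p) t x, ← mul_assoc, ← mul_assoc, chc_mul_self ht, one_mul]
    rw [Finset.sum_congr rfl (fun x _ => this x)]
    exact Equiv.sum_comp (Equiv.mulLeft₀ t ht) (fun x => chc p t * (chc p x * ZMod.stdAddChar x))

lemma sum_sq_eq (hp : p ≠ 2) (f : ZMod p → ℂ) :
    ∑ u : ZMod p, f (u ^ 2) = ∑ x : ZMod p, (1 + chc p x) * f x := by
  classical
  have h2 : ringChar (ZMod p) ≠ 2 := by rwa [ZMod.ringChar_zmod_n]
  rw [← Finset.sum_fiberwise_of_maps_to (s := univ) (t := univ) (g := fun u : ZMod p => u ^ 2)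
    (fun _ _ => Finset.mem_univ _)]
  refine Finset.sum_congr rfl (fun x _ => ?_)
  have hcard := quadraticChar_card_sqrts h2 x
  have : ∑ u ∈ univ.filter (fun u : ZMod p => u ^ 2 = x), f (u ^ 2)
      = ∑ u ∈ univ.filter (fun u : ZMod p => u ^ 2 = x), f x := by
    refine Finset.sum_congr rfl (fun u hu => ?_)
    rw [(Finset.mem_filter.1 hu).2]
  rw [this, Finset.sum_const, nsmul_eq_mul]
  congr 1
  have h3 : (({u : ZMod p | u ^ 2 = x}.toFinset.card : ℤ) : ℂ) = 1 + chc p x := by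
    rw [hcard, chc_apply]; push_cast; ring
  rw [← h3]
  have h4 : univ.filter (fun u : ZMod p => u ^ 2 = x) = {u : ZMod p | u ^ 2 = x}.toFinset := by
    ext u; simp
  rw [h4]
  simp

lemma sum_ψ {t : ZMod p} (ht : t ≠ 0) : ∑ x : ZMod p, ZMod.stdAddChar (t * x) = (0 : ℂ) := by
  have h := AddChar.sum_mulShift (ψ := ZMod.stdAddChar (N := p)) t (ZMod.isPrimitive_stdAddChar p)
  rw [if_neg ht] at h
  simp only [mul_comm _ t] at h
  exact_mod_cast h

lemma G2 (hp : p ≠ 2) {t : ZMod p} (ht : t ≠ 0) :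
    ∑ u : ZMod p, ZMod.stdAddChar (t * u ^ 2) = chc p t * gg p := by
  rw [sum_sq_eq hp (fun x => ZMod.stdAddChar (t * x)), ← G1 hp]
  have : ∀ x : ZMod p, (1 + chc p x) * ZMod.stdAddChar (t * x)
      = ZMod.stdAddChar (t * x) + chc p x * ZMod.stdAddChar (t * x) := by intro x; ring
  rw [Finset.sum_congr rfl (fun x _ => this x), Finset.sum_add_distrib, sum_ψ ht, zero_add]

lemma two_ne (hp : p ≠ 2) : (2 : ZMod p) ≠ 0 := by
  intro h
  have : ((2 : ℕ) : ZMod p) = 0 := by exact_mod_cast h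
  rw [ZMod.natCast_eq_zero_iff] at this
  exact hp ((Nat.prime_dvd_prime_iff_eq Fact.out Nat.prime_two).1 this)

lemma G3 (hp : p ≠ 2) {t : ZMod p} (ht : t ≠ 0) (a : ZMod p) :
    ∑ u : ZMod p, ZMod.stdAddChar (t * u ^ 2 + a * u)
      = ZMod.stdAddChar (-(4 * t)⁻¹ * a ^ 2) * (chc p t * gg p) := by
  have h2 := two_ne hp
  rw [← G2 hp ht, Finset.mul_sum,
    ← Equiv.sum_comp (Equiv.subRight (a / (2 * t))) (fun u => ZMod.stdAddChar (t * u ^ 2 + a * u))]
  refine Finset.sum_congr rfl (fun u _ => ?_)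
  rw [← AddChar.map_add_eq_mul]
  congr 1
  simp only [Equiv.subRight_apply]
  have h4 : (4 : ZMod p) = 2 * 2 := by norm_num
  rw [h4]
  field_simp
  ring

lemma SD_prime (hp : p ≠ 2) (a b : ZMod p) :
    ∑ u : ZMod p, ∑ v : ZMod p, chc p (u ^ 2 + v ^ 2) * ZMod.stdAddChar (a * u + b * v)
      = p * chc p (a ^ 2 + b ^ 2) := by
  have hg2 := gg_sq hp
  have hpc : ((p : ℕ) : ℂ) ≠ 0 := by
    exact_mod_cast (Fact.out : p.Prime).ne_zero
  have hm1 : chc p (-1) * chc p (-1) = 1 := chc_mul_self (by simp)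
  have hg : gg p ≠ 0 := by
    intro h
    rw [h] at hg2
    have : chc p (-1) ≠ 0 := by intro h0; rw [h0] at hm1; simp at hm1
    exact (mul_ne_zero this hpc) (by rw [← hg2]; simp)
  have h2 := two_ne hp
  apply mul_left_cancel₀ hg
  calc gg p * ∑ u : ZMod p, ∑ v : ZMod p, chc p (u ^ 2 + v ^ 2) * ZMod.stdAddChar (a * u + b * v)
      = ∑ u : ZMod p, ∑ v : ZMod p, ∑ t : ZMod p,
          chc p t * (ZMod.stdAddChar (t * u ^ 2 + a * u) * ZMod.stdAddChar (t * v ^ 2 + b * v)) := by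
        rw [Finset.mul_sum]
        refine Finset.sum_congr rfl (fun u _ => ?_)
        rw [Finset.mul_sum]
        refine Finset.sum_congr rfl (fun v _ => ?_)
        have e1 : gg p * (chc p (u ^ 2 + v ^ 2) * ZMod.stdAddChar (a * u + b * v))
            = (chc p (u ^ 2 + v ^ 2) * gg p) * ZMod.stdAddChar (a * u + b * v) := by ring
        rw [e1, ← G1 hp, Finset.sum_mul]
        refine Finset.sum_congr rfl (fun t _ => ?_)
        rw [mul_assoc, ← AddChar.map_add_eq_mul, ← AddChar.map_add_eq_mul]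
        congr 2; ring
    _ = ∑ t : ZMod p, ∑ u : ZMod p, ∑ v : ZMod p,
          chc p t * (ZMod.stdAddChar (t * u ^ 2 + a * u) * ZMod.stdAddChar (t * v ^ 2 + b * v)) := by
        exact (Finset.sum_congr rfl (fun u _ => Finset.sum_comm)).trans Finset.sum_comm
    _ = ∑ t : ZMod p, chc p t * (gg p ^ 2 * ZMod.stdAddChar (-(4 * t)⁻¹ * (a ^ 2 + b ^ 2))) := by
        refine Finset.sum_congr rfl (fun t _ => ?_)
        by_cases ht : t = 0
        · subst ht
          have : chc p 0 = 0 := MulChar.map_nonunit _ (by simp)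
          simp [this]
        · simp_rw [← Finset.mul_sum]
          rw [← Finset.sum_mul, G3 hp ht, G3 hp ht]
          have e2 : (-(4 * t)⁻¹ * (a ^ 2 + b ^ 2)) = -(4 * t)⁻¹ * a ^ 2 + -(4 * t)⁻¹ * b ^ 2 := by ring
          rw [e2, AddChar.map_add_eq_mul]
          have := chc_mul_self ht
          linear_combination (chc p t * gg p ^ 2 * ZMod.stdAddChar (-(4 * t)⁻¹ * a ^ 2)
            * ZMod.stdAddChar (-(4 * t)⁻¹ * b ^ 2)) * this
    _ = gg p ^ 2 * ∑ t : ZMod p, chc p (-(4 * t)⁻¹) * chc p (-1)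
          * ZMod.stdAddChar (-(4 * t)⁻¹ * (a ^ 2 + b ^ 2)) := by
        rw [Finset.mul_sum]
        refine Finset.sum_congr rfl (fun t _ => ?_)
        have e3 : chc p (-(4 * t)⁻¹) = chc p (-1) * chc p t := by
          have h22 : chc p 4 = 1 := by
            have : (4 : ZMod p) = 2 * 2 := by norm_num
            rw [this, map_mul, chc_mul_self h2]
          rw [neg_eq_neg_one_mul, map_mul, chc_inv, map_mul, h22, one_mul]
        rw [e3]
        linear_combination (-chc p t * gg p ^ 2 * ZMod.stdAddChar (-(4 * t)⁻¹ * (a ^ 2 + b ^ 2))) * hm1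
    _ = gg p ^ 2 * ∑ s : ZMod p, chc p s * chc p (-1) * ZMod.stdAddChar (s * (a ^ 2 + b ^ 2)) := by
        congr 1
        have h4 : (4 : ZMod p) ≠ 0 := by
          have : (4 : ZMod p) = 2 * 2 := by norm_num
          rw [this]; exact mul_ne_zero h2 h2
        refine Finset.sum_bij' (fun t _ => -(4 * t)⁻¹) (fun s _ => -(4 * s)⁻¹)
          (fun _ _ => Finset.mem_univ _) (fun _ _ => Finset.mem_univ _) ?_ ?_ (fun _ _ => rfl)
        · intro t _
          by_cases ht : t = 0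
          · simp [ht]
          · field_simp
        · intro t _
          by_cases ht : t = 0
          · simp [ht]
          · field_simp
    _ = gg p ^ 2 * (chc p (-1) * (chc p (a ^ 2 + b ^ 2) * gg p)) := by
        congr 1
        rw [← G1 hp, Finset.mul_sum]
        refine Finset.sum_congr rfl (fun s _ => ?_)
        rw [mul_comm s]; ring
    _ = gg p * (p * chc p (a ^ 2 + b ^ 2)) := by
        rw [hg2]
        linear_combination (p * chc p (a ^ 2 + b ^ 2) * gg p) * hm1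

end prime

/-- self-duality of `J(u^2+v^2)` -/
def SD (N : ℕ) [NeZero N] : Prop := ∀ a b : ZMod N,
  ∑ u : ZMod N, ∑ v : ZMod N, ((JZ N (u ^ 2 + v ^ 2) : ℤ) : ℂ) * ZMod.stdAddChar (a * u + b * v)
      = N * ((JZ N (a ^ 2 + b ^ 2) : ℤ) : ℂ)

lemma SD_one : SD 1 := by
  intro a b
  have : ∀ z : ZMod 1, JZ 1 z = 1 := by
    intro z; unfold JZ; simp
  simp only [this]
  have h1 : ∀ z : ZMod 1, (ZMod.stdAddChar z : ℂ) = 1 := by
    intro z
    have : z = 0 := Subsingleton.elim _ _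
    rw [this, AddChar.map_zero_eq_one]
  simp [h1]

lemma JZ_mul_sq {N : ℕ} [NeZero N] {s : ZMod N} (hs : IsUnit s) (z : ZMod N) :
    JZ N (s ^ 2 * z) = JZ N z := by
  have h1 : s ^ 2 * z = (((s.val : ℤ) ^ 2 * (z.val : ℤ) : ℤ) : ZMod N) := by
    push_cast; simp
  have h2 : z = ((z.val : ℤ) : ZMod N) := by simp
  rw [h1, JZ_intCast, jacobiSym.mul_left, jacobiSym.pow_left]
  have h3 : IsCoprime (s.val : ℤ) N := by
    have := (ZMod.isUnit_iff_coprime s.val N).1 (by simpa using hs)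
    exact Nat.isCoprime_iff_coprime.2 this
  have h4 : jacobiSym (s.val : ℤ) N ^ 2 = 1 := by
    apply jacobiSym.sq_one
    exact Int.isCoprime_iff_gcd_eq_one.1 h3
  rw [h4, one_mul]
  rfl

lemma SD_mul {m n : ℕ} [NeZero m] [NeZero n] (hmn : m.Coprime n) (hm : SD m) (hn : SD n) :
    haveI : NeZero (m * n) := ⟨mul_ne_zero (NeZero.ne m) (NeZero.ne n)⟩
    SD (m * n) := by
  have : NeZero (m * n) := ⟨mul_ne_zero (NeZero.ne m) (NeZero.ne n)⟩
  -- Bezout
  obtain ⟨s, t, hst⟩ : ∃ s t : ℤ, s * n + t * m = 1 := by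
    have := Nat.isCoprime_iff_coprime.2 hmn
    obtain ⟨a, b, h⟩ := this
    exact ⟨b, a, by linarith⟩
  have hsu : IsUnit ((s : ℤ) : ZMod m) := by
    have : ((s : ℤ) : ZMod m) * (n : ZMod m) = 1 := by
      have := congrArg (fun x : ℤ => (x : ZMod m)) hst
      push_cast at this
      simpa using this
    exact IsUnit.of_mul_eq_one _ this
  have htu : IsUnit ((t : ℤ) : ZMod n) := by
    have : ((t : ℤ) : ZMod n) * (m : ZMod n) = 1 := by
      have := congrArg (fun x : ℤ => (x : ZMod n)) hst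
      push_cast at this
      simpa using this
    exact IsUnit.of_mul_eq_one _ this
  set e := ZMod.chineseRemainder hmn with he
  -- the projections
  have hfst : ∀ z : ZMod (m * n), (e z).1 = ((z.val : ℤ) : ZMod m) := by
    intro z
    have h1 : z = ((z.val : ℤ) : ZMod (m * n)) := by simp
    conv_lhs => rw [h1]
    rw [map_intCast]; rfl
  have hsnd : ∀ z : ZMod (m * n), (e z).2 = ((z.val : ℤ) : ZMod n) := by
    intro z
    have h1 : z = ((z.val : ℤ) : ZMod (m * n)) := by simp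
    conv_lhs => rw [h1]
    rw [map_intCast]; rfl
  have hψ : ∀ z : ZMod (m * n), (ZMod.stdAddChar z : ℂ)
      = ZMod.stdAddChar ((s : ZMod m) * (e z).1) * ZMod.stdAddChar ((t : ZMod n) * (e z).2) := by
    intro z
    rw [hfst, hsnd]
    have h1 : (ZMod.stdAddChar z : ℂ) = ZMod.stdAddChar ((z.val : ℤ) : ZMod (m * n)) := by simp
    rw [h1, ← Int.cast_mul, ← Int.cast_mul, ZMod.stdAddChar_coe, ZMod.stdAddChar_coe,
      ZMod.stdAddChar_coe, ← Complex.exp_add]
    congr 1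
    have hm0 : ((m : ℕ) : ℂ) ≠ 0 := by exact_mod_cast NeZero.ne m
    have hn0 : ((n : ℕ) : ℂ) ≠ 0 := by exact_mod_cast NeZero.ne n
    have hst' : (s : ℂ) * n + t * m = 1 := by exact_mod_cast hst
    push_cast
    field_simp
    linear_combination (-((z.val : ℂ))) * hst'
  have hJ : ∀ z : ZMod (m * n), JZ (m * n) z = JZ m (e z).1 * JZ n (e z).2 := by
    intro z
    rw [hfst, hsnd, JZ_intCast, JZ_intCast]
    unfold JZ
    rw [jacobiSym.mul_right]
  intro a b
  have hsum : ∀ F : ZMod m × ZMod n → ℂ, ∑ z : ZMod (m * n), F (e z)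
      = ∑ x : ZMod m, ∑ y : ZMod n, F (x, y) := by
    intro F
    exact (Equiv.sum_comp e.toEquiv F).trans (Fintype.sum_prod_type _)
  have key : ∀ u v : ZMod (m * n),
      ((JZ (m * n) (u ^ 2 + v ^ 2) : ℤ) : ℂ) * ZMod.stdAddChar (a * u + b * v)
      = (((JZ m ((e u).1 ^ 2 + (e v).1 ^ 2) : ℤ) : ℂ)
          * ZMod.stdAddChar (((s : ZMod m) * (e a).1) * (e u).1 + ((s : ZMod m) * (e b).1) * (e v).1))
        * (((JZ n ((e u).2 ^ 2 + (e v).2 ^ 2) : ℤ) : ℂ)
          * ZMod.stdAddChar (((t : ZMod n) * (e a).2) * (e u).2 + ((t : ZMod n) * (e b).2) * (e v).2)) := by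
    intro u v
    rw [hJ, hψ]
    simp only [map_add, map_mul, map_pow, Prod.fst_add, Prod.snd_add, Prod.fst_mul, Prod.snd_mul,
      Prod.pow_fst, Prod.pow_snd]
    have e1 : (s : ZMod m) * ((e a).1 * (e u).1 + (e b).1 * (e v).1)
      = ((s : ZMod m) * (e a).1) * (e u).1 + ((s : ZMod m) * (e b).1) * (e v).1 := by ring
    have e2 : (t : ZMod n) * ((e a).2 * (e u).2 + (e b).2 * (e v).2)
      = ((t : ZMod n) * (e a).2) * (e u).2 + ((t : ZMod n) * (e b).2) * (e v).2 := by ring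
    rw [e1, e2]
    push_cast
    ring
  have step : ∑ u : ZMod (m * n), ∑ v : ZMod (m * n),
      ((JZ (m * n) (u ^ 2 + v ^ 2) : ℤ) : ℂ) * ZMod.stdAddChar (a * u + b * v)
      = (∑ u : ZMod m, ∑ v : ZMod m, ((JZ m (u ^ 2 + v ^ 2) : ℤ) : ℂ)
          * ZMod.stdAddChar (((s : ZMod m) * (e a).1) * u + ((s : ZMod m) * (e b).1) * v))
        * (∑ u : ZMod n, ∑ v : ZMod n, ((JZ n (u ^ 2 + v ^ 2) : ℤ) : ℂ)
          * ZMod.stdAddChar (((t : ZMod n) * (e a).2) * u + ((t : ZMod n) * (e b).2) * v)) := by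
    simp_rw [key]
    rw [hsum (fun w => ∑ v : ZMod (m * n), (((JZ m (w.1 ^ 2 + (e v).1 ^ 2) : ℤ) : ℂ)
          * ZMod.stdAddChar (((s : ZMod m) * (e a).1) * w.1 + ((s : ZMod m) * (e b).1) * (e v).1))
        * (((JZ n (w.2 ^ 2 + (e v).2 ^ 2) : ℤ) : ℂ)
          * ZMod.stdAddChar (((t : ZMod n) * (e a).2) * w.2 + ((t : ZMod n) * (e b).2) * (e v).2)))]
    have h2 : ∀ w : ZMod m × ZMod n, (∑ v : ZMod (m * n), (((JZ m (w.1 ^ 2 + (e v).1 ^ 2) : ℤ) : ℂ)
          * ZMod.stdAddChar (((s : ZMod m) * (e a).1) * w.1 + ((s : ZMod m) * (e b).1) * (e v).1))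
        * (((JZ n (w.2 ^ 2 + (e v).2 ^ 2) : ℤ) : ℂ)
          * ZMod.stdAddChar (((t : ZMod n) * (e a).2) * w.2 + ((t : ZMod n) * (e b).2) * (e v).2)))
        = (∑ x : ZMod m, (((JZ m (w.1 ^ 2 + x ^ 2) : ℤ) : ℂ)
          * ZMod.stdAddChar (((s : ZMod m) * (e a).1) * w.1 + ((s : ZMod m) * (e b).1) * x)))
        * (∑ y : ZMod n, (((JZ n (w.2 ^ 2 + y ^ 2) : ℤ) : ℂ)
          * ZMod.stdAddChar (((t : ZMod n) * (e a).2) * w.2 + ((t : ZMod n) * (e b).2) * y))) := by
      intro w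
      rw [Finset.sum_mul_sum]
      exact hsum (fun v => (((JZ m (w.1 ^ 2 + v.1 ^ 2) : ℤ) : ℂ)
          * ZMod.stdAddChar (((s : ZMod m) * (e a).1) * w.1 + ((s : ZMod m) * (e b).1) * v.1))
        * (((JZ n (w.2 ^ 2 + v.2 ^ 2) : ℤ) : ℂ)
          * ZMod.stdAddChar (((t : ZMod n) * (e a).2) * w.2 + ((t : ZMod n) * (e b).2) * v.2)))
    refine (Finset.sum_congr rfl (fun x _ => Finset.sum_congr rfl (fun y _ => h2 (x, y)))).trans ?_
    rw [Finset.sum_mul_sum]
  rw [step, hm, hn, hJ]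
  have e3 : ((s : ZMod m) * (e a).1) ^ 2 + ((s : ZMod m) * (e b).1) ^ 2
    = (s : ZMod m) ^ 2 * ((e a).1 ^ 2 + (e b).1 ^ 2) := by ring
  have e4 : ((t : ZMod n) * (e a).2) ^ 2 + ((t : ZMod n) * (e b).2) ^ 2
    = (t : ZMod n) ^ 2 * ((e a).2 ^ 2 + (e b).2 ^ 2) := by ring
  rw [e3, e4, JZ_mul_sq hsu, JZ_mul_sq htu]
  simp only [map_add, map_pow, Prod.fst_add, Prod.snd_add, Prod.pow_fst, Prod.pow_snd]
  push_cast
  ring

theorem SD_of_squarefree (N : ℕ) [NeZero N] (hodd : Odd N) (hsf : Squarefree N) : SD N := by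
  have key : ∀ M : ℕ, Odd M → Squarefree M → ∀ _ : NeZero M, SD M := by
    intro M
    induction M using Nat.recOnPosPrimePosCoprime with
    | prime_pow p n hp hn =>
      intro hodd hsf _
      have hn1 : n = 1 := by
        rcases (Nat.squarefree_pow_iff hp.ne_one hn.ne').1 hsf with ⟨_, h⟩
        exact h
      subst hn1
      have hp2 : p ≠ 2 := by
        rintro rfl
        revert hodd; simp
      have hF : Fact p.Prime := ⟨hp⟩
      intro a b
      revert a b
      have e : p ^ 1 = p := pow_one p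
      have : ∀ q : ℕ, q = p → ∀ _ : NeZero q, ∀ a b : ZMod q,
        ∑ u : ZMod q, ∑ v : ZMod q, ((JZ q (u ^ 2 + v ^ 2) : ℤ) : ℂ) * ZMod.stdAddChar (a * u + b * v)
        = q * ((JZ q (a ^ 2 + b ^ 2) : ℤ) : ℂ) := by
        rintro q rfl _ a b
        simp_rw [JZ_prime]
        have := SD_prime hp2 a b
        convert this
      exact this _ e _
    | zero => intro _ _ h; exact absurd rfl h.ne
    | one => intro _ _ _; exact SD_one
    | coprime a b ha hb hab iha ihb =>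
      intro hodd hsf _
      have h1 : NeZero a := ⟨by omega⟩
      have h2 : NeZero b := ⟨by omega⟩
      have ho := Nat.odd_mul.1 hodd
      exact SD_mul hab (iha ho.1 (hsf.of_mul_left) _) (ihb ho.2 (hsf.of_mul_right) _)
  exact key N hodd hsf _

end Pool.Agent.H5
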