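import Mathlib
import Pool.Agent.H5.SelfDual

set_option autoImplicit false

namespace Pool.Agent.H5

open Finset HurwitzZeta

lemma hs_congr {α β : Type*} [AddCommMonoid β] [TopologicalSpace β] {f g : α → β} {a : β}
    (h : ∀ x, f x = g x) (hg : HasSum g a) : HasSum f a := by
  rw [funext h]; exact hg

lemma hs_mul {f g : ℤ → ℂ} {a b : ℂ} (hf : HasSum f a) (hg : HasSum g b) (c : ℂ) :
    HasSum (fun p : ℤ × ℤ => c * (f p.1 * g p.2)) (c * (a * b)) :=
  (hf.mul hg (summable_mul_of_summable_norm hf.summable.norm hg.summable.norm)).mul_left c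

lemma one_div_inv_eq (x : ℝ) : 1 / x⁻¹ = x := by rw [one_div, inv_inv]

section

variable (q : ℕ) [NeZero q]

/-- the injection `n ↦ q n + a` -/
def iot (a : ZMod q) (n : ℤ) : ℤ := q * n + a.val

lemma iot_inj (a : ZMod q) : Function.Injective (iot q a) := by
  intro m n h
  unfold iot at h
  have hq : (q : ℤ) ≠ 0 := by exact_mod_cast NeZero.ne q
  have : (q : ℤ) * m = q * n := by linarith
  exact mul_left_cancel₀ hq this

lemma iot_cast (a : ZMod q) (n : ℤ) : ((iot q a n : ℤ) : ZMod q) = a := by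
  unfold iot; push_cast; simp

lemma iot_range (a : ZMod q) {l : ℤ} (hl : (l : ZMod q) = a) : l ∈ Set.range (iot q a) := by
  have h1 : ((l : ℤ) : ZMod q) = ((a.val : ℤ) : ZMod q) := by rw [hl]; simp
  rw [ZMod.intCast_eq_intCast_iff_dvd_sub] at h1
  obtain ⟨k, hk⟩ := h1
  exact ⟨-k, by unfold iot; linarith⟩

lemma hasSum_class_odd (a : ZMod q) {X : ℝ} (hX : 0 < X) :
    HasSum (fun l : ℤ => if (l : ZMod q) = a then
      (l : ℝ) * Real.exp (-Real.pi * (l : ℝ) ^ 2 * (X / q ^ 2)) else 0)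
      (q * oddKernel ((a.val / q : ℝ) : UnitAddCircle) X) := by
  have hq : (q : ℝ) ≠ 0 := by exact_mod_cast NeZero.ne q
  have h := (hasSum_int_oddKernel (a.val / q : ℝ) hX).mul_left (q : ℝ)
  rw [← Function.Injective.hasSum_iff (iot_inj q a)]
  · refine hs_congr (fun n => ?_) h
    rw [Function.comp_apply, if_pos (iot_cast q a n)]
    unfold iot
    push_cast
    have e : ((q : ℝ) * n + (a.val : ℝ)) = q * (n + a.val / q) := by field_simp
    rw [e, mul_assoc]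
    congr 3
    field_simp
  · intro l hl
    rw [if_neg]
    intro h2
    exact hl (iot_range q a h2)

lemma hasSum_class_even (a : ZMod q) {X : ℝ} (hX : 0 < X) :
    HasSum (fun l : ℤ => if (l : ZMod q) = a then
      Real.exp (-Real.pi * (l : ℝ) ^ 2 * (X / q ^ 2)) else 0)
      (evenKernel ((a.val / q : ℝ) : UnitAddCircle) X) := by
  have hq : (q : ℝ) ≠ 0 := by exact_mod_cast NeZero.ne q
  have h := (hasSum_int_evenKernel (a.val / q : ℝ) hX)
  rw [← Function.Injective.hasSum_iff (iot_inj q a)]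
  · refine hs_congr (fun n => ?_) h
    rw [Function.comp_apply, if_pos (iot_cast q a n)]
    unfold iot
    push_cast
    have e : ((q : ℝ) * n + (a.val : ℝ)) = q * (n + a.val / q) := by field_simp
    rw [e]
    congr 1
    field_simp
  · intro l hl
    rw [if_neg]
    intro h2
    exact hl (iot_range q a h2)

lemma stdAddChar_mul (a : ZMod q) (m : ℤ) :
    (ZMod.stdAddChar ((m : ZMod q) * a) : ℂ)
      = Complex.exp (2 * Real.pi * Complex.I * ((a.val / q : ℝ) : ℂ) * m) := by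
  have h1 : (m : ZMod q) * a = ((m * (a.val : ℤ) : ℤ) : ZMod q) := by
    push_cast; simp
  rw [h1, ZMod.stdAddChar_coe]
  congr 1
  have hq : ((q : ℕ) : ℂ) ≠ 0 := by exact_mod_cast NeZero.ne q
  push_cast
  field_simp

lemma hasSum_char_odd (a : ZMod q) {y : ℝ} (hy : 0 < y) :
    HasSum (fun m : ℤ => (ZMod.stdAddChar ((m : ZMod q) * a) : ℂ) *
      ((m : ℂ) * (Real.exp (-Real.pi * (m : ℝ) ^ 2 * y) : ℝ)))
      (Complex.I * ((y ^ (-(3 / 2) : ℝ) : ℝ) : ℂ) *
        ((oddKernel ((a.val / q : ℝ) : UnitAddCircle) (1 / y) : ℝ) : ℂ)) := by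
  have h := (hasSum_int_sinKernel (a.val / q : ℝ) hy).mul_left Complex.I
  have hfe := oddKernel_functional_equation ((a.val / q : ℝ) : UnitAddCircle) (1 / y)
  rw [one_div_one_div] at hfe
  have e1 : (y ^ (-(3 / 2) : ℝ) : ℝ) * oddKernel ((a.val / q : ℝ) : UnitAddCircle) (1 / y)
      = sinKernel ((a.val / q : ℝ) : UnitAddCircle) y := by
    rw [hfe, one_div y, Real.inv_rpow hy.le, one_div_inv_eq, ← mul_assoc, ← Real.rpow_add hy]
    simp
  rw [mul_assoc, ← Complex.ofReal_mul, e1]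
  refine hs_congr (fun m => ?_) h
  rw [stdAddChar_mul]
  have : Complex.I * (-Complex.I * (m : ℂ) * Complex.exp (2 * Real.pi * Complex.I * ((a.val / q : ℝ) : ℂ) * m) *
      (Real.exp (-Real.pi * (m : ℝ) ^ 2 * y) : ℝ))
      = -(Complex.I * Complex.I) * (Complex.exp (2 * Real.pi * Complex.I * ((a.val / q : ℝ) : ℂ) * m) *
        ((m : ℂ) * (Real.exp (-Real.pi * (m : ℝ) ^ 2 * y) : ℝ))) := by ring
  rw [this, Complex.I_mul_I]
  ring

lemma hasSum_char_even (a : ZMod q) {y : ℝ} (hy : 0 < y) :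
    HasSum (fun m : ℤ => (ZMod.stdAddChar ((m : ZMod q) * a) : ℂ) *
      ((Real.exp (-Real.pi * (m : ℝ) ^ 2 * y) : ℝ) : ℂ))
      (((y ^ (-(1 / 2) : ℝ) : ℝ) : ℂ) *
        ((evenKernel ((a.val / q : ℝ) : UnitAddCircle) (1 / y) : ℝ) : ℂ)) := by
  have h := (hasSum_int_cosKernel (a.val / q : ℝ) hy)
  have hfe := evenKernel_functional_equation ((a.val / q : ℝ) : UnitAddCircle) (1 / y)
  rw [one_div_one_div] at hfe
  have e1 : (y ^ (-(1 / 2) : ℝ) : ℝ) * evenKernel ((a.val / q : ℝ) : UnitAddCircle) (1 / y)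
      = cosKernel ((a.val / q : ℝ) : UnitAddCircle) y := by
    rw [hfe, one_div y, Real.inv_rpow hy.le, one_div_inv_eq, ← mul_assoc, ← Real.rpow_add hy]
    simp
  rw [← Complex.ofReal_mul, e1]
  refine hs_congr (fun m => ?_) h
  rw [stdAddChar_mul]

/-- the common value -/
theorem theta2 (φt : ZMod q → ZMod q → ℂ) {y : ℝ} (hy : 0 < y) :
    ∃ R : ℂ,
      HasSum (fun p : ℤ × ℤ => φt p.1 p.2 * ((p.1 : ℂ) *
        ((Real.exp (-Real.pi * ((p.1 : ℝ) ^ 2 + (p.2 : ℝ) ^ 2) * (1 / (q ^ 2 * y))) : ℝ) : ℂ))) R ∧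
      HasSum (fun p : ℤ × ℤ => (∑ a : ZMod q, ∑ b : ZMod q, φt a b *
          (ZMod.stdAddChar ((p.1 : ZMod q) * a + (p.2 : ZMod q) * b) : ℂ)) * ((p.1 : ℂ) *
        ((Real.exp (-Real.pi * ((p.1 : ℝ) ^ 2 + (p.2 : ℝ) ^ 2) * y) : ℝ) : ℂ)))
        (Complex.I / (q * y ^ 2) * R) := by
  have hq : (q : ℝ) ≠ 0 := by exact_mod_cast NeZero.ne q
  have hqc : (q : ℂ) ≠ 0 := by exact_mod_cast NeZero.ne q
  have hyc : (y : ℂ) ≠ 0 := by exact_mod_cast hy.ne'
  have hX : 0 < 1 / y := by positivity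
  set O : ZMod q → ℝ := fun a => oddKernel ((a.val / q : ℝ) : UnitAddCircle) (1 / y) with hO
  set V : ZMod q → ℝ := fun a => evenKernel ((a.val / q : ℝ) : UnitAddCircle) (1 / y) with hV
  refine ⟨∑ a : ZMod q, ∑ b : ZMod q, φt a b * ((q * O a : ℝ) * (V b : ℝ)), ?_, ?_⟩
  · have key : ∀ a b : ZMod q, HasSum (fun p : ℤ × ℤ => φt a b *
        ((((if (p.1 : ZMod q) = a then
          (p.1 : ℝ) * Real.exp (-Real.pi * (p.1 : ℝ) ^ 2 * ((1 / y) / q ^ 2)) else 0 : ℝ)) : ℂ) *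
        (((if (p.2 : ZMod q) = b then
          Real.exp (-Real.pi * (p.2 : ℝ) ^ 2 * ((1 / y) / q ^ 2)) else 0 : ℝ)) : ℂ)))
        (φt a b * ((q * O a : ℝ) * (V b : ℝ))) := by
      intro a b
      have h1 := Complex.hasSum_ofReal.2 (hasSum_class_odd q a hX)
      have h2 := Complex.hasSum_ofReal.2 (hasSum_class_even q b hX)
      exact hs_mul h1 h2 (φt a b)
    have := hasSum_sum (s := (univ : Finset (ZMod q))) (fun a _ =>
      hasSum_sum (s := (univ : Finset (ZMod q))) (fun b _ => key a b))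
    refine hs_congr (fun p => ?_) this
    rw [Finset.sum_eq_single (p.1 : ZMod q), Finset.sum_eq_single (p.2 : ZMod q)]
    · rw [if_pos rfl, if_pos rfl]
      have e : Real.exp (-Real.pi * ((p.1 : ℝ) ^ 2 + (p.2 : ℝ) ^ 2) * (1 / (q ^ 2 * y)))
        = Real.exp (-Real.pi * (p.1 : ℝ) ^ 2 * ((1 / y) / q ^ 2)) *
          Real.exp (-Real.pi * (p.2 : ℝ) ^ 2 * ((1 / y) / q ^ 2)) := by
        rw [← Real.exp_add]; congr 1; field_simp; ring
      rw [e]; push_cast; ring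
    · intro b _ hb
      rw [if_neg (Ne.symm hb)]; simp
    · simp
    · intro a _ ha
      refine Finset.sum_eq_zero (fun b _ => ?_)
      rw [if_neg (Ne.symm ha)]; simp
    · simp
  · have key : ∀ a b : ZMod q, HasSum (fun p : ℤ × ℤ => φt a b *
        (((ZMod.stdAddChar ((p.1 : ZMod q) * a) : ℂ) *
          ((p.1 : ℂ) * (Real.exp (-Real.pi * (p.1 : ℝ) ^ 2 * y) : ℝ))) *
        ((ZMod.stdAddChar ((p.2 : ZMod q) * b) : ℂ) *
          ((Real.exp (-Real.pi * (p.2 : ℝ) ^ 2 * y) : ℝ) : ℂ))))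
        (φt a b * ((Complex.I * ((y ^ (-(3 / 2) : ℝ) : ℝ) : ℂ) * (O a : ℂ)) *
          (((y ^ (-(1 / 2) : ℝ) : ℝ) : ℂ) * (V b : ℂ)))) := by
      intro a b
      have h1 := hasSum_char_odd q a hy
      have h2 := hasSum_char_even q b hy
      exact hs_mul h1 h2 (φt a b)
    have := hasSum_sum (s := (univ : Finset (ZMod q))) (fun a _ =>
      hasSum_sum (s := (univ : Finset (ZMod q))) (fun b _ => key a b))
    have hval : Complex.I / (q * (y : ℂ) ^ 2) * (∑ a : ZMod q, ∑ b : ZMod q, φt a b * ((q * O a : ℝ) * (V b : ℝ)))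
        = ∑ a : ZMod q, ∑ b : ZMod q, (φt a b * ((Complex.I * ((y ^ (-(3 / 2) : ℝ) : ℝ) : ℂ) * (O a : ℂ)) *
          (((y ^ (-(1 / 2) : ℝ) : ℝ) : ℂ) * (V b : ℂ)))) := by
      rw [Finset.mul_sum]
      refine Finset.sum_congr rfl (fun a _ => ?_)
      rw [Finset.mul_sum]
      refine Finset.sum_congr rfl (fun b _ => ?_)
      have e : ((y ^ (-(3 / 2) : ℝ) : ℝ) : ℂ) * ((y ^ (-(1 / 2) : ℝ) : ℝ) : ℂ) = 1 / (y : ℂ) ^ 2 := by
        rw [← Complex.ofReal_mul, ← Real.rpow_add hy]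
        have : (-(3 / 2) + -(1 / 2) : ℝ) = -2 := by norm_num
        rw [this, Real.rpow_neg hy.le]
        have h2 : y ^ (2 : ℝ) = y ^ 2 := by exact_mod_cast Real.rpow_natCast y 2
        rw [h2]; push_cast; rw [one_div]
      have e2 : (φt a b * ((Complex.I * ((y ^ (-(3 / 2) : ℝ) : ℝ) : ℂ) * (O a : ℂ)) *
          (((y ^ (-(1 / 2) : ℝ) : ℝ) : ℂ) * (V b : ℂ))))
          = φt a b * Complex.I * (O a : ℂ) * (V b : ℂ) *
            (((y ^ (-(3 / 2) : ℝ) : ℝ) : ℂ) * ((y ^ (-(1 / 2) : ℝ) : ℝ) : ℂ)) := by ring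
      rw [e2, e]
      push_cast
      field_simp
    rw [hval]
    · refine hs_congr (fun p => ?_) this
      rw [Finset.sum_mul]
      refine Finset.sum_congr rfl (fun a _ => ?_)
      rw [Finset.sum_mul]
      refine Finset.sum_congr rfl (fun b _ => ?_)
      have e : Real.exp (-Real.pi * ((p.1 : ℝ) ^ 2 + (p.2 : ℝ) ^ 2) * y)
        = Real.exp (-Real.pi * (p.1 : ℝ) ^ 2 * y) *
          Real.exp (-Real.pi * (p.2 : ℝ) ^ 2 * y) := by
        rw [← Real.exp_add]; congr 1; ring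
      rw [e, AddChar.map_add_eq_mul]; push_cast; ring
end

end Pool.Agent.H5
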