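import Mathlib
import Pool.Agent.H5.Theta2

set_option autoImplicit false

namespace Pool.Agent.H5

open Finset

section crt

variable {m n : ℕ} [NeZero m] [NeZero n]

omit [NeZero m] [NeZero n] in
lemma crt_fst (hmn : m.Coprime n) (z : ZMod (m * n)) [NeZero (m * n)] :
    (ZMod.chineseRemainder hmn z).1 = ((z.val : ℤ) : ZMod m) := by
  have h1 : z = ((z.val : ℤ) : ZMod (m * n)) := by simp
  conv_lhs => rw [h1]
  rw [map_intCast]; rfl

omit [NeZero m] [NeZero n] in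
lemma crt_snd (hmn : m.Coprime n) (z : ZMod (m * n)) [NeZero (m * n)] :
    (ZMod.chineseRemainder hmn z).2 = ((z.val : ℤ) : ZMod n) := by
  have h1 : z = ((z.val : ℤ) : ZMod (m * n)) := by simp
  conv_lhs => rw [h1]
  rw [map_intCast]; rfl

lemma crt_psi (hmn : m.Coprime n) [NeZero (m * n)] {s t : ℤ} (hst : s * n + t * m = 1)
    (z : ZMod (m * n)) :
    (ZMod.stdAddChar z : ℂ) = ZMod.stdAddChar ((s : ZMod m) * (ZMod.chineseRemainder hmn z).1)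
      * ZMod.stdAddChar ((t : ZMod n) * (ZMod.chineseRemainder hmn z).2) := by
  rw [crt_fst, crt_snd]
  have h1 : (ZMod.stdAddChar z : ℂ) = ZMod.stdAddChar ((z.val : ℤ) : ZMod (m * n)) := by simp
  rw [h1, ← Int.cast_mul, ← Int.cast_mul, ZMod.stdAddChar_coe, ZMod.stdAddChar_coe,
    ZMod.stdAddChar_coe, ← Complex.exp_add]
  congr 1
  have hm0 : ((m : ℕ) : ℂ) ≠ 0 := by exact_mod_cast NeZero.ne m
  have hn0 : ((n : ℕ) : ℂ) ≠ 0 := by exact_mod_cast NeZero.ne n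
  have hst' : (s : ℂ) * n + t * m = 1 := by exact_mod_cast hst
  push_cast
  field_simp
  linear_combination (-((z.val : ℂ))) * hst'

lemma crt2 (hmn : m.Coprime n) [NeZero (m * n)] {s t : ℤ} (hst : s * n + t * m = 1)
    (F : ZMod m → ZMod m → ℂ) (G : ZMod n → ZMod n → ℂ) (a b : ZMod (m * n)) :
    ∑ u : ZMod (m * n), ∑ v : ZMod (m * n),
      (F (ZMod.chineseRemainder hmn u).1 (ZMod.chineseRemainder hmn v).1 *
        G (ZMod.chineseRemainder hmn u).2 (ZMod.chineseRemainder hmn v).2) *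
        (ZMod.stdAddChar (a * u + b * v) : ℂ)
      = (∑ u : ZMod m, ∑ v : ZMod m, F u v
          * ZMod.stdAddChar (((s : ZMod m) * (ZMod.chineseRemainder hmn a).1) * u
            + ((s : ZMod m) * (ZMod.chineseRemainder hmn b).1) * v))
        * (∑ u : ZMod n, ∑ v : ZMod n, G u v
          * ZMod.stdAddChar (((t : ZMod n) * (ZMod.chineseRemainder hmn a).2) * u
            + ((t : ZMod n) * (ZMod.chineseRemainder hmn b).2) * v)) := by
  set e := ZMod.chineseRemainder hmn with he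
  have hsum : ∀ F : ZMod m × ZMod n → ℂ, ∑ z : ZMod (m * n), F (e z)
      = ∑ x : ZMod m, ∑ y : ZMod n, F (x, y) := by
    intro F
    exact (Equiv.sum_comp e.toEquiv F).trans (Fintype.sum_prod_type _)
  have key : ∀ u v : ZMod (m * n),
      (F (e u).1 (e v).1 * G (e u).2 (e v).2) * (ZMod.stdAddChar (a * u + b * v) : ℂ)
      = (F (e u).1 (e v).1
          * ZMod.stdAddChar (((s : ZMod m) * (e a).1) * (e u).1 + ((s : ZMod m) * (e b).1) * (e v).1))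
        * (G (e u).2 (e v).2
          * ZMod.stdAddChar (((t : ZMod n) * (e a).2) * (e u).2 + ((t : ZMod n) * (e b).2) * (e v).2)) := by
    intro u v
    rw [crt_psi hmn hst]
    simp only [map_add, map_mul, Prod.fst_add, Prod.snd_add, Prod.fst_mul, Prod.snd_mul, ← he]
    have e1 : (s : ZMod m) * ((e a).1 * (e u).1 + (e b).1 * (e v).1)
      = ((s : ZMod m) * (e a).1) * (e u).1 + ((s : ZMod m) * (e b).1) * (e v).1 := by ring
    have e2 : (t : ZMod n) * ((e a).2 * (e u).2 + (e b).2 * (e v).2)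
      = ((t : ZMod n) * (e a).2) * (e u).2 + ((t : ZMod n) * (e b).2) * (e v).2 := by ring
    rw [e1, e2]
    ring
  simp_rw [key]
  rw [hsum (fun w => ∑ v : ZMod (m * n), (F w.1 (e v).1
        * ZMod.stdAddChar (((s : ZMod m) * (e a).1) * w.1 + ((s : ZMod m) * (e b).1) * (e v).1))
      * (G w.2 (e v).2
        * ZMod.stdAddChar (((t : ZMod n) * (e a).2) * w.2 + ((t : ZMod n) * (e b).2) * (e v).2)))]
  have h2 : ∀ w : ZMod m × ZMod n, (∑ v : ZMod (m * n), (F w.1 (e v).1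
        * ZMod.stdAddChar (((s : ZMod m) * (e a).1) * w.1 + ((s : ZMod m) * (e b).1) * (e v).1))
      * (G w.2 (e v).2
        * ZMod.stdAddChar (((t : ZMod n) * (e a).2) * w.2 + ((t : ZMod n) * (e b).2) * (e v).2)))
      = (∑ x : ZMod m, (F w.1 x
        * ZMod.stdAddChar (((s : ZMod m) * (e a).1) * w.1 + ((s : ZMod m) * (e b).1) * x)))
      * (∑ y : ZMod n, (G w.2 y
        * ZMod.stdAddChar (((t : ZMod n) * (e a).2) * w.2 + ((t : ZMod n) * (e b).2) * y))) := by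
    intro w
    rw [Finset.sum_mul_sum]
    exact hsum (fun v => (F w.1 v.1
        * ZMod.stdAddChar (((s : ZMod m) * (e a).1) * w.1 + ((s : ZMod m) * (e b).1) * v.1))
      * (G w.2 v.2
        * ZMod.stdAddChar (((t : ZMod n) * (e a).2) * w.2 + ((t : ZMod n) * (e b).2) * v.2)))
  refine (Finset.sum_congr rfl (fun x _ => Finset.sum_congr rfl (fun y _ => h2 (x, y)))).trans ?_
  rw [Finset.sum_mul_sum]

end crt

section mod4

lemma psi4_one : (ZMod.stdAddChar (1 : ZMod 4) : ℂ) = Complex.I := by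
  have h : (1 : ZMod 4) = ((1 : ℤ) : ZMod 4) := by norm_num
  rw [h, ZMod.stdAddChar_coe]
  have : 2 * (Real.pi : ℂ) * Complex.I * ((1 : ℤ) : ℂ) / ((4 : ℕ) : ℂ) = Real.pi / 2 * Complex.I := by
    push_cast; ring
  rw [this, Complex.exp_pi_div_two_mul_I]

lemma psi4_two : (ZMod.stdAddChar (2 : ZMod 4) : ℂ) = -1 := by
  have h : (2 : ZMod 4) = 1 + 1 := by decide
  rw [h, AddChar.map_add_eq_mul, psi4_one, Complex.I_mul_I]

lemma psi4_three : (ZMod.stdAddChar (3 : ZMod 4) : ℂ) = -Complex.I := by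
  have h : (3 : ZMod 4) = 2 + 1 := by decide
  rw [h, AddChar.map_add_eq_mul, psi4_one, psi4_two]; ring

/-- `Re i^b` -/
def eta (b : ZMod 4) : ℤ := if b = 0 then 1 else if b = 2 then -1 else 0
def bev (b : ZMod 4) : ℤ := if b = 0 ∨ b = 2 then 1 else 0
def bod (b : ZMod 4) : ℤ := if b = 1 ∨ b = 3 then 1 else 0

lemma sum_chi4 (c : ZMod 4) : ∑ a : ZMod 4, ((ZMod.χ₄ a : ℤ) : ℂ) * ZMod.stdAddChar (c * a)
    = 2 * Complex.I * ((ZMod.χ₄ c : ℤ) : ℂ) := by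
  have h0 : ZMod.χ₄ (0 : ZMod 4) = 0 := by decide
  have h1 : ZMod.χ₄ (1 : ZMod 4) = 1 := by decide
  have h2 : ZMod.χ₄ (2 : ZMod 4) = 0 := by decide
  have h3 : ZMod.χ₄ (3 : ZMod 4) = -1 := by decide
  have hu : ∀ f : ZMod 4 → ℂ, ∑ a : ZMod 4, f a = f 0 + f 1 + f 2 + f 3 := fun f => Fin.sum_univ_four f
  rw [hu, h0, h1, h2, h3]
  have e3 : (3 : ZMod 4) * 3 = 1 := by decide
  have e2 : (2 : ZMod 4) * 3 = 2 := by decide
  rcases (show c = 0 ∨ c = 1 ∨ c = 2 ∨ c = 3 by revert c; decide) with rfl | rfl | rfl | rfl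
  · rw [h0]; simp
  · rw [h1]; simp only [one_mul]; rw [psi4_one, psi4_three]; push_cast; ring
  · rw [h2, e2, mul_one, psi4_two]; push_cast; ring
  · rw [h3, e3, mul_one, psi4_one, psi4_three]; push_cast; ring

lemma sum_bod (c : ZMod 4) : ∑ a : ZMod 4, ((bod a : ℤ) : ℂ) * ZMod.stdAddChar (c * a)
    = 2 * ((eta c : ℤ) : ℂ) := by
  have h0 : bod (0 : ZMod 4) = 0 := by decide
  have h1 : bod (1 : ZMod 4) = 1 := by decide
  have h2 : bod (2 : ZMod 4) = 0 := by decide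
  have h3 : bod (3 : ZMod 4) = 1 := by decide
  have hu : ∀ f : ZMod 4 → ℂ, ∑ a : ZMod 4, f a = f 0 + f 1 + f 2 + f 3 := fun f => Fin.sum_univ_four f
  rw [hu, h0, h1, h2, h3]
  have e3 : (3 : ZMod 4) * 3 = 1 := by decide
  have e2 : (2 : ZMod 4) * 3 = 2 := by decide
  have g0 : eta (0 : ZMod 4) = 1 := by decide
  have g1 : eta (1 : ZMod 4) = 0 := by decide
  have g2 : eta (2 : ZMod 4) = -1 := by decide
  have g3 : eta (3 : ZMod 4) = 0 := by decide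
  rcases (show c = 0 ∨ c = 1 ∨ c = 2 ∨ c = 3 by revert c; decide) with rfl | rfl | rfl | rfl
  · rw [g0]; simp; norm_num
  · rw [g1]; simp only [one_mul]; rw [psi4_one, psi4_three]; push_cast; ring
  · rw [g2, e2, mul_one, psi4_two]; push_cast; ring
  · rw [g3, e3, mul_one, psi4_one, psi4_three]; push_cast; ring

lemma sum_bev (c : ZMod 4) : ∑ a : ZMod 4, ((bev a : ℤ) : ℂ) * ZMod.stdAddChar (c * a)
    = 2 * ((bev c : ℤ) : ℂ) := by
  have h0 : bev (0 : ZMod 4) = 1 := by decide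
  have h1 : bev (1 : ZMod 4) = 0 := by decide
  have h2 : bev (2 : ZMod 4) = 1 := by decide
  have h3 : bev (3 : ZMod 4) = 0 := by decide
  have hu : ∀ f : ZMod 4 → ℂ, ∑ a : ZMod 4, f a = f 0 + f 1 + f 2 + f 3 := fun f => Fin.sum_univ_four f
  rw [hu, h0, h1, h2, h3]
  have e3 : (3 : ZMod 4) * 2 = 2 := by decide
  have e2 : (2 : ZMod 4) * 2 = 0 := by decide
  rcases (show c = 0 ∨ c = 1 ∨ c = 2 ∨ c = 3 by revert c; decide) with rfl | rfl | rfl | rfl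
  · rw [h0]; simp; norm_num
  · rw [h1]; simp only [one_mul]; rw [psi4_two]; simp
  · rw [h2, e2]; simp; norm_num
  · rw [h3, e3, psi4_two]; simp

end mod4

section main

variable (δ : ℕ) [NeZero δ]

lemma cop4 {δ : ℕ} (hodd : Odd δ) : Nat.Coprime 4 δ := by
  have : Nat.Coprime 2 δ := (Nat.coprime_two_left).2 hodd
  exact Nat.Coprime.pow_left 2 this

lemma phi_eval (hodd : Odd δ) (hsf : Squarefree δ) [NeZero (4 * δ)] (β β' : ZMod 4 → ℤ)
    (hβ : ∀ c : ZMod 4, ∑ a : ZMod 4, ((β a : ℤ) : ℂ) * ZMod.stdAddChar (c * a) = 2 * ((β' c : ℤ) : ℂ))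
    (hβ' : ∀ s c : ZMod 4, (s = 1 ∨ s = 3) → β' (s * c) = β' c) (m k : ℤ) :
    ∑ u : ZMod (4 * δ), ∑ v : ZMod (4 * δ),
      ((((ZMod.χ₄ (ZMod.chineseRemainder (cop4 hodd) u).1 : ℤ) : ℂ) *
        ((β (ZMod.chineseRemainder (cop4 hodd) v).1 : ℤ) : ℂ)) *
        ((JZ δ ((ZMod.chineseRemainder (cop4 hodd) u).2 ^ 2 +
          (ZMod.chineseRemainder (cop4 hodd) v).2 ^ 2) : ℤ) : ℂ)) *
        (ZMod.stdAddChar ((m : ZMod (4 * δ)) * u + (k : ZMod (4 * δ)) * v) : ℂ)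
      = 4 * Complex.I * δ * ((ZMod.χ₄ (δ : ZMod 4) : ℤ) : ℂ) * (((ZMod.χ₄ (m : ZMod 4) : ℤ) : ℂ) *
          ((β' (k : ZMod 4) : ℤ) : ℂ) * ((jacobiSym (m ^ 2 + k ^ 2) δ : ℤ) : ℂ)) := by
  -- Bezout
  obtain ⟨s, t, hst⟩ : ∃ s t : ℤ, s * δ + t * (4 : ℕ) = 1 := by
    obtain ⟨a, b, h⟩ := Nat.isCoprime_iff_coprime.2 (cop4 hodd)
    exact ⟨b, a, by linarith⟩
  have htu : IsUnit ((t : ℤ) : ZMod δ) := by
    have : ((t : ℤ) : ZMod δ) * ((4 : ℕ) : ZMod δ) = 1 := by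
      have := congrArg (fun x : ℤ => (x : ZMod δ)) hst
      push_cast at this
      simpa using this
    exact IsUnit.of_mul_eq_one _ this
  have hsδ : ((s : ℤ) : ZMod 4) * (δ : ZMod 4) = 1 := by
    have := congrArg (fun x : ℤ => (x : ZMod 4)) hst
    push_cast at this
    have h4 : (4 : ZMod 4) = 0 := by decide
    rw [h4] at this
    simpa using this
  have hs13 : ((s : ℤ) : ZMod 4) = 1 ∨ ((s : ℤ) : ZMod 4) = 3 := by
    generalize ((s : ℤ) : ZMod 4) = x at hsδ ⊢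
    generalize (δ : ZMod 4) = y at hsδ
    revert x y; decide
  have hχs : ZMod.χ₄ ((s : ℤ) : ZMod 4) = ZMod.χ₄ (δ : ZMod 4) := by
    generalize ((s : ℤ) : ZMod 4) = x at hsδ ⊢
    generalize (δ : ZMod 4) = y at hsδ ⊢
    revert x y; decide
  have h := crt2 (cop4 hodd) hst (fun u v => ((ZMod.χ₄ u : ℤ) : ℂ) * ((β v : ℤ) : ℂ))
    (fun u v => ((JZ δ (u ^ 2 + v ^ 2) : ℤ) : ℂ)) (m : ZMod (4 * δ)) (k : ZMod (4 * δ))
  rw [h, SD_of_squarefree δ hodd hsf]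
  have e1 : (ZMod.chineseRemainder (cop4 hodd) (m : ZMod (4 * δ))) = ((m : ZMod 4), (m : ZMod δ)) := by
    rw [map_intCast]; rfl
  have e2 : (ZMod.chineseRemainder (cop4 hodd) (k : ZMod (4 * δ))) = ((k : ZMod 4), (k : ZMod δ)) := by
    rw [map_intCast]; rfl
  rw [e1, e2]
  simp only
  have e3 : ((t : ZMod δ) * (m : ZMod δ)) ^ 2 + ((t : ZMod δ) * (k : ZMod δ)) ^ 2
    = (t : ZMod δ) ^ 2 * (((m ^ 2 + k ^ 2 : ℤ)) : ZMod δ) := by push_cast; ring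
  rw [e3, JZ_mul_sq htu, JZ_intCast]
  have e4 : ∑ u : ZMod 4, ∑ v : ZMod 4, ((ZMod.χ₄ u : ℤ) : ℂ) * ((β v : ℤ) : ℂ) *
      (ZMod.stdAddChar ((s : ZMod 4) * (m : ZMod 4) * u + (s : ZMod 4) * (k : ZMod 4) * v) : ℂ)
      = (2 * Complex.I * ((ZMod.χ₄ ((s : ZMod 4) * (m : ZMod 4)) : ℤ) : ℂ)) *
        (2 * ((β' ((s : ZMod 4) * (k : ZMod 4)) : ℤ) : ℂ)) := by
    rw [← sum_chi4, ← hβ, Finset.sum_mul_sum]
    refine Finset.sum_congr rfl (fun u _ => Finset.sum_congr rfl (fun v _ => ?_))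
    rw [AddChar.map_add_eq_mul]; ring
  rw [e4, hβ' _ _ hs13, map_mul, hχs]
  push_cast
  ring

/-- the lattice term -/
noncomputable def W (β : ZMod 4 → ℤ) (y : ℝ) (p : ℤ × ℤ) : ℝ :=
  ((ZMod.χ₄ (p.1 : ZMod 4) : ℤ) : ℝ) * ((β (p.2 : ZMod 4) : ℤ) : ℝ) *
    ((jacobiSym (p.1 ^ 2 + p.2 ^ 2) δ : ℤ) : ℝ) * (p.1 : ℝ) *
    Real.exp (-Real.pi * ((p.1 : ℝ) ^ 2 + (p.2 : ℝ) ^ 2) * y)

lemma W_transform (hodd : Odd δ) (hsf : Squarefree δ) (β β' : ZMod 4 → ℤ)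
    (hβ : ∀ c : ZMod 4, ∑ a : ZMod 4, ((β a : ℤ) : ℂ) * ZMod.stdAddChar (c * a) = 2 * ((β' c : ℤ) : ℂ))
    (hβ' : ∀ s c : ZMod 4, (s = 1 ∨ s = 3) → β' (s * c) = β' c) {y : ℝ} (hy : 0 < y) :
    ∃ R : ℝ, HasSum (W δ β (1 / (16 * δ ^ 2 * y))) R ∧
      HasSum (W δ β' y) (((ZMod.χ₄ (δ : ZMod 4) : ℤ) : ℝ) / (16 * δ ^ 2 * y ^ 2) * R) := by
  have hδ : (δ : ℝ) ≠ 0 := by exact_mod_cast NeZero.ne δ
  have hδc : (δ : ℂ) ≠ 0 := by exact_mod_cast NeZero.ne δ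
  have hyc : (y : ℂ) ≠ 0 := by exact_mod_cast hy.ne'
  have : NeZero (4 * δ) := ⟨mul_ne_zero (by norm_num) (NeZero.ne δ)⟩
  obtain ⟨R, h1, h2⟩ := theta2 (4 * δ) (fun u v =>
      ((((ZMod.χ₄ (ZMod.chineseRemainder (cop4 hodd) u).1 : ℤ) : ℂ) *
        ((β (ZMod.chineseRemainder (cop4 hodd) v).1 : ℤ) : ℂ)) *
        ((JZ δ ((ZMod.chineseRemainder (cop4 hodd) u).2 ^ 2 +
          (ZMod.chineseRemainder (cop4 hodd) v).2 ^ 2) : ℤ) : ℂ))) hy
  have h1' : HasSum (fun p : ℤ × ℤ => ((W δ β (1 / (16 * δ ^ 2 * y)) p : ℝ) : ℂ)) R := by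
    refine hs_congr (fun p => ?_) h1
    have e1 : (ZMod.chineseRemainder (cop4 hodd) (p.1 : ZMod (4 * δ))) = ((p.1 : ZMod 4), (p.1 : ZMod δ)) := by
      rw [map_intCast]; rfl
    have e2 : (ZMod.chineseRemainder (cop4 hodd) (p.2 : ZMod (4 * δ))) = ((p.2 : ZMod 4), (p.2 : ZMod δ)) := by
      rw [map_intCast]; rfl
    rw [e1, e2]
    simp only
    have e3 : (p.1 : ZMod δ) ^ 2 + (p.2 : ZMod δ) ^ 2 = (((p.1 ^ 2 + p.2 ^ 2 : ℤ)) : ZMod δ) := by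
      push_cast; ring
    rw [e3, JZ_intCast]
    unfold W
    have e4 : (1 / (((4 * δ : ℕ) : ℝ) ^ 2 * y)) = 1 / (16 * δ ^ 2 * y) := by push_cast; ring
    rw [e4]
    push_cast
    ring
  have hR : R = ((R.re : ℝ) : ℂ) := by
    have him := Complex.hasSum_im h1'
    simp only [Complex.ofReal_im] at him
    have : R.im = 0 := him.unique hasSum_zero
    apply Complex.ext <;> simp [this]
  refine ⟨R.re, ?_, ?_⟩
  · rw [hR] at h1'
    exact Complex.hasSum_ofReal.1 h1'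
  · rw [← Complex.hasSum_ofReal]
    have hχ : ((ZMod.χ₄ (δ : ZMod 4) : ℤ) : ℂ) * ((ZMod.χ₄ (δ : ZMod 4) : ℤ) : ℂ) = 1 := by
      have : (ZMod.χ₄ (δ : ZMod 4)) * (ZMod.χ₄ (δ : ZMod 4)) = 1 := by
        have h2 : (δ : ZMod 4) = 1 ∨ (δ : ZMod 4) = 3 := by
          obtain ⟨k, hk⟩ := hodd
          rw [hk]; push_cast
          generalize (k : ZMod 4) = x
          revert x; decide
        rcases h2 with h2 | h2 <;> rw [h2] <;> decide
      exact_mod_cast this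
    have h3 := h2.mul_left (((ZMod.χ₄ (δ : ZMod 4) : ℤ) : ℂ) / (4 * Complex.I * δ))
    have hval : (((ZMod.χ₄ (δ : ZMod 4) : ℤ) : ℂ) / (4 * Complex.I * δ)) *
        (Complex.I / (((4 * δ : ℕ) : ℂ) * (y : ℂ) ^ 2) * R)
        = ((((ZMod.χ₄ (δ : ZMod 4) : ℤ) : ℝ) / (16 * δ ^ 2 * y ^ 2) * R.re : ℝ) : ℂ) := by
      rw [hR]
      push_cast
      have hI : Complex.I ≠ 0 := Complex.I_ne_zero
      simp only [Complex.ofReal_re]
      field_simp
      ring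
    rw [hval] at h3
    refine hs_congr (fun p => ?_) h3
    rw [phi_eval δ hodd hsf β β' hβ hβ']
    unfold W
    push_cast
    have hI : Complex.I ≠ 0 := Complex.I_ne_zero
    field_simp
    linear_combination (-(((ZMod.χ₄ (p.1 : ZMod 4) : ℤ) : ℂ) * ((β' (p.2 : ZMod 4) : ℤ) : ℂ) *
      ((jacobiSym (p.1 ^ 2 + p.2 ^ 2) δ : ℤ) : ℂ) * (p.1 : ℂ))) * hχ

end main

end Pool.Agent.H5
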