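import Mathlib
import Pool.Agent.H5.Theta3
import Pool.Agent.H5.Euler

set_option autoImplicit false

namespace Pool.Agent.H5

open Finset

section rotation

variable (δ : ℕ) [NeZero δ]

lemma chi_dec : ∀ m k : ZMod 4, ZMod.χ₄ (m - k) * bod (m + k)
    = ZMod.χ₄ m * eta k - eta m * ZMod.χ₄ k := by decide

lemma chi_neg : ∀ m : ZMod 4, ZMod.χ₄ (-m) = -ZMod.χ₄ m := by decide

lemma eta_neg : ∀ m : ZMod 4, eta (-m) = eta m := by decide

omit [NeZero δ] in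
lemma rotation {y R S : ℝ} (hR : HasSum (W δ bod y) R) (hS : HasSum (W δ eta (2 * y)) S) :
    R = ((jacobiSym 2 δ : ℤ) : ℝ) * (2 * S) := by
  set ι : ℤ × ℤ → ℤ × ℤ := fun p => (p.1 - p.2, p.1 + p.2) with hι
  have hinj : Function.Injective ι := by
    rintro ⟨a, b⟩ ⟨c, d⟩ h
    simp only [hι, Prod.mk.injEq] at h
    ext <;> simp <;> omega
  have h1 : HasSum (W δ bod y ∘ ι) R := by
    rw [Function.Injective.hasSum_iff hinj]
    · exact hR
    · rintro ⟨n, l⟩ hx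
      unfold W
      by_cases hn : (n : ZMod 4) = 1 ∨ (n : ZMod 4) = 3
      · by_cases hl : (l : ZMod 4) = 1 ∨ (l : ZMod 4) = 3
        · exfalso
          apply hx
          have hn2 : n % 2 = 1 := by
            rcases hn with h | h
            · have : ((n : ℤ) : ZMod 4) = ((1 : ℤ) : ZMod 4) := by rw [h]; simp
              rw [ZMod.intCast_eq_intCast_iff] at this
              have := this.symm.dvd; norm_num at this; omega
            · have : ((n : ℤ) : ZMod 4) = ((3 : ℤ) : ZMod 4) := by rw [h]; simp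
              rw [ZMod.intCast_eq_intCast_iff] at this
              have := this.symm.dvd; norm_num at this; omega
          have hl2 : l % 2 = 1 := by
            rcases hl with h | h
            · have : ((l : ℤ) : ZMod 4) = ((1 : ℤ) : ZMod 4) := by rw [h]; simp
              rw [ZMod.intCast_eq_intCast_iff] at this
              have := this.symm.dvd; norm_num at this; omega
            · have : ((l : ℤ) : ZMod 4) = ((3 : ℤ) : ZMod 4) := by rw [h]; simp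
              rw [ZMod.intCast_eq_intCast_iff] at this
              have := this.symm.dvd; norm_num at this; omega
          refine ⟨((n + l) / 2, (l - n) / 2), ?_⟩
          simp only [hι, Prod.mk.injEq]
          omega
        · have : bod (l : ZMod 4) = 0 := by
            unfold bod; rw [if_neg hl]
          simp [this]
      · have : ZMod.χ₄ (n : ZMod 4) = 0 := by
          generalize (n : ZMod 4) = x at hn
          revert x; decide
        simp [this]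
  set D : ℤ × ℤ → ℝ := fun p => -(((ZMod.χ₄ (p.1 : ZMod 4) : ℤ) : ℝ) * ((eta (p.2 : ZMod 4) : ℤ) : ℝ) * (p.2 : ℝ)
      + ((eta (p.1 : ZMod 4) : ℤ) : ℝ) * ((ZMod.χ₄ (p.2 : ZMod 4) : ℤ) : ℝ) * (p.1 : ℝ)) *
    (((jacobiSym (p.1 ^ 2 + p.2 ^ 2) δ : ℤ) : ℝ) *
    Real.exp (-Real.pi * ((p.1 : ℝ) ^ 2 + (p.2 : ℝ) ^ 2) * (2 * y))) with hD
  have hpt : ∀ p, ((jacobiSym 2 δ : ℤ) : ℝ) * D p = (W δ bod y ∘ ι) p
      - ((jacobiSym 2 δ : ℤ) : ℝ) * (W δ eta (2 * y) p + W δ eta (2 * y) p.swap) := by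
    rintro ⟨m, k⟩
    simp only [Function.comp_apply, hι, hD, W, Prod.swap_prod_mk]
    have e1 : (m - k) ^ 2 + (m + k) ^ 2 = 2 * (m ^ 2 + k ^ 2) := by ring
    have e2 : ((m - k : ℤ) : ℝ) ^ 2 + ((m + k : ℤ) : ℝ) ^ 2 = 2 * ((m : ℝ) ^ 2 + (k : ℝ) ^ 2) := by
      push_cast; ring
    have e3 : -Real.pi * (2 * ((m : ℝ) ^ 2 + (k : ℝ) ^ 2)) * y
      = -Real.pi * ((m : ℝ) ^ 2 + (k : ℝ) ^ 2) * (2 * y) := by ring
    have e4 : -Real.pi * ((k : ℝ) ^ 2 + (m : ℝ) ^ 2) * (2 * y)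
      = -Real.pi * ((m : ℝ) ^ 2 + (k : ℝ) ^ 2) * (2 * y) := by ring
    have e5 : k ^ 2 + m ^ 2 = m ^ 2 + k ^ 2 := by ring
    have hχ := chi_dec (m : ZMod 4) (k : ZMod 4)
    have hχ' : ((ZMod.χ₄ ((m : ZMod 4) - (k : ZMod 4)) : ℤ) : ℝ) * ((bod ((m : ZMod 4) + (k : ZMod 4)) : ℤ) : ℝ)
      = ((ZMod.χ₄ (m : ZMod 4) : ℤ) : ℝ) * ((eta (k : ZMod 4) : ℤ) : ℝ)
        - ((eta (m : ZMod 4) : ℤ) : ℝ) * ((ZMod.χ₄ (k : ZMod 4) : ℤ) : ℝ) := by exact_mod_cast hχ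
    rw [e1, e2, e3, e4, e5, jacobiSym.mul_left]
    have e6 : ((m - k : ℤ) : ZMod 4) = (m : ZMod 4) - (k : ZMod 4) := by push_cast; ring
    have e7 : ((m + k : ℤ) : ZMod 4) = (m : ZMod 4) + (k : ZMod 4) := by push_cast; ring
    rw [e6, e7, hχ']
    push_cast
    ring
  have hSs : HasSum (fun p : ℤ × ℤ => W δ eta (2 * y) p.swap) S :=
    (Equiv.hasSum_iff (Equiv.prodComm ℤ ℤ)).2 hS
  have hDs : HasSum (fun p => ((jacobiSym 2 δ : ℤ) : ℝ) * D p)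
      (R - ((jacobiSym 2 δ : ℤ) : ℝ) * (S + S)) :=
    hs_congr hpt (h1.sub ((hS.add hSs).mul_left _))
  have hneg : HasSum (fun p : ℤ × ℤ => ((jacobiSym 2 δ : ℤ) : ℝ) * D (-p.1, p.2))
      (R - ((jacobiSym 2 δ : ℤ) : ℝ) * (S + S)) :=
    (Equiv.hasSum_iff ((Equiv.neg ℤ).prodCongr (Equiv.refl ℤ))).2 hDs
  have hanti : ∀ p : ℤ × ℤ, ((jacobiSym 2 δ : ℤ) : ℝ) * D (-p.1, p.2)
      = -(((jacobiSym 2 δ : ℤ) : ℝ) * D p) := by
    rintro ⟨m, k⟩
    simp only [hD]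
    have e1 : (-m) ^ 2 + k ^ 2 = m ^ 2 + k ^ 2 := by ring
    have e2 : ((-m : ℤ) : ℝ) = -(m : ℝ) := by push_cast; ring
    have e3 : ((-m : ℤ) : ZMod 4) = -(m : ZMod 4) := by push_cast; ring
    rw [e1, e2, e3, chi_neg, eta_neg]
    have e4 : (-(m : ℝ)) ^ 2 = (m : ℝ) ^ 2 := by ring
    rw [e4]
    push_cast
    ring
  have h2 := (hs_congr (fun p => (hanti p).symm) hneg).unique hDs.neg
  linarith

end rotation

section regroup

/-- lattice points on the circle of radius `√n` -/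
noncomputable def Lat (n : ℕ) : Finset (ℤ × ℤ) :=
  ((Finset.Icc (-(n : ℤ)) n) ×ˢ (Finset.Icc (-(n : ℤ)) n)).filter (fun p => p.1 ^ 2 + p.2 ^ 2 = n)

lemma mem_Lat {n : ℕ} {p : ℤ × ℤ} : p ∈ Lat n ↔ p.1 ^ 2 + p.2 ^ 2 = n := by
  unfold Lat
  rw [Finset.mem_filter]
  constructor
  · exact fun h => h.2
  · intro h
    refine ⟨?_, h⟩
    rw [Finset.mem_product, Finset.mem_Icc, Finset.mem_Icc]
    have habs : ∀ a : ℤ, |a| ≤ a ^ 2 := by
      intro a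
      rcases eq_or_ne a 0 with rfl | ha
      · simp
      · have h1 : 1 ≤ |a| := Int.one_le_abs ha
        rw [← sq_abs a]
        nlinarith
    have h1 : |p.1| ≤ p.1 ^ 2 := habs _
    have h2 : |p.2| ≤ p.2 ^ 2 := habs _
    have h3 := abs_le.1 (h1.trans (by nlinarith [sq_nonneg p.2] : p.1 ^ 2 ≤ (n : ℤ)))
    have h4 := abs_le.1 (h2.trans (by nlinarith [sq_nonneg p.1] : p.2 ^ 2 ≤ (n : ℤ)))
    exact ⟨h3, h4⟩

lemma chi_cases (A : ℤ) : (A % 4 = 0 ∧ ZMod.χ₄ (A : ZMod 4) = 0) ∨ (A % 4 = 1 ∧ ZMod.χ₄ (A : ZMod 4) = 1) ∨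
    (A % 4 = 2 ∧ ZMod.χ₄ (A : ZMod 4) = 0) ∨ (A % 4 = 3 ∧ ZMod.χ₄ (A : ZMod 4) = -1) := by
  have hA : (A : ZMod 4) = ((A % 4 : ℤ) : ZMod 4) := by
    rw [ZMod.intCast_eq_intCast_iff]; exact (Int.mod_modEq A 4).symm
  rcases (by omega : A % 4 = 0 ∨ A % 4 = 1 ∨ A % 4 = 2 ∨ A % 4 = 3) with h | h | h | h
  · left; refine ⟨h, ?_⟩; rw [hA, h]; decide
  · right; left; refine ⟨h, ?_⟩; rw [hA, h]; decide
  · right; right; left; refine ⟨h, ?_⟩; rw [hA, h]; decide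
  · right; right; right; refine ⟨h, ?_⟩; rw [hA, h]; decide

lemma eta_cases (A : ℤ) : (A % 4 = 0 ∧ eta (A : ZMod 4) = 1) ∨ (A % 4 = 1 ∧ eta (A : ZMod 4) = 0) ∨
    (A % 4 = 2 ∧ eta (A : ZMod 4) = -1) ∨ (A % 4 = 3 ∧ eta (A : ZMod 4) = 0) := by
  have hA : (A : ZMod 4) = ((A % 4 : ℤ) : ZMod 4) := by
    rw [ZMod.intCast_eq_intCast_iff]; exact (Int.mod_modEq A 4).symm
  rcases (by omega : A % 4 = 0 ∨ A % 4 = 1 ∨ A % 4 = 2 ∨ A % 4 = 3) with h | h | h | h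
  · left; refine ⟨h, ?_⟩; rw [hA, h]; decide
  · right; left; refine ⟨h, ?_⟩; rw [hA, h]; decide
  · right; right; left; refine ⟨h, ?_⟩; rw [hA, h]; decide
  · right; right; right; refine ⟨h, ?_⟩; rw [hA, h]; decide

lemma bev_cases (A : ℤ) : (A % 4 = 0 ∧ bev (A : ZMod 4) = 1) ∨ (A % 4 = 1 ∧ bev (A : ZMod 4) = 0) ∨
    (A % 4 = 2 ∧ bev (A : ZMod 4) = 1) ∨ (A % 4 = 3 ∧ bev (A : ZMod 4) = 0) := by
  have hA : (A : ZMod 4) = ((A % 4 : ℤ) : ZMod 4) := by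
    rw [ZMod.intCast_eq_intCast_iff]; exact (Int.mod_modEq A 4).symm
  rcases (by omega : A % 4 = 0 ∨ A % 4 = 1 ∨ A % 4 = 2 ∨ A % 4 = 3) with h | h | h | h
  · left; refine ⟨h, ?_⟩; rw [hA, h]; decide
  · right; left; refine ⟨h, ?_⟩; rw [hA, h]; decide
  · right; right; left; refine ⟨h, ?_⟩; rw [hA, h]; decide
  · right; right; right; refine ⟨h, ?_⟩; rw [hA, h]; decide

open Classical in
lemma chi_eta_point (A B : ℤ) : ZMod.χ₄ (A : ZMod 4) * eta (B : ZMod 4) * A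
    = (if Primary ⟨A, B⟩ then A else 0) + (if Primary ⟨-A, -B⟩ then -A else 0) := by
  have h1 : Primary ⟨A, B⟩ ↔ (B % 2 = 0 ∧ (A + B) % 4 = 1) := Iff.rfl
  have h2 : Primary ⟨-A, -B⟩ ↔ ((-B) % 2 = 0 ∧ (-A + -B) % 4 = 1) := Iff.rfl
  rw [h1, h2]
  rcases chi_cases A with ⟨ha, hX⟩ | ⟨ha, hX⟩ | ⟨ha, hX⟩ | ⟨ha, hX⟩ <;>
  rcases eta_cases B with ⟨hb, hY⟩ | ⟨hb, hY⟩ | ⟨hb, hY⟩ | ⟨hb, hY⟩ <;>
  rw [hX, hY] <;> split_ifs <;> omega

lemma sum_Lat (n : ℕ) : ∑ p ∈ Lat n, ZMod.χ₄ (p.1 : ZMod 4) * eta (p.2 : ZMod 4) * p.1 = 2 * c n := by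
  classical
  rw [Finset.sum_congr rfl (fun p _ => chi_eta_point p.1 p.2), Finset.sum_add_distrib]
  have h1 : ∑ p ∈ Lat n, (if Primary ⟨p.1, p.2⟩ then p.1 else 0) = c n := by
    rw [c_eq_sum, ← Finset.sum_filter]
    refine Finset.sum_bij' (fun p _ => (⟨p.1, p.2⟩ : GI)) (fun z _ => (z.re, z.im)) ?_ ?_ ?_ ?_ ?_
    · intro p hp
      rw [Finset.mem_filter, mem_Lat] at hp
      rw [mem_P, norm_def]
      exact ⟨hp.2, hp.1⟩
    · intro z hz
      rw [mem_P, norm_def] at hz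
      rw [Finset.mem_filter, mem_Lat]
      exact ⟨hz.2, hz.1⟩
    · intro p _; rfl
    · intro z _; rfl
    · intro p _; rfl
  have h2 : ∑ p ∈ Lat n, (if Primary ⟨-p.1, -p.2⟩ then -p.1 else 0) = c n := by
    rw [← h1]
    refine Finset.sum_bij' (fun p _ => -p) (fun p _ => -p) ?_ ?_ ?_ ?_ ?_
    · intro p hp
      rw [mem_Lat] at hp ⊢
      simpa using hp
    · intro p hp
      rw [mem_Lat] at hp ⊢
      simpa using hp
    · intro p _; simp
    · intro p _; simp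
    · intro p _; simp
  rw [h1, h2]; ring

/-- general regrouping -/
lemma regroup {F : ℤ × ℤ → ℝ} {T : ℝ} (hF : HasSum F T) (g : ℕ → ℝ)
    (hg : ∀ n, ∑ p ∈ Lat n, F p = g n) : HasSum g T := by
  have h := hF.tsum_fiberwise (fun p : ℤ × ℤ => (p.1 ^ 2 + p.2 ^ 2).toNat)
  refine hs_congr (fun n => ?_) h
  rw [← hg n]
  have hset : ((fun p : ℤ × ℤ => (p.1 ^ 2 + p.2 ^ 2).toNat) ⁻¹' {n} : Set (ℤ × ℤ)) = (Lat n : Set (ℤ × ℤ)) := by
    ext p
    simp only [Set.mem_preimage, Set.mem_singleton_iff, Finset.mem_coe, mem_Lat]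
    have : 0 ≤ p.1 ^ 2 + p.2 ^ 2 := by positivity
    omega
  rw [hset]
  exact (Finset.tsum_subtype' (Lat n) F).symm

lemma c_eq_zero_of {n : ℕ} (hn : n % 4 ≠ 1) : c n = 0 := by
  rw [c_eq_sum]
  refine Finset.sum_eq_zero (fun z hz => ?_)
  exfalso
  rw [mem_P, norm_def] at hz
  obtain ⟨⟨h1, h2⟩, h3⟩ := hz
  have hre : z.re % 2 = 1 := by omega
  obtain ⟨a, ha⟩ : ∃ a, z.im = 2 * a := ⟨z.im / 2, by omega⟩
  obtain ⟨b, hb⟩ : ∃ b, z.re = 2 * b + 1 := ⟨z.re / 2, by omega⟩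
  rw [ha, hb] at h3
  have : (n : ℤ) = 4 * (b ^ 2 + b + a ^ 2) + 1 := by rw [← h3]; ring
  omega

lemma bd_odd {d : ℕ} (hd : Odd d) (n : ℕ) : bd d n = jacobiSym n d * c n := by
  unfold bd
  by_cases hn : n % 4 = 1
  · rw [← jacobiSym.quadratic_reciprocity_one_mod_four hn hd]
  · rw [c_eq_zero_of hn]; ring

lemma fib_odd {d : ℕ} (hd : Odd d) (y : ℝ) (n : ℕ) :
    ∑ p ∈ Lat n, W d eta y p = 2 * ((bd d n : ℝ) * Real.exp (-Real.pi * n * y)) := by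
  have h : ∀ p ∈ Lat n, W d eta y p = ((ZMod.χ₄ (p.1 : ZMod 4) * eta (p.2 : ZMod 4) * p.1 : ℤ) : ℝ) *
      (((jacobiSym n d : ℤ) : ℝ) * Real.exp (-Real.pi * n * y)) := by
    intro p hp
    rw [mem_Lat] at hp
    unfold W
    rw [hp]
    have : ((p.1 : ℝ)) ^ 2 + ((p.2 : ℝ)) ^ 2 = n := by exact_mod_cast hp
    rw [this]
    push_cast
    ring
  rw [Finset.sum_congr rfl h, ← Finset.sum_mul, ← Int.cast_sum, sum_Lat, bd_odd hd]
  push_cast
  ring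

lemma chi_bev (A B : ℤ) {n : ℕ} (hn : A ^ 2 + B ^ 2 = n) :
    ZMod.χ₄ (A : ZMod 4) * bev (B : ZMod 4)
      = jacobiSym 2 n * (ZMod.χ₄ (A : ZMod 4) * eta (B : ZMod 4)) := by
  by_cases hA : A % 2 = 0
  · have : ZMod.χ₄ (A : ZMod 4) = 0 := by
      rcases chi_cases A with ⟨ha, hX⟩ | ⟨ha, hX⟩ | ⟨ha, hX⟩ | ⟨ha, hX⟩
      · exact hX
      · omega
      · exact hX
      · omega
    rw [this]; ring
  by_cases hB : B % 2 = 1
  · have h1 : bev (B : ZMod 4) = 0 := by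
      rcases bev_cases B with ⟨ha, hX⟩ | ⟨ha, hX⟩ | ⟨ha, hX⟩ | ⟨ha, hX⟩
      · omega
      · exact hX
      · omega
      · exact hX
    have h2 : eta (B : ZMod 4) = 0 := by
      rcases eta_cases B with ⟨ha, hX⟩ | ⟨ha, hX⟩ | ⟨ha, hX⟩ | ⟨ha, hX⟩
      · omega
      · exact hX
      · omega
      · exact hX
    rw [h1, h2]; ring
  -- A odd, B even
  obtain ⟨a, ha⟩ : ∃ a, A = 2 * a + 1 := ⟨A / 2, by omega⟩
  have haa : (a ^ 2 + a) % 2 = 0 := by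
    have : a ^ 2 + a = a * (a + 1) := by ring
    rw [this]
    exact Int.even_iff.1 (Int.even_mul_succ_self a)
  have hA2 : A ^ 2 = 4 * (a ^ 2 + a) + 1 := by rw [ha]; ring
  rcases (by omega : B % 4 = 0 ∨ B % 4 = 2) with hb | hb
  · obtain ⟨b, hb'⟩ : ∃ b, B = 4 * b := ⟨B / 4, by omega⟩
    have hB2 : B ^ 2 = 16 * b ^ 2 := by rw [hb']; ring
    have hn8 : n % 8 = 1 := by
      rw [hA2, hB2] at hn
      omega
    have hodd : Odd n := by rw [Nat.odd_iff]; omega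
    rw [jacobiSym.at_two hodd, ZMod.χ₈_nat_eq_if_mod_eight, if_neg (by omega), if_pos (by omega)]
    have h1 : bev (B : ZMod 4) = 1 := by
      rcases bev_cases B with ⟨ha, hX⟩ | ⟨ha, hX⟩ | ⟨ha, hX⟩ | ⟨ha, hX⟩
      · exact hX
      · omega
      · exact hX
      · omega
    have h2 : eta (B : ZMod 4) = 1 := by
      rcases eta_cases B with ⟨ha, hX⟩ | ⟨ha, hX⟩ | ⟨ha, hX⟩ | ⟨ha, hX⟩
      · exact hX
      · omega
      · omega
      · omega
    rw [h1, h2]; ring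
  · obtain ⟨b, hb'⟩ : ∃ b, B = 4 * b + 2 := ⟨B / 4, by omega⟩
    have hB2 : B ^ 2 = 16 * (b ^ 2 + b) + 4 := by rw [hb']; ring
    have hn8 : n % 8 = 5 := by
      rw [hA2, hB2] at hn
      omega
    have hodd : Odd n := by rw [Nat.odd_iff]; omega
    rw [jacobiSym.at_two hodd, ZMod.χ₈_nat_eq_if_mod_eight, if_neg (by omega), if_neg (by omega)]
    have h1 : bev (B : ZMod 4) = 1 := by
      rcases bev_cases B with ⟨ha, hX⟩ | ⟨ha, hX⟩ | ⟨ha, hX⟩ | ⟨ha, hX⟩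
      · exact hX
      · omega
      · exact hX
      · omega
    have h2 : eta (B : ZMod 4) = -1 := by
      rcases eta_cases B with ⟨ha, hX⟩ | ⟨ha, hX⟩ | ⟨ha, hX⟩ | ⟨ha, hX⟩
      · omega
      · omega
      · exact hX
      · omega
    rw [h1, h2]; ring

lemma fib_even {δ : ℕ} (hd : Odd δ) (y : ℝ) (n : ℕ) :
    ∑ p ∈ Lat n, W δ bev y p
      = 2 * ((bd ((2 * δ : ℕ) : ℤ) n : ℝ) * Real.exp (-Real.pi * n * y)) := by
  have h : ∀ p ∈ Lat n, W δ bev y p = ((ZMod.χ₄ (p.1 : ZMod 4) * eta (p.2 : ZMod 4) * p.1 : ℤ) : ℝ) *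
      (((jacobiSym 2 n * jacobiSym n δ : ℤ) : ℝ) * Real.exp (-Real.pi * n * y)) := by
    intro p hp
    rw [mem_Lat] at hp
    unfold W
    rw [hp]
    have : ((p.1 : ℝ)) ^ 2 + ((p.2 : ℝ)) ^ 2 = n := by exact_mod_cast hp
    rw [this]
    have h2 := chi_bev p.1 p.2 hp
    have h3 : ((ZMod.χ₄ (p.1 : ZMod 4) : ℤ) : ℝ) * ((bev (p.2 : ZMod 4) : ℤ) : ℝ)
      = ((jacobiSym 2 n : ℤ) : ℝ) * (((ZMod.χ₄ (p.1 : ZMod 4) : ℤ) : ℝ) * ((eta (p.2 : ZMod 4) : ℤ) : ℝ)) := by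
      exact_mod_cast h2
    rw [h3]
    push_cast
    ring
  have hb : bd ((2 * δ : ℕ) : ℤ) n = jacobiSym 2 n * jacobiSym n δ * c n := by
    unfold bd
    by_cases hn : n % 4 = 1
    · push_cast
      rw [jacobiSym.mul_left, jacobiSym.quadratic_reciprocity_one_mod_four hn hd]
    · rw [c_eq_zero_of hn]; ring
  rw [Finset.sum_congr rfl h, ← Finset.sum_mul, ← Int.cast_sum, sum_Lat, hb]
  push_cast
  ring

end regroup

/-- the theta series -/
noncomputable def Th (d : ℤ) (y : ℝ) : ℝ := ∑' n : ℕ, (bd d n : ℝ) * Real.exp (-Real.pi * n * y)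

/-- `N / 4` -/
def Q (d : ℕ) : ℕ := if Even d then 4 * d ^ 2 else 8 * d ^ 2

lemma Th_hasSum_odd {d : ℕ} (hd : Odd d) {y T : ℝ} (h : HasSum (W d eta y) T) :
    HasSum (fun n : ℕ => (bd d n : ℝ) * Real.exp (-Real.pi * n * y)) (T / 2) := by
  have := (regroup h _ (fib_odd hd y)).mul_left (1 / 2)
  have e : T / 2 = 1 / 2 * T := by ring
  rw [e]
  refine hs_congr (fun n => ?_) this
  ring

lemma Th_hasSum_even {δ : ℕ} (hd : Odd δ) {y T : ℝ} (h : HasSum (W δ bev y) T) :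
    HasSum (fun n : ℕ => (bd ((2 * δ : ℕ) : ℤ) n : ℝ) * Real.exp (-Real.pi * n * y)) (T / 2) := by
  have := (regroup h _ (fib_even hd y)).mul_left (1 / 2)
  have e : T / 2 = 1 / 2 * T := by ring
  rw [e]
  refine hs_congr (fun n => ?_) this
  ring

lemma hβ'_eta : ∀ s c : ZMod 4, (s = 1 ∨ s = 3) → eta (s * c) = eta c := by decide
lemma hβ'_bev : ∀ s c : ZMod 4, (s = 1 ∨ s = 3) → bev (s * c) = bev c := by decide

lemma chi4_pm {δ : ℕ} (hodd : Odd δ) : ZMod.χ₄ (δ : ZMod 4) = 1 ∨ ZMod.χ₄ (δ : ZMod 4) = -1 := by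
  have h2 : (δ : ZMod 4) = 1 ∨ (δ : ZMod 4) = 3 := by
    obtain ⟨k, hk⟩ := hodd
    rw [hk]; push_cast
    generalize (k : ZMod 4) = x
    revert x; decide
  rcases h2 with h2 | h2 <;> rw [h2] <;> decide

lemma jac2_pm {δ : ℕ} (hodd : Odd δ) : jacobiSym 2 δ = 1 ∨ jacobiSym 2 δ = -1 := by
  rcases jacobiSym.trichotomy 2 δ with h | h | h
  · exfalso
    have hne : NeZero δ := ⟨by rintro rfl; revert hodd; simp⟩
    have := (jacobiSym.eq_zero_iff_not_coprime (a := 2) (b := δ)).1 h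
    apply this
    have h2 : Nat.Coprime 2 δ := (Nat.coprime_two_left).2 hodd
    exact_mod_cast Int.isCoprime_iff_gcd_eq_one.1 (Nat.isCoprime_iff_coprime.2 h2)
  · left; exact h
  · right; exact h

theorem Th_summable (d : ℕ) (hd : Squarefree d) {y : ℝ} (hy : 0 < y) :
    Summable (fun n : ℕ => (bd d n : ℝ) * Real.exp (-Real.pi * n * y)) := by
  rcases Nat.even_or_odd d with he | ho
  · obtain ⟨δ, hδ⟩ := he.two_dvd
    subst hδ
    have hodd : Odd δ := by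
      rw [← Nat.not_even_iff_odd]
      intro h
      obtain ⟨k, hk⟩ := h.two_dvd
      subst hk
      have := hd 2 ⟨k, by ring⟩
      simp at this
    have hsf : Squarefree δ := hd.of_mul_right
    have : NeZero δ := ⟨by rintro rfl; revert hodd; simp⟩
    obtain ⟨R, h1, h2⟩ := W_transform δ hodd hsf bev bev sum_bev hβ'_bev hy
    exact (Th_hasSum_even hodd h2).summable
  · have : NeZero d := ⟨by rintro rfl; revert ho; simp⟩
    obtain ⟨R, h1, h2⟩ := W_transform d ho hd bod eta sum_bod hβ'_eta hy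
    exact (Th_hasSum_odd ho h2).summable

/-- **Functional equation** of the theta series of `y^2 = x^3 - d^2 x`, `d` squarefree. -/
theorem Th_fe (d : ℕ) (hd : Squarefree d) : ∃ w : ℝ, (w = 1 ∨ w = -1) ∧
    ∀ y : ℝ, 0 < y → Th d y = w / (Q d * y ^ 2) * Th d (1 / (Q d * y)) := by
  rcases Nat.even_or_odd d with he | ho
  · obtain ⟨δ, hδ⟩ := he.two_dvd
    subst hδ
    have hodd : Odd δ := by
      rw [← Nat.not_even_iff_odd]
      intro h
      obtain ⟨k, hk⟩ := h.two_dvd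
      subst hk
      have := hd 2 ⟨k, by ring⟩
      simp at this
    have hsf : Squarefree δ := hd.of_mul_right
    have hne : NeZero δ := ⟨by rintro rfl; revert hodd; simp⟩
    have hδ0 : (δ : ℝ) ≠ 0 := by exact_mod_cast NeZero.ne δ
    refine ⟨((ZMod.χ₄ (δ : ZMod 4) : ℤ) : ℝ), ?_, ?_⟩
    · rcases chi4_pm hodd with h | h <;> rw [h] <;> simp
    · intro y hy
      obtain ⟨R, h1, h2⟩ := W_transform δ hodd hsf bev bev sum_bev hβ'_bev hy
      have e1 := (Th_hasSum_even hodd h2).tsum_eq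
      have e2 := (Th_hasSum_even hodd h1).tsum_eq
      have hQ : (Q (2 * δ) : ℝ) = 16 * (δ : ℝ) ^ 2 := by
        unfold Q; rw [if_pos he]; push_cast; ring
      unfold Th
      rw [hQ, e1, e2]
      field_simp
  · have hne : NeZero d := ⟨by rintro rfl; revert ho; simp⟩
    have hd0 : (d : ℝ) ≠ 0 := by exact_mod_cast NeZero.ne d
    refine ⟨((ZMod.χ₄ (d : ZMod 4) : ℤ) : ℝ) * ((jacobiSym 2 d : ℤ) : ℝ), ?_, ?_⟩
    · rcases chi4_pm ho with h | h <;> rcases jac2_pm ho with h' | h' <;> rw [h, h'] <;> simp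
    · intro y hy
      obtain ⟨R, h1, h2⟩ := W_transform d ho hd bod eta sum_bod hβ'_eta hy
      have hy' : 0 < 1 / (8 * (d : ℝ) ^ 2 * y) := by positivity
      obtain ⟨R', h1', h2'⟩ := W_transform d ho hd bod eta sum_bod hβ'_eta hy'
      have e0 : (1 / (8 * (d : ℝ) ^ 2 * y)) = 2 * (1 / (16 * (d : ℝ) ^ 2 * y)) := by
        field_simp; norm_num
      have h2'' := h2'
      rw [e0] at h2''
      have hrot := rotation d h1 h2''
      have e1 := (Th_hasSum_odd ho h2).tsum_eq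
      have e2 := (Th_hasSum_odd ho h2').tsum_eq
      have hQ : (Q d : ℝ) = 8 * (d : ℝ) ^ 2 := by
        unfold Q; rw [if_neg (Nat.not_even_iff_odd.2 ho)]; push_cast; ring
      unfold Th
      rw [hQ, e1, e2, hrot]
      rw [← e0]
      field_simp
      ring

end Pool.Agent.H5
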