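import Mathlib
import Pool.Agent.H5.Euler

set_option autoImplicit false

namespace Pool.Agent.H5

open Finset

/-- `a_p` in the frozen form -/
def ap (a b : ℤ) (p : ℕ) : ℤ := (p : ℤ) - (cnt a b p : ℤ)

lemma jacobiSym_sq_one {d : ℤ} {p : ℕ} [hp : Fact p.Prime] (hpd : ¬ (p : ℤ) ∣ d) :
    jacobiSym d p ^ 2 = 1 := by
  rw [← jacobiSym.legendreSym.to_jacobiSym]
  apply legendreSym.sq_one
  intro h
  exact hpd ((ZMod.intCast_zmod_eq_zero_iff_dvd d p).1 h)

lemma jacobiSym_pow {d : ℤ} {p : ℕ} (e : ℕ) :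
    jacobiSym d (p ^ e) = jacobiSym d p ^ e := by
  rw [jacobiSym.pow_right]

lemma bd_prime (d : ℤ) (p : ℕ) [hp : Fact p.Prime] (hp2 : p ≠ 2) (hpd : ¬ (p : ℤ) ∣ d) :
    bd d p = ap (-d ^ 2) 0 p ∧
    ∀ e, bd d (p ^ (e + 2)) = ap (-d ^ 2) 0 p * bd d (p ^ (e + 1)) - p * bd d (p ^ e) := by
  have hodd : p % 4 = 1 ∨ p % 4 = 3 := by
    have := hp.out.eq_two_or_odd
    omega
  have hJ := jacobiSym_sq_one hpd
  rcases hodd with h | h
  · obtain ⟨π, hπ, hn, htr⟩ := trace_one_mod_four p h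
    have hn' : π.norm = p := by rw [norm_def]; exact hn
    obtain ⟨hC1, hCrec⟩ := C_split p hπ hn'
    have hstar : π + star π = ((2 * π.re : ℤ) : GI) := by
      ext
      · simp; ring
      · simp
    rw [hstar] at hC1 hCrec
    have hc1 : c p = 2 * π.re := by
      rw [C_eq] at hC1; exact_mod_cast hC1
    have hcrec : ∀ k, c (p ^ (k + 2)) = 2 * π.re * c (p ^ (k + 1)) - p * c (p ^ k) := by
      intro k
      have := hCrec k
      rw [C_eq, C_eq, C_eq] at this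
      exact_mod_cast this
    have hap : ap (-d ^ 2) 0 p = jacobiSym d p * (2 * π.re) := by
      unfold ap; rw [htr d, jacobiSym.legendreSym.to_jacobiSym]
    constructor
    · unfold bd; rw [hap, hc1]
    · intro e
      unfold bd
      rw [hap, hcrec, jacobiSym_pow, jacobiSym_pow, jacobiSym_pow]
      have : jacobiSym d p ^ (e + 2) = jacobiSym d p ^ e * jacobiSym d p ^ 2 := by ring
      have h2 : jacobiSym d p ^ (e + 1) * jacobiSym d p = jacobiSym d p ^ e * jacobiSym d p ^ 2 := by ring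
      rw [this, hJ]
      linear_combination (-(2 * π.re * c (p ^ (e + 1)))) * (h2.trans (by rw [hJ]))
  · have hap : ap (-d ^ 2) 0 p = 0 := trace_three_mod_four p h d
    have hc1 : c p = 0 := by
      have := C_inert_one p h
      rw [C_eq] at this; exact_mod_cast this
    have hcrec : ∀ k, c (p ^ (k + 2)) = - p * c (p ^ k) := by
      intro k
      have := C_inert p h k
      rw [C_eq, C_eq] at this
      have h5 : ((c (p ^ (k + 2)) : ℤ) : GI) = ((-(p : ℤ) * c (p ^ k) : ℤ) : GI) := by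
        push_cast; exact this
      exact_mod_cast h5
    constructor
    · unfold bd; rw [hap, hc1]; ring
    · intro e
      unfold bd
      rw [hap, hcrec, jacobiSym_pow, jacobiSym_pow, jacobiSym_pow]
      have : jacobiSym d p ^ (e + 2) = jacobiSym d p ^ e * jacobiSym d p ^ 2 := by ring
      rw [this, hJ]; ring

lemma cpow_aux (p e : ℕ) (s : ℂ) : (((p ^ e : ℕ) : ℕ) : ℂ) ^ (-s) = ((p : ℂ) ^ (-s)) ^ e := by
  induction e with
  | zero => simp
  | succ n ih => rw [pow_succ, Nat.cast_mul, Complex.natCast_mul_natCast_cpow, ih, pow_succ]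

lemma factor_good (d : ℤ) (p : ℕ) [hp : Fact p.Prime] (hp2 : p ≠ 2) (hpd : ¬ (p : ℤ) ∣ d)
    {s : ℂ} (hs : 3 / 2 < s.re) :
    ∑' e : ℕ, (bd d (p ^ e) : ℂ) * (((p : ℕ) ^ e : ℕ) : ℂ) ^ (-s) =
      (1 - ((ap (-d ^ 2) 0 p : ℤ) : ℂ) * (p : ℂ) ^ (-s) + (p : ℂ) * (p : ℂ) ^ (-2 * s))⁻¹ := by
  obtain ⟨h1, hrec⟩ := bd_prime d p hp2 hpd
  have hsum0 := (summable_bd d hs).of_norm
  have hinj : Function.Injective (fun e : ℕ => p ^ e) := Nat.pow_right_injective hp.out.two_le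
  have hsum := hsum0.comp_injective hinj
  have hx2 : (p : ℂ) ^ (-2 * s) = ((p : ℂ) ^ (-s)) ^ 2 := by
    rw [← Complex.cpow_nat_mul]; congr 1; push_cast; ring
  simp_rw [cpow_aux, hx2]
  apply local_factor (t := fun e => (bd d (p ^ e) : ℂ))
  · simp [bd_one]
  · simp [h1]
  · intro e
    rw [hrec e]; push_cast; ring
  · refine hsum.congr (fun e => ?_)
    simp only [Function.comp]
    rw [cpow_aux]

lemma factor_bad (d : ℤ) (p : ℕ) [hp : Fact p.Prime] (hbad : p = 2 ∨ (p : ℤ) ∣ d) (s : ℂ) :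
    ∑' e : ℕ, (bd d (p ^ e) : ℂ) * (((p : ℕ) ^ e : ℕ) : ℂ) ^ (-s) = 1 := by
  rw [tsum_eq_single 0]
  · simp [bd_one]
  · intro e he
    have : bd d (p ^ e) = 0 := by
      unfold bd
      rcases hbad with h | h
      · have : c (p ^ e) = 0 := by
          unfold c
          rw [C_of_even]
          · simp
          · rw [h]
            obtain ⟨k, rfl⟩ := Nat.exists_eq_succ_of_ne_zero he
            rw [pow_succ]; omega
        rw [this, mul_zero]
      · rw [jacobiSym_pow]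
        have : jacobiSym d p = 0 := by
          rw [← jacobiSym.legendreSym.to_jacobiSym, legendreSym.eq_zero_iff]
          exact (ZMod.intCast_zmod_eq_zero_iff_dvd d p).2 h
        rw [this, zero_pow he, zero_mul]
    rw [this]; simp

lemma good_iff (d : ℤ) (p : ℕ) (hp : p.Prime) :
    (¬ ((p : ℤ) ∣ 2 * (4 * (-d ^ 2) ^ 3 + 27 * (0 : ℤ) ^ 2))) ↔ (p ≠ 2 ∧ ¬ (p : ℤ) ∣ d) := by
  have hpp : Prime (p : ℤ) := Nat.prime_iff_prime_int.1 hp
  have e : 2 * (4 * (-d ^ 2) ^ 3 + 27 * (0 : ℤ) ^ 2) = -(2 ^ 3 * d ^ 6) := by ring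
  rw [e, dvd_neg]
  constructor
  · intro h
    constructor
    · rintro rfl
      exact h (Dvd.dvd.mul_right (by norm_num) _)
    · intro h2
      exact h ((dvd_pow h2 (by norm_num)).mul_left _)
  · rintro ⟨h1, h2⟩ h3
    rcases hpp.dvd_or_dvd h3 with h | h
    · have := hpp.dvd_of_dvd_pow h
      have h4 : p ∣ 2 := by exact_mod_cast this
      exact h1 ((Nat.prime_dvd_prime_iff_eq hp Nat.prime_two).1 h4)
    · exact h2 (hpp.dvd_of_dvd_pow h)

/-- The frozen good-prime Euler product of `y^2 = x^3 - d^2 x` is the Hecke L-series. -/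
theorem frozen_euler (d : ℤ) {s : ℂ} (hs : 3 / 2 < s.re) :
    HasProd (fun p : {p : ℕ // p.Prime ∧ ¬ ((p : ℤ) ∣ 2 * (4 * (-d ^ 2) ^ 3 + 27 * (0 : ℤ) ^ 2))} =>
      (1 - ((((p.1 : ℤ) - ((((Finset.range p.1) ×ˢ (Finset.range p.1)).filter
          (fun xy : ℕ × ℕ => (p.1 : ℤ) ∣ (xy.2 : ℤ) ^ 2 - ((xy.1 : ℤ) ^ 3 + (-d ^ 2) * (xy.1 : ℤ) + 0))).card : ℤ)) : ℤ) : ℂ)
          * (p.1 : ℂ) ^ (-s) + (p.1 : ℂ) * (p.1 : ℂ) ^ (-2 * s))⁻¹) (Lser d s) := by
  have h := euler_hasProd d hs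
  let g : {p : ℕ // p.Prime ∧ ¬ ((p : ℤ) ∣ 2 * (4 * (-d ^ 2) ^ 3 + 27 * (0 : ℤ) ^ 2))} → Nat.Primes :=
    fun p => ⟨p.1, p.2.1⟩
  have hg : Function.Injective g := by
    intro p q hpq
    have : (g p : ℕ) = g q := by rw [hpq]
    exact Subtype.ext this
  rw [← hg.hasProd_iff] at h
  · convert h using 1
    funext p
    have hf := Fact.mk p.2.1
    obtain ⟨h1, h2⟩ := (good_iff d p p.2.1).1 p.2.2
    exact (factor_good d p h1 h2 hs).symm
  · intro p hp
    have hbad : (p : ℕ) = 2 ∨ ((p : ℕ) : ℤ) ∣ d := by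
      by_contra hcon
      push Not at hcon
      apply hp
      exact ⟨⟨p, p.2, (good_iff d p p.2).2 hcon⟩, rfl⟩
    have := Fact.mk p.2
    exact factor_bad d p hbad s

end Pool.Agent.H5
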