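import Mathlib

/-!
A path integral along three sides of a rectangle, and the Cauchy formula for derivatives.
-/

set_option autoImplicit false

open Complex MeasureTheory Set

namespace Pool.Agent.H5

/-- the path integral from `1 + (y-H) i` to `1 + (y+H) i` along three sides of a rectangle,
passing through `Re s = c` -/
noncomputable def PI (f : ℂ → ℂ) (y H c : ℝ) : ℂ :=
  (∫ u in (1:ℝ)..c, f (u + ((y - H : ℝ) : ℂ) * I)) + I * (∫ v in (y - H)..(y + H), f (c + v * I))
    - ∫ u in (1:ℝ)..c, f (u + ((y + H : ℝ) : ℂ) * I)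

/-- the path avoids `s₀` -/
def Avoid (s₀ : ℂ) (y H c : ℝ) : Prop := y - H < s₀.im ∧ s₀.im < y + H ∧ c ≠ s₀.re

lemma Avoid.low {s₀ : ℂ} {y H c : ℝ} (h : Avoid s₀ y H c) (u : ℝ) :
    (u + ((y - H : ℝ) : ℂ) * I) ≠ s₀ := by
  intro h0
  have := congrArg Complex.im h0
  simp at this
  have := h.1
  linarith

lemma Avoid.high {s₀ : ℂ} {y H c : ℝ} (h : Avoid s₀ y H c) (u : ℝ) :
    (u + ((y + H : ℝ) : ℂ) * I) ≠ s₀ := by
  intro h0
  have := congrArg Complex.im h0
  simp at this
  have := h.2.1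
  linarith

lemma Avoid.vert {s₀ : ℂ} {y H c : ℝ} (h : Avoid s₀ y H c) (v : ℝ) :
    ((c : ℂ) + v * I) ≠ s₀ := by
  intro h0
  have := congrArg Complex.re h0
  simp at this
  exact h.2.2 this

section

variable {f g : ℂ → ℂ} {s₀ : ℂ} {y H c : ℝ}

lemma int_low (hf : ContinuousOn f {s₀}ᶜ) (h : Avoid s₀ y H c) (a b : ℝ) :
    IntervalIntegrable (fun u : ℝ => f (u + ((y - H : ℝ) : ℂ) * I)) volume a b := by
  apply ContinuousOn.intervalIntegrable
  apply hf.comp (Continuous.continuousOn (by fun_prop))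
  intro u _
  exact h.low u

lemma int_high (hf : ContinuousOn f {s₀}ᶜ) (h : Avoid s₀ y H c) (a b : ℝ) :
    IntervalIntegrable (fun u : ℝ => f (u + ((y + H : ℝ) : ℂ) * I)) volume a b := by
  apply ContinuousOn.intervalIntegrable
  apply hf.comp (Continuous.continuousOn (by fun_prop))
  intro u _
  exact h.high u

lemma int_vert (hf : ContinuousOn f {s₀}ᶜ) (h : Avoid s₀ y H c) (a b : ℝ) :
    IntervalIntegrable (fun v : ℝ => f ((c : ℂ) + v * I)) volume a b := by
  apply ContinuousOn.intervalIntegrable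
  apply hf.comp (Continuous.continuousOn (by fun_prop))
  intro u _
  exact h.vert u

lemma PI_add (hf : ContinuousOn f {s₀}ᶜ) (hg : ContinuousOn g {s₀}ᶜ) (h : Avoid s₀ y H c) :
    PI (fun s => f s + g s) y H c = PI f y H c + PI g y H c := by
  unfold PI
  rw [intervalIntegral.integral_add (int_low hf h _ _) (int_low hg h _ _),
    intervalIntegral.integral_add (int_high hf h _ _) (int_high hg h _ _),
    intervalIntegral.integral_add (int_vert hf h _ _) (int_vert hg h _ _)]
  ring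

lemma PI_sub (hf : ContinuousOn f {s₀}ᶜ) (hg : ContinuousOn g {s₀}ᶜ) (h : Avoid s₀ y H c) :
    PI (fun s => f s - g s) y H c = PI f y H c - PI g y H c := by
  unfold PI
  rw [intervalIntegral.integral_sub (int_low hf h _ _) (int_low hg h _ _),
    intervalIntegral.integral_sub (int_high hf h _ _) (int_high hg h _ _),
    intervalIntegral.integral_sub (int_vert hf h _ _) (int_vert hg h _ _)]
  ring

lemma PI_const_mul (k : ℂ) : PI (fun s => k * f s) y H c = k * PI f y H c := by
  unfold PI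
  simp only [intervalIntegral.integral_const_mul]
  ring

/-- fundamental theorem of calculus along the path; `U` is an open set containing the path -/
lemma PI_ftc {F : ℂ → ℂ} {U : Set ℂ} (hf : ContinuousOn f {s₀}ᶜ) (h : Avoid s₀ y H c)
    (hF : ∀ s ∈ U, HasDerivAt F (f s) s)
    (h1 : ∀ u ∈ uIcc 1 c, (u + ((y - H : ℝ) : ℂ) * I) ∈ U)
    (h2 : ∀ u ∈ uIcc 1 c, (u + ((y + H : ℝ) : ℂ) * I) ∈ U)
    (h3 : ∀ v ∈ uIcc (y - H) (y + H), ((c : ℂ) + v * I) ∈ U) :
    PI f y H c = F (1 + ((y + H : ℝ) : ℂ) * I) - F (1 + ((y - H : ℝ) : ℂ) * I) := by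
  unfold PI
  have d1 : ∀ (b : ℂ), ∀ u : ℝ, HasDerivAt (fun u : ℝ => (u : ℂ) + b) 1 u := by
    intro b u
    have : HasDerivAt (fun u : ℝ => (u : ℂ)) 1 u := (hasDerivAt_id u).ofReal_comp
    exact this.add_const b
  have d2 : ∀ (b : ℂ), ∀ v : ℝ, HasDerivAt (fun v : ℝ => b + (v : ℂ) * I) I v := by
    intro b v
    have : HasDerivAt (fun v : ℝ => (v : ℂ)) 1 v := (hasDerivAt_id v).ofReal_comp
    simpa using (this.mul_const I).const_add b
  have e1 : ∫ u in (1:ℝ)..c, f (u + ((y - H : ℝ) : ℂ) * I)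
      = F (c + ((y - H : ℝ) : ℂ) * I) - F ((1 : ℝ) + ((y - H : ℝ) : ℂ) * I) := by
    apply intervalIntegral.integral_eq_sub_of_hasDerivAt (f := fun u : ℝ => F (u + ((y - H : ℝ) : ℂ) * I))
    · intro u hu
      exact ((hF _ (h1 u hu)).comp u (d1 _ u)).congr_deriv (by simp)
    · exact int_low hf h _ _
  have e2 : ∫ u in (1:ℝ)..c, f (u + ((y + H : ℝ) : ℂ) * I)
      = F (c + ((y + H : ℝ) : ℂ) * I) - F ((1 : ℝ) + ((y + H : ℝ) : ℂ) * I) := by
    apply intervalIntegral.integral_eq_sub_of_hasDerivAt (f := fun u : ℝ => F (u + ((y + H : ℝ) : ℂ) * I))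
    · intro u hu
      exact ((hF _ (h2 u hu)).comp u (d1 _ u)).congr_deriv (by simp)
    · exact int_high hf h _ _
  have e3 : I * ∫ v in (y - H)..(y + H), f (c + v * I)
      = F (c + ((y + H : ℝ) : ℂ) * I) - F (c + ((y - H : ℝ) : ℂ) * I) := by
    rw [← intervalIntegral.integral_const_mul]
    apply intervalIntegral.integral_eq_sub_of_hasDerivAt (f := fun v : ℝ => F (c + (v : ℂ) * I))
    · intro v hv
      have := (hF _ (h3 v hv)).comp v (d2 _ v)
      rw [mul_comm I]
      exact this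
    · exact (int_vert hf h _ _).const_mul I
  rw [e1, e2, e3]
  push_cast
  ring

end

/-- change of the abscissa -/
lemma PI_rect {f : ℂ → ℂ} {y H c c' : ℝ}
    (hf : DifferentiableOn ℂ f (uIcc c c' ×ℂ uIcc (y - H) (y + H)))
    (hlow : ∀ a b, IntervalIntegrable (fun u : ℝ => f (u + ((y - H : ℝ) : ℂ) * I)) volume a b)
    (hhigh : ∀ a b, IntervalIntegrable (fun u : ℝ => f (u + ((y + H : ℝ) : ℂ) * I)) volume a b) :
    PI f y H c = PI f y H c' := by
  have h := integral_boundary_rect_eq_zero_of_differentiableOn f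
    (⟨c, y - H⟩ : ℂ) (⟨c', y + H⟩ : ℂ) hf
  simp only [smul_eq_mul] at h
  unfold PI
  have e1 : (∫ u in (1:ℝ)..c', f (u + ((y - H : ℝ) : ℂ) * I))
      = (∫ u in (1:ℝ)..c, f (u + ((y - H : ℝ) : ℂ) * I))
        + ∫ u in c..c', f (u + ((y - H : ℝ) : ℂ) * I) :=
    (intervalIntegral.integral_add_adjacent_intervals (hlow _ _) (hlow _ _)).symm
  have e2 : (∫ u in (1:ℝ)..c', f (u + ((y + H : ℝ) : ℂ) * I))
      = (∫ u in (1:ℝ)..c, f (u + ((y + H : ℝ) : ℂ) * I))
        + ∫ u in c..c', f (u + ((y + H : ℝ) : ℂ) * I) :=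
    (intervalIntegral.integral_add_adjacent_intervals (hhigh _ _) (hhigh _ _)).symm
  rw [e1, e2]
  linear_combination -h

lemma log_sub_log_neg_pos {z : ℂ} (hz : 0 < z.im) : log z - log (-z) = Real.pi * I := by
  apply Complex.ext
  · simp [Complex.log_re]
  · simp only [Complex.sub_im, Complex.log_im]
    rw [arg_neg_eq_arg_sub_pi_of_im_pos hz]
    simp

lemma log_sub_log_neg_neg {z : ℂ} (hz : z.im < 0) : log z - log (-z) = -(Real.pi * I) := by
  apply Complex.ext
  · simp [Complex.log_re]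
  · simp only [Complex.sub_im, Complex.log_im]
    rw [arg_neg_eq_arg_add_pi_of_im_neg hz]
    simp

/-- Cauchy's formula for derivatives for the rectangle `[c', c] × [y-H, y+H]` -/
theorem PI_cauchy (m : ℕ) : ∀ {g : ℂ → ℂ} (_ : Differentiable ℂ g) {s₀ : ℂ} {y H c c' : ℝ}
    (_ : y - H < s₀.im) (_ : s₀.im < y + H) (_ : s₀.re < c) (_ : 1 < c) (_ : c' < s₀.re) (_ : c' < 1),
    PI (fun s => g s / (s - s₀) ^ (m + 1)) y H c - PI (fun s => g s / (s - s₀) ^ (m + 1)) y H c'
      = 2 * Real.pi * I * (iteratedDeriv m g s₀ / m.factorial) := by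
  induction m with
  | zero =>
    intro g hg s₀ y H c c' h1 h2 h3 h3' h4 h4'
    have hds : Differentiable ℂ (dslope g s₀) := by
      have : DifferentiableOn ℂ (dslope g s₀) univ := by
        rw [Complex.differentiableOn_dslope (by simp)]
        exact hg.differentiableOn
      exact differentiableOn_univ.1 this
    obtain ⟨F, hF⟩ := hds.isExactOn_univ
    have hcont : ContinuousOn (fun s => g s / (s - s₀) ^ (0 + 1)) {s₀}ᶜ := by
      apply hg.continuous.continuousOn.div (by fun_prop)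
      intro s hs
      simpa [sub_eq_zero] using hs
    have hA : Avoid s₀ y H c := ⟨h1, h2, h3.ne'⟩
    have hA' : Avoid s₀ y H c' := ⟨h1, h2, h4.ne⟩
    -- right primitive
    have hR : ∀ s ∈ {s : ℂ | s - s₀ ∈ slitPlane},
        HasDerivAt (fun s => F s + g s₀ * log (s - s₀)) (g s / (s - s₀) ^ (0 + 1)) s := by
      intro s hs
      have hne : s - s₀ ≠ 0 := slitPlane_ne_zero hs
      have hne' : s ≠ s₀ := sub_ne_zero.1 hne
      have d1 := hF s (mem_univ s)
      have d2 : HasDerivAt (fun s => log (s - s₀)) (1 / (s - s₀)) s :=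
        ((hasDerivAt_id s).sub_const s₀).clog hs
      refine (d1.add (d2.const_mul (g s₀))).congr_deriv ?_
      rw [dslope_of_ne _ hne', slope_def_field]
      field_simp
      ring
    have hL : ∀ s ∈ {s : ℂ | -(s - s₀) ∈ slitPlane},
        HasDerivAt (fun s => F s + g s₀ * log (-(s - s₀))) (g s / (s - s₀) ^ (0 + 1)) s := by
      intro s hs
      have hne : s - s₀ ≠ 0 := neg_ne_zero.1 (slitPlane_ne_zero hs)
      have hne' : s ≠ s₀ := sub_ne_zero.1 hne
      have d1 := hF s (mem_univ s)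
      have d2 : HasDerivAt (fun s => log (-(s - s₀))) (-1 / (-(s - s₀))) s :=
        (((hasDerivAt_id s).sub_const s₀).neg).clog hs
      refine (d1.add (d2.const_mul (g s₀))).congr_deriv ?_
      rw [dslope_of_ne _ hne', slope_def_field]
      field_simp
      ring
    have hslit : ∀ z : ℂ, z.im ≠ 0 → z ∈ slitPlane := fun z hz => Or.inr hz
    rw [PI_ftc hcont hA hR, PI_ftc hcont hA' hL]
    · have p1 := log_sub_log_neg_pos (z := 1 + ((y + H : ℝ) : ℂ) * I - s₀) (by simp; linarith)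
      have p2 := log_sub_log_neg_neg (z := 1 + ((y - H : ℝ) : ℂ) * I - s₀) (by simp; linarith)
      simp only [iteratedDeriv_zero, Nat.factorial_zero, Nat.cast_one, div_one]
      linear_combination (g s₀) * p1 - (g s₀) * p2
    · intro u hu
      apply hslit; simp; intro h; linarith
    · intro u hu
      apply hslit; simp; intro h; linarith
    · intro v hv
      left; simp; linarith
    · intro u hu
      apply hslit; simp; intro h; linarith
    · intro u hu
      apply hslit; simp; intro h; linarith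
    · intro v hv
      left; simp; linarith
  | succ m ih =>
    intro g hg s₀ y H c c' h1 h2 h3 h3' h4 h4'
    have hg' : Differentiable ℂ (deriv g) := hg.deriv
    have hA : Avoid s₀ y H c := ⟨h1, h2, h3.ne'⟩
    have hA' : Avoid s₀ y H c' := ⟨h1, h2, h4.ne⟩
    have hc : ∀ (k : ℕ) {q : ℂ → ℂ}, Differentiable ℂ q →
        ContinuousOn (fun s => q s / (s - s₀) ^ k) {s₀}ᶜ := by
      intro k q hq
      apply hq.continuous.continuousOn.div (by fun_prop)
      intro s hs
      have : s - s₀ ≠ 0 := by simpa [sub_eq_zero] using hs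
      exact pow_ne_zero _ this
    -- difference is exact
    have hex : ∀ s ∈ ({s₀}ᶜ : Set ℂ), HasDerivAt (fun s => -(g s / (((m : ℂ) + 1) * (s - s₀) ^ (m + 1))))
        (g s / (s - s₀) ^ (m + 1 + 1) - 1 / ((m : ℂ) + 1) * (deriv g s / (s - s₀) ^ (m + 1))) s := by
      intro s hs
      have hne : s - s₀ ≠ 0 := by simpa [sub_eq_zero] using hs
      have hm : (m : ℂ) + 1 ≠ 0 := by exact_mod_cast Nat.succ_ne_zero m
      have d1 : HasDerivAt (fun s => (s - s₀) ^ (m + 1)) (((m + 1 : ℕ) : ℂ) * (s - s₀) ^ m) s := by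
        exact (((hasDerivAt_id s).sub_const s₀).fun_pow (m + 1)).congr_deriv (by simp)
      have d2 := (hg s).hasDerivAt
      refine ((d2.div (d1.const_mul ((m : ℂ) + 1)) (mul_ne_zero hm (pow_ne_zero _ hne))).neg).congr_deriv ?_
      push_cast
      field_simp
      ring
    have hdc : ContinuousOn (fun s => g s / (s - s₀) ^ (m + 1 + 1)
        - 1 / ((m : ℂ) + 1) * (deriv g s / (s - s₀) ^ (m + 1))) {s₀}ᶜ :=
      (hc _ hg).sub (continuousOn_const.mul (hc _ hg'))
    have hall : ∀ (cc : ℝ), Avoid s₀ y H cc → PI (fun s => g s / (s - s₀) ^ (m + 1 + 1)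
        - 1 / ((m : ℂ) + 1) * (deriv g s / (s - s₀) ^ (m + 1))) y H cc
        = (fun s => -(g s / (((m : ℂ) + 1) * (s - s₀) ^ (m + 1)))) (1 + ((y + H : ℝ) : ℂ) * I)
          - (fun s => -(g s / (((m : ℂ) + 1) * (s - s₀) ^ (m + 1)))) (1 + ((y - H : ℝ) : ℂ) * I) := by
      intro cc hcc
      exact PI_ftc hdc hcc hex (fun u _ => hcc.low u) (fun u _ => hcc.high u) (fun v _ => hcc.vert v)
    have e1 := hall c hA
    have e2 := hall c' hA'
    have hc2 : ContinuousOn (fun s => 1 / ((m : ℂ) + 1) * (deriv g s / (s - s₀) ^ (m + 1))) {s₀}ᶜ :=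
      continuousOn_const.mul (hc _ hg')
    rw [PI_sub (hc _ hg) hc2 hA, PI_const_mul] at e1
    rw [PI_sub (hc _ hg) hc2 hA', PI_const_mul] at e2
    have e3 := ih hg' h1 h2 h3 h3' h4 h4'
    rw [iteratedDeriv_succ']
    have hm : (m : ℂ) + 1 ≠ 0 := by exact_mod_cast Nat.succ_ne_zero m
    have hf : ((m.factorial : ℕ) : ℂ) ≠ 0 := by exact_mod_cast m.factorial_ne_zero
    have e4 : PI (fun s => g s / (s - s₀) ^ (m + 1 + 1)) y H c
        - PI (fun s => g s / (s - s₀) ^ (m + 1 + 1)) y H c'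
        = 1 / ((m : ℂ) + 1) * (PI (fun s => deriv g s / (s - s₀) ^ (m + 1)) y H c
          - PI (fun s => deriv g s / (s - s₀) ^ (m + 1)) y H c') := by
      linear_combination e1 - e2
    rw [e4, e3, Nat.factorial_succ]
    push_cast
    field_simp

end Pool.Agent.H5
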