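import Mathlib

/-!
Integral estimates against a Gaussian.
-/

set_option autoImplicit false

open MeasureTheory Set intervalIntegral

namespace Pool.Agent.H5

lemma int_est {g : ℝ → ℂ} {b η r τ₁ τ₂ : ℝ} (hb : 0 < b) (hη : 0 ≤ η) (hr : 0 ≤ r)
    (h1 : τ₁ ≤ -r) (h2 : r ≤ τ₂) (hg : ContinuousOn g (Icc τ₁ τ₂))
    (hbd : ∀ τ ∈ Icc τ₁ τ₂, ‖g τ - Real.exp (-b * τ ^ 2)‖ ≤ η * Real.exp (-(b / 20) * τ ^ 2)) :
    ‖(∫ τ in τ₁..τ₂, g τ) - Real.sqrt (Real.pi / b)‖
      ≤ η * Real.sqrt (Real.pi / (b / 20)) + Real.exp (-(b * r ^ 2 / 2)) * Real.sqrt (Real.pi / (b / 2)) := by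
  have h12 : τ₁ ≤ τ₂ := by linarith
  have hG : Integrable (fun τ : ℝ => Real.exp (-b * τ ^ 2)) := integrable_exp_neg_mul_sq hb
  have hG20 : Integrable (fun τ : ℝ => Real.exp (-(b / 20) * τ ^ 2)) :=
    integrable_exp_neg_mul_sq (by positivity)
  have hG2 : Integrable (fun τ : ℝ => Real.exp (-(b / 2) * τ ^ 2)) :=
    integrable_exp_neg_mul_sq (by positivity)
  have hgi : IntervalIntegrable g volume τ₁ τ₂ := hg.intervalIntegrable_of_Icc h12
  have hGc : IntervalIntegrable (fun τ : ℝ => ((Real.exp (-b * τ ^ 2) : ℝ) : ℂ)) volume τ₁ τ₂ :=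
    (Continuous.intervalIntegrable (by fun_prop) _ _)
  -- split
  have e1 : ((Real.sqrt (Real.pi / b) : ℝ) : ℂ)
      = (∫ τ in τ₁..τ₂, ((Real.exp (-b * τ ^ 2) : ℝ) : ℂ))
        + ((∫ τ in (Ioc τ₁ τ₂)ᶜ, Real.exp (-b * τ ^ 2) : ℝ) : ℂ) := by
    rw [← integral_gaussian b, intervalIntegral.integral_ofReal,
      intervalIntegral.integral_of_le h12, ← Complex.ofReal_add,
      integral_add_compl measurableSet_Ioc hG]
  have e2 : (∫ τ in τ₁..τ₂, g τ) - Real.sqrt (Real.pi / b)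
      = (∫ τ in τ₁..τ₂, (g τ - ((Real.exp (-b * τ ^ 2) : ℝ) : ℂ)))
        - ((∫ τ in (Ioc τ₁ τ₂)ᶜ, Real.exp (-b * τ ^ 2) : ℝ) : ℂ) := by
    rw [intervalIntegral.integral_sub hgi hGc, e1]; ring
  rw [e2]
  refine (norm_sub_le _ _).trans (add_le_add ?_ ?_)
  · calc ‖∫ τ in τ₁..τ₂, (g τ - ((Real.exp (-b * τ ^ 2) : ℝ) : ℂ))‖
        ≤ ∫ τ in τ₁..τ₂, η * Real.exp (-(b / 20) * τ ^ 2) := by
          apply intervalIntegral.norm_integral_le_of_norm_le h12
          · filter_upwards with τ hτ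
            exact hbd τ (Ioc_subset_Icc_self hτ)
          · exact (Continuous.intervalIntegrable (by fun_prop) _ _)
      _ ≤ ∫ τ, η * Real.exp (-(b / 20) * τ ^ 2) := by
          rw [intervalIntegral.integral_of_le h12]
          apply setIntegral_le_integral (hG20.const_mul η)
          filter_upwards with τ
          positivity
      _ = η * Real.sqrt (Real.pi / (b / 20)) := by
          rw [MeasureTheory.integral_const_mul, integral_gaussian]
  · rw [Complex.norm_real, Real.norm_eq_abs, abs_of_nonneg (by positivity)]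
    calc ∫ τ in (Ioc τ₁ τ₂)ᶜ, Real.exp (-b * τ ^ 2)
        ≤ ∫ τ in (Ioc τ₁ τ₂)ᶜ, Real.exp (-(b * r ^ 2 / 2)) * Real.exp (-(b / 2) * τ ^ 2) := by
          apply setIntegral_mono_on hG.integrableOn (hG2.const_mul _).integrableOn
            measurableSet_Ioc.compl
          intro τ hτ
          rw [← Real.exp_add]
          apply Real.exp_le_exp.2
          have hr2 : r ^ 2 ≤ τ ^ 2 := by
            rw [mem_compl_iff, mem_Ioc, not_and_or, not_lt, not_le] at hτ
            rcases hτ with h | h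
            · nlinarith
            · nlinarith
          nlinarith
      _ ≤ ∫ τ, Real.exp (-(b * r ^ 2 / 2)) * Real.exp (-(b / 2) * τ ^ 2) := by
          apply setIntegral_le_integral (hG2.const_mul _)
          filter_upwards with τ
          positivity
      _ = _ := by rw [MeasureTheory.integral_const_mul, integral_gaussian]

lemma int_moment {g : ℝ → ℂ} {c K τ₁ τ₂ : ℝ} (hc : 0 < c) (hK : 0 ≤ K) (h12 : τ₁ ≤ τ₂)
    (hbd : ∀ τ ∈ Icc τ₁ τ₂, ‖g τ‖ ≤ K * |τ| * Real.exp (-c * τ ^ 2)) :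
    ‖∫ τ in τ₁..τ₂, g τ‖ ≤ K / Real.sqrt c * Real.sqrt (Real.pi / (c / 2)) := by
  have hG2 : Integrable (fun τ : ℝ => Real.exp (-(c / 2) * τ ^ 2)) :=
    integrable_exp_neg_mul_sq (by positivity)
  have hsc : 0 < Real.sqrt c := Real.sqrt_pos.2 hc
  have key : ∀ τ : ℝ, K * |τ| * Real.exp (-c * τ ^ 2) ≤ K / Real.sqrt c * Real.exp (-(c / 2) * τ ^ 2) := by
    intro τ
    have h1 : Real.sqrt c * |τ| ≤ Real.exp (c / 2 * τ ^ 2) := by
      have h2 := Real.add_one_le_exp (c / 2 * τ ^ 2)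
      have h3 : Real.sqrt c * |τ| ≤ (1 + (Real.sqrt c * |τ|) ^ 2) / 2 := by
        nlinarith [sq_nonneg (Real.sqrt c * |τ| - 1)]
      have h4 : (Real.sqrt c * |τ|) ^ 2 = c * τ ^ 2 := by
        rw [mul_pow, Real.sq_sqrt hc.le, sq_abs]
      rw [h4] at h3
      have : 0 ≤ c * τ ^ 2 := by positivity
      linarith
    have h5 : |τ| ≤ Real.exp (c / 2 * τ ^ 2) / Real.sqrt c := by
      rw [le_div_iff₀ hsc]; linarith
    have h6 : Real.exp (-c * τ ^ 2) = Real.exp (-(c / 2) * τ ^ 2) * (Real.exp (c / 2 * τ ^ 2))⁻¹ := by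
      rw [← Real.exp_neg, ← Real.exp_add]; congr 1; ring
    calc K * |τ| * Real.exp (-c * τ ^ 2)
        ≤ K * (Real.exp (c / 2 * τ ^ 2) / Real.sqrt c) * Real.exp (-c * τ ^ 2) := by gcongr
      _ = K / Real.sqrt c * Real.exp (-(c / 2) * τ ^ 2) := by
          rw [h6]; field_simp
  calc ‖∫ τ in τ₁..τ₂, g τ‖ ≤ ∫ τ in τ₁..τ₂, K / Real.sqrt c * Real.exp (-(c / 2) * τ ^ 2) := by
        apply intervalIntegral.norm_integral_le_of_norm_le h12
        · filter_upwards with τ hτ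
          exact (hbd τ (Ioc_subset_Icc_self hτ)).trans (key τ)
        · exact (Continuous.intervalIntegrable (by fun_prop) _ _)
    _ ≤ ∫ τ, K / Real.sqrt c * Real.exp (-(c / 2) * τ ^ 2) := by
        rw [intervalIntegral.integral_of_le h12]
        apply setIntegral_le_integral (hG2.const_mul _)
        filter_upwards with τ
        positivity
    _ = _ := by rw [MeasureTheory.integral_const_mul, integral_gaussian]

end Pool.Agent.H5
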