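import Mathlib

/-!
Existence of the saddle point.
-/

set_option autoImplicit false

open Complex Filter Topology Set

namespace Pool.Agent.H5

lemma re_div_eq {m : ℝ} (l : ℂ) : ((m : ℂ) / l).re = m * l.re / ‖l‖ ^ 2 := by
  rw [div_eq_mul_inv, Complex.re_ofReal_mul, Complex.inv_re, Complex.normSq_eq_norm_sq]
  ring

/-- the box -/
def box (a b : ℝ) : Set ℂ := {l | a ≤ l.re ∧ l.re ≤ b ∧ |l.im| ≤ Real.pi / 2}

lemma isClosed_box (a b : ℝ) : IsClosed (box a b) := by
  have h1 : IsClosed {l : ℂ | a ≤ l.re} := isClosed_le continuous_const Complex.continuous_re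
  have h2 : IsClosed {l : ℂ | l.re ≤ b} := isClosed_le Complex.continuous_re continuous_const
  have h3 : IsClosed {l : ℂ | |l.im| ≤ Real.pi / 2} :=
    isClosed_le (continuous_abs.comp Complex.continuous_im) continuous_const
  have : box a b = {l : ℂ | a ≤ l.re} ∩ ({l : ℂ | l.re ≤ b} ∩ {l : ℂ | |l.im| ≤ Real.pi / 2}) := by
    ext l; simp [box]
  rw [this]
  exact h1.inter (h2.inter h3)

lemma convex_box (a b : ℝ) : Convex ℝ (box a b) := by
  intro u hu v hv s t hs ht hst
  obtain ⟨u1, u2, u3⟩ := hu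
  obtain ⟨v1, v2, v3⟩ := hv
  rw [abs_le] at u3 v3
  have key : ∀ c : ℝ, c = s * c + t * c := fun c => by rw [← add_mul, hst, one_mul]
  have e1 : (s • u + t • v).re = s * u.re + t * v.re := by simp
  have e2 : (s • u + t • v).im = s * u.im + t * v.im := by simp
  refine ⟨?_, ?_, ?_⟩
  · rw [e1, key a]
    exact add_le_add (mul_le_mul_of_nonneg_left u1 hs) (mul_le_mul_of_nonneg_left v1 ht)
  · rw [e1, key b]
    exact add_le_add (mul_le_mul_of_nonneg_left u2 hs) (mul_le_mul_of_nonneg_left v2 ht)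
  · rw [abs_le, e2]
    constructor
    · rw [key (-(Real.pi / 2))]
      exact add_le_add (mul_le_mul_of_nonneg_left u3.1 hs) (mul_le_mul_of_nonneg_left v3.1 ht)
    · rw [key (Real.pi / 2)]
      exact add_le_add (mul_le_mul_of_nonneg_left u3.2 hs) (mul_le_mul_of_nonneg_left v3.2 ht)

/-- the map -/
noncomputable def Tm (M m : ℝ) (s₀ : ℂ) (l : ℂ) : ℂ := Complex.log (M * (s₀ + m / l))

lemma re_arg_pos {M m : ℝ} (hM : 0 < M) (hm : 0 < m) {s₀ l : ℂ} (hs : 0 ≤ s₀.re) (hl : 0 < l.re) :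
    0 < ((M : ℂ) * (s₀ + m / l)).re := by
  have hl0 : l ≠ 0 := by rintro rfl; simp at hl
  have hn : 0 < ‖l‖ := norm_pos_iff.2 hl0
  rw [Complex.re_ofReal_mul, Complex.add_re, re_div_eq]
  have : 0 < m * l.re / ‖l‖ ^ 2 := by positivity
  positivity

lemma hasDerivAt_Tm {M m : ℝ} (hM : 0 < M) (hm : 0 < m) {s₀ l : ℂ} (hs : 0 ≤ s₀.re) (hl : 0 < l.re) :
    HasDerivAt (Tm M m s₀) (-(m / l ^ 2) / (s₀ + m / l)) l := by
  have hl0 : l ≠ 0 := by rintro rfl; simp at hl
  have hpos := re_arg_pos hM hm hs hl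
  have h1 : HasDerivAt (fun l : ℂ => (m : ℂ) / l) (-(m / l ^ 2)) l := by
    have := (hasDerivAt_inv hl0).const_mul (m : ℂ)
    refine (this.congr_deriv ?_)
    ring
  have h2 : HasDerivAt (fun l : ℂ => (M : ℂ) * (s₀ + m / l)) (M * -(m / l ^ 2)) l :=
    (h1.const_add s₀).const_mul _
  have h3 := h2.clog (Or.inl hpos)
  refine h3.congr_deriv ?_
  have hM' : (M : ℂ) ≠ 0 := by exact_mod_cast hM.ne'
  rw [mul_div_mul_left _ _ hM']

lemma norm_deriv_Tm_le {m : ℝ} (hm : 0 < m) {s₀ l : ℂ} (hs : 0 ≤ s₀.re)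
    (hl : 0 < l.re) : ‖-((m : ℂ) / l ^ 2) / (s₀ + m / l)‖ ≤ 1 / l.re := by
  have hl0 : l ≠ 0 := by rintro rfl; simp at hl
  have hn : 0 < ‖l‖ := norm_pos_iff.2 hl0
  have h1 : m * l.re / ‖l‖ ^ 2 ≤ ‖s₀ + m / l‖ := by
    refine le_trans ?_ (Complex.re_le_norm _)
    rw [Complex.add_re, re_div_eq]
    linarith
  have h2 : 0 < m * l.re / ‖l‖ ^ 2 := by positivity
  rw [norm_div, norm_neg, norm_div, norm_pow, Complex.norm_real, Real.norm_eq_abs, abs_of_pos hm]
  calc m / ‖l‖ ^ 2 / ‖s₀ + m / l‖ ≤ m / ‖l‖ ^ 2 / (m * l.re / ‖l‖ ^ 2) := by gcongr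
    _ = 1 / l.re := by field_simp

lemma fixed_point {M m : ℝ} (hM : 0 < M) (hm : 0 < m) {s₀ : ℂ} (hs : 0 ≤ s₀.re) {a b : ℝ}
    (ha : 2 ≤ a) (hab : a ≤ b)
    (hlow : ∀ l ∈ box a b, Real.exp a ≤ M * ‖s₀ + m / l‖)
    (hup : ∀ l ∈ box a b, M * ‖s₀ + m / l‖ ≤ Real.exp b) :
    ∃ l ∈ box a b, Complex.exp l = M * (s₀ + m / l) := by
  have hpos : ∀ l ∈ box a b, 0 < l.re := fun l hl => by have := hl.1; linarith
  have hmaps : MapsTo (Tm M m s₀) (box a b) (box a b) := by
    intro l hl
    have hre := re_arg_pos hM hm hs (hpos l hl)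
    have hnorm : ‖(M : ℂ) * (s₀ + m / l)‖ = M * ‖s₀ + m / l‖ := by
      rw [norm_mul, Complex.norm_real, Real.norm_eq_abs, abs_of_pos hM]
    have hne : (M : ℂ) * (s₀ + m / l) ≠ 0 := by
      intro h; rw [h] at hre; simp at hre
    refine ⟨?_, ?_, ?_⟩
    · unfold Tm
      rw [Complex.log_re, hnorm]
      rw [Real.le_log_iff_exp_le (lt_of_lt_of_le (Real.exp_pos _) (hlow l hl))]
      exact hlow l hl
    · unfold Tm
      rw [Complex.log_re, hnorm]
      rw [Real.log_le_iff_le_exp (lt_of_lt_of_le (Real.exp_pos _) (hlow l hl))]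
      exact hup l hl
    · unfold Tm
      rw [Complex.log_im]
      exact Complex.abs_arg_le_pi_div_two_iff.2 hre.le
  have hlip : LipschitzOnWith (1 / 2 : NNReal) (Tm M m s₀) (box a b) := by
    refine (convex_box a b).lipschitzOnWith_of_nnnorm_hasDerivWithin_le
      (f' := fun l => -(m / l ^ 2) / (s₀ + m / l)) ?_ ?_
    · intro l hl
      exact (hasDerivAt_Tm hM hm hs (hpos l hl)).hasDerivWithinAt
    · intro l hl
      rw [← NNReal.coe_le_coe]
      push_cast
      refine (norm_deriv_Tm_le hm hs (hpos l hl)).trans ?_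
      exact one_div_le_one_div_of_le (by norm_num) (ha.trans hl.1)
  have hcontr : ContractingWith (1 / 2 : NNReal) (hmaps.restrict (Tm M m s₀) (box a b) (box a b)) := by
    constructor
    · rw [← NNReal.coe_lt_coe]; push_cast; norm_num
    · exact hlip.mapsToRestrict hmaps
  have h0 : (a : ℂ) ∈ box a b := by
    refine ⟨by simp, by simpa using hab, ?_⟩
    simp; positivity
  obtain ⟨l, hl, hfix, -⟩ := ContractingWith.exists_fixedPoint' (isClosed_box a b).isComplete hmaps
    hcontr h0 (edist_ne_top _ _)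
  refine ⟨l, hl, ?_⟩
  have hre := re_arg_pos hM hm hs (hpos l hl)
  have hne : (M : ℂ) * (s₀ + m / l) ≠ 0 := by
    intro h; rw [h] at hre; simp at hre
  have : Tm M m s₀ l = l := hfix
  rw [← this]
  conv_lhs => unfold Tm
  rw [Complex.exp_log hne, this]

lemma saddle_exists {a : ℝ} (ha : 3 ≤ a) {M m : ℝ} (hM : 1 / 2 ≤ M) (hm : 500 * Real.exp (2 * a) ≤ m)
    {s₀ : ℂ} (hs0 : 0 ≤ s₀.re) (hs2 : s₀.re ≤ 2) :
    ∃ l : ℂ, a ≤ l.re ∧ |l.im| ≤ Real.pi / 2 ∧ Complex.exp l = M * (s₀ + m / l) := by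
  have hM0 : 0 < M := by linarith
  have hea : 1 ≤ Real.exp a := Real.one_le_exp (by linarith)
  have hae : a ≤ Real.exp a := by have := Real.add_one_le_exp a; linarith
  have he2 : Real.exp (2 * a) = Real.exp a * Real.exp a := by rw [← Real.exp_add]; ring_nf
  have hmE : 500 * (Real.exp a * Real.exp a) ≤ m := by rw [← he2]; exact hm
  have hm0 : 0 < m := by nlinarith
  have hmE1 : 500 * Real.exp a ≤ m := by nlinarith
  have hnorm_s : ‖s₀‖ ≤ 2 + |s₀.im| := by
    refine (Complex.norm_le_abs_re_add_abs_im s₀).trans ?_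
    rw [abs_of_nonneg hs0]; linarith
  set b := Real.log (M * (‖s₀‖ + m / a)) with hb
  have hpos : 0 < M * (‖s₀‖ + m / a) := by positivity
  have hab : a ≤ b := by
    rw [hb, Real.le_log_iff_exp_le hpos]
    have h1 : Real.exp a * a ≤ M * m := by
      have : Real.exp a * a ≤ Real.exp a * Real.exp a := by gcongr
      nlinarith
    have h2 : Real.exp a ≤ M * (m / a) := by
      rw [← mul_div_assoc, le_div_iff₀ (by linarith)]
      exact h1
    have : 0 ≤ M * ‖s₀‖ := by positivity
    nlinarith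
  have hup : ∀ l ∈ box a b, M * ‖s₀ + m / l‖ ≤ Real.exp b := by
    intro l hl
    rw [hb, Real.exp_log hpos]
    have hla : a ≤ ‖l‖ := hl.1.trans (Complex.re_le_norm l)
    gcongr
    refine (norm_add_le _ _).trans ?_
    rw [norm_div, Complex.norm_real, Real.norm_eq_abs, abs_of_pos hm0]
    gcongr
  have hlow : ∀ l ∈ box a b, Real.exp a ≤ M * ‖s₀ + m / l‖ := by
    intro l hl
    have hla : a ≤ ‖l‖ := hl.1.trans (Complex.re_le_norm l)
    have hl0 : 0 < ‖l‖ := by linarith
    rcases le_or_gt m |s₀.im| with hy | hy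
    · have h1 : |s₀.im| - m / 3 ≤ ‖s₀ + m / l‖ := by
        have h2 : ‖(m : ℂ) / l‖ ≤ m / 3 := by
          rw [norm_div, Complex.norm_real, Real.norm_eq_abs, abs_of_pos hm0]
          gcongr; linarith
        have h3 : |s₀.im| ≤ ‖s₀‖ := Complex.abs_im_le_norm _
        have h4 : ‖s₀‖ ≤ ‖s₀ + m / l‖ + ‖(m : ℂ) / l‖ := by
          have := norm_sub_le (s₀ + m / l) ((m : ℂ) / l)
          simpa using this
        linarith
      have h5 : 2 / 3 * m ≤ ‖s₀ + m / l‖ := by linarith
      nlinarith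
    · have h1 : m * l.re / ‖l‖ ^ 2 ≤ ‖s₀ + m / l‖ := by
        refine le_trans ?_ (Complex.re_le_norm _)
        rw [Complex.add_re, re_div_eq]
        linarith
      have hre : 0 < l.re := by have := hl.1; linarith
      have h2 : ‖l‖ ^ 2 ≤ 1.3 * l.re ^ 2 := by
        rw [← Complex.normSq_eq_norm_sq, Complex.normSq_apply]
        have h3 : l.im * l.im ≤ (Real.pi / 2) ^ 2 := by
          have := hl.2.2
          nlinarith [abs_nonneg l.im, abs_mul_abs_self l.im]
        have h4 : (Real.pi / 2) ^ 2 ≤ 2.5 := by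
          have := Real.pi_lt_d2
          nlinarith [Real.pi_pos]
        have h5 : 9 ≤ l.re * l.re := by have := hl.1; nlinarith
        nlinarith
      have h3 : m / (1.3 * b) ≤ ‖s₀ + m / l‖ := by
        refine le_trans ?_ h1
        rw [div_le_div_iff₀ (by nlinarith) (by positivity)]
        have h6 : ‖l‖ ^ 2 ≤ 1.3 * b * l.re := by
          have := hl.2.1
          nlinarith
        nlinarith
      -- bound for b
      have hlogM : Real.log M ≤ M := by
        have := Real.log_le_sub_one_of_pos hM0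
        linarith
      have hb1 : b ≤ M + 4 * Real.sqrt m := by
        have h7 : ‖s₀‖ + m / a ≤ 4 * m := by
          have : m / a ≤ m := by
            apply div_le_self hm0.le; linarith
          have h8 : 2 ≤ m := by nlinarith
          linarith
        have h9 : b ≤ Real.log (M * (4 * m)) := by
          rw [hb]
          apply Real.log_le_log hpos
          gcongr
        rw [Real.log_mul hM0.ne' (by positivity)] at h9
        have h10 : Real.log (4 * m) ≤ 4 * Real.sqrt m := by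
          have e : 4 * m = (2 * Real.sqrt m) ^ 2 := by
            rw [mul_pow, Real.sq_sqrt hm0.le]; norm_num
          rw [e, Real.log_pow]
          have h11 : 0 < 2 * Real.sqrt m := by positivity
          have := Real.log_le_sub_one_of_pos h11
          push_cast
          linarith
        linarith
      have hsq : 20.8 * Real.exp a ≤ Real.sqrt m := by
        apply Real.le_sqrt_of_sq_le
        nlinarith [Real.exp_pos a]
      have hsm : Real.sqrt m * Real.sqrt m = m := Real.mul_self_sqrt hm0.le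
      have hbpos : 0 < b := by linarith
      have h12 : Real.exp a * (1.3 * b) ≤ M * m := by
        have h13 : Real.exp a * (1.3 * b) ≤ Real.exp a * (1.3 * (M + 4 * Real.sqrt m)) := by
          gcongr
        have h14 : 20.8 * Real.exp a * Real.sqrt m ≤ Real.sqrt m * Real.sqrt m :=
          mul_le_mul_of_nonneg_right hsq (Real.sqrt_nonneg m)
        rw [hsm] at h14
        have h15 : 2.6 * Real.exp a * M ≤ m * M := by
          apply mul_le_mul_of_nonneg_right _ hM0.le
          linarith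
        have h16 : 1 / 2 * m ≤ M * m := mul_le_mul_of_nonneg_right hM hm0.le
        linarith
      calc Real.exp a ≤ M * (m / (1.3 * b)) := by
            rw [← mul_div_assoc, le_div_iff₀ (by positivity)]
            exact h12
        _ ≤ M * ‖s₀ + m / l‖ := by gcongr
  obtain ⟨l, hl, h⟩ := fixed_point hM0 hm0 hs0 (by linarith) hab hlow hup
  exact ⟨l, hl.1, hl.2.2, h⟩

end Pool.Agent.H5
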