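import Mathlib
import Pool.Agent.H5.GammaV
import Pool.Agent.H5.Saddle
import Pool.Agent.H5.Pointwise
import Pool.Agent.H5.IntEst

/-!
Estimates on the vertical line through the saddle point.
-/

set_option autoImplicit false

open Complex

namespace Pool.Agent.H5

open Pool.Agent.H6 (psi)

/-- Data of a completed self-dual degree two L-function (normalised by `s ↔ 2 - s`), with the
bounds of the L-series in the half plane `1 + θ ≤ Re s`. -/
structure LData (θ c₀ C₀ C₁ M : ℝ) (Λ L : ℂ → ℂ) (w : ℂ) : Prop where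
  hM : 1 / 2 ≤ M
  hθ0 : 0 < θ
  hθ1 : θ ≤ 1
  hc₀ : 0 < c₀
  hC : c₀ ≤ C₀
  hC₁ : 0 ≤ C₁
  sign : w = 1 ∨ w = -1
  diff : Differentiable ℂ Λ
  fe : ∀ s, Λ (2 - s) = w * Λ s
  real : ∀ s, Λ ((starRingEnd ℂ) s) = (starRingEnd ℂ) (Λ s)
  eqL : ∀ s : ℂ, 1 + θ ≤ s.re → Λ s = (M : ℂ) ^ s * Gamma s * L s
  upper : ∀ s : ℂ, 1 + θ ≤ s.re → ‖L s‖ ≤ C₀
  lower : ∀ s : ℂ, 1 + θ ≤ s.re → c₀ ≤ ‖L s‖
  lip : ∀ s : ℂ, 1 + θ ≤ s.re → ∀ τ : ℝ, ‖L (s + τ * I) - L s‖ ≤ C₁ * |τ| / s.re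
  bdd : ∃ C, ∀ s : ℂ, 1 - θ ≤ s.re → s.re ≤ 1 + θ → ‖Λ s‖ ≤ C

/-- a saddle point -/
structure Sad (M : ℝ) (m : ℕ) (a : ℝ) (s₀ l : ℂ) : Prop extends SP m a l where
  hs0 : 0 ≤ s₀.re
  hs2 : s₀.re ≤ 2
  heq : exp l = M * (s₀ + m / l)

/-- the radius -/
noncomputable def RR (m : ℕ) (l : ℂ) : ℝ := m / ‖l‖

lemma ofReal_natCast' (m : ℕ) : ((m : ℕ) : ℂ) = ((m : ℝ) : ℂ) := by simp

namespace SP

variable {m : ℕ} {a : ℝ} {l : ℂ}

lemma R_pos (h : SP m a l) : 0 < RR m l := div_pos h.mpos h.norm_pos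

lemma R_mul (h : SP m a l) : RR m l * ‖l‖ = m := by
  unfold RR
  field_simp [h.norm_pos.ne']

lemma norm_sq_le (h : SP m a l) : ‖l‖ ^ 2 ≤ 1.001 * l.re ^ 2 := by
  rw [← Complex.normSq_eq_norm_sq, Complex.normSq_apply]
  have h3 : l.im * l.im ≤ 1.6 ^ 2 := by
    have h1 : |l.im| ≤ 1.6 := h.him.trans (by have := Real.pi_lt_d2; linarith)
    have := abs_mul_abs_self l.im
    nlinarith [abs_nonneg l.im]
  have h5 : 10000 ≤ l.re * l.re := by have := h.hre; have := h.ha; nlinarith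
  nlinarith

lemma re_ge (h : SP m a l) : 0.999 * ‖l‖ ≤ l.re := by
  have h1 := h.norm_sq_le
  have h2 : 0 < l.re := by have := h.hre; have := h.ha; linarith
  have h3 : (0.999 * ‖l‖) ^ 2 ≤ l.re ^ 2 := by
    nlinarith [sq_nonneg ‖l‖]
  exact le_of_sq_le_sq h3 h2.le

lemma re_div_ge (h : SP m a l) : 0.999 * RR m l ≤ ((m : ℂ) / l).re := by
  have hn := h.norm_pos
  have := h.re_ge
  rw [ofReal_natCast', re_div_eq]
  unfold RR
  have hm := h.mpos
  have e : m * l.re / ‖l‖ ^ 2 = m / ‖l‖ * (l.re / ‖l‖) := by field_simp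
  rw [e, mul_comm (0.999 : ℝ)]
  apply mul_le_mul_of_nonneg_left _ (by positivity)
  rw [le_div_iff₀ hn]; exact this

lemma l_ne (h : SP m a l) : l ≠ 0 := norm_pos_iff.1 h.norm_pos

end SP

namespace Sad

variable {M : ℝ} {m : ℕ} {a : ℝ} {s₀ l : ℂ}

lemma re_sst_ge (h : Sad M m a s₀ l) : 0.999 * RR m l ≤ (s₀ + m / l).re := by
  have h1 := h.toSP.re_div_ge
  have := h.hs0
  rw [Complex.add_re]; linarith

lemma sst_re_pos (h : Sad M m a s₀ l) : 0 < (s₀ + m / l).re := by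
  have h1 := h.re_sst_ge
  have := h.toSP.R_pos
  linarith

lemma log_sst (h : Sad M m a s₀ l) (hM : 0 < M) : log (s₀ + m / l) = l - Real.log M := by
  have hne : (s₀ + m / l) ≠ 0 := by
    intro h0
    have := h.sst_re_pos
    rw [h0] at this; simp at this
  have h1 : log (exp l) = l := by
    have h2 := abs_le.1 h.him
    have := Real.pi_pos
    exact Complex.log_exp (by linarith) (by linarith)
  rw [h.heq, Complex.log_ofReal_mul hM hne] at h1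
  linear_combination h1

end Sad

/-- the correction exponent -/
noncomputable def EE (s : ℂ) (τ : ℝ) : ℂ := τ * I * (psi s - log s) + rhoV s τ

lemma norm_EE_le {s : ℂ} (hs : 1 ≤ s.re) (τ : ℝ) : ‖EE s τ‖ ≤ |τ| / s.re + τ ^ 2 / s.re := by
  unfold EE
  refine (norm_add_le _ _).trans (add_le_add ?_ (norm_rhoV_le hs τ))
  rw [norm_mul, norm_mul, Complex.norm_I, Complex.norm_real, Real.norm_eq_abs, mul_one]
  have := norm_psi_sub_log_le hs
  calc |τ| * ‖psi s - log s‖ ≤ |τ| * (1 / s.re) := by gcongr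
    _ = _ := by ring

namespace LData

variable {θ c₀ C₀ C₁ M : ℝ} {Λ L : ℂ → ℂ} {w : ℂ}

lemma M_pos (D : LData θ c₀ C₀ C₁ M Λ L w) : 0 < M := by have := D.hM; linarith

lemma cpow_ne (D : LData θ c₀ C₀ C₁ M Λ L w) (s : ℂ) : (M : ℂ) ^ s ≠ 0 := by
  have hM : (M : ℂ) ≠ 0 := by exact_mod_cast D.M_pos.ne'
  rw [Complex.cpow_def_of_ne_zero hM]; exact exp_ne_zero _

lemma L_ne (D : LData θ c₀ C₀ C₁ M Λ L w) {s : ℂ} (hs : 1 + θ ≤ s.re) : L s ≠ 0 := by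
  have := D.lower s hs
  have h2 := D.hc₀
  intro h; rw [h] at this; simp at this; linarith

lemma Λ_ne (D : LData θ c₀ C₀ C₁ M Λ L w) {s : ℂ} (hs : 1 + θ ≤ s.re) : Λ s ≠ 0 := by
  rw [D.eqL s hs]
  have := D.hθ0
  exact mul_ne_zero (mul_ne_zero (D.cpow_ne s) (Gamma_ne_zero_of_re_pos (by linarith))) (D.L_ne hs)

/-- vertical ratio -/
lemma ratio (D : LData θ c₀ C₀ C₁ M Λ L w) {m : ℕ} {a : ℝ} {s₀ l : ℂ} (h : Sad M m a s₀ l)
    (hs : 1 + θ ≤ (s₀ + m / l).re) (τ : ℝ) :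
    Λ (s₀ + m / l + τ * I) = Λ (s₀ + m / l) * (exp (τ * I * l) * exp (EE (s₀ + m / l) τ) *
      (L (s₀ + m / l + τ * I) / L (s₀ + m / l))) := by
  set s := s₀ + m / l with hsdef
  have hθ := D.hθ0
  have hs1 : 1 ≤ s.re := by linarith
  have hMc : (M : ℂ) ≠ 0 := by exact_mod_cast D.M_pos.ne'
  have hL := D.L_ne hs
  rw [D.eqL s hs, D.eqL (s + τ * I) (by simpa using hs), gamma_vert hs1 τ,
    Complex.cpow_add _ _ hMc, Complex.cpow_def_of_ne_zero hMc (τ * I)]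
  have hlog := h.log_sst D.M_pos
  rw [← hsdef] at hlog
  have hlM : log (M : ℂ) = ((Real.log M : ℝ) : ℂ) := by
    rw [Complex.ofReal_log D.M_pos.le]
  have e : exp (log (M : ℂ) * (τ * I)) * exp (τ * I * psi s + rhoV s τ)
      = exp (τ * I * l) * exp (EE s τ) := by
    rw [← Complex.exp_add, ← Complex.exp_add]
    congr 1
    unfold EE
    rw [hlog, hlM]; ring
  have e2 : (M : ℂ) ^ s * exp (log (M : ℂ) * (τ * I)) * (Gamma s * exp (τ * I * psi s + rhoV s τ)) *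
      L (s + τ * I) = (M : ℂ) ^ s * Gamma s * (exp (log (M : ℂ) * (τ * I)) * exp (τ * I * psi s + rhoV s τ))
        * L (s + τ * I) := by ring
  rw [e2, e]
  field_simp

end LData

/-- the scaled variable -/
noncomputable def zz (m : ℕ) (l : ℂ) (τ : ℝ) : ℝ := τ * ‖l‖ / m

/-- the normalised integrand -/
noncomputable def hh (L : ℂ → ℂ) (m : ℕ) (s₀ l : ℂ) (τ : ℝ) : ℂ :=
  exp (XX m l (zz m l τ) (EE (s₀ + m / l) τ)) * (L (s₀ + m / l + τ * I) / L (s₀ + m / l))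

namespace SP

variable {m : ℕ} {a : ℝ} {l : ℂ}

lemma m_zet (h : SP m a l) (τ : ℝ) : (m : ℂ) * zet l (zz m l τ) = τ * I * l := by
  unfold zet zz
  have hn : ((‖l‖ : ℝ) : ℂ) ≠ 0 := by exact_mod_cast h.norm_pos.ne'
  have hm : (m : ℂ) ≠ 0 := by exact_mod_cast h.mpos.ne'
  push_cast
  field_simp

lemma one_add_zet (h : SP m a l) (τ : ℝ) : (m : ℂ) / l * (1 + zet l (zz m l τ)) = m / l + τ * I := by
  have hm : (m : ℂ) ≠ 0 := by exact_mod_cast h.mpos.ne'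
  have h1 := h.m_zet τ
  have h2 := h.l_ne
  field_simp
  linear_combination h1

end SP

namespace LData

variable {θ c₀ C₀ C₁ M : ℝ} {Λ L : ℂ → ℂ} {w : ℂ}

lemma integrand_eq (D : LData θ c₀ C₀ C₁ M Λ L w) {m : ℕ} {a : ℝ} {s₀ l : ℂ} (h : Sad M m a s₀ l)
    (hs : 1 + θ ≤ (s₀ + m / l).re) (τ : ℝ) :
    Λ (s₀ + m / l + τ * I) / (s₀ + m / l + τ * I - s₀) ^ (m + 1)
      = Λ (s₀ + m / l) / (m / l) ^ (m + 1) * hh L m s₀ l τ := by
  have hm : (m : ℂ) ≠ 0 := by exact_mod_cast h.toSP.mpos.ne'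
  have hl := h.toSP.l_ne
  have h1 : s₀ + m / l + τ * I - s₀ = m / l * (1 + zet l (zz m l τ)) := by
    rw [h.toSP.one_add_zet]; ring
  rw [h1, D.ratio h hs]
  unfold hh
  rw [exp_XX h.toSP, h.toSP.m_zet, mul_pow]
  have h2 := one_add_zet_ne h.toSP (zz m l τ)
  field_simp

/-- pointwise bound of `hh` -/
lemma hh_bound (D : LData θ c₀ C₀ C₁ M Λ L w) {m : ℕ} {a : ℝ} {s₀ l : ℂ} (h : Sad M m a s₀ l)
    (hs : 1 + θ ≤ (s₀ + m / l).re) {τ : ℝ} (hτ : |τ| ≤ 11 / 5 * RR m l) :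
    ‖hh L m s₀ l τ - Real.exp (-(m / (2 * RR m l ^ 2)) * τ ^ 2)‖
      ≤ 60000 * (C₀ / c₀ + 1.1 * (C₁ / c₀)) * (1 / a + 1 / Real.sqrt m) *
        Real.exp (-(m / (2 * RR m l ^ 2) / 20) * τ ^ 2) := by
  have hR := h.toSP.R_pos
  have hm := h.toSP.mpos
  have hn := h.toSP.norm_pos
  have hRm := h.toSP.R_mul
  have hθ := D.hθ0
  have hc := D.hc₀
  set s := s₀ + m / l with hsdef
  have hσ := h.re_sst_ge
  rw [← hsdef] at hσ
  have hσ0 : 0 < s.re := by rw [hsdef]; exact h.sst_re_pos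
  set z := zz m l τ with hz
  have hzR : z = τ / RR m l := by
    rw [hz]; unfold zz RR; field_simp
  have hτz : τ = RR m l * z := by rw [hzR]; field_simp
  have hzabs : |z| = |τ| / RR m l := by rw [hzR, abs_div, abs_of_pos hR]
  have hz1 : |z| ≤ 11 / 5 := by
    rw [hzabs, div_le_iff₀ hR]; exact hτ
  have hRσ : RR m l / s.re ≤ 1.1 := by
    rw [div_le_iff₀ hσ0]; linarith
  have hE : ‖EE s τ‖ ≤ 1.1 * |z| + 1.1 * (m * z ^ 2 / a) := by
    refine (norm_EE_le (by linarith) τ).trans ?_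
    have e1 : |τ| / s.re = |z| * (RR m l / s.re) := by
      rw [hτz, abs_mul, abs_of_pos hR]; ring
    have e2 : τ ^ 2 / s.re = (RR m l / s.re) * (RR m l * z ^ 2) := by
      rw [hτz]; ring
    have e3 : RR m l ≤ m / a := by
      unfold RR
      apply div_le_div_of_nonneg_left hm.le (by have := h.toSP.ha; linarith) h.toSP.norm_ge
    have e4 : RR m l * z ^ 2 ≤ m * z ^ 2 / a := by
      calc RR m l * z ^ 2 ≤ m / a * z ^ 2 := by gcongr
        _ = _ := by ring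
    rw [e1, e2]
    have := h.toSP.ha
    have h5 : |z| * (RR m l / s.re) ≤ |z| * 1.1 := by gcongr
    have h6 : (RR m l / s.re) * (RR m l * z ^ 2) ≤ 1.1 * (m * z ^ 2 / a) := by gcongr
    linarith
  have hL := D.L_ne hs
  have hLlow := D.lower s hs
  have hL0 : ‖L (s + τ * I) / L s‖ ≤ C₀ / c₀ := by
    rw [norm_div]
    have := D.upper (s + τ * I) (by simpa using hs)
    have hC0 : 0 ≤ C₀ := by linarith [D.hC]
    gcongr
  have hL1 : ‖L (s + τ * I) / L s - 1‖ ≤ 1.1 * (C₁ / c₀) * |z| := by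
    have e : L (s + τ * I) / L s - 1 = (L (s + τ * I) - L s) / L s := by field_simp
    rw [e, norm_div]
    have h1 := D.lip s hs τ
    have hC1 := D.hC₁
    have h2 : C₁ * |τ| / s.re = C₁ * (|z| * (RR m l / s.re)) := by
      rw [hτz, abs_mul, abs_of_pos hR]; ring
    calc ‖L (s + τ * I) - L s‖ / ‖L s‖ ≤ (C₁ * (|z| * 1.1)) / c₀ := by
          apply div_le_div₀ (by positivity) _ hc hLlow
          rw [h2] at h1
          refine h1.trans ?_
          gcongr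
      _ = _ := by ring
  have key := pointwise h.toSP hz1 hE (B₀ := C₀ / c₀) (B₁ := 1.1 * (C₁ / c₀))
    (by rw [le_div_iff₀ hc]; linarith [D.hC]) (by have := D.hC₁; positivity) hL0 hL1
  have e5 : -(m / (2 * RR m l ^ 2)) * τ ^ 2 = -(m * z ^ 2 / 2) := by
    rw [hτz]; field_simp
  have e6 : -(m / (2 * RR m l ^ 2) / 20) * τ ^ 2 = -(m * z ^ 2 / 40) := by
    rw [hτz]; field_simp; ring
  unfold hh
  rw [← hsdef, e5, e6]
  exact key

end LData

end Pool.Agent.H5
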