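import Mathlib
import Pool.Agent.H5.Contour
import Pool.Agent.H5.Core

/-!
Splitting of the derivative at the critical line, and the derivative of the half integral.
-/

set_option autoImplicit false

open Complex MeasureTheory Set

namespace Pool.Agent.H5

open scoped ComplexConjugate

/-- the kernel -/
noncomputable def ker (Λ : ℂ → ℂ) (m : ℕ) (s₀ : ℂ) (s : ℂ) : ℂ := Λ s / (s - s₀) ^ (m + 1)

/-- the half integral -/
noncomputable def AA (Λ : ℂ → ℂ) (m : ℕ) (y H c : ℝ) (s₀ : ℂ) : ℂ :=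
  PI (ker Λ m s₀) y H c / (2 * Real.pi * I)

lemma ker_cont {Λ : ℂ → ℂ} (hΛ : Differentiable ℂ Λ) (m : ℕ) (s₀ : ℂ) :
    ContinuousOn (ker Λ m s₀) {s₀}ᶜ := by
  unfold ker
  apply hΛ.continuous.continuousOn.div (by fun_prop)
  intro s hs
  have : s - s₀ ≠ 0 := by simpa [sub_eq_zero] using hs
  exact pow_ne_zero _ this

lemma ker_diff {Λ : ℂ → ℂ} (hΛ : Differentiable ℂ Λ) (m : ℕ) {s₀ s : ℂ} (hs : s ≠ s₀) :
    DifferentiableAt ℂ (ker Λ m s₀) s := by
  unfold ker
  apply (hΛ s).div (by fun_prop)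
  exact pow_ne_zero _ (sub_ne_zero.2 hs)

/-- change of the abscissa -/
lemma AA_indep {Λ : ℂ → ℂ} (hΛ : Differentiable ℂ Λ) (m : ℕ) {s₀ : ℂ} {y H c c' : ℝ}
    (h1 : y - H < s₀.im) (h2 : s₀.im < y + H) (hc : s₀.re < c) (hc' : s₀.re < c') :
    AA Λ m y H c s₀ = AA Λ m y H c' s₀ := by
  unfold AA
  have hA : Avoid s₀ y H c := ⟨h1, h2, hc.ne'⟩
  rw [PI_rect (c' := c') _ (int_low (ker_cont hΛ m s₀) hA) (int_high (ker_cont hΛ m s₀) hA)]
  intro s hs
  apply (ker_diff hΛ m _).differentiableWithinAt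
  rintro rfl
  have := hs.1
  rw [mem_preimage, mem_uIcc] at this
  rcases this with h | h <;> linarith

lemma conj_integral (f : ℝ → ℂ) (a b : ℝ) :
    ∫ x in a..b, conj (f x) = conj (∫ x in a..b, f x) := by
  unfold intervalIntegral
  rw [map_sub, integral_conj, integral_conj]

/-- reflection of the path -/
lemma PI_reflect {θ c₀ C₀ C₁ M : ℝ} {Λ L : ℂ → ℂ} {w : ℂ} (D : LData θ c₀ C₀ C₁ M Λ L w)
    (m : ℕ) (s₀ : ℂ) (y H c : ℝ) :
    PI (ker Λ m s₀) y H (2 - c) = w * (-1) ^ m * conj (PI (ker Λ m (2 - conj s₀)) y H c) := by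
  have key : ∀ v : ℂ, ker Λ m s₀ (2 - conj v) = w * (-1) ^ (m + 1) * conj (ker Λ m (2 - conj s₀) v) := by
    intro v
    unfold ker
    rw [D.fe, D.real, map_div₀, map_pow, map_sub, map_sub, Complex.conj_conj]
    have e : 2 - conj v - s₀ = -(conj v - (conj 2 - s₀)) := by
      have : conj (2 : ℂ) = 2 := Complex.conj_ofNat 2
      rw [this]; ring
    rw [e, neg_pow, mul_div_assoc]
    have h1 : ((-1 : ℂ)) ^ (m + 1) * ((-1 : ℂ)) ^ (m + 1) = 1 := by
      rw [← pow_add, ← two_mul]; exact (even_two_mul _).neg_one_pow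
    have h2 : ((-1 : ℂ)) ^ (m + 1) ≠ 0 := pow_ne_zero _ (by norm_num)
    rcases eq_or_ne ((conj v - (conj 2 - s₀)) ^ (m + 1)) 0 with h0 | h0
    · rw [h0]; simp
    · field_simp
      rw [pow_two] 
      rw [h1, mul_one]
  unfold PI
  have e1 : ∀ t : ℝ, ∫ u in (1:ℝ)..(2 - c), ker Λ m s₀ (u + (t : ℂ) * I)
      = -(w * (-1) ^ (m + 1) * conj (∫ u in (1:ℝ)..c, ker Λ m (2 - conj s₀) (u + (t : ℂ) * I))) := by
    intro t
    have h1 : ∫ u in (1:ℝ)..(2 - c), ker Λ m s₀ (u + (t : ℂ) * I)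
        = - ∫ u in (1:ℝ)..c, ker Λ m s₀ (((2 - u : ℝ) : ℂ) + (t : ℂ) * I) := by
      rw [intervalIntegral.integral_comp_sub_left (fun u : ℝ => ker Λ m s₀ ((u : ℂ) + (t : ℂ) * I)) 2,
        intervalIntegral.integral_symm]
      norm_num
    rw [h1]
    congr 1
    rw [← conj_integral, ← intervalIntegral.integral_const_mul]
    apply intervalIntegral.integral_congr
    intro u _
    simp only
    rw [← key]
    congr 1
    apply Complex.ext <;> simp
  have e2 : ∫ v in (y - H)..(y + H), ker Λ m s₀ (((2 - c : ℝ) : ℂ) + v * I)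
      = w * (-1) ^ (m + 1) * conj (∫ v in (y - H)..(y + H), ker Λ m (2 - conj s₀) (c + v * I)) := by
    rw [← conj_integral, ← intervalIntegral.integral_const_mul]
    apply intervalIntegral.integral_congr
    intro v _
    simp only
    rw [← key]
    congr 1
    apply Complex.ext <;> simp
  rw [e1, e1, e2, map_sub, map_add, map_mul, Complex.conj_I, pow_succ]
  ring

/-- splitting of the derivative at the critical line -/
theorem split {θ c₀ C₀ C₁ M : ℝ} {Λ L : ℂ → ℂ} {w : ℂ} (D : LData θ c₀ C₀ C₁ M Λ L w)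
    (m : ℕ) {s₀ : ℂ} {y H c : ℝ} (h1 : y - H < s₀.im) (h2 : s₀.im < y + H) (hc : s₀.re < c)
    (hc1 : 1 < c) (hc2 : 2 - c < s₀.re) :
    iteratedDeriv m Λ s₀ / m.factorial
      = AA Λ m y H c s₀ + w * (-1) ^ m * conj (AA Λ m y H c (2 - conj s₀)) := by
  have h := PI_cauchy m D.diff h1 h2 hc hc1 hc2 (by linarith)
  have h' : PI (ker Λ m s₀) y H c - PI (ker Λ m s₀) y H (2 - c)
      = 2 * Real.pi * I * (iteratedDeriv m Λ s₀ / m.factorial) := h
  rw [PI_reflect D] at h'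
  unfold AA
  have hpi : (2 * Real.pi * I : ℂ) ≠ 0 := Complex.two_pi_I_ne_zero
  have e : conj (PI (ker Λ m (2 - conj s₀)) y H c / (2 * Real.pi * I))
      = -(conj (PI (ker Λ m (2 - conj s₀)) y H c) / (2 * Real.pi * I)) := by
    rw [map_div₀, map_mul, map_mul, Complex.conj_I, Complex.conj_ofReal, Complex.conj_ofNat]
    rw [mul_neg, div_neg]
  rw [e]
  field_simp
  linear_combination -h'

/-- derivative of a segment integral with respect to the real shift -/
lemma seg_deriv {γ φ : ℝ → ℂ} (hγ : Continuous γ) (hφ : Continuous φ) {a b x₀ δ : ℝ} {z₀ : ℂ} (n : ℕ)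
    (hδ : 0 < δ) (hd : ∀ t, 2 * δ ≤ ‖γ t - (z₀ + x₀)‖) :
    HasDerivAt (fun x : ℝ => ∫ t in a..b, φ t / (γ t - (z₀ + x)) ^ (n + 1))
      (∫ t in a..b, ((n : ℂ) + 1) * (φ t / (γ t - (z₀ + x₀)) ^ (n + 1 + 1))) x₀ := by
  obtain ⟨C, hC⟩ := (isCompact_uIcc (a := a) (b := b)).exists_bound_of_continuousOn hφ.continuousOn
  have hball : ∀ x ∈ Metric.ball x₀ δ, ∀ t, δ ≤ ‖γ t - (z₀ + x)‖ := by
    intro x hx t
    have h1 : ‖γ t - (z₀ + x₀)‖ ≤ ‖γ t - (z₀ + x)‖ + ‖((x : ℂ) - x₀)‖ := by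
      have : γ t - (z₀ + x₀) = (γ t - (z₀ + x)) + ((x : ℂ) - x₀) := by ring
      rw [this]; exact norm_add_le _ _
    have h2 : ‖((x : ℂ) - x₀)‖ < δ := by
      rw [← Complex.ofReal_sub, Complex.norm_real]
      exact hx
    have := hd t
    linarith
  have hne : ∀ x ∈ Metric.ball x₀ δ, ∀ t, γ t - (z₀ + x) ≠ 0 := by
    intro x hx t h0
    have := hball x hx t
    rw [h0] at this; simp at this; linarith
  have hx₀ : x₀ ∈ Metric.ball x₀ δ := Metric.mem_ball_self hδ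
  have hcont : ∀ x ∈ Metric.ball x₀ δ, ∀ k : ℕ, Continuous (fun t => φ t / (γ t - (z₀ + x)) ^ k) := by
    intro x hx k
    apply hφ.div (by fun_prop)
    intro t
    exact pow_ne_zero _ (hne x hx t)
  have h := intervalIntegral.hasDerivAt_integral_of_dominated_loc_of_deriv_le (μ := volume)
    (F := fun (x : ℝ) (t : ℝ) => φ t / (γ t - (z₀ + x)) ^ (n + 1))
    (F' := fun (x : ℝ) (t : ℝ) => ((n : ℂ) + 1) * (φ t / (γ t - (z₀ + x)) ^ (n + 1 + 1)))
    (x₀ := x₀) (s := Metric.ball x₀ δ) (a := a) (b := b)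
    (bound := fun _ => ((n : ℝ) + 1) * (C / δ ^ (n + 1 + 1))) (Metric.ball_mem_nhds x₀ hδ)
    ?_ ?_ ?_ ?_ ?_ ?_
  · exact h.2
  · filter_upwards [Metric.ball_mem_nhds x₀ hδ] with x hx
    exact (hcont x hx _).aestronglyMeasurable
  · exact (hcont x₀ hx₀ _).intervalIntegrable _ _
  · exact (continuous_const.mul (hcont x₀ hx₀ _)).aestronglyMeasurable
  · filter_upwards with t ht x hx
    have h1 := hball x hx t
    have h2 := hC t (uIoc_subset_uIcc ht)
    rw [norm_mul, norm_div, norm_pow]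
    have h3 : ‖(n : ℂ) + 1‖ = (n : ℝ) + 1 := by
      have : ((n : ℂ) + 1) = (((n : ℝ) + 1 : ℝ) : ℂ) := by push_cast; ring
      rw [this, Complex.norm_real, Real.norm_eq_abs, abs_of_nonneg (by positivity)]
    rw [h3]
    have hC0 : 0 ≤ C := (norm_nonneg _).trans h2
    gcongr
  · exact intervalIntegrable_const
  · filter_upwards with t _ x hx
    have h1 := hne x hx t
    have d0 : HasDerivAt (fun x : ℝ => γ t - (z₀ + (x : ℂ))) (-1) x := by
      have : HasDerivAt (fun u : ℝ => (u : ℂ)) 1 x := (hasDerivAt_id x).ofReal_comp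
      simpa using (this.const_add z₀).const_sub (γ t)
    have d1 := (hasDerivAt_const x (φ t)).div (d0.fun_pow (n + 1)) (pow_ne_zero _ h1)
    refine d1.congr_deriv ?_
    push_cast
    field_simp
    ring

/-- derivative of the half integral -/
lemma AA_deriv {Λ : ℂ → ℂ} (hΛ : Differentiable ℂ Λ) (m : ℕ) {y H c x₀ : ℝ} (hH : 0 < H)
    (hc : 1 + x₀ < c) :
    HasDerivAt (fun x : ℝ => AA Λ m y H c (1 + y * I + x))
      (((m : ℂ) + 1) * AA Λ (m + 1) y H c (1 + y * I + x₀)) x₀ := by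
  have hcont := hΛ.continuous
  have d1 := seg_deriv (γ := fun u : ℝ => (u : ℂ) + ((y - H : ℝ) : ℂ) * I)
    (φ := fun u : ℝ => Λ ((u : ℂ) + ((y - H : ℝ) : ℂ) * I)) (by fun_prop) (by fun_prop)
    (a := 1) (b := c) (x₀ := x₀) (δ := H / 2) (z₀ := 1 + y * I) m (by positivity) (by
      intro t
      refine le_trans ?_ (Complex.abs_im_le_norm _)
      simp
      rw [abs_of_pos hH]; linarith)
  have d2 := seg_deriv (γ := fun u : ℝ => (u : ℂ) + ((y + H : ℝ) : ℂ) * I)
    (φ := fun u : ℝ => Λ ((u : ℂ) + ((y + H : ℝ) : ℂ) * I)) (by fun_prop) (by fun_prop)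
    (a := 1) (b := c) (x₀ := x₀) (δ := H / 2) (z₀ := 1 + y * I) m (by positivity) (by
      intro t
      refine le_trans ?_ (Complex.abs_im_le_norm _)
      simp
      rw [abs_of_pos hH]; linarith)
  have d3 := seg_deriv (γ := fun v : ℝ => (c : ℂ) + (v : ℂ) * I)
    (φ := fun v : ℝ => Λ ((c : ℂ) + (v : ℂ) * I)) (by fun_prop) (by fun_prop)
    (a := y - H) (b := y + H) (x₀ := x₀) (δ := (c - (1 + x₀)) / 2) (z₀ := 1 + y * I) m
    (by linarith) (by
      intro t
      refine le_trans ?_ (Complex.abs_re_le_norm _)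
      simp
      rw [abs_of_pos (by linarith)]; linarith)
  have d := (((d1.add (d3.const_mul I)).sub d2).div_const (2 * Real.pi * I : ℂ))
  unfold AA PI ker
  refine d.congr_deriv ?_
  simp only [intervalIntegral.integral_const_mul]
  ring

end Pool.Agent.H5
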