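import Mathlib
import Pool.Agent.H5.Core
import Pool.Agent.H6.StripBound

/-!
Bounds of the completed L-function to the left of the saddle point.
-/

set_option autoImplicit false

open Complex Filter Asymptotics

namespace Pool.Agent.H5

open Pool.Agent.H6 (psi rho gamma_shift norm_rho_le abs_re_psi_sub_log_le abs_im_psi_le
  norm_inv_Gamma_le)

/-- the archimedean factor -/
noncomputable def gam (M : ℝ) (s : ℂ) : ℂ := (M : ℂ) ^ s * Gamma s

lemma norm_cpow {M : ℝ} (hM : 0 < M) (s : ℂ) : ‖(M : ℂ) ^ s‖ = M ^ s.re :=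
  Complex.norm_cpow_eq_rpow_re_of_pos hM s

lemma gam_frac {M : ℝ} (hM : 1 / 2 ≤ M) {s : ℂ} (hs : 1 ≤ s.re) {δ : ℝ} (h0 : 0 ≤ δ) (h1 : δ ≤ 1) :
    ‖gam M s‖ ≤ 11 * ‖gam M (s + δ)‖ := by
  have hM0 : 0 < M := by linarith
  unfold gam
  rw [norm_mul, norm_mul, norm_cpow hM0, norm_cpow hM0, gamma_shift hs (by linarith), norm_mul,
    Complex.norm_exp]
  have e1 : (s + (δ : ℂ)).re = s.re + δ := by simp
  rw [e1, Real.rpow_add hM0]
  have h2 : -(5 / 3) ≤ (δ * psi s + rho s δ).re := by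
    have h3 := norm_rho_le hs (u := δ) (by linarith)
    have h4 := (abs_le.1 ((Complex.abs_re_le_norm (rho s δ)).trans h3)).1
    have h5 := (abs_le.1 (abs_re_psi_sub_log_le hs)).1
    have h6 : 0 ≤ Real.log ‖s‖ := Real.log_nonneg (hs.trans (Complex.re_le_norm s))
    rw [Complex.add_re, Complex.re_ofReal_mul]
    have h7 : -(5 / 6) ≤ δ * (psi s).re := by nlinarith
    have h8 : δ ^ 2 ≤ 1 := by nlinarith
    linarith
  have h3 : 1 / 5.5 ≤ Real.exp (δ * psi s + rho s δ).re := by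
    calc (1 / 5.5 : ℝ) ≤ Real.exp (-(5 / 3)) := by
          rw [Real.exp_neg, one_div]
          apply inv_anti₀ (Real.exp_pos _)
          have h9 := Real.exp_one_lt_d9
          have h10 : Real.exp (5 / 3) ^ 3 = Real.exp 1 ^ 5 := by
            rw [← Real.exp_nat_mul, ← Real.exp_nat_mul]; norm_num
          have h11 : Real.exp (5 / 3) ^ 3 ≤ 5.5 ^ 3 := by
            rw [h10]
            calc Real.exp 1 ^ 5 ≤ 2.7182818286 ^ 5 := by gcongr
              _ ≤ 5.5 ^ 3 := by norm_num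
          exact le_of_pow_le_pow_left₀ (by norm_num) (by norm_num) h11
      _ ≤ _ := Real.exp_le_exp.2 h2
  have h4 : 1 / 2 ≤ M ^ δ := by
    calc (1 / 2 : ℝ) = (1 / 2 : ℝ) ^ (1 : ℝ) := by simp
      _ ≤ (1 / 2 : ℝ) ^ δ := Real.rpow_le_rpow_of_exponent_ge (by norm_num) (by norm_num) h1
      _ ≤ M ^ δ := Real.rpow_le_rpow (by norm_num) hM h0
  have hA : 0 ≤ M ^ s.re := by positivity
  have hB : 0 ≤ ‖Gamma s‖ := norm_nonneg _
  have h5 : 1 / 11 ≤ M ^ δ * Real.exp (δ * psi s + rho s δ).re := by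
    calc (1 / 11 : ℝ) = 1 / 2 * (1 / 5.5) := by norm_num
      _ ≤ _ := by gcongr
  calc M ^ s.re * ‖Gamma s‖ = 11 * (M ^ s.re * ‖Gamma s‖ * (1 / 11)) := by ring
    _ ≤ 11 * (M ^ s.re * ‖Gamma s‖ * (M ^ δ * Real.exp (δ * psi s + rho s δ).re)) := by gcongr
    _ = _ := by ring

lemma half_fact (k : ℕ) : (1 / 2 : ℝ) ≤ (k.factorial : ℝ) / 2 ^ k := by
  rcases k with _ | k
  · norm_num
  rw [le_div_iff₀ (by positivity)]
  have h : 2 ^ k ≤ (k + 1).factorial := by
    induction k with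
    | zero => simp
    | succ k ih =>
      rw [pow_succ, Nat.factorial_succ]
      nlinarith
  have h' : (2 : ℝ) ^ k ≤ ((k + 1).factorial : ℝ) := by exact_mod_cast h
  rw [pow_succ]; linarith

lemma gam_nat {M : ℝ} (hM : 1 / 2 ≤ M) {s : ℂ} (hs : 1 ≤ s.re) (k : ℕ) :
    ‖gam M s‖ ≤ 2 * ‖gam M (s + k)‖ := by
  have hM0 : 0 < M := by linarith
  have key : ∀ k : ℕ, (k.factorial : ℝ) / 2 ^ k * ‖gam M s‖ ≤ ‖gam M (s + k)‖ := by
    intro k
    induction k with
    | zero => simp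
    | succ k ih =>
      have hne : s + k ≠ 0 := by
        intro h
        have := congrArg Complex.re h
        simp at this
        have : (0:ℝ) ≤ k := Nat.cast_nonneg k
        linarith
      have h1 : gam M (s + (k + 1 : ℕ)) = (M * (s + k)) * gam M (s + k) := by
        unfold gam
        have hMc : (M : ℂ) ≠ 0 := by exact_mod_cast hM0.ne'
        have e : s + ((k + 1 : ℕ) : ℂ) = (s + k) + 1 := by push_cast; ring
        rw [e, Complex.cpow_add _ _ hMc, Complex.cpow_one, Complex.Gamma_add_one _ hne]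
        ring
      rw [h1, norm_mul, norm_mul, Complex.norm_real, Real.norm_eq_abs, abs_of_pos hM0]
      have h2 : (k : ℝ) + 1 ≤ ‖s + k‖ := by
        refine le_trans ?_ (Complex.re_le_norm _)
        simp; linarith
      rw [Nat.factorial_succ]
      push_cast
      have hk : (0:ℝ) ≤ k := Nat.cast_nonneg k
      calc ((k : ℝ) + 1) * (k.factorial : ℝ) / 2 ^ (k + 1) * ‖gam M s‖
          = (1 / 2 * ((k : ℝ) + 1)) * ((k.factorial : ℝ) / 2 ^ k * ‖gam M s‖) := by
            rw [pow_succ]; field_simp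
        _ ≤ (M * ‖s + k‖) * ‖gam M (s + k)‖ := by gcongr
  have h1 := key k
  have h2 := half_fact k
  have h3 : 1 / 2 * ‖gam M s‖ ≤ (k.factorial : ℝ) / 2 ^ k * ‖gam M s‖ := by gcongr
  linarith

lemma gam_mono {M : ℝ} (hM : 1 / 2 ≤ M) {s : ℂ} (hs : 1 ≤ s.re) {δ : ℝ} (h0 : 0 ≤ δ) :
    ‖gam M s‖ ≤ 22 * ‖gam M (s + δ)‖ := by
  have hfl := Nat.floor_le h0
  have hfl2 := Nat.lt_floor_add_one δ
  set k := ⌊δ⌋₊
  set δ' := δ - k with hδ'
  have h1 := gam_frac hM hs (δ := δ') (by linarith) (by linarith)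
  have h2 := gam_nat hM (s := s + δ') (by simp; linarith) k
  have e : s + (δ' : ℂ) + k = s + δ := by rw [hδ']; push_cast; ring
  rw [e] at h2
  linarith

lemma gam_vert {M : ℝ} (hM : 0 < M) {s : ℂ} (hs : 1 ≤ s.re) (τ : ℝ) :
    ‖gam M (s + τ * I)‖ ≤ ‖gam M s‖ * Real.exp (1.6 * |τ| + τ ^ 2 / s.re) := by
  unfold gam
  rw [norm_mul, norm_mul, norm_cpow hM, norm_cpow hM, gamma_vert hs, norm_mul, Complex.norm_exp]
  have e1 : (s + τ * I).re = s.re := by simp
  rw [e1, ← mul_assoc]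
  gcongr
  have h1 := norm_rhoV_le hs τ
  have h2 := (Complex.re_le_norm (rhoV s τ)).trans h1
  have h3 := abs_im_psi_le hs
  have h4 : (τ * I * psi s).re = -(τ * (psi s).im) := by
    rw [mul_assoc, Complex.re_ofReal_mul]; simp
  rw [Complex.add_re, h4]
  have h5 : -(τ * (psi s).im) ≤ |τ| * |(psi s).im| := by
    rw [← abs_mul]; exact neg_le_abs _
  have h6 : |τ| * |(psi s).im| ≤ |τ| * 1.6 := by
    gcongr
    exact h3.trans (by have := Real.pi_lt_d2; linarith)
  linarith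

/-- three Gamma values -/
lemma gamma_three {θ v α β : ℝ} (h0 : 0 ≤ θ) (h1 : θ ≤ 1) (hα : 0 ≤ α) (hβ : 0 ≤ β)
    (hαβ : α + β = 2 * θ) :
    ‖Gamma (1 + v * I + α)‖ * ‖Gamma (1 + v * I + β)‖ ≤ Real.exp 5 * ‖Gamma (1 + v * I + θ)‖ ^ 2 := by
  have hs : (1 : ℝ) ≤ (1 + v * I : ℂ).re := by simp
  rw [gamma_shift hs (u := α) (by linarith), gamma_shift hs (u := β) (by linarith),
    gamma_shift hs (u := θ) (by linarith)]
  simp only [norm_mul, Complex.norm_exp, Complex.add_re, Complex.re_ofReal_mul]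
  set s : ℂ := 1 + v * I
  have r1 := (abs_le.1 ((Complex.abs_re_le_norm _).trans (norm_rho_le hs (u := α) (by linarith)))).2
  have r2 := (abs_le.1 ((Complex.abs_re_le_norm _).trans (norm_rho_le hs (u := β) (by linarith)))).2
  have r3 := (abs_le.1 ((Complex.abs_re_le_norm _).trans (norm_rho_le hs (u := θ) (by linarith)))).1
  have e : Real.exp 5 * (‖Gamma s‖ * Real.exp (θ * (psi s).re + (rho s θ).re)) ^ 2
      = ‖Gamma s‖ ^ 2 * Real.exp (5 + 2 * (θ * (psi s).re + (rho s θ).re)) := by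
    rw [mul_pow, ← Real.exp_nat_mul, Real.exp_add]; push_cast; ring
  have e2 : ‖Gamma s‖ * Real.exp (α * (psi s).re + (rho s α).re) *
      (‖Gamma s‖ * Real.exp (β * (psi s).re + (rho s β).re))
      = ‖Gamma s‖ ^ 2 * Real.exp ((α * (psi s).re + (rho s α).re) + (β * (psi s).re + (rho s β).re)) := by
    rw [Real.exp_add (α * (psi s).re + (rho s α).re)]; ring
  rw [e, e2]
  apply mul_le_mul_of_nonneg_left _ (by positivity)
  apply Real.exp_le_exp.2
  have h2 : α * (psi s).re + β * (psi s).re = 2 * (θ * (psi s).re) := by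
    rw [← add_mul, hαβ]; ring
  have h3 : α ^ 2 + β ^ 2 ≤ 4 * θ ^ 2 := by nlinarith
  have h4 : θ ^ 2 ≤ 1 := by nlinarith
  linarith

namespace LData

variable {θ c₀ C₀ C₁ M : ℝ} {Λ L : ℂ → ℂ} {w : ℂ}

lemma norm_w (D : LData θ c₀ C₀ C₁ M Λ L w) : ‖w‖ = 1 := by
  rcases D.sign with h | h <;> simp [h]

/-- the convexity bound -/
lemma strip_sq (D : LData θ c₀ C₀ C₁ M Λ L w) {s : ℂ} (h0 : 1 - θ ≤ s.re) (h2 : s.re ≤ 1 + θ) :
    ‖Λ s‖ ^ 2 ≤ (C₀ ^ 2 * Real.exp 5 * (M ^ (1 + θ)) ^ 2) *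
      (‖Gamma (s + θ)‖ * ‖Gamma (2 + θ - s)‖) := by
  have hM := D.M_pos
  have hθ0 := D.hθ0
  have hθ1 := D.hθ1
  have hw := D.norm_w
  have hCpos : 0 < C₀ := lt_of_lt_of_le D.hc₀ D.hC
  obtain ⟨C, hC⟩ := D.bdd
  set K := C₀ ^ 2 * Real.exp 5 * (M ^ (1 + θ)) ^ 2 with hK
  have hKpos : 0 < K := by positivity
  set f : ℂ → ℂ := fun s => Λ s ^ 2 * ((Gamma (s + θ))⁻¹ * (Gamma (2 + θ - s))⁻¹)
    with hf
  have hdiff : Differentiable ℂ f := by
    apply (D.diff.pow 2).mul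
    apply Differentiable.mul
    · exact Complex.differentiable_one_div_Gamma.comp (differentiable_id.add_const _)
    · exact Complex.differentiable_one_div_Gamma.comp (differentiable_id.const_sub _)
  have hline : ∀ z : ℂ, z.re = 1 + θ → ‖Λ z‖ ^ 2 ≤
      K * (‖Gamma (z + θ)‖ * ‖Gamma (2 + θ - z)‖) := by
    intro z hz
    have hzeq : z = 1 + z.im * I + θ := by
      apply Complex.ext <;> simp [hz]
    have h3 : ‖Gamma z‖ ^ 2 ≤ Real.exp 5 * (‖Gamma (z + θ)‖ * ‖Gamma (2 + θ - z)‖) := by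
      have hs : (1 : ℝ) ≤ (1 + z.im * I : ℂ).re := by simp
      have e2 : ‖Gamma (2 + θ - z)‖ = ‖Gamma (1 + z.im * I)‖ := by
        have : (2 + θ - z : ℂ) = (starRingEnd ℂ) (1 + z.im * I) := by
          apply Complex.ext
          · simp [hz]; ring
          · simp
        rw [this, Gamma_conj, Complex.norm_conj]
      have e3 : z + θ = 1 + z.im * I + ((2 * θ : ℝ) : ℂ) := by
        conv_lhs => rw [hzeq]
        push_cast; ring
      rw [e2, e3]
      conv_lhs => rw [hzeq]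
      rw [gamma_shift hs (u := 2 * θ) (by linarith), gamma_shift hs (u := θ) (by linarith)]
      simp only [norm_mul, Complex.norm_exp, Complex.add_re, Complex.re_ofReal_mul]
      set s : ℂ := 1 + z.im * I
      have r1 := (abs_le.1 ((Complex.abs_re_le_norm _).trans (norm_rho_le hs (u := 2 * θ) (by linarith)))).1
      have r3 := (abs_le.1 ((Complex.abs_re_le_norm _).trans (norm_rho_le hs (u := θ) (by linarith)))).2
      have e : (‖Gamma s‖ * Real.exp (θ * (psi s).re + (rho s θ).re)) ^ 2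
          = ‖Gamma s‖ ^ 2 * Real.exp (2 * (θ * (psi s).re + (rho s θ).re)) := by
        rw [mul_pow, ← Real.exp_nat_mul]; push_cast; ring
      have e4 : Real.exp 5 * (‖Gamma s‖ * Real.exp (2 * θ * (psi s).re + (rho s (2 * θ)).re) * ‖Gamma s‖)
          = ‖Gamma s‖ ^ 2 * Real.exp (5 + (2 * θ * (psi s).re + (rho s (2 * θ)).re)) := by
        rw [Real.exp_add 5]; ring
      rw [e, e4]
      apply mul_le_mul_of_nonneg_left _ (by positivity)
      apply Real.exp_le_exp.2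
      have h4 : θ ^ 2 ≤ 1 := by nlinarith
      nlinarith
    have h5 : ‖Λ z‖ ≤ M ^ (1 + θ) * ‖Gamma z‖ * C₀ := by
      rw [D.eqL z hz.ge, norm_mul, norm_mul, norm_cpow hM, hz]
      gcongr
      exact D.upper z hz.ge
    calc ‖Λ z‖ ^ 2 ≤ (M ^ (1 + θ) * ‖Gamma z‖ * C₀) ^ 2 := by gcongr
      _ = (C₀ ^ 2 * (M ^ (1 + θ)) ^ 2) * ‖Gamma z‖ ^ 2 := by ring
      _ ≤ (C₀ ^ 2 * (M ^ (1 + θ)) ^ 2) * (Real.exp 5 * (‖Gamma (z + θ)‖ * ‖Gamma (2 + θ - z)‖)) := by
          gcongr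
      _ = _ := by rw [hK]; ring
  have hline0 : ∀ z : ℂ, z.re = 1 - θ → ‖Λ z‖ ^ 2 ≤
      K * (‖Gamma (z + θ)‖ * ‖Gamma (2 + θ - z)‖) := by
    intro z hz
    have h5 := hline (2 - z) (by simp [hz]; ring)
    have e1 : (2 - z) + θ = 2 + θ - z := by ring
    have e2 : 2 + θ - (2 - z) = z + θ := by ring
    rw [D.fe, norm_mul, hw, one_mul, e1, e2] at h5
    linarith
  have htrans : ∀ z : ℂ, 1 - θ ≤ z.re → z.re ≤ 1 + θ → (‖f z‖ ≤ K ↔ ‖Λ z‖ ^ 2 ≤
      K * (‖Gamma (z + θ)‖ * ‖Gamma (2 + θ - z)‖)) := by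
    intro z hz0 hz2
    have g1 : 0 < ‖Gamma (z + θ)‖ := norm_pos_iff.mpr
      (Complex.Gamma_ne_zero_of_re_pos (by simp; linarith))
    have g2 : 0 < ‖Gamma (2 + θ - z)‖ := norm_pos_iff.mpr
      (Complex.Gamma_ne_zero_of_re_pos (by simp; linarith))
    simp only [hf]
    rw [norm_mul, norm_pow, norm_mul, norm_inv, norm_inv, ← mul_inv, ← div_eq_mul_inv,
      div_le_iff₀ (by positivity)]
  have hmain : ‖f s‖ ≤ K := by
    apply PhragmenLindelof.vertical_strip (a := 1 - θ) (b := 1 + θ) hdiff.diffContOnCl _ _ _ h0 h2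
    · refine ⟨1, ?_, 2 * Real.pi, ?_⟩
      · have := Real.pi_gt_three
        rw [lt_div_iff₀ (by linarith)]
        linarith
      · apply IsBigO.of_bound (C ^ 2)
        rw [Filter.eventually_inf_principal, Filter.eventually_comap]
        filter_upwards [eventually_ge_atTop (1:ℝ)] with y hy z hz hzs
        have hz1 : 1 ≤ |z.im| := by
          have : |z.im| = y := hz
          rw [this]; exact hy
        have hzs' : 1 - θ < z.re ∧ z.re < 1 + θ := hzs
        have a1 := norm_inv_Gamma_le (z := z + θ) (by simp; linarith [hzs'.1])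
          (by simp; linarith [hzs'.2]) (by simpa using hz1)
        have a2 := norm_inv_Gamma_le (z := 2 + θ - z) (by simp; linarith [hzs'.2])
          (by simp; linarith [hzs'.1]) (by simpa using hz1)
        have e1 : |(z + (θ : ℂ)).im| = |z.im| := by simp
        have e2 : |(2 + (θ : ℂ) - z).im| = |z.im| := by simp
        rw [e1] at a1
        rw [e2] at a2
        have a3 := hC z hzs'.1.le hzs'.2.le
        have a4 : ‖f z‖ ≤ C ^ 2 * (Real.exp (Real.pi * |z.im|) * Real.exp (Real.pi * |z.im|)) := by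
          simp only [hf]
          rw [norm_mul, norm_pow, norm_mul]
          gcongr
        have hCsq : 0 ≤ C ^ 2 := sq_nonneg C
        refine a4.trans ?_
        apply mul_le_mul_of_nonneg_left _ hCsq
        rw [← Real.exp_add, Real.norm_eq_abs, abs_of_pos (Real.exp_pos _)]
        apply Real.exp_le_exp.mpr
        have h8 : |z.im| ≤ Real.exp (1 * |z.im|) := by
          have := Real.add_one_le_exp |z.im|
          rw [one_mul]
          linarith
        have := Real.pi_pos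
        nlinarith
    · intro z hz
      exact (htrans z (by rw [hz]) (by rw [hz]; linarith)).mpr (hline0 z hz)
    · intro z hz
      exact (htrans z (by rw [hz]; linarith) (by rw [hz])).mpr (hline z hz)
  exact (htrans s h0 h2).mp hmain

/-- bound in the right half of the strip -/
lemma strip_le (D : LData θ c₀ C₀ C₁ M Λ L w) {u v : ℝ} (h0 : 1 ≤ u) (h2 : u ≤ 1 + θ) :
    ‖Λ (u + v * I)‖ ≤ C₀ * Real.exp 5 * ‖gam M (1 + θ + v * I)‖ := by
  have hM := D.M_pos
  have hθ0 := D.hθ0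
  have hθ1 := D.hθ1
  have hCpos : 0 < C₀ := lt_of_lt_of_le D.hc₀ D.hC
  have h1 := D.strip_sq (s := u + v * I) (by simp; linarith) (by simp; linarith)
  have h3 := gamma_three (θ := θ) (v := v) (α := u + θ - 1) (β := 1 + θ - u) hθ0.le hθ1
    (by linarith) (by linarith) (by ring)
  have e1 : (u + v * I + θ : ℂ) = 1 + v * I + ((u + θ - 1 : ℝ) : ℂ) := by push_cast; ring
  have e2 : ‖Gamma (2 + θ - (u + v * I))‖ = ‖Gamma (1 + v * I + ((1 + θ - u : ℝ) : ℂ))‖ := by
    have : (2 + θ - (u + v * I) : ℂ) = (starRingEnd ℂ) (1 + v * I + ((1 + θ - u : ℝ) : ℂ)) := by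
      apply Complex.ext
      · simp; ring
      · simp
    rw [this, Gamma_conj, Complex.norm_conj]
  rw [e1, e2] at h1
  have e3 : ‖gam M (1 + θ + v * I)‖ = M ^ (1 + θ) * ‖Gamma (1 + v * I + θ)‖ := by
    unfold gam
    rw [norm_mul, norm_cpow hM]
    have : (1 + θ + v * I : ℂ) = 1 + v * I + θ := by ring
    rw [this]
    simp
  have h4 : ‖Λ (u + v * I)‖ ^ 2 ≤ (C₀ * Real.exp 5 * ‖gam M (1 + θ + v * I)‖) ^ 2 := by
    rw [e3]
    calc ‖Λ (u + v * I)‖ ^ 2 ≤ _ := h1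
      _ ≤ (C₀ ^ 2 * Real.exp 5 * (M ^ (1 + θ)) ^ 2) * (Real.exp 5 * ‖Gamma (1 + v * I + θ)‖ ^ 2) := by
          gcongr
      _ = _ := by ring
  exact le_of_sq_le_sq h4 (by positivity)

end LData

end Pool.Agent.H5
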