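import Mathlib
import Pool.Agent.H5.Strip
import Pool.Agent.H5.Reflect

/-!
Bounds to the left of the saddle point, and the estimate of the half integrals.
-/

set_option autoImplicit false

open Complex MeasureTheory Set

namespace Pool.Agent.H5

open scoped ComplexConjugate

namespace LData

variable {θ c₀ C₀ C₁ M : ℝ} {Λ L : ℂ → ℂ} {w : ℂ}

lemma C₀_pos (D : LData θ c₀ C₀ C₁ M Λ L w) : 0 < C₀ := by linarith [D.hc₀, D.hC]

/-- left of the saddle, bounded by the Gamma factor -/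
lemma left_gam (D : LData θ c₀ C₀ C₁ M Λ L w) {u v : ℝ} (h1 : 1 ≤ u) :
    ‖Λ (u + v * I)‖ ≤ C₀ * Real.exp 5 * ‖gam M ((max u (1 + θ) : ℝ) + v * I)‖ := by
  have hC := D.C₀_pos
  rcases le_total u (1 + θ) with h | h
  · rw [max_eq_right h]
    have := D.strip_le (v := v) h1 h
    push_cast
    exact this
  · rw [max_eq_left h]
    have hre : 1 + θ ≤ (u + v * I : ℂ).re := by simpa using h
    rw [D.eqL _ hre, norm_mul]
    have h2 := D.upper _ hre
    have h3 : (1 : ℝ) ≤ Real.exp 5 := Real.one_le_exp (by norm_num)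
    have h4 : (M : ℂ) ^ (u + v * I : ℂ) * Gamma (u + v * I) = gam M (u + v * I) := rfl
    rw [h4]
    calc ‖gam M (u + v * I)‖ * ‖L (u + v * I)‖ ≤ ‖gam M (u + v * I)‖ * C₀ := by gcongr
      _ = C₀ * 1 * ‖gam M (u + v * I)‖ := by ring
      _ ≤ _ := by gcongr

lemma exp_five_le : Real.exp 5 ≤ 149 := by
  have h1 := Real.exp_one_lt_d9
  have h0 := Real.exp_pos 1
  have h2 : Real.exp 5 = Real.exp 1 ^ 5 := by rw [← Real.exp_nat_mul]; norm_num
  rw [h2]
  calc Real.exp 1 ^ 5 ≤ 2.7182818286 ^ 5 := by gcongr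
    _ ≤ 149 := by norm_num

/-- values of `Λ` left of a point `s` in the half plane -/
lemma left_bound (D : LData θ c₀ C₀ C₁ M Λ L w) {s : ℂ} (hs : 1 + θ ≤ s.re) {R : ℝ} (hR : 0 < R)
    (hsR : 0.999 * R ≤ s.re) {u v : ℝ} (h1 : 1 ≤ u) (h2 : u ≤ s.re)
    (hv : |v - s.im| ≤ 11 / 5 * R) :
    ‖Λ (u + v * I)‖ ≤ 3300 * (C₀ / c₀) * Real.exp (8.6 * R) * ‖Λ s‖ := by
  have hC := D.C₀_pos
  have hc := D.hc₀
  have hM := D.M_pos
  have hθ := D.hθ0
  set μ := max u (1 + θ) with hμ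
  have hμ1 : 1 ≤ μ := h1.trans (le_max_left _ _)
  have hμ2 : μ ≤ s.re := max_le h2 hs
  have e1 := D.left_gam (v := v) h1
  rw [← hμ] at e1
  have e2 : ‖gam M ((μ : ℝ) + v * I)‖ ≤ 22 * ‖gam M ((s.re : ℝ) + v * I)‖ := by
    have := gam_mono (s := (μ : ℝ) + v * I) D.hM (by simpa using hμ1) (δ := s.re - μ) (by linarith)
    have e : (μ : ℂ) + v * I + ((s.re - μ : ℝ) : ℂ) = (s.re : ℝ) + v * I := by push_cast; ring
    rwa [e] at this
  have e3 : ‖gam M ((s.re : ℝ) + v * I)‖ ≤ ‖gam M s‖ * Real.exp (8.6 * R) := by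
    have := gam_vert hM (s := s) (by linarith) (v - s.im)
    have e : s + ((v - s.im : ℝ) : ℂ) * I = (s.re : ℝ) + v * I := by
      apply Complex.ext <;> simp
    rw [e] at this
    refine this.trans ?_
    gcongr
    have h3 : (v - s.im) ^ 2 / s.re ≤ 4.85 * R := by
      rw [div_le_iff₀ (by linarith)]
      have h4 : (v - s.im) ^ 2 ≤ (11 / 5 * R) ^ 2 := by
        rw [← sq_abs]; gcongr
      nlinarith
    linarith
  have e4 : ‖gam M s‖ ≤ ‖Λ s‖ / c₀ := by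
    rw [le_div_iff₀ hc, D.eqL s hs, norm_mul]
    have := D.lower s hs
    have h4 : (M : ℂ) ^ (s : ℂ) * Gamma s = gam M s := rfl
    rw [h4]
    gcongr
  have e5 := exp_five_le
  calc ‖Λ (u + v * I)‖ ≤ C₀ * Real.exp 5 * ‖gam M ((μ : ℝ) + v * I)‖ := e1
    _ ≤ C₀ * 149 * (22 * ((‖Λ s‖ / c₀) * Real.exp (8.6 * R))) := by
        gcongr
        refine e2.trans ?_
        gcongr
        refine e3.trans ?_
        gcongr
    _ = 3278 * (C₀ / c₀) * Real.exp (8.6 * R) * ‖Λ s‖ := by ring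
    _ ≤ 3300 * (C₀ / c₀) * Real.exp (8.6 * R) * ‖Λ s‖ := by gcongr; norm_num

end LData

end Pool.Agent.H5
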