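import Mathlib
import Pool.Agent.H5.Left

/-!
The half integrals `A_m`, `A_{m+1}` evaluated by the saddle point.
-/

set_option autoImplicit false

open Complex MeasureTheory Set

namespace Pool.Agent.H5

open scoped ComplexConjugate

/-- normalising constant -/
noncomputable def KK (Λ : ℂ → ℂ) (m : ℕ) (s₀ l : ℂ) (j : ℕ) : ℂ :=
  Λ (s₀ + m / l) / (m / l) ^ (m + j + 1)

lemma norm_m_div (m : ℕ) (l : ℂ) : ‖(m : ℂ) / l‖ = RR m l := by
  unfold RR; simp

namespace LData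

variable {θ c₀ C₀ C₁ M : ℝ} {Λ L : ℂ → ℂ} {w : ℂ} {m : ℕ} {a : ℝ} {s₀ l : ℂ}

lemma KK_ne (D : LData θ c₀ C₀ C₁ M Λ L w) (h : Sad M m a s₀ l)
    (hs : 1 + θ ≤ (s₀ + m / l).re) (j : ℕ) : KK Λ m s₀ l j ≠ 0 := by
  have hm : (m : ℂ) ≠ 0 := by exact_mod_cast h.toSP.mpos.ne'
  have hl := h.toSP.l_ne
  unfold KK
  exact div_ne_zero (D.Λ_ne hs) (pow_ne_zero _ (div_ne_zero hm hl))

lemma norm_KK (_ : Sad M m a s₀ l) (j : ℕ) :
    ‖KK Λ m s₀ l j‖ = ‖Λ (s₀ + m / l)‖ / RR m l ^ (m + j + 1) := by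
  unfold KK
  rw [norm_div, norm_pow, norm_m_div]

lemma im_div_le (h : Sad M m a s₀ l) : |((m : ℂ) / l).im| ≤ RR m l / 50 := by
  have hn := h.toSP.norm_pos
  have h1 := h.toSP.im_le'
  have h2 : ((m : ℂ) / l).im = -(RR m l * (l.im / ‖l‖)) := by
    rw [ofReal_natCast', Complex.div_im]
    unfold RR
    rw [Complex.normSq_eq_norm_sq]
    simp
    field_simp
  rw [h2, abs_neg, abs_mul, abs_of_pos h.toSP.R_pos]
  have := h.toSP.R_pos
  calc RR m l * |l.im / ‖l‖| ≤ RR m l * (1 / 50) := by gcongr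
    _ = _ := by ring

lemma ker_eq (D : LData θ c₀ C₀ C₁ M Λ L w) (h : Sad M m a s₀ l)
    (hs : 1 + θ ≤ (s₀ + m / l).re) (j : ℕ) (τ : ℝ) :
    ker Λ (m + j) s₀ (s₀ + m / l + τ * I)
      = KK Λ m s₀ l j * (hh L m s₀ l τ / (1 + zet l (zz m l τ)) ^ j) := by
  have hm : (m : ℂ) ≠ 0 := by exact_mod_cast h.toSP.mpos.ne'
  have hl := h.toSP.l_ne
  have h2 := one_add_zet_ne h.toSP (zz m l τ)
  have e := D.integrand_eq h hs τ
  have h1 : s₀ + m / l + τ * I - s₀ = m / l * (1 + zet l (zz m l τ)) := by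
    rw [h.toSP.one_add_zet]; ring
  unfold ker KK
  have e3 : Λ (s₀ + m / l + τ * I) / (s₀ + m / l + τ * I - s₀) ^ (m + j + 1)
      = Λ (s₀ + m / l + τ * I) / (s₀ + m / l + τ * I - s₀) ^ (m + 1) /
        (s₀ + m / l + τ * I - s₀) ^ j := by
    rw [div_div, ← pow_add]; ring_nf
  rw [e3, e, h1, mul_pow]
  have e4 : ((m : ℂ) / l) ^ (m + j + 1) = (m / l) ^ (m + 1) * (m / l) ^ j := by
    rw [← pow_add]; ring_nf
  rw [e4]
  field_simp

/-- horizontal sides -/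
lemma horiz (D : LData θ c₀ C₀ C₁ M Λ L w) (h : Sad M m a s₀ l)
    (hs : 1 + θ ≤ (s₀ + m / l).re) (j : ℕ) {H v : ℝ} (hH : 1.8 * RR m l ≤ H)
    (hv : |v - s₀.im| = H) (hv2 : |v - (s₀ + m / l).im| ≤ 11 / 5 * RR m l) :
    ‖∫ u in (1:ℝ)..(s₀ + m / l).re, ker Λ (m + j) s₀ (u + (v : ℂ) * I)‖
      ≤ (1 + RR m l) * (3300 * (C₀ / c₀) * Real.exp (8.6 * RR m l)) * (5 / 9) ^ (m + 1)
        * ‖KK Λ m s₀ l j‖ := by
  have hR := h.toSP.R_pos
  have hθ := D.hθ0
  have hC := D.C₀_pos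
  have hc := D.hc₀
  set s := s₀ + m / l with hsdef
  set R := RR m l with hRdef
  set B := 3300 * (C₀ / c₀) * Real.exp (8.6 * R) with hB
  have hB0 : 0 ≤ B := by positivity
  have hH0 : 0 < H := by linarith
  have hre : s.re ≤ 2 + R := by
    rw [hsdef, Complex.add_re]
    have h1 : ((m : ℂ) / l).re ≤ R := by
      have := Complex.re_le_norm ((m : ℂ) / l)
      rwa [norm_m_div] at this
    linarith [h.hs2]
  have hb : ∀ u ∈ Set.uIoc (1:ℝ) s.re, ‖ker Λ (m + j) s₀ (u + (v : ℂ) * I)‖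
      ≤ B * ‖Λ s‖ / H ^ (m + j + 1) := by
    intro u hu
    rw [uIoc_of_le (by linarith)] at hu
    have h1 := D.left_bound hs hR h.re_sst_ge hu.1.le hu.2 hv2
    rw [← hB] at h1
    unfold ker
    rw [norm_div, norm_pow]
    have h2 : H ≤ ‖(u + (v : ℂ) * I - s₀ : ℂ)‖ := by
      rw [← hv]
      have := Complex.abs_im_le_norm (u + (v : ℂ) * I - s₀ : ℂ)
      simpa using this
    gcongr
  refine (intervalIntegral.norm_integral_le_of_norm_le_const hb).trans ?_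
  rw [norm_KK h, ← hsdef, ← hRdef]
  have h3 : |s.re - 1| ≤ 1 + R := by
    rw [abs_of_nonneg (by linarith)]; linarith
  have h4 : (1:ℝ) / H ^ (m + j + 1) ≤ (5 / 9) ^ (m + 1) / R ^ (m + j + 1) := by
    have h5 : (1:ℝ) / H ^ (m + j + 1) ≤ 1 / (1.8 * R) ^ (m + j + 1) := by
      apply one_div_le_one_div_of_le (by positivity)
      gcongr
    refine h5.trans ?_
    rw [mul_pow, one_div, mul_inv, ← inv_pow, div_eq_mul_inv]
    have h6 : ((1.8:ℝ)⁻¹) = 5 / 9 := by norm_num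
    rw [h6]
    gcongr ?_ * _
    exact pow_le_pow_of_le_one (by norm_num) (by norm_num) (by omega)
  calc B * ‖Λ s‖ / H ^ (m + j + 1) * |s.re - 1| ≤ B * ‖Λ s‖ / H ^ (m + j + 1) * (1 + R) := by gcongr
    _ = (1 + R) * B * ‖Λ s‖ * (1 / H ^ (m + j + 1)) := by ring
    _ ≤ (1 + R) * B * ‖Λ s‖ * ((5 / 9) ^ (m + 1) / R ^ (m + j + 1)) := by gcongr
    _ = _ := by ring

/-- the vertical side -/
lemma vert_eq (D : LData θ c₀ C₀ C₁ M Λ L w) (h : Sad M m a s₀ l)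
    (hs : 1 + θ ≤ (s₀ + m / l).re) (j : ℕ) (H : ℝ) :
    ∫ v in (s₀.im - H)..(s₀.im + H), ker Λ (m + j) s₀ (((s₀ + m / l).re : ℂ) + v * I)
      = KK Λ m s₀ l j * ∫ τ in (-H - ((m : ℂ) / l).im)..(H - ((m : ℂ) / l).im),
          hh L m s₀ l τ / (1 + zet l (zz m l τ)) ^ j := by
  have h1 : ∫ v in (s₀.im - H)..(s₀.im + H), ker Λ (m + j) s₀ (((s₀ + m / l).re : ℂ) + v * I)
      = ∫ τ in (-H - ((m : ℂ) / l).im)..(H - ((m : ℂ) / l).im),
          ker Λ (m + j) s₀ (((s₀ + m / l).re : ℂ) + (((s₀ + m / l).im + τ : ℝ) : ℂ) * I) := by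
    rw [intervalIntegral.integral_comp_add_left
      (fun v : ℝ => ker Λ (m + j) s₀ (((s₀ + m / l).re : ℂ) + v * I)) (s₀ + m / l).im]
    congr 1 <;> simp [Complex.add_im] <;> ring
  rw [h1, ← intervalIntegral.integral_const_mul]
  apply intervalIntegral.integral_congr
  intro τ _
  simp only
  rw [← D.ker_eq h hs j τ]
  congr 1
  apply Complex.ext <;> simp

/-- the half integral through the saddle -/
lemma PI_est (D : LData θ c₀ C₀ C₁ M Λ L w) (h : Sad M m a s₀ l)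
    (hs : 1 + θ ≤ (s₀ + m / l).re) (j : ℕ) {H : ℝ} (hH : 1.8 * RR m l ≤ H)
    (hH2 : H ≤ 2.15 * RR m l) :
    ‖PI (ker Λ (m + j) s₀) s₀.im H (s₀ + m / l).re / (I * KK Λ m s₀ l j)
      - ∫ τ in (-H - ((m : ℂ) / l).im)..(H - ((m : ℂ) / l).im),
          hh L m s₀ l τ / (1 + zet l (zz m l τ)) ^ j‖
      ≤ 2 * ((1 + RR m l) * (3300 * (C₀ / c₀) * Real.exp (8.6 * RR m l)) * (5 / 9) ^ (m + 1)) := by
  have hR := h.toSP.R_pos
  have hK := D.KK_ne h hs j
  have him := im_div_le h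
  have hH0 : 0 < H := by linarith
  have h1 := D.horiz h hs j (H := H) (v := s₀.im - H) hH
    (by rw [abs_of_nonpos (by linarith)]; ring)
    (by
      rw [Complex.add_im]
      have := abs_le.1 him
      rw [abs_le]; constructor <;> linarith [this.1, this.2])
  have h2 := D.horiz h hs j (H := H) (v := s₀.im + H) hH
    (by rw [abs_of_nonneg (by linarith)]; ring)
    (by
      rw [Complex.add_im]
      have := abs_le.1 him
      rw [abs_le]; constructor <;> linarith [this.1, this.2])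
  have h3 := D.vert_eq h hs j H
  unfold PI
  rw [h3]
  set K := KK Λ m s₀ l j with hKdef
  set V := ∫ τ in (-H - ((m : ℂ) / l).im)..(H - ((m : ℂ) / l).im),
          hh L m s₀ l τ / (1 + zet l (zz m l τ)) ^ j
  set A := ∫ u in (1:ℝ)..(s₀ + m / l).re, ker Λ (m + j) s₀ (u + ((s₀.im - H : ℝ) : ℂ) * I)
  set B := ∫ u in (1:ℝ)..(s₀ + m / l).re, ker Λ (m + j) s₀ (u + ((s₀.im + H : ℝ) : ℂ) * I)
  have hn : 0 < ‖K‖ := norm_pos_iff.2 hK
  have e : (A + I * (K * V) - B) / (I * K) - V = (A - B) / (I * K) := by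
    field_simp [Complex.I_ne_zero]
    ring
  rw [e, norm_div, norm_mul, Complex.norm_I, one_mul, div_le_iff₀ hn]
  calc ‖A - B‖ ≤ ‖A‖ + ‖B‖ := norm_sub_le _ _
    _ ≤ _ := add_le_add h1 h2
    _ = _ := by ring

lemma sst_im_ne (h : Sad M m a s₀ l) (τ : ℝ) : s₀ + m / l + τ * I ≠ s₀ := by
  intro h0
  have h1 : (m : ℂ) / l + τ * I = 0 := by linear_combination h0
  have h2 := congrArg Complex.re h1
  simp at h2
  have h3 := h.toSP.re_div_ge
  have h4 := h.toSP.R_pos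
  linarith

lemma hh_cont (D : LData θ c₀ C₀ C₁ M Λ L w) (h : Sad M m a s₀ l)
    (hs : 1 + θ ≤ (s₀ + m / l).re) : Continuous (hh L m s₀ l) := by
  have hK := D.KK_ne h hs 0
  have e : hh L m s₀ l = fun τ : ℝ => ker Λ m s₀ (s₀ + m / l + τ * I) / KK Λ m s₀ l 0 := by
    funext τ
    have := D.ker_eq h hs 0 τ
    simp only [add_zero, pow_zero, div_one] at this
    rw [this]; field_simp
  rw [e]
  apply Continuous.div_const
  have h1 := ker_cont D.diff m s₀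
  apply h1.comp_continuous (by fun_prop)
  intro τ
  exact sst_im_ne h τ

lemma zet_cont (m : ℕ) (l : ℂ) : Continuous fun τ : ℝ => zet l (zz m l τ) := by
  unfold zet zz
  fun_prop

/-- the relative error -/
noncomputable def eta (c₀ C₀ C₁ : ℝ) (m : ℕ) (a : ℝ) : ℝ :=
  60000 * (C₀ / c₀ + 1.1 * (C₁ / c₀)) * (1 / a + 1 / Real.sqrt m)

lemma eta_nonneg (D : LData θ c₀ C₀ C₁ M Λ L w) (h : Sad M m a s₀ l) : 0 ≤ eta c₀ C₀ C₁ m a := by
  have := D.C₀_pos
  have := D.hc₀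
  have := D.hC₁
  have := h.toSP.ha
  unfold eta
  have : 0 ≤ a := by linarith
  positivity

/-- the main value -/
noncomputable def SS (m : ℕ) (l : ℂ) : ℝ := Real.sqrt (Real.pi / (m / (2 * RR m l ^ 2)))

lemma SS_eq (h : Sad M m a s₀ l) : SS m l = RR m l * Real.sqrt (2 * Real.pi / m) := by
  have hR := h.toSP.R_pos
  have hm := h.toSP.mpos
  unfold SS
  have e : Real.pi / (m / (2 * RR m l ^ 2)) = RR m l ^ 2 * (2 * Real.pi / m) := by
    field_simp
  rw [e, Real.sqrt_mul (by positivity), Real.sqrt_sq hR.le]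

lemma SS_pos (h : Sad M m a s₀ l) : 0 < SS m l := by
  have hR := h.toSP.R_pos
  have hm := h.toSP.mpos
  unfold SS
  positivity

lemma vert0 (D : LData θ c₀ C₀ C₁ M Λ L w) (h : Sad M m a s₀ l)
    (hs : 1 + θ ≤ (s₀ + m / l).re) {H : ℝ} (hH : 1.8 * RR m l ≤ H)
    (hH2 : H ≤ 2.15 * RR m l) :
    ‖(∫ τ in (-H - ((m : ℂ) / l).im)..(H - ((m : ℂ) / l).im), hh L m s₀ l τ) - SS m l‖
      ≤ (Real.sqrt 20 * eta c₀ C₀ C₁ m a + Real.sqrt 2 * Real.exp (-(0.7 * m))) * SS m l := by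
  have hR := h.toSP.R_pos
  have hm := h.toSP.mpos
  have him := im_div_le h
  have him' := abs_le.1 him
  set R := RR m l with hRdef
  have hb : 0 < m / (2 * R ^ 2) := by positivity
  have key := int_est (g := hh L m s₀ l) (b := m / (2 * R ^ 2)) (η := eta c₀ C₀ C₁ m a)
    (r := 1.7 * R) (τ₁ := -H - ((m : ℂ) / l).im) (τ₂ := H - ((m : ℂ) / l).im) hb (D.eta_nonneg h)
    (by positivity) (by linarith [him'.1, him'.2]) (by linarith [him'.1, him'.2])
    (D.hh_cont h hs).continuousOn (by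
      intro τ hτ
      have := D.hh_bound h hs (τ := τ) (by
        rw [abs_le]; constructor <;> linarith [hτ.1, hτ.2, him'.1, him'.2])
      exact this)
  have e1 : Real.sqrt (Real.pi / (m / (2 * R ^ 2) / 20)) = Real.sqrt 20 * SS m l := by
    unfold SS
    rw [← hRdef, ← Real.sqrt_mul (by norm_num)]
    congr 1
    field_simp
  have e2 : Real.sqrt (Real.pi / (m / (2 * R ^ 2) / 2)) = Real.sqrt 2 * SS m l := by
    unfold SS
    rw [← hRdef, ← Real.sqrt_mul (by norm_num)]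
    congr 1
    field_simp
  rw [e1, e2] at key
  have hS := SS_pos h
  have e3 : Real.exp (-(m / (2 * R ^ 2) * (1.7 * R) ^ 2 / 2)) ≤ Real.exp (-(0.7 * m)) := by
    apply Real.exp_le_exp.2
    have : m / (2 * R ^ 2) * (1.7 * R) ^ 2 / 2 = 0.7225 * m := by field_simp; norm_num
    rw [this]; linarith
  have e4 : Real.sqrt (Real.pi / (m / (2 * R ^ 2))) = SS m l := rfl
  rw [e4] at key
  refine key.trans ?_
  calc _ ≤ eta c₀ C₀ C₁ m a * (Real.sqrt 20 * SS m l)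
        + Real.exp (-(0.7 * m)) * (Real.sqrt 2 * SS m l) := by gcongr
    _ = _ := by ring

lemma vert1 (D : LData θ c₀ C₀ C₁ M Λ L w) (h : Sad M m a s₀ l)
    (hs : 1 + θ ≤ (s₀ + m / l).re) {H : ℝ} (hH : 1.8 * RR m l ≤ H)
    (hH2 : H ≤ 2.15 * RR m l) :
    ‖(∫ τ in (-H - ((m : ℂ) / l).im)..(H - ((m : ℂ) / l).im),
        hh L m s₀ l τ / (1 + zet l (zz m l τ)) ^ 1)
      - ∫ τ in (-H - ((m : ℂ) / l).im)..(H - ((m : ℂ) / l).im), hh L m s₀ l τ‖
      ≤ (1 + eta c₀ C₀ C₁ m a) * (41 / Real.sqrt m) * SS m l := by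
  have hR := h.toSP.R_pos
  have hm := h.toSP.mpos
  have him := im_div_le h
  have him' := abs_le.1 him
  have hS := SS_pos h
  set R := RR m l with hRdef
  set η := eta c₀ C₀ C₁ m a with hη
  have hη0 : 0 ≤ η := D.eta_nonneg h
  have hb : 0 < m / (2 * R ^ 2) / 20 := by positivity
  have hc1 := D.hh_cont h hs
  have hc2 : Continuous fun τ : ℝ => hh L m s₀ l τ / (1 + zet l (zz m l τ)) ^ 1 := by
    apply hc1.div
    · exact (continuous_const.add (zet_cont m l)).pow 1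
    · intro τ
      exact pow_ne_zero _ (one_add_zet_ne h.toSP _)
  rw [← intervalIntegral.integral_sub (hc2.intervalIntegrable _ _) (hc1.intervalIntegrable _ _)]
  have key := int_moment (g := fun τ : ℝ => hh L m s₀ l τ / (1 + zet l (zz m l τ)) ^ 1
      - hh L m s₀ l τ) (c := m / (2 * R ^ 2) / 20) (K := (1 + η) / (0.99 * R))
    (τ₁ := -H - ((m : ℂ) / l).im) (τ₂ := H - ((m : ℂ) / l).im) hb (by positivity) (by linarith)
    (by
      intro τ hτ
      have h1 := D.hh_bound h hs (τ := τ) (by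
        rw [abs_le]; constructor <;> linarith [hτ.1, hτ.2, him'.1, him'.2])
      have h2 : ‖hh L m s₀ l τ‖ ≤ (1 + η) * Real.exp (-(m / (2 * R ^ 2) / 20) * τ ^ 2) := by
        have h3 : ‖((Real.exp (-(m / (2 * R ^ 2)) * τ ^ 2) : ℝ) : ℂ)‖
            ≤ Real.exp (-(m / (2 * R ^ 2) / 20) * τ ^ 2) := by
          rw [Complex.norm_real, Real.norm_eq_abs, abs_of_pos (Real.exp_pos _)]
          apply Real.exp_le_exp.2
          have h4 : 0 ≤ m / (2 * R ^ 2) * τ ^ 2 := by positivity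
          have h5 : m / (2 * R ^ 2) / 20 * τ ^ 2 = (m / (2 * R ^ 2) * τ ^ 2) / 20 := by ring
          rw [neg_mul, neg_mul, h5]
          linarith
        have h6 : hh L m s₀ l τ = (hh L m s₀ l τ - Real.exp (-(m / (2 * R ^ 2)) * τ ^ 2))
            + Real.exp (-(m / (2 * R ^ 2)) * τ ^ 2) := by ring
        rw [h6]
        refine (norm_add_le _ _).trans ?_
        rw [hRdef]
        rw [hRdef] at h3
        refine (add_le_add h1 h3).trans (le_of_eq ?_)
        rw [hη]; unfold eta; ring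
      have h7 := one_add_zet_ge h.toSP (zz m l τ)
      have h8 := one_add_zet_ne h.toSP (zz m l τ)
      have e1 : hh L m s₀ l τ / (1 + zet l (zz m l τ)) ^ 1 - hh L m s₀ l τ
          = -(hh L m s₀ l τ * (zet l (zz m l τ) / (1 + zet l (zz m l τ)))) := by
        field_simp
        ring
      rw [e1, norm_neg, norm_mul, norm_div, norm_zet h.toSP.norm_pos]
      have h9 : |zz m l τ| = |τ| / R := by
        have : zz m l τ = τ / R := by
          rw [hRdef]; unfold zz RR; field_simp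
        rw [this, abs_div, abs_of_pos hR]
      rw [h9]
      calc _ ≤ ((1 + η) * Real.exp (-(m / (2 * R ^ 2) / 20) * τ ^ 2)) * (|τ| / R / 0.99) := by
            gcongr
        _ = _ := by field_simp)
  have hb2 : (1 + η) * (40 / (0.99 * Real.sqrt m)) * SS m l ≤ (1 + η) * (41 / Real.sqrt m) * SS m l := by
    have e5 : 0 < Real.sqrt m := Real.sqrt_pos.2 hm
    have e6 : 40 / (0.99 * Real.sqrt m) ≤ 41 / Real.sqrt m := by
      rw [div_le_div_iff₀ (by positivity) e5]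
      nlinarith
    gcongr (1 + η) * ?_ * SS m l
  refine key.trans ((le_of_eq ?_).trans hb2)
  have e1 : Real.sqrt (Real.pi / (m / (2 * R ^ 2) / 20 / 2)) = Real.sqrt 40 * SS m l := by
    unfold SS
    rw [← hRdef, ← Real.sqrt_mul (by norm_num)]
    congr 1
    field_simp
    norm_num
  have e2 : Real.sqrt (m / (2 * R ^ 2) / 20) = Real.sqrt m / (Real.sqrt 40 * R) := by
    have : (m : ℝ) / (2 * R ^ 2) / 20 = m / (40 * R ^ 2) := by field_simp; norm_num
    rw [this, Real.sqrt_div (by positivity), Real.sqrt_mul (by norm_num), Real.sqrt_sq hR.le]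
  have e3 : Real.sqrt 40 * Real.sqrt 40 = 40 := Real.mul_self_sqrt (by norm_num)
  have e4 : 0 < Real.sqrt 40 := Real.sqrt_pos.2 (by norm_num)
  have e5 : 0 < Real.sqrt m := Real.sqrt_pos.2 hm
  rw [e1, e2]
  field_simp
  linear_combination e3

/-- the numerical smallness conditions -/
structure Good (c₀ C₀ C₁ r : ℝ) (m : ℕ) (a : ℝ) : Prop where
  g1 : eta c₀ C₀ C₁ m a ≤ 1 / 500
  g2 : Real.exp (-(0.7 * m)) ≤ 1 / 200
  g3 : 6600 * (C₀ / c₀) * (1 + 1 / r) * Real.exp (-(0.49 * m)) * Real.sqrt m ≤ 1 / 100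
  g4 : 41 / Real.sqrt m ≤ 1 / 120

lemma exp_cmp (m : ℕ) {R : ℝ} (hR : R ≤ m / 100) :
    Real.exp (8.6 * R) * (5 / 9) ^ (m + 1) ≤ Real.exp (-(0.49 * m)) := by
  have h1 : (5 / 9 : ℝ) ≤ Real.exp (-0.58) := by
    have := Real.exp_one_lt_d9
    have h2 : Real.exp 0.58 ≤ 9 / 5 := by
      have h3 : Real.exp 0.58 ^ 50 ≤ (9 / 5) ^ 50 := by
        rw [← Real.exp_nat_mul]
        have : ((50 : ℕ) : ℝ) * 0.58 = ((29 : ℕ) : ℝ) * 1 := by norm_num
        rw [this, Real.exp_nat_mul]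
        calc Real.exp 1 ^ 29 ≤ 2.7182818286 ^ 29 := by gcongr
          _ ≤ _ := by norm_num
      exact le_of_pow_le_pow_left₀ (by norm_num) (by norm_num) h3
    rw [Real.exp_neg]
    rw [le_inv_comm₀ (by norm_num) (Real.exp_pos _)]
    calc Real.exp 0.58 ≤ 9 / 5 := h2
      _ = _ := by norm_num
  have h2 : (5 / 9 : ℝ) ^ (m + 1) ≤ Real.exp (-(0.58 * m)) := by
    calc (5 / 9 : ℝ) ^ (m + 1) ≤ (5 / 9 : ℝ) ^ m :=
          pow_le_pow_of_le_one (by norm_num) (by norm_num) (by omega)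
      _ ≤ Real.exp (-0.58) ^ m := by gcongr
      _ = _ := by rw [← Real.exp_nat_mul]; congr 1; ring
  have h3 : Real.exp (8.6 * R) ≤ Real.exp (0.086 * m) := Real.exp_le_exp.2 (by linarith)
  calc _ ≤ Real.exp (0.086 * m) * Real.exp (-(0.58 * m)) := by gcongr
    _ = Real.exp (-(0.494 * m)) := by rw [← Real.exp_add]; congr 1; ring
    _ ≤ _ := by
        apply Real.exp_le_exp.2
        have : (0 : ℝ) ≤ m := Nat.cast_nonneg m
        linarith

/-- the half integrals -/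
theorem core (D : LData θ c₀ C₀ C₁ M Λ L w) (h : Sad M m a s₀ l)
    (hs : 1 + θ ≤ (s₀ + m / l).re) {H r : ℝ} (hH : 1.8 * RR m l ≤ H)
    (hH2 : H ≤ 2.15 * RR m l) (hr : 0 < r) (hrR : r ≤ RR m l) (hG : Good c₀ C₀ C₁ r m a) :
    ∃ P₀ P₁ : ℂ, AA Λ m s₀.im H (s₀ + m / l).re s₀ = KK Λ m s₀ l 0 * P₀ / (2 * Real.pi) ∧
      AA Λ (m + 1) s₀.im H (s₀ + m / l).re s₀ = KK Λ m s₀ l 1 * P₁ / (2 * Real.pi) ∧
      ‖P₀ - SS m l‖ ≤ 1 / 25 * SS m l ∧ ‖P₁ - SS m l‖ ≤ 1 / 20 * SS m l := by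
  have hR := h.toSP.R_pos
  have hm := h.toSP.mpos
  have hS := SS_pos h
  have hC := D.C₀_pos
  have hc := D.hc₀
  have hη0 := D.eta_nonneg h
  set R := RR m l with hRdef
  set δ := 2 * ((1 + R) * (3300 * (C₀ / c₀) * Real.exp (8.6 * R)) * (5 / 9) ^ (m + 1)) with hδ
  have hδS : δ ≤ 1 / 100 * SS m l := by
    have hRm : R ≤ m / 100 := by
      rw [hRdef]; unfold RR
      apply div_le_div_of_nonneg_left hm.le (by norm_num)
      exact h.toSP.ha.trans h.toSP.norm_ge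
    have h1 := exp_cmp m hRm
    have h2 : 1 + R ≤ (1 + 1 / r) * R := by
      have : 1 ≤ 1 / r * R := by rw [one_div, inv_mul_eq_div, le_div_iff₀ hr]; linarith
      linarith
    have h3 : (1 : ℝ) ≤ Real.sqrt m * Real.sqrt (2 * Real.pi / m) := by
      rw [← Real.sqrt_mul hm.le]
      have : (m : ℝ) * (2 * Real.pi / m) = 2 * Real.pi := by field_simp
      rw [this]
      rw [Real.one_le_sqrt]
      linarith [Real.pi_gt_three]
    rw [SS_eq h, ← hRdef]
    calc δ = 6600 * (C₀ / c₀) * (1 + R) * (Real.exp (8.6 * R) * (5 / 9) ^ (m + 1)) := by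
          rw [hδ]; ring
      _ ≤ 6600 * (C₀ / c₀) * ((1 + 1 / r) * R) * Real.exp (-(0.49 * m)) := by gcongr
      _ = (6600 * (C₀ / c₀) * (1 + 1 / r) * Real.exp (-(0.49 * m))) * R * 1 := by ring
      _ ≤ (6600 * (C₀ / c₀) * (1 + 1 / r) * Real.exp (-(0.49 * m))) * R *
          (Real.sqrt m * Real.sqrt (2 * Real.pi / m)) := by gcongr
      _ = (6600 * (C₀ / c₀) * (1 + 1 / r) * Real.exp (-(0.49 * m)) * Real.sqrt m) *
          (R * Real.sqrt (2 * Real.pi / m)) := by ring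
      _ ≤ 1 / 100 * (R * Real.sqrt (2 * Real.pi / m)) := by
          gcongr
          exact hG.g3
  have hv0 := D.vert0 h hs hH hH2
  have hv1 := D.vert1 h hs hH hH2
  have hp0 := D.PI_est h hs 0 hH hH2
  have hp1 := D.PI_est h hs 1 hH hH2
  rw [← hRdef, ← hδ] at hp0 hp1
  simp only [pow_zero, div_one, add_zero] at hp0
  have h20 : Real.sqrt 20 ≤ 4.5 := by
    rw [Real.sqrt_le_left (by norm_num)]; norm_num
  have h2 : Real.sqrt 2 ≤ 1.5 := by
    rw [Real.sqrt_le_left (by norm_num)]; norm_num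
  have hg1 := hG.g1
  have hg2 := hG.g2
  have hg4 := hG.g4
  have hsm := Real.sqrt_pos.2 hm
  have hε0 : Real.sqrt 20 * eta c₀ C₀ C₁ m a + Real.sqrt 2 * Real.exp (-(0.7 * m)) ≤ 1 / 40 := by
    calc _ ≤ (4.5 : ℝ) * (1 / 500) + 1.5 * (1 / 200) := by gcongr
      _ ≤ 1 / 40 := by norm_num
  have hε1 : (1 + eta c₀ C₀ C₁ m a) * (41 / Real.sqrt m) ≤ 1 / 100 := by
    calc _ ≤ (1 + (1 : ℝ) / 500) * (1 / 120) := by gcongr
      _ ≤ 1 / 100 := by norm_num
  set V₀ := ∫ τ in (-H - ((m : ℂ) / l).im)..(H - ((m : ℂ) / l).im), hh L m s₀ l τ with hV₀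
  set V₁ := ∫ τ in (-H - ((m : ℂ) / l).im)..(H - ((m : ℂ) / l).im),
        hh L m s₀ l τ / (1 + zet l (zz m l τ)) ^ 1 with hV₁
  have hv0' : ‖V₀ - SS m l‖ ≤ 1 / 40 * SS m l := hv0.trans (by gcongr)
  have hv1' : ‖V₁ - V₀‖ ≤ 1 / 100 * SS m l := hv1.trans (by gcongr)
  have hK0 := D.KK_ne h hs 0
  have hK1 := D.KK_ne h hs 1
  refine ⟨PI (ker Λ m s₀) s₀.im H (s₀ + m / l).re / (I * KK Λ m s₀ l 0),
    PI (ker Λ (m + 1) s₀) s₀.im H (s₀ + m / l).re / (I * KK Λ m s₀ l 1), ?_, ?_, ?_, ?_⟩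
  · unfold AA
    field_simp
  · unfold AA
    field_simp
  · set P := PI (ker Λ m s₀) s₀.im H (s₀ + m / l).re / (I * KK Λ m s₀ l 0)
    have e : P - SS m l = (P - V₀) + (V₀ - SS m l) := by ring
    rw [e]
    refine (norm_add_le _ _).trans ?_
    linarith
  · set P := PI (ker Λ (m + 1) s₀) s₀.im H (s₀ + m / l).re / (I * KK Λ m s₀ l 1)
    have e : P - SS m l = (P - V₁) + (V₁ - V₀) + (V₀ - SS m l) := by ring
    rw [e]
    refine (norm_add_le _ _).trans ?_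
    have := norm_add_le (P - V₁) (V₁ - V₀)
    linarith

end LData

end Pool.Agent.H5
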