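import Mathlib
import Pool.Agent.H5.CoreLemma

/-!
Monotonicity of the modulus of the half integral across the critical line.
-/

set_option autoImplicit false

open Complex MeasureTheory Set

namespace Pool.Agent.H5

open scoped ComplexConjugate

variable {θ c₀ C₀ C₁ M : ℝ} {Λ L : ℂ → ℂ} {w : ℂ} {m : ℕ} {a : ℝ} {s₀ l s₀' l' : ℂ}

lemma Sad.Tm_eq (h : Sad M m a s₀ l) : Tm M m s₀ l = l := by
  unfold Tm
  have h1 : (M : ℂ) * (s₀ + ((m : ℝ) : ℂ) / l) = exp l := by rw [h.heq]; simp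
  rw [h1]
  have h2 := abs_le.1 h.him
  have := Real.pi_pos
  exact Complex.log_exp (by linarith) (by linarith)

lemma Sad.norm_sub (hM : 0 < M) (h : Sad M m a s₀ l) (h' : Sad M m a s₀' l') :
    ‖l - l'‖ ≤ 1.02 * (‖s₀ - s₀'‖ / RR m l') := by
  have ha := h.toSP.ha
  have hm := h.toSP.mpos
  have hR' := h'.toSP.R_pos
  have h1 : ‖Tm M m s₀ l - Tm M m s₀ l'‖ ≤ 1 / a * ‖l - l'‖ := by
    have hconv : Convex ℝ {z : ℂ | a ≤ z.re} := convex_halfSpace_re_ge a
    apply hconv.norm_image_sub_le_of_norm_hasDerivWithin_le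
      (f' := fun l => -(((m : ℝ) : ℂ) / l ^ 2) / (s₀ + ((m : ℝ) : ℂ) / l)) (s := {z : ℂ | a ≤ z.re})
    · intro z hz
      have : 0 < z.re := by have : a ≤ z.re := hz; linarith
      exact (hasDerivAt_Tm hM hm h.hs0 this).hasDerivWithinAt
    · intro z hz
      have hz' : a ≤ z.re := hz
      have : 0 < z.re := by linarith
      refine (norm_deriv_Tm_le hm h.hs0 this).trans ?_
      apply one_div_le_one_div_of_le (by linarith) hz'
    · exact h'.toSP.hre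
    · exact h.toSP.hre
  have h2 : ‖Tm M m s₀ l' - Tm M m s₀' l'‖ ≤ 1 / (0.999 * RR m l') * ‖s₀ - s₀'‖ := by
    have hconv : Convex ℝ {z : ℂ | 0 ≤ z.re} := convex_halfSpace_re_ge 0
    apply hconv.norm_image_sub_le_of_norm_hasDerivWithin_le (f := fun s : ℂ => Tm M m s l')
      (f' := fun s => 1 / (s + ((m : ℝ) : ℂ) / l')) (s := {z : ℂ | 0 ≤ z.re})
    · intro z hz
      have hz' : 0 ≤ z.re := hz
      have hre : 0 < l'.re := by have := h'.toSP.hre; linarith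
      have hpos := re_arg_pos hM hm hz' hre
      have h3 : HasDerivAt (fun s : ℂ => (M : ℂ) * (s + ((m : ℝ) : ℂ) / l')) (M * 1) z :=
        ((hasDerivAt_id z).add_const _).const_mul _
      have h4 := h3.clog (Or.inl hpos)
      have hM' : (M : ℂ) ≠ 0 := by exact_mod_cast hM.ne'
      refine (h4.congr_deriv ?_).hasDerivWithinAt
      rw [mul_div_mul_left _ _ hM']
    · intro z hz
      have hz' : 0 ≤ z.re := hz
      have h5 := h'.toSP.re_div_ge
      rw [norm_div, norm_one]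
      apply one_div_le_one_div_of_le (by positivity)
      refine le_trans ?_ (Complex.re_le_norm _)
      rw [Complex.add_re]
      rw [ofReal_natCast'] at h5
      linarith
    · exact h'.hs0
    · exact h.hs0
  have h3 : ‖l - l'‖ ≤ 1 / a * ‖l - l'‖ + 1 / (0.999 * RR m l') * ‖s₀ - s₀'‖ := by
    have e : l - l' = (Tm M m s₀ l - Tm M m s₀ l') + (Tm M m s₀ l' - Tm M m s₀' l') := by
      rw [h.Tm_eq, h'.Tm_eq]; ring
    calc ‖l - l'‖ = ‖(Tm M m s₀ l - Tm M m s₀ l') + (Tm M m s₀ l' - Tm M m s₀' l')‖ := by rw [← e]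
      _ ≤ _ := norm_add_le _ _
      _ ≤ _ := add_le_add h1 h2
  have h4 : 1 / a ≤ 1 / 100 := one_div_le_one_div_of_le (by norm_num) ha
  have h5 : 1 / a * ‖l - l'‖ ≤ 1 / 100 * ‖l - l'‖ := by gcongr
  have h6 : 1 / (0.999 * RR m l') * ‖s₀ - s₀'‖ = 1 / 0.999 * (‖s₀ - s₀'‖ / RR m l') := by
    field_simp
  rw [h6] at h3
  have h7 : 0 ≤ ‖s₀ - s₀'‖ / RR m l' := by positivity
  nlinarith

lemma Sad.RR_sub (hM : 0 < M) (h : Sad M m a s₀ l) (h' : Sad M m a s₀' l') :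
    |RR m l - RR m l'| ≤ 1.02 * ‖s₀ - s₀'‖ / a := by
  have ha := h.toSP.ha
  have hm := h.toSP.mpos
  have hR' := h'.toSP.R_pos
  have hn := h.toSP.norm_pos
  have hn' := h'.toSP.norm_pos
  have h1 := Sad.norm_sub hM h h'
  have e : RR m l - RR m l' = RR m l' * ((‖l'‖ - ‖l‖) / ‖l‖) := by
    unfold RR; field_simp
  rw [e, abs_mul, abs_of_pos hR', abs_div, abs_of_pos hn]
  have h2 : |‖l'‖ - ‖l‖| ≤ ‖l - l'‖ := by
    rw [abs_sub_comm]; exact abs_norm_sub_norm_le l l'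
  calc RR m l' * (|‖l'‖ - ‖l‖| / ‖l‖)
      ≤ RR m l' * (1.02 * (‖s₀ - s₀'‖ / RR m l') / a) := by
        gcongr
        · exact h2.trans h1
        · exact h.toSP.norm_ge
    _ = _ := by field_simp

/-- at one point -/
lemma LData.point (D : LData θ c₀ C₀ C₁ M Λ L w) (h : Sad M m a s₀ l)
    (hs : 1 + θ ≤ (s₀ + m / l).re) {H r c : ℝ} (hH : 1.8 * RR m l ≤ H)
    (hH2 : H ≤ 2.15 * RR m l) (hr : 0 < r) (hrR : r ≤ RR m l) (hG : LData.Good c₀ C₀ C₁ r m a)
    (hc : s₀.re < c) :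
    ‖KK Λ m s₀ l 0‖ * (0.96 * SS m l) / (2 * Real.pi) ≤ ‖AA Λ m s₀.im H c s₀‖ ∧
      0 < (AA Λ (m + 1) s₀.im H c s₀ / AA Λ m s₀.im H c s₀).re ∧ AA Λ m s₀.im H c s₀ ≠ 0 := by
  have hR := h.toSP.R_pos
  have hm := h.toSP.mpos
  have hn := h.toSP.norm_pos
  have hS := LData.SS_pos h
  have hH0 : 0 < H := by linarith
  have hc' : s₀.re < (s₀ + m / l).re := by
    have := h.toSP.re_div_ge
    rw [Complex.add_re]; linarith
  rw [AA_indep D.diff m (c := c) (c' := (s₀ + m / l).re) (by linarith) (by linarith) hc hc',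
    AA_indep D.diff (m + 1) (c := c) (c' := (s₀ + m / l).re) (by linarith) (by linarith) hc hc']
  obtain ⟨P₀, P₁, e0, e1, b0, b1⟩ := D.core h hs hH hH2 hr hrR hG
  have hK0 := D.KK_ne h hs 0
  have hpi := Real.pi_pos
  have hP0 : 0.96 * SS m l ≤ ‖P₀‖ := by
    have h1 : ‖((SS m l : ℝ) : ℂ)‖ - ‖P₀ - SS m l‖ ≤ ‖P₀‖ := by
      have := norm_sub_norm_le ((SS m l : ℝ) : ℂ) P₀
      rw [norm_sub_rev] at this
      linarith
    rw [Complex.norm_real, Real.norm_eq_abs, abs_of_pos hS] at h1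
    linarith
  have hP0ne : P₀ ≠ 0 := by
    rw [← norm_pos_iff]; linarith
  have hA0 : AA Λ m s₀.im H (s₀ + m / l).re s₀ ≠ 0 := by
    rw [e0]
    have : (Real.pi : ℂ) ≠ 0 := by exact_mod_cast hpi.ne'
    exact div_ne_zero (mul_ne_zero hK0 hP0ne) (mul_ne_zero two_ne_zero this)
  refine ⟨?_, ?_, hA0⟩
  · rw [e0, norm_div, norm_mul, norm_mul, Complex.norm_real, Real.norm_eq_abs, abs_of_pos hpi]
    have : ‖(2 : ℂ)‖ = 2 := by simp
    rw [this]
    gcongr
  · have e : AA Λ (m + 1) s₀.im H (s₀ + m / l).re s₀ / AA Λ m s₀.im H (s₀ + m / l).re s₀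
        = l / m * (P₁ / P₀) := by
      rw [e0, e1]
      have hm' : (m : ℂ) ≠ 0 := by exact_mod_cast hm.ne'
      have hl := h.toSP.l_ne
      have hpi' : (Real.pi : ℂ) ≠ 0 := by exact_mod_cast hpi.ne'
      have hΛ := D.Λ_ne hs
      unfold KK
      generalize Λ (s₀ + m / l) = q at hΛ
      simp only [div_pow, pow_succ, add_zero]
      field_simp
    have h2 : ‖P₁ / P₀ - 1‖ ≤ 1 / 10 := by
      have e2 : P₁ / P₀ - 1 = ((P₁ - SS m l) - (P₀ - SS m l)) / P₀ := by field_simp; ring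
      rw [e2, norm_div, div_le_iff₀ (norm_pos_iff.2 hP0ne)]
      refine (norm_sub_le _ _).trans ?_
      linarith
    have h3 : l / m * (P₁ / P₀) = (1 / (m : ℝ) : ℝ) * (l + l * (P₁ / P₀ - 1)) := by
      push_cast; ring
    rw [e, h3, Complex.re_ofReal_mul]
    apply mul_pos (by positivity)
    rw [Complex.add_re]
    have h4 : -(‖l‖ * (1 / 10)) ≤ (l * (P₁ / P₀ - 1)).re := by
      have h5 := Complex.abs_re_le_norm (l * (P₁ / P₀ - 1))
      have h6 := (abs_le.1 h5).1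
      rw [norm_mul] at h6
      have h7 : ‖l‖ * ‖P₁ / P₀ - 1‖ ≤ ‖l‖ * (1 / 10) := by gcongr
      linarith
    have h8 := h.toSP.re_ge
    linarith

/-- the modulus of the half integral is increasing across the critical line -/
lemma LData.mono (D : LData θ c₀ C₀ C₁ M Λ L w) {y X H r c : ℝ} (hX : X < c - 1)
    (hH : 0 < H) (lf : ℝ → ℂ) (hr : 0 < r)
    (hsad : ∀ x ∈ Icc (-X) X, Sad M m a (1 + y * I + x) (lf x))
    (hs : ∀ x ∈ Icc (-X) X, 1 + θ ≤ ((1 + y * I + x : ℂ) + m / (lf x)).re)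
    (hH1 : ∀ x ∈ Icc (-X) X, 1.8 * RR m (lf x) ≤ H)
    (hH2 : ∀ x ∈ Icc (-X) X, H ≤ 2.15 * RR m (lf x))
    (hrR : ∀ x ∈ Icc (-X) X, r ≤ RR m (lf x)) (hG : LData.Good c₀ C₀ C₁ r m a) :
    StrictMonoOn (fun x : ℝ => ‖AA Λ m y H c (1 + y * I + x)‖ ^ 2) (Icc (-X) X) := by
  have him : ∀ x : ℝ, (1 + y * I + x : ℂ).im = y := by intro x; simp
  have hre : ∀ x : ℝ, (1 + y * I + x : ℂ).re = 1 + x := by intro x; simp
  have hd : ∀ x ∈ Icc (-X) X, HasDerivAt (fun x : ℝ => ‖AA Λ m y H c (1 + y * I + x)‖ ^ 2)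
      (2 * inner ℝ (AA Λ m y H c (1 + y * I + x))
        (((m : ℂ) + 1) * AA Λ (m + 1) y H c (1 + y * I + x))) x := by
    intro x hx
    exact (AA_deriv D.diff m hH (by linarith [hx.2])).norm_sq
  apply strictMonoOn_of_deriv_pos (convex_Icc _ _)
  · intro x hx
    exact (hd x hx).continuousAt.continuousWithinAt
  · intro x hx
    rw [interior_Icc] at hx
    have hx' : x ∈ Icc (-X) X := ⟨hx.1.le, hx.2.le⟩
    rw [(hd x hx').deriv]
    have hp := D.point (hsad x hx') (hs x hx') (H := H) (r := r) (c := c) (hH1 x hx') (hH2 x hx') hr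
      (hrR x hx') hG (by rw [hre]; linarith [hx.2])
    rw [him] at hp
    obtain ⟨-, h1, h2⟩ := hp
    set A := AA Λ m y H c (1 + y * I + x)
    set A' := AA Λ (m + 1) y H c (1 + y * I + x)
    have e : A' = A * (A' / A) := by field_simp
    rw [Complex.inner]
    have e2 : (((m : ℂ) + 1) * A' * conj A) = ((((m : ℝ) + 1) * ‖A‖ ^ 2 : ℝ) : ℂ) * (A' / A) := by
      push_cast
      rw [← Complex.mul_conj' A]
      field_simp
    rw [e2, Complex.re_ofReal_mul]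
    have h3 : 0 < ‖A‖ := norm_pos_iff.2 h2
    positivity

end Pool.Agent.H5
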