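import Mathlib
import Pool.Agent.H5.Mono

/-!
Direct comparison of the half integrals at `1 + x + iy` and `1 - x + iy`.
-/

set_option autoImplicit false

open Complex MeasureTheory Set

namespace Pool.Agent.H5

open Pool.Agent.H6 (psi rho norm_rho_le abs_re_psi_sub_log_le gamma_shift)

open scoped ComplexConjugate

lemma gam_shift_le {M : ℝ} (hM : 0 < M) {s : ℂ} (hs : 1 ≤ s.re) {δ : ℝ} (h0 : 0 ≤ δ) (h1 : δ ≤ 2) :
    ‖gam M s‖ ≤ Real.exp 6 * (M * ‖s‖) ^ (-δ) * ‖gam M (s + δ)‖ := by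
  have hs0 : 0 < ‖s‖ := lt_of_lt_of_le (by linarith) (Complex.re_le_norm s)
  unfold gam
  rw [norm_mul, norm_mul, norm_cpow hM, norm_cpow hM, gamma_shift hs (by linarith), norm_mul,
    Complex.norm_exp]
  have e1 : (s + (δ : ℂ)).re = s.re + δ := by simp
  rw [e1, Real.rpow_add hM]
  have h2 : δ * Real.log ‖s‖ - 6 ≤ (δ * psi s + rho s δ).re := by
    have h3 := norm_rho_le hs (u := δ) (by linarith)
    have h4 := (abs_le.1 ((Complex.abs_re_le_norm (rho s δ)).trans h3)).1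
    have h5 := (abs_le.1 (abs_re_psi_sub_log_le hs)).1
    rw [Complex.add_re, Complex.re_ofReal_mul]
    have h7 : δ * Real.log ‖s‖ - 5 / 3 ≤ δ * (psi s).re := by nlinarith
    have h8 : δ ^ 2 ≤ 4 := by nlinarith
    linarith
  have h3 : ‖s‖ ^ δ ≤ Real.exp 6 * Real.exp (δ * psi s + rho s δ).re := by
    rw [← Real.exp_add, Real.rpow_def_of_pos hs0]
    apply Real.exp_le_exp.2
    linarith [mul_comm (Real.log ‖s‖) δ]
  have h4 : (M * ‖s‖) ^ (-δ) * (M ^ δ * ‖s‖ ^ δ) = 1 := by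
    rw [← Real.mul_rpow hM.le hs0.le, ← Real.rpow_add (by positivity)]
    simp
  have hA : 0 ≤ M ^ s.re := by positivity
  have hB : 0 ≤ ‖Gamma s‖ := norm_nonneg _
  calc M ^ s.re * ‖Gamma s‖ = M ^ s.re * ‖Gamma s‖ * ((M * ‖s‖) ^ (-δ) * (M ^ δ * ‖s‖ ^ δ)) := by
        rw [h4, mul_one]
    _ ≤ M ^ s.re * ‖Gamma s‖ * ((M * ‖s‖) ^ (-δ) * (M ^ δ *
        (Real.exp 6 * Real.exp (δ * psi s + rho s δ).re))) := by gcongr
    _ = _ := by ring

lemma SP.re_div_ge' {m : ℕ} {a : ℝ} {l : ℂ} (h : SP m a l) :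
    (1 - 3 / a ^ 2) * RR m l ≤ ((m : ℂ) / l).re := by
  have hn := h.norm_pos
  have ha := h.ha
  have hm := h.mpos
  rw [ofReal_natCast', re_div_eq]
  unfold RR
  have e : m * l.re / ‖l‖ ^ 2 = m / ‖l‖ * (l.re / ‖l‖) := by field_simp
  rw [e, mul_comm (1 - 3 / a ^ 2)]
  apply mul_le_mul_of_nonneg_left _ (by positivity)
  have h1 : l.re / ‖l‖ ≤ 1 := by rw [div_le_one hn]; exact Complex.re_le_norm l
  have h0 : 0 ≤ l.re / ‖l‖ := by have := h.hre; have : 0 ≤ l.re := by linarith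
                                 positivity
  have h2 : (l.re / ‖l‖) ^ 2 + (l.im / ‖l‖) ^ 2 = 1 := by
    rw [div_pow, div_pow, ← add_div]
    rw [div_eq_one_iff_eq (by positivity)]
    rw [← Complex.normSq_eq_norm_sq, Complex.normSq_apply]; ring
  have h3 : (l.im / ‖l‖) ^ 2 ≤ 3 / a ^ 2 := by
    have := h.im_le
    rw [← sq_abs]
    calc |l.im / ‖l‖| ^ 2 ≤ (1.6 / a) ^ 2 := by gcongr
      _ = 2.56 / a ^ 2 := by rw [div_pow]; norm_num
      _ ≤ 3 / a ^ 2 := by gcongr; norm_num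
  nlinarith

variable {θ c₀ C₀ C₁ M : ℝ} {Λ L : ℂ → ℂ} {w : ℂ} {m : ℕ} {a : ℝ} {s₀ l : ℂ}

/-- bound of the half integral on the other side -/
lemma LData.other_bound (D : LData θ c₀ C₀ C₁ M Λ L w) (h : Sad M m a s₀ l) {x q δ H : ℝ}
    (hx : s₀.re = 1 + x) (hx0 : 0 < x) (hx1 : x ≤ 1) (hR3 : RR m l ≤ 3)
    (hq : q = max θ (RR m l - x)) (hδ : δ = (s₀ + m / l).re - 1 - q) (hδ0 : 0 ≤ δ)
    (hH : 1.8 * RR m l ≤ H) (hH2 : H ≤ 2.15 * RR m l) :
    ‖AA Λ m s₀.im H (1 + q) (s₀ - 2 * x)‖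
      ≤ (C₀ / c₀) * Real.exp 80 * Real.exp (-(δ * l.re)) * (‖Λ (s₀ + m / l)‖ / RR m l ^ (m + 1))
        / (2 * Real.pi) := by
  have hR := h.toSP.R_pos
  have hC := D.C₀_pos
  have hc := D.hc₀
  have hM := D.M_pos
  have hθ0 := D.hθ0
  have hθ1 := D.hθ1
  have hpi := Real.pi_pos
  have him := abs_le.1 (LData.im_div_le h)
  set R := RR m l with hRdef
  set s := s₀ + m / l with hsdef
  have hqθ : θ ≤ q := by rw [hq]; exact le_max_left _ _
  have hqR : R ≤ q + x := by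
    have : R - x ≤ q := by rw [hq]; exact le_max_right _ _
    linarith
  have hq3 : q ≤ 3 := by rw [hq]; exact max_le (by linarith) (by linarith)
  have hq0 : 0 < q := by linarith
  have hs : 1 + θ ≤ s.re := by linarith
  have hδ2 : δ ≤ 2 := by
    have h1 : s.re ≤ 1 + x + R := by
      rw [hsdef, Complex.add_re, hx]
      have := Complex.re_le_norm ((m : ℂ) / l)
      rw [norm_m_div] at this
      linarith
    linarith
  have hsim : s.im = s₀.im + ((m : ℂ) / l).im := by rw [hsdef, Complex.add_im]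
  set s' : ℂ := ((1 + q : ℝ) : ℂ) + s.im * I with hs'
  have hs're : s'.re = 1 + q := by simp [hs']
  set G := ‖gam M s'‖ with hG
  have hG0 : 0 ≤ G := norm_nonneg _
  -- pointwise bound of `Λ`
  have F1 : ∀ u v : ℝ, 1 ≤ u → u ≤ 1 + q → |v - s.im| ≤ 6.51 →
      ‖Λ (u + v * I)‖ ≤ 22 * C₀ * Real.exp 58 * G := by
    intro u v h1 h2 hv
    have e1 := D.left_gam (v := v) h1
    set μ := max u (1 + θ) with hμ
    have hμ1 : 1 ≤ μ := h1.trans (le_max_left _ _)
    have hμ2 : μ ≤ 1 + q := max_le h2 (by linarith)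
    have e2 : ‖gam M ((μ : ℝ) + v * I)‖ ≤ 22 * ‖gam M (((1 + q : ℝ) : ℂ) + v * I)‖ := by
      have := gam_mono (s := (μ : ℝ) + v * I) D.hM (by simpa using hμ1) (δ := 1 + q - μ)
        (by linarith)
      have e : (μ : ℂ) + v * I + ((1 + q - μ : ℝ) : ℂ) = ((1 + q : ℝ) : ℂ) + v * I := by
        push_cast; ring
      rwa [e] at this
    have e3 : ‖gam M (((1 + q : ℝ) : ℂ) + v * I)‖ ≤ G * Real.exp 53 := by
      have := gam_vert hM (s := s') (by rw [hs're]; linarith) (v - s.im)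
      have e : s' + ((v - s.im : ℝ) : ℂ) * I = ((1 + q : ℝ) : ℂ) + v * I := by
        rw [hs']; push_cast; ring
      rw [e] at this
      refine this.trans ?_
      rw [hs're]
      gcongr
      have h3 : (v - s.im) ^ 2 / (1 + q) ≤ 6.51 ^ 2 := by
        rw [div_le_iff₀ (by linarith)]
        have h4 : (v - s.im) ^ 2 ≤ 6.51 ^ 2 := by
          rw [← sq_abs]; gcongr
        nlinarith
      linarith
    calc _ ≤ C₀ * Real.exp 5 * ‖gam M ((μ : ℝ) + v * I)‖ := e1
      _ ≤ C₀ * Real.exp 5 * (22 * (G * Real.exp 53)) := by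
          gcongr
          exact e2.trans (by gcongr)
      _ = 22 * C₀ * (Real.exp 5 * Real.exp 53) * G := by ring
      _ = _ := by rw [← Real.exp_add]; norm_num
  set B := 22 * C₀ * Real.exp 58 * G with hB
  have hB0 : 0 ≤ B := by positivity
  have hH3 : H ≤ 6.45 := by linarith
  have hH0 : 0 < H := by linarith
  -- horizontal sides
  have F2 : ∀ v : ℝ, |v - s₀.im| = H → |v - s.im| ≤ 6.51 →
      ‖∫ u in (1:ℝ)..(1 + q), ker Λ m (s₀ - 2 * x) (u + (v : ℂ) * I)‖ ≤ 3 * (B / R ^ (m + 1)) := by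
    intro v hv hv2
    have hb : ∀ u ∈ Set.uIoc (1:ℝ) (1 + q), ‖ker Λ m (s₀ - 2 * x) (u + (v : ℂ) * I)‖
        ≤ B / R ^ (m + 1) := by
      intro u hu
      rw [uIoc_of_le (by linarith)] at hu
      have h1 := F1 u v hu.1.le hu.2 hv2
      unfold ker
      rw [norm_div, norm_pow]
      have h2 : R ≤ ‖(u + (v : ℂ) * I - (s₀ - 2 * x) : ℂ)‖ := by
        have := Complex.abs_im_le_norm (u + (v : ℂ) * I - (s₀ - 2 * x) : ℂ)
        have e : (u + (v : ℂ) * I - (s₀ - 2 * x) : ℂ).im = v - s₀.im := by simp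
        rw [e, hv] at this
        linarith
      gcongr
    refine (intervalIntegral.norm_integral_le_of_norm_le_const hb).trans ?_
    rw [add_sub_cancel_left, abs_of_pos hq0, mul_comm]
    gcongr
  -- vertical side
  have F3 : ‖∫ v in (s₀.im - H)..(s₀.im + H), ker Λ m (s₀ - 2 * x) (((1 + q : ℝ) : ℂ) + v * I)‖
      ≤ 12.9 * (B / R ^ (m + 1)) := by
    have hb : ∀ v ∈ Set.uIoc (s₀.im - H) (s₀.im + H),
        ‖ker Λ m (s₀ - 2 * x) (((1 + q : ℝ) : ℂ) + v * I)‖ ≤ B / R ^ (m + 1) := by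
      intro v hv
      rw [uIoc_of_le (by linarith)] at hv
      have hv2 : |v - s.im| ≤ 6.51 := by
        rw [hsim, abs_le]
        constructor <;> linarith [hv.1, hv.2, him.1, him.2]
      have h1 := F1 (1 + q) v (by linarith) le_rfl hv2
      unfold ker
      rw [norm_div, norm_pow]
      have h2 : R ≤ ‖(((1 + q : ℝ) : ℂ) + v * I - (s₀ - 2 * x) : ℂ)‖ := by
        have := Complex.re_le_norm (((1 + q : ℝ) : ℂ) + v * I - (s₀ - 2 * x) : ℂ)
        have e : (((1 + q : ℝ) : ℂ) + v * I - (s₀ - 2 * x) : ℂ).re = q + x := by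
          simp [hx]; ring
        rw [e] at this
        linarith
      gcongr
    refine (intervalIntegral.norm_integral_le_of_norm_le_const hb).trans ?_
    have e : |s₀.im + H - (s₀.im - H)| = 2 * H := by
      rw [abs_of_pos (by linarith)]; ring
    rw [e, mul_comm]
    gcongr
    linarith
  have F4 : ‖PI (ker Λ m (s₀ - 2 * x)) s₀.im H (1 + q)‖ ≤ 19 * (B / R ^ (m + 1)) := by
    unfold PI
    refine (norm_sub_le _ _).trans ?_
    have h1 := norm_add_le (∫ u in (1:ℝ)..(1 + q), ker Λ m (s₀ - 2 * x)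
      (u + ((s₀.im - H : ℝ) : ℂ) * I)) (I * (∫ v in (s₀.im - H)..(s₀.im + H),
        ker Λ m (s₀ - 2 * x) (((1 + q : ℝ) : ℂ) + v * I)))
    rw [norm_mul, Complex.norm_I, one_mul] at h1
    have h2 := F2 (s₀.im - H) (by rw [abs_of_nonpos (by linarith)]; ring)
      (by rw [hsim, abs_le]; constructor <;> linarith [him.1, him.2])
    have h3 := F2 (s₀.im + H) (by rw [abs_of_nonneg (by linarith)]; ring)
      (by rw [hsim, abs_le]; constructor <;> linarith [him.1, him.2])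
    have h5 : 0 ≤ B / R ^ (m + 1) := by positivity
    linarith
  -- the Gamma factor
  have hs'n : 1 ≤ ‖s'‖ := by
    have := Complex.re_le_norm s'
    rw [hs're] at this; linarith
  have e7 : s' + (δ : ℂ) = s := by
    apply Complex.ext
    · rw [Complex.add_re, hs're, Complex.ofReal_re, hδ]; ring
    · simp [hs']
  have F5 : G ≤ Real.exp 6 * (9 * Real.exp (-(δ * l.re))) * (‖Λ s‖ / c₀) := by
    have h1 := gam_shift_le hM (s := s') (by rw [hs're]; linarith) hδ0 hδ2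
    rw [e7] at h1
    have h2 : ‖gam M s‖ ≤ ‖Λ s‖ / c₀ := by
      rw [le_div_iff₀ hc, D.eqL s hs, norm_mul]
      have := D.lower s hs
      have h4 : (M : ℂ) ^ (s : ℂ) * Gamma s = gam M s := rfl
      rw [h4]
      gcongr
    have h3 : Real.exp l.re / 3 ≤ M * ‖s'‖ := by
      have h4 : Real.exp l.re = M * ‖s‖ := by
        rw [← Complex.norm_exp, h.heq, norm_mul, Complex.norm_real, Real.norm_eq_abs,
          abs_of_pos hM]
      have h5 : ‖s‖ ≤ 3 * ‖s'‖ := by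
        rw [← e7]
        refine (norm_add_le _ _).trans ?_
        rw [Complex.norm_real, Real.norm_eq_abs, abs_of_nonneg hδ0]
        linarith
      rw [h4, div_le_iff₀ (by norm_num)]
      calc M * ‖s‖ ≤ M * (3 * ‖s'‖) := by gcongr
        _ = _ := by ring
    have h4 : (M * ‖s'‖) ^ (-δ) ≤ 9 * Real.exp (-(δ * l.re)) := by
      have h5 : (M * ‖s'‖) ^ (-δ) ≤ (Real.exp l.re / 3) ^ (-δ) :=
        Real.rpow_le_rpow_of_nonpos (by positivity) h3 (by linarith)
      refine h5.trans ?_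
      rw [Real.div_rpow (Real.exp_pos _).le (by norm_num), ← Real.exp_mul]
      have h6 : (1 / 9 : ℝ) ≤ 3 ^ (-δ) := by
        rw [Real.rpow_neg (by norm_num), one_div]
        apply inv_anti₀ (by positivity)
        calc (3 : ℝ) ^ δ ≤ 3 ^ (2 : ℝ) :=
              Real.rpow_le_rpow_of_exponent_le (by norm_num) hδ2
          _ = 9 := by norm_num
      have h7 : l.re * -δ = -(δ * l.re) := by ring
      rw [h7, div_le_iff₀ (by positivity)]
      have h8 := Real.exp_pos (-(δ * l.re))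
      nlinarith
    calc G ≤ Real.exp 6 * (M * ‖s'‖) ^ (-δ) * ‖gam M s‖ := h1
      _ ≤ _ := by gcongr
  unfold AA
  rw [norm_div, norm_mul, norm_mul, Complex.norm_I, Complex.norm_real, Real.norm_eq_abs,
    abs_of_pos hpi, mul_one]
  have e2 : ‖(2 : ℂ)‖ = 2 := by simp
  rw [e2]
  gcongr
  refine F4.trans ?_
  have hnum : 19 * 22 * 9 * (Real.exp 58 * Real.exp 6) ≤ Real.exp 80 := by
    have h1 : (2:ℝ) ≤ Real.exp 1 := by have := Real.exp_one_gt_d9; linarith
    have h2 : (3762 : ℝ) ≤ Real.exp 16 := by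
      have : Real.exp 16 = Real.exp 1 ^ 16 := by rw [← Real.exp_nat_mul]; norm_num
      rw [this]
      calc (3762 : ℝ) ≤ 2 ^ 16 := by norm_num
        _ ≤ _ := by gcongr
    rw [← Real.exp_add]
    calc (19 : ℝ) * 22 * 9 * Real.exp (58 + 6) = 3762 * Real.exp 64 := by norm_num
      _ ≤ Real.exp 16 * Real.exp 64 := by gcongr
      _ = Real.exp 80 := by rw [← Real.exp_add]; norm_num
  calc 19 * (B / R ^ (m + 1))
      ≤ 19 * (22 * C₀ * Real.exp 58 * (Real.exp 6 * (9 * Real.exp (-(δ * l.re))) * (‖Λ s‖ / c₀))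
        / R ^ (m + 1)) := by rw [hB]; gcongr
    _ = (19 * 22 * 9 * (Real.exp 58 * Real.exp 6)) * ((C₀ / c₀) * Real.exp (-(δ * l.re)) *
        (‖Λ s‖ / R ^ (m + 1))) := by ring
    _ ≤ Real.exp 80 * ((C₀ / c₀) * Real.exp (-(δ * l.re)) * (‖Λ s‖ / R ^ (m + 1))) := by gcongr
    _ = _ := by ring

/-- the direct comparison -/
lemma LData.direct (D : LData θ c₀ C₀ C₁ M Λ L w) (h : Sad M m a s₀ l) {x q δ H r c ε : ℝ}
    (hx : s₀.re = 1 + x) (hx0 : 0 < x) (hx1 : x ≤ 1) (hR3 : RR m l ≤ 3)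
    (hq : q = max θ (RR m l - x)) (hδ : δ = (s₀ + m / l).re - 1 - q) (hε : 0 < ε) (hδε : ε ≤ δ)
    (hH : 1.8 * RR m l ≤ H) (hH2 : H ≤ 2.15 * RR m l) (hr : 0 < r) (hrR : r ≤ RR m l)
    (hG : LData.Good c₀ C₀ C₁ r m a) (hc : s₀.re < c)
    (hsmall : (C₀ / c₀) * Real.exp 80 * Real.exp (-(0.3 * ε * m)) * Real.sqrt m < r) :
    ‖AA Λ m s₀.im H c (s₀ - 2 * x)‖ < ‖AA Λ m s₀.im H c s₀‖ := by
  have hR := h.toSP.R_pos
  have hC := D.C₀_pos
  have hc₀ := D.hc₀
  have hm := h.toSP.mpos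
  have hθ0 := D.hθ0
  have hqθ : θ ≤ q := by rw [hq]; exact le_max_left _ _
  have hs : 1 + θ ≤ (s₀ + m / l).re := by linarith
  have h1 := D.other_bound h hx hx0 hx1 hR3 hq hδ (by linarith) hH hH2
  have h2 := (D.point h hs (c := c) hH hH2 hr hrR hG hc).1
  have hH0 : 0 < H := by linarith
  have e1 : AA Λ m s₀.im H c (s₀ - 2 * x) = AA Λ m s₀.im H (1 + q) (s₀ - 2 * x) := by
    have him : (s₀ - 2 * x : ℂ).im = s₀.im := by simp
    have hre : (s₀ - 2 * x : ℂ).re = 1 - x := by simp [hx]; ring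
    apply AA_indep D.diff m
    · rw [him]; linarith
    · rw [him]; linarith
    · rw [hre]; linarith
    · rw [hre]; linarith
  rw [e1]
  refine h1.trans_lt (lt_of_lt_of_le ?_ h2)
  rw [LData.norm_KK h, add_zero]
  have hpi := Real.pi_pos
  have hΛ : 0 < ‖Λ (s₀ + m / l)‖ := norm_pos_iff.2 (D.Λ_ne hs)
  set W := ‖Λ (s₀ + m / l)‖ / RR m l ^ (m + 1) with hW
  have hW0 : 0 < W := by positivity
  have hlre : 0.3 * m ≤ l.re := by
    have h3 := h.toSP.re_ge
    have h4 := h.toSP.R_mul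
    have h5 := h.toSP.norm_pos
    nlinarith
  have h6 : Real.exp (-(δ * l.re)) ≤ Real.exp (-(0.3 * ε * m)) := by
    apply Real.exp_le_exp.2
    have hδ0 : 0 ≤ δ := by linarith
    have : ε * (0.3 * m) ≤ δ * l.re := by gcongr
    linarith
  have hsm := Real.sqrt_pos.2 hm
  have h7 : r / Real.sqrt m ≤ 0.96 * SS m l := by
    rw [LData.SS_eq h, div_le_iff₀ hsm]
    have h8 : (2 : ℝ) ≤ Real.sqrt (2 * Real.pi / m) * Real.sqrt m := by
      rw [← Real.sqrt_mul (by positivity)]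
      have : 2 * Real.pi / m * m = 2 * Real.pi := by field_simp
      rw [this]
      apply Real.le_sqrt_of_sq_le
      nlinarith [Real.pi_gt_three]
    calc r ≤ RR m l := hrR
      _ ≤ 0.96 * RR m l * 2 := by linarith
      _ ≤ 0.96 * RR m l * (Real.sqrt (2 * Real.pi / m) * Real.sqrt m) := by gcongr
      _ = _ := by ring
  apply div_lt_div_of_pos_right _ (by positivity)
  calc _ ≤ (C₀ / c₀) * Real.exp 80 * Real.exp (-(0.3 * ε * m)) * W := by gcongr
    _ = ((C₀ / c₀) * Real.exp 80 * Real.exp (-(0.3 * ε * m)) * Real.sqrt m) * (W / Real.sqrt m) := by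
        field_simp
    _ < r * (W / Real.sqrt m) := by gcongr
    _ = W * (r / Real.sqrt m) := by ring
    _ ≤ _ := by gcongr

end Pool.Agent.H5
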