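import Mathlib
import Pool.Agent.H5.Core
import Pool.Agent.H5.Strip
import Pool.Agent.H6.Transfer

/-!
Uniform bounds for an Euler product of degree two with the Hasse bound, and the structure `LData`
for general elliptic curves.
-/

set_option autoImplicit false

open Complex MeasureTheory Set Filter Topology

namespace Pool.Agent.H5

open scoped ComplexConjugate

/-- Hasse type bounds of the local factors `1 - c p X + e p p X²`. -/
def HasseLoc (c : ℕ → ℤ) (e : ℕ → ℕ) : Prop :=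
  ∀ p : ℕ, p.Prime → (e p = 1 ∧ (c p : ℝ) ^ 2 ≤ 4 * p) ∨ (e p = 0 ∧ |c p| ≤ 1)

/-- the local factor -/
noncomputable def fac (c : ℕ → ℤ) (e : ℕ → ℕ) (s : ℂ) (p : ℕ) : ℂ :=
  1 - (c p : ℂ) * (p : ℂ) ^ (-s) + (e p : ℂ) * (p : ℂ) ^ (1 - 2 * s)

variable {c : ℕ → ℤ} {e : ℕ → ℕ}

lemma fac_split (h : HasseLoc c e) {p : ℕ} (hp : p.Prime) : ∃ α β : ℂ, ‖α‖ ≤ √(p : ℝ) ∧ ‖β‖ ≤ √(p : ℝ) ∧
    ∀ s : ℂ, fac c e s p = (1 - α * (p : ℂ) ^ (-s)) * (1 - β * (p : ℂ) ^ (-s)) := by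
  have hp1 : (1 : ℝ) ≤ p := by exact_mod_cast hp.one_le
  have hp0 : (p : ℂ) ≠ 0 := by exact_mod_cast hp.ne_zero
  have hpow : ∀ s : ℂ, (p : ℂ) ^ (1 - 2 * s) = p * ((p : ℂ) ^ (-s)) ^ 2 := by
    intro s
    rw [← Complex.cpow_nat_mul, Complex.cpow_sub _ _ hp0, Complex.cpow_one]
    push_cast
    rw [show (2 : ℂ) * -s = -(2 * s) by ring, Complex.cpow_neg]
    rfl
  rcases h p hp with ⟨he, hc⟩ | ⟨he, hc⟩
  · have hD : 0 ≤ 4 * (p : ℝ) - (c p : ℝ) ^ 2 := by linarith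
    set r := √(4 * (p : ℝ) - (c p : ℝ) ^ 2) with hr
    have hr2 : r ^ 2 = 4 * (p : ℝ) - (c p : ℝ) ^ 2 := Real.sq_sqrt hD
    have hn : ∀ ε : ℝ, ε ^ 2 = 1 → ‖(((c p : ℝ) / 2 : ℝ) : ℂ) + ((ε * r / 2 : ℝ) : ℂ) * I‖ ≤ √(p : ℝ) := by
      intro ε hε
      apply Real.le_sqrt_of_sq_le
      rw [← Complex.normSq_eq_norm_sq, Complex.normSq_add_mul_I]
      nlinarith
    refine ⟨_, _, hn 1 (by norm_num), hn (-1) (by norm_num), ?_⟩
    intro s
    unfold fac
    rw [hpow, he]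
    have hr2' : ((r : ℝ) : ℂ) ^ 2 = 4 * (p : ℂ) - (c p : ℂ) ^ 2 := by
      rw [← Complex.ofReal_pow, hr2]; push_cast; ring
    push_cast
    linear_combination ((p : ℂ) ^ (-s)) ^ 2 * (-(1 / 4) * hr2') + ((p : ℂ) ^ (-s)) ^ 2 * (1 / 4) * r ^ 2 * Complex.I_sq
  · refine ⟨(c p : ℂ), 0, ?_, by simp, ?_⟩
    · have h1 : ‖(c p : ℂ)‖ ≤ 1 := by
        rw [Complex.norm_intCast]
        exact_mod_cast hc
      exact h1.trans (by rw [Real.one_le_sqrt]; exact hp1)
    · intro s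
      unfold fac
      rw [he]
      simp

/-- size of the local quantities -/
lemma fac_bounds (h : HasseLoc c e) {p : ℕ} (hp : p.Prime) {s : ℂ} (hs : 3 / 2 ≤ s.re) :
    (1 - (p : ℝ) ^ (-(s.re - 1 / 2))) ^ 2 ≤ ‖fac c e s p‖ ∧
    ‖fac c e s p‖ ≤ (1 + (p : ℝ) ^ (-(s.re - 1 / 2))) ^ 2 ∧
    ‖fac c e s p - 1‖ ≤ 2 * (p : ℝ) ^ (-(s.re - 1 / 2)) + ((p : ℝ) ^ (-(s.re - 1 / 2))) ^ 2 ∧
    (p : ℝ) ^ (-(s.re - 1 / 2)) ≤ 1 / 2 := by
  have hp2 : (2 : ℝ) ≤ p := by exact_mod_cast hp.two_le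
  have hp0 : (0 : ℝ) < p := by linarith
  obtain ⟨α, β, hα, hβ, hfac⟩ := fac_split h hp
  rw [hfac]
  set u := (p : ℝ) ^ (-(s.re - 1 / 2)) with hu
  have hu0 : 0 < u := by positivity
  have hu1 : u ≤ 1 / 2 := by
    calc u ≤ (p : ℝ) ^ (-1 : ℝ) := Real.rpow_le_rpow_of_exponent_le (by linarith) (by linarith)
      _ = 1 / p := by rw [Real.rpow_neg_one, one_div]
      _ ≤ 1 / 2 := one_div_le_one_div_of_le (by norm_num) hp2
  have hx : ‖(p : ℂ) ^ (-s)‖ = (p : ℝ) ^ (-s.re) := by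
    rw [Complex.norm_natCast_cpow_of_pos hp.pos]; simp
  have key : ∀ γ : ℂ, ‖γ‖ ≤ √(p : ℝ) → ‖γ * (p : ℂ) ^ (-s)‖ ≤ u := by
    intro γ hγ
    rw [norm_mul, hx]
    calc ‖γ‖ * (p : ℝ) ^ (-s.re) ≤ √(p : ℝ) * (p : ℝ) ^ (-s.re) := by gcongr
      _ = u := by
        rw [Real.sqrt_eq_rpow, ← Real.rpow_add hp0, hu]
        congr 1; ring
  have h1 := key α hα
  have h2 := key β hβ
  set A := α * (p : ℂ) ^ (-s)
  set B := β * (p : ℂ) ^ (-s)
  have h3 : 1 - u ≤ ‖1 - A‖ := by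
    have := norm_sub_norm_le (1 : ℂ) A
    rw [norm_one] at this; linarith
  have h4 : 1 - u ≤ ‖1 - B‖ := by
    have := norm_sub_norm_le (1 : ℂ) B
    rw [norm_one] at this; linarith
  have h5 : ‖1 - A‖ ≤ 1 + u := by
    have := norm_sub_le (1 : ℂ) A
    rw [norm_one] at this; linarith
  have h6 : ‖1 - B‖ ≤ 1 + u := by
    have := norm_sub_le (1 : ℂ) B
    rw [norm_one] at this; linarith
  refine ⟨?_, ?_, ?_, hu1⟩
  · rw [norm_mul, pow_two]
    exact mul_le_mul h3 h4 (by linarith) (norm_nonneg _)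
  · rw [norm_mul, pow_two]
    exact mul_le_mul h5 h6 (norm_nonneg _) (by linarith)
  · have e1 : (1 - A) * (1 - B) - 1 = -(A + B) + A * B := by ring
    rw [e1]
    refine (norm_add_le _ _).trans ?_
    rw [norm_neg, norm_mul]
    have h7 := norm_add_le A B
    have h8 : ‖A‖ * ‖B‖ ≤ u * u := mul_le_mul h1 h2 (norm_nonneg _) hu0.le
    nlinarith

/-- the inverse factor minus one -/
noncomputable def fi (c : ℕ → ℤ) (e : ℕ → ℕ) (s : ℂ) (p : Nat.Primes) : ℂ := (fac c e s p)⁻¹ - 1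

lemma norm_fi_le (h : HasseLoc c e) {s : ℂ} (hs : 3 / 2 ≤ s.re) (p : Nat.Primes) :
    ‖fi c e s p‖ ≤ 10 * (p : ℝ) ^ (-(s.re - 1 / 2)) := by
  obtain ⟨h1, h2, h3, h4⟩ := fac_bounds h p.2 hs
  have hu0 : 0 ≤ ((p : ℕ) : ℝ) ^ (-(s.re - 1 / 2)) := by positivity
  set u := ((p : ℕ) : ℝ) ^ (-(s.re - 1 / 2))
  have h5 : 1 / 4 ≤ ‖fac c e s p‖ := by nlinarith
  have h6 : fac c e s p ≠ 0 := by
    rw [← norm_pos_iff]; linarith
  have e1 : fi c e s p = -(fac c e s p - 1) / fac c e s p := by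
    unfold fi; field_simp; ring
  rw [e1, norm_div, norm_neg, div_le_iff₀ (by linarith)]
  nlinarith

/-- the prime sum -/
noncomputable def primeS (κ : ℝ) : ℝ := ∑' p : Nat.Primes, (p : ℝ) ^ (-κ)

lemma summable_primeS {κ : ℝ} (hκ : 1 < κ) : Summable fun p : Nat.Primes => ((p : ℕ) : ℝ) ^ (-κ) := by
  exact Nat.Primes.summable_rpow.2 (by linarith)

lemma primeS_nonneg (κ : ℝ) : 0 ≤ primeS κ := tsum_nonneg fun _ => by positivity

lemma fi_summable (h : HasseLoc c e) {s : ℂ} (hs : 3 / 2 < s.re) :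
    Summable fun p : Nat.Primes => ‖fi c e s p‖ :=
  Summable.of_nonneg_of_le (fun _ => norm_nonneg _) (norm_fi_le h hs.le)
    ((summable_primeS (by linarith)).mul_left 10)

lemma hasProd_fac (h : HasseLoc c e) {s : ℂ} (hs : 3 / 2 < s.re) :
    HasProd (fun p : Nat.Primes => (fac c e s p)⁻¹) (∏' p : Nat.Primes, (fac c e s p)⁻¹) := by
  have h1 := multipliable_one_add_of_summable (fi_summable h hs)
  have h2 : (fun p : Nat.Primes => 1 + fi c e s p) = fun p : Nat.Primes => (fac c e s p)⁻¹ := by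
    funext p; unfold fi; ring
  rw [h2] at h1
  exact h1.hasProd

/-- comparison of `p^{-t}` -/
lemma rpow_cmp (p : Nat.Primes) {κ t : ℝ} (hκt : κ ≤ t) :
    ((p : ℕ) : ℝ) ^ (-t) ≤ ((p : ℕ) : ℝ) ^ (-κ) * 2 ^ (-(t - κ)) := by
  have hp2 : (2 : ℝ) ≤ p := by exact_mod_cast p.2.two_le
  have hp0 : (0 : ℝ) < p := by linarith
  have e1 : ((p : ℕ) : ℝ) ^ (-t) = ((p : ℕ) : ℝ) ^ (-κ) * ((p : ℕ) : ℝ) ^ (-(t - κ)) := by
    rw [← Real.rpow_add hp0]; congr 1; ring
  rw [e1]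
  gcongr ?_ * ?_
  exact Real.rpow_le_rpow_of_nonpos (by norm_num) hp2 (by linarith)

lemma two_rpow_le_one {v : ℝ} (hv : 0 ≤ v) : (2 : ℝ) ^ (-v) ≤ 1 :=
  Real.rpow_le_one_of_one_le_of_nonpos (by norm_num) (by linarith)

lemma prod_close (h : HasseLoc c e) {s : ℂ} {κ : ℝ} (hκ : 1 < κ) (hs : κ + 1 / 2 ≤ s.re) :
    ‖(∏' p : Nat.Primes, (fac c e s p)⁻¹) - 1‖
      ≤ 10 * primeS κ * Real.exp (10 * primeS κ) * 2 ^ (-(s.re - 1 / 2 - κ)) := by
  have hs' : 3 / 2 < s.re := by linarith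
  have hP := hasProd_fac h hs'
  have hb : ∀ t : Finset Nat.Primes, ‖∏ p ∈ t, (fac c e s p)⁻¹ - 1‖
      ≤ 10 * primeS κ * Real.exp (10 * primeS κ) * 2 ^ (-(s.re - 1 / 2 - κ)) := by
    intro t
    have h1 := Finset.norm_prod_one_add_sub_one_le t (fun p : Nat.Primes => fi c e s p)
    have h2 : ∏ p ∈ t, (1 + fi c e s p) = ∏ p ∈ t, (fac c e s p)⁻¹ := by
      apply Finset.prod_congr rfl; intro p _; unfold fi; ring
    rw [h2] at h1
    refine h1.trans ?_
    set q : ℝ := 2 ^ (-(s.re - 1 / 2 - κ)) with hq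
    have hq0 : 0 < q := by positivity
    have hq1 : q ≤ 1 := two_rpow_le_one (by linarith)
    have h3 : ∑ p ∈ t, ‖fi c e s p‖ ≤ 10 * primeS κ * q := by
      calc ∑ p ∈ t, ‖fi c e s p‖ ≤ ∑ p ∈ t, 10 * (((p : ℕ) : ℝ) ^ (-κ) * q) := by
            apply Finset.sum_le_sum
            intro p _
            refine (norm_fi_le h hs'.le p).trans ?_
            gcongr
            exact rpow_cmp p (by linarith)
        _ = 10 * q * ∑ p ∈ t, ((p : ℕ) : ℝ) ^ (-κ) := by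
            rw [Finset.mul_sum]; apply Finset.sum_congr rfl; intro p _; ring
        _ ≤ 10 * q * primeS κ := by
            gcongr
            exact (summable_primeS hκ).sum_le_tsum t (fun _ _ => by positivity)
        _ = _ := by ring
    have hPS := primeS_nonneg κ
    calc Real.exp (∑ p ∈ t, ‖fi c e s p‖) - 1 ≤ Real.exp (10 * primeS κ * q) - 1 := by gcongr
      _ ≤ (10 * primeS κ * q) * Real.exp (10 * primeS κ * q) := by
          have h4 := Real.add_one_le_exp (-(10 * primeS κ * q))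
          have h5 := Real.exp_pos (10 * primeS κ * q)
          have h6 : Real.exp (-(10 * primeS κ * q)) * Real.exp (10 * primeS κ * q) = 1 := by
            rw [← Real.exp_add]; simp
          nlinarith
      _ ≤ (10 * primeS κ * q) * Real.exp (10 * primeS κ * 1) := by gcongr
      _ = _ := by rw [mul_one]; ring
  have hlim : Tendsto (fun t : Finset Nat.Primes => ‖∏ p ∈ t, (fac c e s p)⁻¹ - 1‖) atTop
      (𝓝 ‖(∏' p : Nat.Primes, (fac c e s p)⁻¹) - 1‖) := by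
    have := hP.sub_const (1 : ℂ)
    exact this.norm
  exact le_of_tendsto' hlim hb

lemma prod_lower (h : HasseLoc c e) {s : ℂ} {κ : ℝ} (hκ : 1 < κ) (hs : κ + 1 / 2 ≤ s.re) :
    Real.exp (-(2 * primeS κ)) ≤ ‖∏' p : Nat.Primes, (fac c e s p)⁻¹‖ := by
  have hs' : 3 / 2 < s.re := by linarith
  have hP := hasProd_fac h hs'
  have hb : ∀ t : Finset Nat.Primes, Real.exp (-(2 * primeS κ)) ≤ ‖∏ p ∈ t, (fac c e s p)⁻¹‖ := by
    intro t
    rw [norm_prod]
    have h1 : ∀ p : Nat.Primes, Real.exp (-(2 * ((p : ℕ) : ℝ) ^ (-κ))) ≤ ‖(fac c e s p)⁻¹‖ := by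
      intro p
      obtain ⟨h1, h2, h3, h4⟩ := fac_bounds h p.2 hs'.le
      have hp2 : (2 : ℝ) ≤ ((p : ℕ) : ℝ) := by exact_mod_cast p.2.two_le
      have hu : ((p : ℕ) : ℝ) ^ (-(s.re - 1 / 2)) ≤ ((p : ℕ) : ℝ) ^ (-κ) :=
        Real.rpow_le_rpow_of_exponent_le (by linarith) (by linarith)
      have hu0 : 0 ≤ ((p : ℕ) : ℝ) ^ (-(s.re - 1 / 2)) := by positivity
      set u := ((p : ℕ) : ℝ) ^ (-(s.re - 1 / 2))
      set v := ((p : ℕ) : ℝ) ^ (-κ)
      have h5 : 0 < ‖fac c e s p‖ := by nlinarith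
      rw [norm_inv, Real.exp_neg]
      apply inv_anti₀ h5
      calc ‖fac c e s p‖ ≤ (1 + u) ^ 2 := h2
        _ ≤ (Real.exp v) ^ 2 := by
            gcongr
            have := Real.add_one_le_exp v
            linarith
        _ = Real.exp (2 * v) := by rw [← Real.exp_nat_mul]; norm_num
    calc Real.exp (-(2 * primeS κ)) ≤ Real.exp (-(2 * ∑ p ∈ t, ((p : ℕ) : ℝ) ^ (-κ))) := by
          gcongr
          exact (summable_primeS hκ).sum_le_tsum t (fun _ _ => by positivity)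
      _ = ∏ p ∈ t, Real.exp (-(2 * ((p : ℕ) : ℝ) ^ (-κ))) := by
          rw [← Real.exp_sum]; congr 1
          rw [Finset.mul_sum, ← Finset.sum_neg_distrib]
      _ ≤ ∏ p ∈ t, ‖(fac c e s p)⁻¹‖ :=
          Finset.prod_le_prod (fun _ _ => (Real.exp_pos _).le) (fun p _ => h1 p)
  exact ge_of_tendsto' hP.norm (fun t => by have := hb t; rwa [norm_prod] at this)

/-- `2^{-v} ≤ 2/(v+2)` -/
lemma two_rpow_neg_le {v : ℝ} (hv : 0 ≤ v) : (2 : ℝ) ^ (-v) ≤ 2 / (v + 2) := by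
  rw [Real.rpow_neg (by norm_num), inv_eq_one_div, div_le_div_iff₀ (by positivity) (by linarith)]
  have h1 : 1 + v / 2 ≤ (2 : ℝ) ^ v := by
    rw [Real.rpow_def_of_pos (by norm_num)]
    have h2 := Real.add_one_le_exp (Real.log 2 * v)
    have h3 := Real.log_two_gt_d9
    nlinarith
  linarith

/-- the constants -/
noncomputable def cC (κ : ℝ) : ℝ := 10 * primeS κ * Real.exp (10 * primeS κ)

lemma cC_nonneg (κ : ℝ) : 0 ≤ cC κ := by
  have := primeS_nonneg κ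
  unfold cC; positivity

/-- hypotheses on the completed L-function -/
structure EulerData (c : ℕ → ℤ) (e : ℕ → ℕ) (N : ℝ) (w : ℝ) (L Λ : ℂ → ℂ) : Prop where
  hasse : HasseLoc c e
  entire : Differentiable ℂ L
  euler : ∀ s : ℂ, 3 / 2 < s.re → L s = ∏' p : Nat.Primes, (fac c e s p)⁻¹
  level : 11 ≤ N
  entireΛ : Differentiable ℂ Λ
  completed : ∀ s : ℂ, 3 / 2 < s.re →
    Λ s = (N : ℂ) ^ (s / 2) * ((2 * Real.pi : ℝ) : ℂ) ^ (-s) * Gamma s * L s
  sign : w = 1 ∨ w = -1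
  fe : ∀ s : ℂ, Λ (2 - s) = w * Λ s
  bdd : ∀ u v : ℝ, ∃ C, ∀ s : ℂ, u ≤ s.re → s.re ≤ v → ‖Λ s‖ ≤ C

namespace EulerData

variable {N w : ℝ} {L Λ : ℂ → ℂ}

lemma close (D : EulerData c e N w L Λ) {s : ℂ} {κ : ℝ} (hκ : 1 < κ) (hs : κ + 1 / 2 ≤ s.re) :
    ‖L s - 1‖ ≤ cC κ * 2 ^ (-(s.re - 1 / 2 - κ)) := by
  rw [D.euler s (by linarith)]
  exact prod_close D.hasse hκ hs

lemma upper (D : EulerData c e N w L Λ) {s : ℂ} {κ : ℝ} (hκ : 1 < κ) (hs : κ + 1 / 2 ≤ s.re) :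
    ‖L s‖ ≤ 1 + cC κ := by
  have h1 := D.close hκ hs
  have h2 := two_rpow_le_one (v := s.re - 1 / 2 - κ) (by linarith)
  have h3 := cC_nonneg κ
  have h4 : cC κ * 2 ^ (-(s.re - 1 / 2 - κ)) ≤ cC κ * 1 := by gcongr
  have h5 : L s = 1 + (L s - 1) := by ring
  rw [h5]
  refine (norm_add_le _ _).trans ?_
  rw [norm_one]; linarith

lemma lower (D : EulerData c e N w L Λ) {s : ℂ} {κ : ℝ} (hκ : 1 < κ) (hs : κ + 1 / 2 ≤ s.re) :
    Real.exp (-(2 * primeS κ)) ≤ ‖L s‖ := by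
  rw [D.euler s (by linarith)]
  exact prod_lower D.hasse hκ hs

lemma lip (D : EulerData c e N w L Λ) {s : ℂ} {κ η : ℝ} (hκ : 1 < κ) (hη : 0 < η)
    (hη1 : κ + η ≤ 3 / 2) (hs : κ + η + 1 / 2 ≤ s.re) (τ : ℝ) :
    ‖L (s + τ * I) - L s‖ ≤ 2 * cC κ / η * |τ| / s.re := by
  have hC := cC_nonneg κ
  set B : ℝ := cC κ * 2 ^ (-(s.re - 1 / 2 - κ - η)) with hB
  have hd : ∀ z : ℂ, z.re = s.re → ‖deriv L z‖ ≤ B / η := by
    intro z hz
    have h1 : deriv L z = deriv (fun y => L y - 1) z := by rw [deriv_sub_const]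
    rw [h1]
    apply norm_deriv_le_of_forall_mem_sphere_norm_le hη
    · exact (D.entire.sub_const 1).diffContOnCl
    · intro y hy
      have hy1 : ‖y - z‖ = η := by simpa [dist_eq_norm] using hy
      have hy2 : s.re - η ≤ y.re := by
        have := (abs_le.1 (Complex.abs_re_le_norm (y - z))).1
        rw [hy1, Complex.sub_re, hz] at this
        linarith
      refine (D.close hκ (by linarith)).trans ?_
      rw [hB]
      gcongr ?_ * ?_
      apply Real.rpow_le_rpow_of_exponent_le (by norm_num)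
      linarith
  have hmv : ‖L (s + τ * I) - L s‖ ≤ B / η * |τ| := by
    have h1 : ∀ t ∈ Set.univ (α := ℝ), HasDerivWithinAt (fun t : ℝ => L (s + t * I))
        (deriv L (s + t * I) * I) Set.univ t := by
      intro t _
      have h2 : HasDerivAt (fun t : ℝ => s + (t : ℂ) * I) (1 * I) t :=
        ((Complex.ofRealCLM.hasDerivAt (x := t)).mul_const I).const_add s
      have h3 := (D.entire (s + t * I)).hasDerivAt
      have h4 := h3.comp t (h₂ := L) (h := fun t : ℝ => s + (t : ℂ) * I) h2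
      rw [one_mul] at h4
      exact h4.hasDerivWithinAt
    have h5 := convex_univ.norm_image_sub_le_of_norm_hasDerivWithin_le (C := B / η) h1
      (by
        intro t _
        rw [norm_mul, Complex.norm_I, mul_one]
        exact hd _ (by simp)) (mem_univ (0:ℝ)) (mem_univ τ)
    simpa using h5
  refine hmv.trans ?_
  have hσ : 0 < s.re := by linarith
  have h6 : (2 : ℝ) ^ (-(s.re - 1 / 2 - κ - η)) ≤ 2 / s.re := by
    refine (two_rpow_neg_le (v := s.re - 1 / 2 - κ - η) (by linarith)).trans ?_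
    apply div_le_div_of_nonneg_left (by norm_num) hσ
    linarith
  calc B / η * |τ| ≤ cC κ * (2 / s.re) / η * |τ| := by rw [hB]; gcongr
    _ = _ := by ring

lemma real_L (D : EulerData c e N w L Λ) {s : ℂ} (hs : 3 / 2 < s.re) : L (conj s) = conj (L s) := by
  rw [D.euler s hs, D.euler (conj s) (by simpa using hs)]
  rw [(hasProd_fac D.hasse hs).multipliable.map_tprod (starRingEnd ℂ) Complex.continuous_conj]
  congr 1
  funext p
  rw [map_inv₀]
  congr 1
  unfold fac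
  have hp : ((p : ℕ) : ℂ).arg ≠ Real.pi := by
    rw [Complex.natCast_arg]; exact Real.pi_pos.ne
  rw [map_add, map_sub, map_mul, map_mul, map_one]
  have e1 : ∀ z : ℂ, ((p : ℕ) : ℂ) ^ (conj z) = conj (((p : ℕ) : ℂ) ^ z) := by
    intro z
    rw [Complex.cpow_conj _ _ hp, Complex.conj_natCast]
  rw [← map_neg, e1]
  have e2 : (1 : ℂ) - 2 * conj s = conj (1 - 2 * s) := by
    rw [map_sub, map_mul, map_one]
    congr 2
    exact (Complex.conj_ofReal 2).symm
  rw [e2, e1]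
  simp

lemma completed' (D : EulerData c e N w L Λ) {s : ℂ} (hs : 3 / 2 < s.re) :
    Λ s = ((√N / (2 * Real.pi) : ℝ) : ℂ) ^ s * Gamma s * L s := by
  have hN : 0 < N := by have := D.level; linarith
  rw [D.completed s hs, Pool.Agent.H6.cpow_half hN]

lemma M_ge (D : EulerData c e N w L Λ) : 1 / 2 ≤ √N / (2 * Real.pi) := by
  have h1 := D.level
  have h2 : (3.3 : ℝ) ≤ √N := by
    apply Real.le_sqrt_of_sq_le; linarith
  have := Real.pi_lt_d2
  have := Real.pi_pos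
  rw [le_div_iff₀ (by positivity)]
  linarith

lemma real_Λ (D : EulerData c e N w L Λ) (s : ℂ) : Λ (conj s) = conj (Λ s) := by
  have hM : 0 < √N / (2 * Real.pi) := by have := D.M_ge; linarith
  have h1 : Differentiable ℂ (fun s => conj (Λ (conj s))) := by
    intro z
    have := (D.entireΛ (conj z)).conj_conj
    simpa [Function.comp_def] using this
  have h2 : Λ = fun s => conj (Λ (conj s)) := by
    apply Pool.Agent.H6.eq_of_eq_halfplane D.entireΛ h1 (a := 3 / 2)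
    intro z hz
    rw [D.completed' hz, D.completed' (s := conj z) (by simpa using hz), D.real_L hz, map_mul,
      map_mul, Complex.Gamma_conj, Complex.conj_conj, Complex.conj_conj]
    congr 2
    rw [Complex.cpow_conj _ _ (by rw [Complex.arg_ofReal_of_nonneg hM.le]; exact Real.pi_pos.ne),
      Complex.conj_ofReal, Complex.conj_conj]
  have h3 := congrFun h2 (conj s)
  simpa using h3

/-- the structure `LData` for general elliptic curves, with constants depending on `θ` only -/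
theorem toLData (D : EulerData c e N w L Λ) {θ : ℝ} (hθ : 1 / 2 < θ) (hθ1 : θ ≤ 1) :
    LData θ (Real.exp (-(2 * primeS (1 / 2 + θ)))) (1 + cC (1 / 2 + θ))
      (2 * cC (1 / 2 + (θ + 1 / 2) / 2) / ((θ - 1 / 2) / 2))
      (√N / (2 * Real.pi)) Λ L (w : ℂ) where
  hM := D.M_ge
  hθ0 := by linarith
  hθ1 := hθ1
  hc₀ := Real.exp_pos _
  hC := by
    have h1 := primeS_nonneg (1 / 2 + θ)
    have h2 := cC_nonneg (1 / 2 + θ)
    have h3 : Real.exp (-(2 * primeS (1 / 2 + θ))) ≤ 1 := by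
      rw [Real.exp_le_one_iff]; linarith
    linarith
  hC₁ := by
    have h2 := cC_nonneg (1 / 2 + (θ + 1 / 2) / 2)
    have : 0 < (θ - 1 / 2) / 2 := by linarith
    positivity
  sign := by rcases D.sign with h | h <;> simp [h]
  diff := D.entireΛ
  fe := D.fe
  real := D.real_Λ
  eqL := fun s hs => D.completed' (by linarith)
  upper := fun s hs => D.upper (by linarith) (by linarith)
  lower := fun s hs => D.lower (by linarith) (by linarith)
  lip := fun s hs τ => D.lip (η := (θ - 1 / 2) / 2) (by linarith) (by linarith) (by linarith)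
    (by linarith) τ
  bdd := D.bdd _ _

end EulerData

end Pool.Agent.H5
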