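import Mathlib
import Pool.Agent.H5.GenL
import Pool.Agent.H5.ThetaFE
import Pool.Agent.H5.EulerFrozen
import Pool.Agent.H6.EdUniform
import Pool.Agent.H6.MellinFE
import Pool.Agent.H6.EdFE

/-!
The congruent number curves satisfy `EulerData`.
-/

set_option autoImplicit false

open Complex MeasureTheory Set Filter Topology

namespace Pool.Agent.H5

open Pool.Agent.H6 (ap_sq_le exists_FE goodCoeff_bd divGamma differentiable_divGamma divGamma_eq
  cpow_half thetaSer)

/-- the coefficient at `p` -/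
noncomputable def cE (d : ℤ) (p : ℕ) : ℤ :=
  if ((p : ℤ) ∣ 2 * (4 * (-d ^ 2) ^ 3 + 27 * (0 : ℤ) ^ 2)) then 0 else ap (-d ^ 2) 0 p

/-- good reduction indicator -/
noncomputable def eE (d : ℤ) (p : ℕ) : ℕ :=
  if ((p : ℤ) ∣ 2 * (4 * (-d ^ 2) ^ 3 + 27 * (0 : ℤ) ^ 2)) then 0 else 1

lemma hasseLoc_E (d : ℤ) : HasseLoc (cE d) (eE d) := by
  intro p hp
  by_cases h : ((p : ℤ) ∣ 2 * (4 * (-d ^ 2) ^ 3 + 27 * (0 : ℤ) ^ 2))
  · right
    unfold cE eE
    rw [if_pos h, if_pos h]; simp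
  · left
    unfold cE eE
    rw [if_neg h, if_neg h]
    have hf := Fact.mk hp
    obtain ⟨h1, h2⟩ := (good_iff d p hp).1 h
    exact ⟨rfl, ap_sq_le d p h1⟩

lemma euler_E (d : ℤ) {s : ℂ} (hs : 3 / 2 < s.re) :
    HasProd (fun p : Nat.Primes => (fac (cE d) (eE d) s p)⁻¹) (Lser d s) := by
  have h := euler_hasProd d hs
  convert h using 1
  funext p
  have hf := Fact.mk p.2
  by_cases hb : (((p : ℕ) : ℤ) ∣ 2 * (4 * (-d ^ 2) ^ 3 + 27 * (0 : ℤ) ^ 2))
  · have hbad : (p : ℕ) = 2 ∨ ((p : ℕ) : ℤ) ∣ d := by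
      by_contra hcon
      push Not at hcon
      exact (good_iff d p p.2).2 hcon hb
    rw [factor_bad d p hbad s]
    unfold fac cE eE
    rw [if_pos hb, if_pos hb]
    simp
  · obtain ⟨h1, h2⟩ := (good_iff d p p.2).1 hb
    rw [factor_good d p h1 h2 hs]
    unfold fac cE eE
    rw [if_neg hb, if_neg hb]
    have hp0 : ((p : ℕ) : ℂ) ≠ 0 := by exact_mod_cast p.2.ne_zero
    have e1 : ((p : ℕ) : ℂ) ^ (1 - 2 * s) = ((p : ℕ) : ℂ) * ((p : ℕ) : ℂ) ^ (-2 * s) := by
      rw [sub_eq_add_neg, Complex.cpow_add _ _ hp0, Complex.cpow_one, neg_mul]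
    rw [e1]
    simp

/-- the conductor of `y² = x³ - d² x` -/
def cond (d : ℕ) : ℕ := if Even d then 16 * d ^ 2 else 32 * d ^ 2

theorem eulerData_E (d : ℕ) (hd : Squarefree d) : ∃ (w : ℝ) (L Λ : ℂ → ℂ),
    EulerData (cE d) (eE d) (cond d : ℝ) w L Λ := by
  have hd0 : 0 < d := Nat.pos_of_ne_zero hd.ne_zero
  have hN0 : (0:ℝ) < (cond d : ℝ) := by
    unfold cond
    split_ifs <;> (push_cast; positivity)
  obtain ⟨w, hw, hfe⟩ := Th_fe d hd
  have hQ : ((Q d : ℕ) : ℝ) = (cond d : ℝ) / 4 := by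
    unfold Q cond
    split_ifs <;> (push_cast; ring)
  have hQ0 : (0:ℝ) < ((Q d : ℕ) : ℝ) := by rw [hQ]; positivity
  obtain ⟨Λ, h1, h2, h3, h4, h5⟩ := exists_FE (goodCoeff_bd (d : ℤ)) hQ0 hw hfe
  set M : ℝ := √(Q d : ℝ) / Real.pi with hM
  have hM0 : 0 < M := by
    rw [hM]; have := Real.pi_pos; have := Real.sqrt_pos.2 hQ0; positivity
  have hMN : M = √(cond d : ℝ) / (2 * Real.pi) := by
    rw [hM, hQ, Real.sqrt_div' _ (by norm_num : (0:ℝ) ≤ 4)]
    have : √(4:ℝ) = 2 := by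
      rw [show (4:ℝ) = 2 ^ 2 by norm_num, Real.sqrt_sq (by norm_num)]
    rw [this]
    field_simp
  have h4' : ∀ s : ℂ, 3 / 2 < s.re → Λ s = (M : ℂ) ^ s * Complex.Gamma s * Lser d s := by
    intro s hs
    rw [h4 s hs]
    unfold Lser
    simp [hM]
  have hL : ∀ s : ℂ, 3 / 2 < s.re → divGamma M Λ s = Lser d s := by
    intro s hs
    exact divGamma_eq hM0 (by linarith) (h4' s hs)
  refine ⟨w, divGamma M Λ, Λ, ?_⟩
  exact
    { hasse := hasseLoc_E d
      entire := differentiable_divGamma hM0 h1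
      euler := by
        intro s hs
        rw [hL s hs]
        exact (euler_E d hs).tprod_eq.symm
      level := by
        have : 11 ≤ cond d := by
          unfold cond
          have h0 := hd0
          split_ifs with h
          · obtain ⟨k, hk⟩ := h
            have : 1 ≤ k := by omega
            subst hk
            nlinarith
          · nlinarith
        exact_mod_cast this
      entireΛ := h1
      completed := by
        intro s hs
        rw [cpow_half hN0, ← hMN, h4' s hs, hL s hs]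
      sign := hw
      fe := h2
      bdd := h5 }

end Pool.Agent.H5
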