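import Mathlib
import Pool.Agent.H6.DerivStrip
import Pool.Agent.H5.GenL

/-!
The zeros of all derivatives of the completed L-function are in the closed critical strip
(adapted from `Pool.Agent.H6.DerivStrip` to general elliptic curves).
-/

set_option autoImplicit false

open Filter Topology Polynomial Metric Set

namespace Pool.Agent.H5

open Pool.Agent.H6 (SymEntire Gamma_le_exp)
open Pool.Agent.H6.FEData (norm_Gamma_le_re)

namespace EulerData

variable {c : ℕ → ℤ} {e : ℕ → ℕ} {N w : ℝ} {L Λ : ℂ → ℂ}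

lemma norm_w (D : EulerData c e N w L Λ) : ‖(w : ℂ)‖ = 1 := by
  rcases D.sign with h | h <;> simp [h]

theorem symEntire (D : EulerData c e N w L Λ) : SymEntire (fun z => Λ (1 + z)) where
  diff := D.entireΛ.comp (by fun_prop)
  symm := by
    rcases D.sign with h | h
    · left
      intro z
      have := D.fe (1 + z)
      rw [h, Complex.ofReal_one, one_mul] at this
      rw [← this]
      congr 1; ring
    · right
      intro z
      have := D.fe (1 + z)
      rw [h] at this
      rw [show (1:ℂ) + -z = 2 - (1 + z) by ring, this]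
      push_cast; ring
  growth := by
    obtain ⟨C, hC⟩ := D.bdd 0 2
    set M : ℝ := √N / (2 * Real.pi) with hM
    have hM0 : 0 < M := by have := D.M_ge; linarith
    set C' : ℝ := 1 + cC (3 / 2) with hC'
    have hcC := cC_nonneg (3 / 2)
    set B : ℝ := 6 * (|Real.log M| + 2) with hB
    have hB0 : 0 ≤ B := by positivity
    have hright : ∀ z : ℂ, 0 ≤ z.re →
        ‖Λ (1 + z)‖ ≤ (|C| + C') * Real.exp (B * ‖z‖ ^ (3 / 2 : ℝ)) := by
      intro z hz
      have hE : 1 ≤ Real.exp (B * ‖z‖ ^ (3 / 2 : ℝ)) := Real.one_le_exp (by positivity)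
      rcases le_total z.re 1 with h | h
      · have h1 := hC (1 + z) (by simp; linarith) (by simp; linarith)
        calc ‖Λ (1 + z)‖ ≤ C := h1
          _ ≤ (|C| + C') * 1 := by linarith [le_abs_self C]
          _ ≤ _ := by gcongr
      · have hre : (1 + z).re = 1 + z.re := by simp
        have h2 : 2 ≤ (1 + z).re := by rw [hre]; linarith
        rw [D.completed' (by linarith), ← hM, norm_mul, norm_mul,
          Complex.norm_cpow_eq_rpow_re_of_pos hM0, hre]
        have h3 := D.upper (s := 1 + z) (κ := 3 / 2) (by norm_num) (by linarith)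
        have h4 : ‖Complex.Gamma (1 + z)‖ ≤ Real.Gamma (1 + z.re) := by
          have := norm_Gamma_le_re (z := 1 + z) (by rw [hre]; linarith)
          rwa [hre] at this
        have h5 := Gamma_le_exp (x := 1 + z.re) (by linarith)
        have h6 : M ^ (1 + z.re) ≤ Real.exp (|Real.log M| * (1 + z.re)) := by
          rw [Real.rpow_def_of_pos hM0]
          apply Real.exp_le_exp.mpr
          gcongr
          exact le_abs_self _
        have hzn : z.re ≤ ‖z‖ := Complex.re_le_norm z
        have h1z : 1 ≤ ‖z‖ := h.trans hzn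
        have h7 : (1 + z.re + 1) ^ (3 / 2 : ℝ) ≤ 6 * ‖z‖ ^ (3 / 2 : ℝ) := by
          calc (1 + z.re + 1) ^ (3 / 2 : ℝ) ≤ (3 * ‖z‖) ^ (3 / 2 : ℝ) := by
                apply Real.rpow_le_rpow (by linarith) (by linarith) (by norm_num)
            _ = 3 ^ (3 / 2 : ℝ) * ‖z‖ ^ (3 / 2 : ℝ) :=
                Real.mul_rpow (by norm_num) (norm_nonneg _)
            _ ≤ 6 * ‖z‖ ^ (3 / 2 : ℝ) := by
                gcongr
                have h8 : ((3:ℝ) ^ (3 / 2 : ℝ)) ^ 2 = 27 := by
                  rw [← Real.rpow_natCast, ← Real.rpow_mul (by norm_num)]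
                  norm_num
                apply le_of_sq_le_sq _ (by norm_num)
                rw [h8]; norm_num
        have h8 : 1 + z.re ≤ 6 * ‖z‖ ^ (3 / 2 : ℝ) := by
          have h9 : 1 + z.re + 1 ≤ (1 + z.re + 1) ^ (3 / 2 : ℝ) := by
            nth_rewrite 1 [← Real.rpow_one (1 + z.re + 1)]
            apply Real.rpow_le_rpow_of_exponent_le (by linarith) (by norm_num)
          linarith
        have h10 : ‖L (1 + z)‖ ≤ |C| + C' := by linarith [abs_nonneg C]
        calc M ^ (1 + z.re) * ‖Complex.Gamma (1 + z)‖ * ‖L (1 + z)‖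
            ≤ Real.exp (|Real.log M| * (1 + z.re)) *
              Real.exp (2 * (1 + z.re + 1) ^ (3 / 2 : ℝ)) * (|C| + C') := by
              gcongr
              exact h4.trans h5
          _ = (|C| + C') * Real.exp (|Real.log M| * (1 + z.re) +
              2 * (1 + z.re + 1) ^ (3 / 2 : ℝ)) := by
              rw [Real.exp_add]; ring
          _ ≤ (|C| + C') * Real.exp (|Real.log M| * (6 * ‖z‖ ^ (3 / 2 : ℝ)) +
              2 * (6 * ‖z‖ ^ (3 / 2 : ℝ))) := by
              gcongr
          _ = _ := by rw [hB]; congr 2; ring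
    refine ⟨|C| + C', B, 3 / 2, by positivity, hB0, by norm_num, by norm_num, fun z => ?_⟩
    rcases le_total 0 z.re with h | h
    · exact hright z h
    · have h1 := hright (-z) (by simp; linarith)
      have h2 := D.fe (1 + z)
      have h3 : ‖Λ (1 + -z)‖ = ‖Λ (1 + z)‖ := by
        rw [show (1:ℂ) + -z = 2 - (1 + z) by ring, h2, norm_mul, D.norm_w, one_mul]
      rw [h3, norm_neg] at h1
      exact h1

/-- a derivative of the completed L-function does not vanish identically -/
theorem iteratedDeriv_ne_zero (D : EulerData c e N w L Λ) (m : ℕ) :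
    ∃ z, iteratedDeriv m Λ z ≠ 0 := by
  by_contra hall
  push Not at hall
  have hM0 : 0 < √N / (2 * Real.pi) := by have := D.M_ge; linarith
  set M : ℝ := √N / (2 * Real.pi) with hMdef
  -- `Λ` is a polynomial
  have hvan : ∀ n, m ≤ n → ∀ z, iteratedDeriv n Λ z = 0 := by
    intro n hn
    induction n, hn using Nat.le_induction with
    | base => exact hall
    | succ n hn ih =>
      intro z
      rw [iteratedDeriv_succ]
      have : iteratedDeriv n Λ = fun _ => 0 := funext ih
      rw [this]; simp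
  have hpoly : ∀ z, Λ z = ∑ n ∈ Finset.range m,
      (n.factorial : ℂ)⁻¹ * iteratedDeriv n Λ 0 * z ^ n := by
    intro z
    have h1 := Complex.taylorSeries_eq_of_entire' (c := 0) (z := z) D.entireΛ
    rw [← h1, tsum_eq_sum (s := Finset.range m)]
    · apply Finset.sum_congr rfl
      intro n _
      rw [sub_zero]
    · intro n hn
      rw [hvan n (by simpa using hn)]
      simp
  -- polynomial growth
  set S : ℝ := ∑ n ∈ Finset.range m, ‖(n.factorial : ℂ)⁻¹ * iteratedDeriv n Λ 0‖ with hS
  have hS0 : 0 ≤ S := Finset.sum_nonneg (fun n _ => norm_nonneg _)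
  have hub : ∀ z : ℂ, 1 ≤ ‖z‖ → ‖Λ z‖ ≤ S * ‖z‖ ^ m := by
    intro z hz
    rw [hpoly z, hS, Finset.sum_mul]
    refine (norm_sum_le _ _).trans (Finset.sum_le_sum (fun n hn => ?_))
    rw [norm_mul, norm_pow]
    have hn' : n ≤ m := (Finset.mem_range.mp hn).le
    gcongr
  set q : ℝ := Real.exp (-(2 * primeS (3 / 2))) with hq
  have hq0 : 0 < q := Real.exp_pos _
  -- super-exponential growth
  have hlow : ∀ n : ℕ, 6 ≤ n → q * M ^ (n + 1) * (n.factorial : ℝ) ≤
      S * ((n : ℝ) + 1) ^ m := by
    intro n hn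
    have hn6 : (6:ℝ) ≤ n := by exact_mod_cast hn
    have h1 := D.completed' (s := (n : ℂ) + 1) (by simp; linarith)
    have h3 : q ≤ ‖L ((n : ℂ) + 1)‖ := D.lower (κ := 3 / 2) (by norm_num) (by simp; linarith)
    have h5 : ‖(n : ℂ) + 1‖ = (n : ℝ) + 1 := by
      have : ((n : ℂ) + 1) = (((n : ℝ) + 1 : ℝ) : ℂ) := by push_cast; ring
      rw [this, Complex.norm_real, Real.norm_eq_abs, abs_of_nonneg (by positivity)]
    have h6 := hub ((n : ℂ) + 1) (by rw [h5]; linarith)
    rw [h5] at h6
    have h7 : ‖Λ ((n : ℂ) + 1)‖ = M ^ (n + 1) * (n.factorial : ℝ) * ‖L ((n : ℂ) + 1)‖ := by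
      have e : ((n : ℂ) + 1).re = ((n + 1 : ℕ) : ℝ) := by simp
      rw [h1, norm_mul, norm_mul, Complex.Gamma_nat_eq_factorial,
        Complex.norm_cpow_eq_rpow_re_of_pos hM0, Complex.norm_natCast, e, Real.rpow_natCast]
    rw [h7] at h6
    calc q * M ^ (n + 1) * (n.factorial : ℝ) =
        M ^ (n + 1) * (n.factorial : ℝ) * q := by ring
      _ ≤ M ^ (n + 1) * (n.factorial : ℝ) * ‖L ((n : ℂ) + 1)‖ := by gcongr
      _ ≤ _ := h6
  -- contradiction
  have hexp : ∀ n : ℕ, ((n : ℝ) + 1) ^ m ≤ m.factorial * Real.exp 1 * (Real.exp 1) ^ n := by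
    intro n
    have h1 := Real.pow_div_factorial_le_exp ((n : ℝ) + 1) (by positivity) m
    rw [div_le_iff₀ (by positivity)] at h1
    refine h1.trans (le_of_eq ?_)
    rw [Real.exp_add, ← Real.exp_nat_mul, mul_one]
    ring
  have hlim := FloorSemiring.tendsto_pow_div_factorial_atTop (K := ℝ) (Real.exp 1 / M)
  set T : ℝ := S * m.factorial * Real.exp 1 / M / q with hT
  have hT0 : 0 ≤ T := by positivity
  have hev := hlim.eventually (gt_mem_nhds (show (0:ℝ) < 1 / (T + 1) by positivity))
  obtain ⟨n, hn1, hn2⟩ := (hev.and (eventually_ge_atTop 6)).exists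
  have h1 := hlow n hn2
  have h2 := hexp n
  have h3 : q * M ^ (n + 1) * (n.factorial : ℝ) ≤
      S * (m.factorial * Real.exp 1 * (Real.exp 1) ^ n) := h1.trans (by gcongr)
  have hf : (0:ℝ) < n.factorial := by exact_mod_cast n.factorial_pos
  have h4 : 1 ≤ T * ((Real.exp 1 / M) ^ n / n.factorial) := by
    have e1 : T * ((Real.exp 1 / M) ^ n / n.factorial)
        = S * (m.factorial * Real.exp 1 * (Real.exp 1) ^ n) / (q * M ^ (n + 1) * n.factorial) := by
      rw [hT, div_pow, pow_succ]
      field_simp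
    rw [e1, one_le_div (by positivity)]
    exact h3
  have h5 : T * ((Real.exp 1 / M) ^ n / n.factorial) ≤ T * (1 / (T + 1)) := by gcongr
  have h6 : T * (1 / (T + 1)) < 1 := by
    rw [mul_one_div, div_lt_one (by positivity)]; linarith
  linarith

/-- all zeros of all derivatives are in the closed critical strip -/
theorem deriv_zero_strip (D : EulerData c e N w L Λ) (m : ℕ)
    {s : ℂ} (hs : iteratedDeriv m Λ s = 0) : |s.re - 1| ≤ 1 / 2 := by
  have hM0 : 0 < √N / (2 * Real.pi) := by have := D.M_ge; linarith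
  have hz : ∀ s : ℂ, 3 / 2 < s.re → Λ s ≠ 0 := by
    intro z hz
    rw [D.completed' hz]
    have hz0 : 0 < z.re := by linarith
    refine mul_ne_zero (mul_ne_zero ?_ ?_) ?_
    · rw [Ne, Complex.cpow_eq_zero_iff, not_and_or]
      left
      exact_mod_cast hM0.ne'
    · exact Complex.Gamma_ne_zero_of_re_pos hz0
    · have := D.lower (s := z) (κ := z.re - 1 / 2) (by linarith) (by linarith)
      exact norm_pos_iff.mp ((Real.exp_pos _).trans_le this)
  set f : ℂ → ℂ := fun z => Λ (1 + z) with hf
  set K : Set ℂ := {z : ℂ | |z.re| ≤ 1 / 2} with hK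
  have hKc : IsClosed K := isClosed_le (by fun_prop) (by fun_prop)
  have hKconv : Convex ℝ K := by
    have : K = Complex.reCLM ⁻¹' (Icc (-(1 / 2)) (1 / 2)) := by
      ext z
      simp [hK, abs_le]
    rw [this]
    exact (convex_Icc _ _).linear_preimage (Complex.reCLM : ℂ →ₗ[ℝ] ℝ)
  have hzero : ∀ z, f z = 0 → z ∈ K := by
    intro z hz0
    rw [hK, mem_ofPred_eq, abs_le]
    constructor
    · by_contra h
      push Not at h
      apply hz (2 - (1 + z)) (by simp; linarith)
      rw [D.fe]
      rw [hf] at hz0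
      simp only at hz0
      rw [hz0, mul_zero]
    · by_contra h
      push Not at h
      exact hz (1 + z) (by simp; linarith) hz0
  have hshift : ∀ z, iteratedDeriv m f z = iteratedDeriv m Λ (1 + z) := by
    intro z
    rw [hf, iteratedDeriv_comp_const_add]
  obtain ⟨z1, hz1⟩ := D.iteratedDeriv_ne_zero m
  have h1 := D.symEntire.gauss_lucas hKc hKconv hzero m
    ⟨z1 - 1, by rw [hshift, add_sub_cancel]; exact hz1⟩ (s - 1)
    (by rw [hshift, add_sub_cancel]; exact hs)
  rw [hK, mem_ofPred_eq] at h1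
  simpa using h1

end EulerData

end Pool.Agent.H5
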