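import Mathlib
import Pool.Agent.H5.Direct

/-!
Zeros of high derivatives of a completed L-function: they lie on the critical line and are simple.
-/

set_option autoImplicit false

open Complex MeasureTheory Set Filter Topology

namespace Pool.Agent.H5

open scoped ComplexConjugate

lemma tendsto_exp_sqrt {b : ℝ} (hb : 0 < b) :
    Tendsto (fun m : ℕ => Real.exp (-(b * m)) * Real.sqrt m) atTop (𝓝 0) := by
  have h := (tendsto_rpow_mul_exp_neg_mul_atTop_nhds_zero (1 / 2) b hb).comp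
    (tendsto_natCast_atTop_atTop (R := ℝ))
  refine h.congr ?_
  intro m
  simp only [Function.comp]
  rw [Real.sqrt_eq_rpow, mul_comm]
  congr 2
  ring

lemma eventually_good {c₀ C₀ C₁ r a : ℝ} (hη : 60000 * (C₀ / c₀ + 1.1 * (C₁ / c₀)) * (1 / a) ≤ 1 / 1000) :
    ∀ᶠ m : ℕ in atTop, LData.Good c₀ C₀ C₁ r m a := by
  have hs : Tendsto (fun m : ℕ => Real.sqrt m) atTop atTop :=
    Real.tendsto_sqrt_atTop.comp tendsto_natCast_atTop_atTop
  have h1 : Tendsto (fun m : ℕ => 60000 * (C₀ / c₀ + 1.1 * (C₁ / c₀)) * (1 / Real.sqrt m)) atTop (𝓝 0) := by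
    have := (hs.inv_tendsto_atTop).const_mul (60000 * (C₀ / c₀ + 1.1 * (C₁ / c₀)))
    simpa [one_div] using this
  have h2 : Tendsto (fun m : ℕ => Real.exp (-(0.7 * m))) atTop (𝓝 0) := by
    apply Real.tendsto_exp_neg_atTop_nhds_zero.comp
    exact (tendsto_natCast_atTop_atTop).const_mul_atTop (by norm_num)
  have h3 : Tendsto (fun m : ℕ => 6600 * (C₀ / c₀) * (1 + 1 / r) *
      (Real.exp (-(0.49 * m)) * Real.sqrt m)) atTop (𝓝 0) := by
    have := (tendsto_exp_sqrt (b := 0.49) (by norm_num)).const_mul (6600 * (C₀ / c₀) * (1 + 1 / r))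
    simpa using this
  have h4 : Tendsto (fun m : ℕ => 41 / Real.sqrt m) atTop (𝓝 0) := hs.const_div_atTop 41
  filter_upwards [h1.eventually (ge_mem_nhds (by norm_num : (0:ℝ) < 1 / 1000)),
    h2.eventually (ge_mem_nhds (by norm_num : (0:ℝ) < 1 / 200)),
    h3.eventually (ge_mem_nhds (by norm_num : (0:ℝ) < 1 / 100)),
    h4.eventually (ge_mem_nhds (by norm_num : (0:ℝ) < 1 / 120))] with m e1 e2 e3 e4
  refine ⟨?_, e2, ?_, e4⟩
  · unfold LData.eta
    rw [mul_add]
    linarith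
  · calc _ = 6600 * (C₀ / c₀) * (1 + 1 / r) * (Real.exp (-(0.49 * m)) * Real.sqrt m) := by ring
      _ ≤ _ := e3

/-- all largeness conditions on `m` -/
structure Large (c₀ C₀ C₁ ε a : ℝ) (m : ℕ) : Prop where
  good : LData.Good c₀ C₀ C₁ (ε / 2) m a
  small : (C₀ / c₀) * Real.exp 80 * Real.exp (-(0.3 * ε * m)) * Real.sqrt m < ε / 2
  big : 500 * Real.exp (2 * a) ≤ m
  pos : 1 ≤ m

lemma eventually_large {c₀ C₀ C₁ ε a : ℝ} (hε : 0 < ε)
    (hη : 60000 * (C₀ / c₀ + 1.1 * (C₁ / c₀)) * (1 / a) ≤ 1 / 1000) :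
    ∀ᶠ m : ℕ in atTop, Large c₀ C₀ C₁ ε a m := by
  have h1 : Tendsto (fun m : ℕ => (C₀ / c₀) * Real.exp 80 *
      (Real.exp (-(0.3 * ε * m)) * Real.sqrt m)) atTop (𝓝 0) := by
    have := (tendsto_exp_sqrt (b := 0.3 * ε) (by positivity)).const_mul ((C₀ / c₀) * Real.exp 80)
    simpa using this
  filter_upwards [eventually_good (r := ε / 2) hη,
    h1.eventually (gt_mem_nhds (by positivity : (0:ℝ) < ε / 2)),
    (tendsto_natCast_atTop_atTop (R := ℝ)).eventually_ge_atTop (500 * Real.exp (2 * a)),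
    eventually_ge_atTop 1] with m e1 e2 e3 e4
  refine ⟨e1, ?_, e3, e4⟩
  calc _ = (C₀ / c₀) * Real.exp 80 * (Real.exp (-(0.3 * ε * m)) * Real.sqrt m) := by ring
    _ < _ := e2

variable {θ c₀ C₀ C₁ M : ℝ} {Λ L : ℂ → ℂ} {w : ℂ} {m : ℕ} {a ε : ℝ}

lemma exists_sad (hM : 1 / 2 ≤ M) (ha : 100 ≤ a) (hm : Large c₀ C₀ C₁ ε a m) (y : ℝ) {x : ℝ}
    (hx : |x| ≤ 1) : ∃ l : ℂ, Sad M m a (1 + y * I + x) l := by
  have hx' := abs_le.1 hx
  obtain ⟨l, h1, h2, h3⟩ := saddle_exists (a := a) (by linarith) hM hm.big (s₀ := 1 + y * I + x)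
    (by simp; linarith) (by simp; linarith)
  refine ⟨l, ⟨hm.pos, ha, h1, h2⟩, by simp; linarith, by simp; linarith, ?_⟩
  rw [h3]; simp

/-- lower bound of the radius -/
lemma radius_ge (hM : 1 / 2 ≤ M) {y x c : ℝ} {l : ℂ} (hx : |x| ≤ 1)
    (h : Sad M m a (1 + y * I + x) l)
    (hm : c * (Real.log (M * (2 + |y|)) + 3) ≤ m) : 3 ≤ RR m l ∨ c ≤ RR m l := by
  by_contra hcon
  push Not at hcon
  obtain ⟨h3, hc⟩ := hcon
  have hx' := abs_le.1 hx
  have hR := h.toSP.R_pos
  have hM0 : 0 < M := by linarith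
  have hy := abs_nonneg y
  have hlog : 0 ≤ Real.log (M * (2 + |y|)) := by
    apply Real.log_nonneg; nlinarith
  have h1 : Real.exp l.re ≤ M * (2 + |y|) * (5 / 2) := by
    rw [← Complex.norm_exp, h.heq, norm_mul, Complex.norm_real, Real.norm_eq_abs, abs_of_pos hM0]
    have h4 : ‖(1 + y * I + x : ℂ) + m / l‖ ≤ (2 + |y|) + 3 := by
      refine (norm_add_le _ _).trans ?_
      rw [norm_m_div]
      have h5 : ‖(1 + y * I + x : ℂ)‖ ≤ 2 + |y| := by
        have e : (1 + y * I + x : ℂ) = ((1 + x : ℝ) : ℂ) + (y : ℝ) * I := by push_cast; ring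
        rw [e]
        refine (norm_add_le _ _).trans ?_
        rw [norm_mul, Complex.norm_I, Complex.norm_real, Complex.norm_real, mul_one,
          Real.norm_eq_abs, Real.norm_eq_abs, abs_of_nonneg (by linarith)]
        linarith
      linarith
    calc M * ‖(1 + y * I + x : ℂ) + m / l‖ ≤ M * ((2 + |y|) + 3) := by gcongr
      _ ≤ M * ((2 + |y|) * (5 / 2)) := by gcongr; linarith
      _ = _ := by ring
  have h2 : l.re ≤ Real.log (M * (2 + |y|)) + 1 := by
    have h6 : l.re ≤ Real.log (M * (2 + |y|) * (5 / 2)) := by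
      rw [Real.le_log_iff_exp_le (by positivity)]; exact h1
    rw [Real.log_mul (by positivity) (by norm_num)] at h6
    have h7 : Real.log (5 / 2) ≤ 1 := by
      rw [Real.log_le_iff_le_exp (by norm_num)]
      have := Real.exp_one_gt_d9; linarith
    linarith
  have h8 : ‖l‖ ≤ Real.log (M * (2 + |y|)) + 3 := by
    have h9 := Complex.norm_le_abs_re_add_abs_im l
    have h10 : |l.re| = l.re := abs_of_nonneg (by have := h.toSP.hre; have := h.toSP.ha; linarith)
    have h11 := h.toSP.him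
    have := Real.pi_lt_d2
    rw [h10] at h9
    linarith
  have h12 := h.toSP.R_mul
  have h13 : (m : ℝ) ≤ RR m l * (Real.log (M * (2 + |y|)) + 3) := by
    rw [← h12]; gcongr
  have h14 : RR m l * (Real.log (M * (2 + |y|)) + 3) < c * (Real.log (M * (2 + |y|)) + 3) := by
    gcongr
  linarith

lemma norm_eq_of_zero (D : LData θ c₀ C₀ C₁ M Λ L w) (m : ℕ) {y x H : ℝ} (hH : 0 < H) (hx : |x| ≤ 1)
    (h0 : iteratedDeriv m Λ (1 + y * I + x) = 0) :
    AA Λ m y H 4 (1 + y * I + x) = -(w * (-1) ^ m * conj (AA Λ m y H 4 (1 + y * I + (-x : ℝ)))) := by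
  have hx' := abs_le.1 hx
  have h := split D m (s₀ := 1 + y * I + x) (y := y) (H := H) (c := 4) (by simp; linarith)
    (by simp; linarith) (by simp; linarith) (by norm_num) (by simp; linarith)
  rw [h0, zero_div] at h
  have e : (2 : ℂ) - conj (1 + y * I + x) = 1 + y * I + (-x : ℝ) := by
    simp only [map_add, map_mul, map_one, Complex.conj_I, Complex.conj_ofReal]
    push_cast; ring
  rw [e] at h
  linear_combination -h

/-- The main theorem on zeros of derivatives. -/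
theorem LData.zeros (D : LData θ c₀ C₀ C₁ M Λ L w) (hε0 : 0 < ε) (hε1 : ε ≤ 1) (ha : 100 ≤ a)
    (haε : 100 / ε ≤ a) (hm : Large c₀ C₀ C₁ ε a m) {x y : ℝ} (hx1 : |x| ≤ 1)
    (hxθ : |x| ≤ θ + 3 * ε) (hmx : (θ + 4 * ε - |x|) * (Real.log (M * (2 + |y|)) + 3) ≤ m)
    (h0 : iteratedDeriv m Λ (1 + y * I + x) = 0) :
    x = 0 ∧ iteratedDeriv (m + 1) Λ (1 + y * I + x) ≠ 0 := by
  have hM := D.hM
  have hM0 := D.M_pos
  have hθ0 := D.hθ0
  have hθ1 := D.hθ1
  have hx' := abs_le.1 hx1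
  have hax : 0 < 3 / a := by positivity
  have h3a : 3 / a ≤ 0.03 * ε := by
    rw [div_le_iff₀ (by linarith)]
    rw [div_le_iff₀ hε0] at haε
    nlinarith
  have h9a : 10 / a ^ 2 ≤ 0.01 * ε := by
    have h1 : 10 / a ^ 2 = (3 / a) * (10 / (3 * a)) := by field_simp
    have h2 : 10 / (3 * a) ≤ 1 / 30 := by
      rw [div_le_div_iff₀ (by positivity) (by norm_num)]; linarith
    rw [h1]
    calc (3 / a) * (10 / (3 * a)) ≤ (0.03 * ε) * (1 / 30) := by gcongr
      _ ≤ _ := by linarith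
  have h3a2 : 3 / a ^ 2 ≤ 0.001 := by
    rw [div_le_iff₀ (by positivity)]
    nlinarith
  have hre : ∀ t : ℝ, (1 + y * I + t : ℂ).re = 1 + t := by intro t; simp
  have him : ∀ t : ℝ, (1 + y * I + t : ℂ).im = y := by intro t; simp
  -- the saddle points
  have hsadex : ∀ t : ℝ, ∃ l : ℂ, |t| ≤ 1 → Sad M m a (1 + y * I + t) l := by
    intro t
    by_cases ht : |t| ≤ 1
    · obtain ⟨l, hl⟩ := exists_sad hM ha hm y ht
      exact ⟨l, fun _ => hl⟩
    · exact ⟨0, fun h => absurd h ht⟩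
  choose lf hlf using hsadex
  have hxx : |(|x|)| ≤ 1 := by rwa [abs_abs]
  have hS := hlf |x| hxx
  set R := RR m (lf |x|) with hR
  have hRge := radius_ge hM (x := |x|) hxx hS hmx
  rw [← hR] at hRge
  have hRε : ε ≤ R := by
    rcases hRge with h | h <;> linarith
  have hR0 : 0 < R := by linarith
  have hH0 : 0 < 1.9 * R := by linarith
  -- comparison of the radii
  have hcomp : ∀ t : ℝ, |t| ≤ |x| → |RR m (lf t) - R| ≤ 0.03 * ε := by
    intro t ht
    have h1 := Sad.RR_sub hM0 (hlf t (ht.trans hx1)) hS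
    have h2 : ‖(1 + y * I + t : ℂ) - (1 + y * I + (|x| : ℝ))‖ ≤ 2 := by
      have e : (1 + y * I + t : ℂ) - (1 + y * I + (|x| : ℝ)) = ((t - |x| : ℝ) : ℂ) := by
        push_cast; ring
      rw [e, Complex.norm_real, Real.norm_eq_abs, abs_le]
      have := abs_le.1 ht
      constructor <;> linarith
    refine h1.trans ?_
    calc 1.02 * ‖(1 + y * I + t : ℂ) - (1 + y * I + (|x| : ℝ))‖ / a ≤ 1.02 * 2 / a := by gcongr
      _ ≤ 3 / a := by gcongr; norm_num
      _ ≤ _ := h3a
  -- real part of the saddle point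
  have hrep : ∀ t : ℝ, |t| ≤ 1 → ∀ b : ℝ, (3 ≤ RR m (lf t) ∧ b ≤ 2) ∨ b + 0.01 * ε ≤ RR m (lf t) ∧ RR m (lf t) ≤ 3.1 →
      b ≤ ((m : ℂ) / lf t).re := by
    intro t ht b hb
    have h1 := (hlf t ht).toSP.re_div_ge'
    rcases hb with ⟨h2, h3⟩ | ⟨h2, h3⟩
    · nlinarith
    · have h4 : 3 / a ^ 2 * RR m (lf t) ≤ 0.01 * ε := by
        calc 3 / a ^ 2 * RR m (lf t) ≤ 3 / a ^ 2 * (10 / 3) := by gcongr; linarith
          _ = 10 / a ^ 2 := by ring
          _ ≤ _ := h9a
      linarith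
  -- Case I
  have caseI : (3 ≤ R ∨ θ + |x| + ε ≤ R) → ∀ t : ℝ, |t| ≤ |x| →
      1 + θ ≤ ((1 + y * I + t : ℂ) + m / lf t).re := by
    intro hc t ht
    rw [Complex.add_re, hre]
    have h1 := abs_le.1 ht
    have h2 := abs_le.1 (hcomp t ht)
    suffices h : θ + |x| ≤ ((m : ℂ) / lf t).re by linarith
    apply hrep t (ht.trans hx1)
    rcases le_or_gt 3 (RR m (lf t)) with h3 | h3
    · left; exact ⟨h3, by linarith⟩
    · right
      refine ⟨?_, by linarith⟩
      rcases hc with h4 | h4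
      · linarith
      · linarith
  have hmono : (3 ≤ R ∨ θ + |x| + ε ≤ R) →
      StrictMonoOn (fun t : ℝ => ‖AA Λ m y (1.9 * R) 4 (1 + y * I + t)‖ ^ 2) (Icc (-|x|) |x|) := by
    intro hc
    have hc' := caseI hc
    refine D.mono (r := ε / 2) (a := a) (by linarith) hH0 lf (by positivity) ?_ ?_ ?_ ?_ ?_ hm.good
    · intro t ht
      exact hlf t ((abs_le.2 ht).trans hx1)
    · intro t ht
      exact hc' t (abs_le.2 ht)
    · intro t ht
      have := abs_le.1 (hcomp t (abs_le.2 ht))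
      linarith
    · intro t ht
      have := abs_le.1 (hcomp t (abs_le.2 ht))
      linarith
    · intro t ht
      have := abs_le.1 (hcomp t (abs_le.2 ht))
      linarith
  -- the reflection
  have hrefl : ‖AA Λ m y (1.9 * R) 4 (1 + y * I + (|x| : ℝ))‖
      = ‖AA Λ m y (1.9 * R) 4 (1 + y * I + (-|x| : ℝ))‖ := by
    have h1 := norm_eq_of_zero D m (H := 1.9 * R) hH0 hx1 h0
    have h2 : ‖AA Λ m y (1.9 * R) 4 (1 + y * I + x)‖
        = ‖AA Λ m y (1.9 * R) 4 (1 + y * I + (-x : ℝ))‖ := by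
      rw [h1, norm_neg, norm_mul, norm_mul, D.norm_w, norm_pow, norm_neg, norm_one, one_pow,
        RCLike.norm_conj]
      ring
    rcases abs_choice x with h | h
    · rw [h]; exact h2
    · rw [h, neg_neg]; exact h2.symm
  rcases eq_or_ne x 0 with hx0 | hx0
  · refine ⟨hx0, ?_⟩
    subst hx0
    intro h1
    rw [abs_zero] at hR
    have hc : (3 ≤ R ∨ θ + |(0:ℝ)| + ε ≤ R) := by
      rcases hRge with h | h
      · left; exact h
      · right; rw [abs_zero] at h ⊢; linarith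
    have hs := caseI hc 0 (by simp)
    have hp := D.point (hlf 0 (by simp)) hs (H := 1.9 * R) (r := ε / 2) (c := 4)
      (by rw [← hR]; linarith) (by rw [← hR]; linarith) (by positivity) (by rw [← hR]; linarith)
      hm.good (by rw [hre]; norm_num)
    rw [him] at hp
    obtain ⟨-, h2, h3⟩ := hp
    have e0 := norm_eq_of_zero D m (H := 1.9 * R) hH0 hx1 h0
    have e1 := norm_eq_of_zero D (m + 1) (H := 1.9 * R) hH0 hx1 h1
    rw [neg_zero] at e0 e1
    set A := AA Λ m y (1.9 * R) 4 (1 + y * I + (0 : ℝ))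
    set A' := AA Λ (m + 1) y (1.9 * R) 4 (1 + y * I + (0 : ℝ))
    have hw : w * (-1) ^ m ≠ 0 := by
      intro h4
      have h5 := congrArg norm h4
      rw [norm_mul, D.norm_w, norm_pow, norm_neg, norm_one, one_pow, norm_zero] at h5
      norm_num at h5
    have hcA : conj A ≠ 0 := by simpa using h3
    have hw0 : w ≠ 0 := left_ne_zero_of_mul hw
    have e2 : A' / A = -conj (A' / A) := by
      rw [map_div₀]
      have e3 : A' / A = (-(w * (-1) ^ (m + 1) * conj A')) / (-(w * (-1) ^ m * conj A)) := by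
        rw [← e0, ← e1]
      rw [e3, pow_succ]
      field_simp
    have e4 := congrArg Complex.re e2
    rw [Complex.neg_re, Complex.conj_re] at e4
    linarith
  · exfalso
    have hxpos : 0 < |x| := abs_pos.2 hx0
    by_cases hc : (3 ≤ R ∨ θ + |x| + ε ≤ R)
    · have h1 := hmono hc (a := -|x|) (b := |x|) ⟨le_rfl, by linarith⟩ ⟨by linarith, le_rfl⟩
        (by linarith)
      simp only at h1
      rw [hrefl] at h1
      exact lt_irrefl _ h1
    · push Not at hc
      obtain ⟨hR3, hR4⟩ := hc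
      have hRx : θ + 4 * ε - |x| ≤ R := by
        rcases hRge with h | h
        · linarith
        · exact h
      have h5 : R - 0.01 * ε ≤ ((m : ℂ) / lf |x|).re := by
        apply hrep |x| hxx
        right
        rw [← hR]
        constructor <;> linarith
      have hδ : ε ≤ ((1 + y * I + (|x| : ℝ) : ℂ) + m / lf |x|).re - 1 - max θ (R - |x|) := by
        rw [Complex.add_re, hre]
        have : max θ (R - |x|) ≤ |x| + ((m : ℂ) / lf |x|).re - ε := by
          apply max_le <;> linarith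
        linarith
      have h6 := D.direct hS (x := |x|) (q := max θ (R - |x|)) (H := 1.9 * R) (r := ε / 2) (c := 4)
        (ε := ε) (hre |x|) hxpos hx1 hR3.le rfl rfl hε0 hδ (by linarith) (by linarith)
        (by positivity) (by linarith) hm.good (by rw [hre]; linarith) hm.small
      rw [him] at h6
      have e : (1 + y * I + (|x| : ℝ) : ℂ) - 2 * (|x| : ℝ) = 1 + y * I + (-|x| : ℝ) := by
        push_cast; ring
      rw [e, hrefl] at h6
      exact lt_irrefl _ h6

end Pool.Agent.H5
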