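import Mathlib
import Pool.Agent.H5.Zeros
import Pool.Agent.H5.GenL

/-!
The theorem on zeros of derivatives for all L-functions with `EulerData`.
-/

set_option autoImplicit false

open Complex MeasureTheory Set Filter Topology

namespace Pool.Agent.H5

theorem EulerData.zeros {ε : ℝ} (hε : 0 < ε) : ∃ K : ℝ, ∀ (c : ℕ → ℤ) (e : ℕ → ℕ) (N w : ℝ)
    (L Λ : ℂ → ℂ), EulerData c e N w L Λ → ∀ (m : ℕ) (s : ℂ), iteratedDeriv m Λ s = 0 →
    |s.re - 1| ≤ 1 / 2 →
    (s.re ≠ 1 → 4 * m + 2 * |s.re - 1| * Real.log (N * (2 + |s.im|) ^ 2)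
      ≤ (1 + ε) * Real.log (N * (2 + |s.im|) ^ 2) + K) ∧
    ((1 + ε) * Real.log (N * (2 + |s.im|) ^ 2) + K ≤ 4 * m →
      s.re = 1 ∧ iteratedDeriv (m + 1) Λ s ≠ 0) := by
  set ε' := min ε 1 with hε'
  have hε'0 : 0 < ε' := by rw [hε']; positivity
  have hε'1 : ε' ≤ 1 := min_le_right _ _
  have hε'ε : ε' ≤ ε := min_le_left _ _
  set ε₁ := ε' / 40 with hε₁
  have hε₁0 : 0 < ε₁ := by positivity
  set θ : ℝ := 1 / 2 + ε₁ with hθ
  set c₀ := Real.exp (-(2 * primeS (1 / 2 + θ))) with hc₀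
  set C₀ := 1 + cC (1 / 2 + θ) with hC₀
  set C₁ := 2 * cC (1 / 2 + (θ + 1 / 2) / 2) / ((θ - 1 / 2) / 2) with hC₁
  set B := C₀ / c₀ + 1.1 * (C₁ / c₀) with hB
  have hc₀0 : 0 < c₀ := Real.exp_pos _
  have hC₀0 : 0 < C₀ := by
    have := cC_nonneg (1 / 2 + θ)
    rw [hC₀]; linarith
  have hC₁0 : 0 ≤ C₁ := by
    have h1 := cC_nonneg (1 / 2 + (θ + 1 / 2) / 2)
    have h2 : 0 < (θ - 1 / 2) / 2 := by rw [hθ]; linarith
    rw [hC₁]; positivity
  have hB0 : 0 < B := by rw [hB]; positivity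
  set a : ℝ := max (max 100 (100 / ε₁)) (60000 * B * 1000) with ha
  have ha1 : 100 ≤ a := (le_max_left _ _).trans (le_max_left _ _)
  have ha2 : 100 / ε₁ ≤ a := (le_max_right _ _).trans (le_max_left _ _)
  have ha3 : 60000 * B * 1000 ≤ a := le_max_right _ _
  have hη : 60000 * (C₀ / c₀ + 1.1 * (C₁ / c₀)) * (1 / a) ≤ 1 / 1000 := by
    rw [← hB, mul_one_div, div_le_div_iff₀ (by linarith) (by norm_num)]
    linarith
  obtain ⟨m₀, hm₀⟩ := eventually_atTop.1 (eventually_large (ε := ε₁) hε₁0 hη)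
  refine ⟨max (12:ℝ) (4 * (m₀:ℝ)), ?_⟩
  intro c e N w L Λ D m s h0 hx
  have D' := D.toLData (θ := θ) (by rw [hθ]; linarith) (by rw [hθ]; linarith)
  rw [← hc₀, ← hC₀, ← hC₁] at D'
  have hN := D.level
  have hN0 : 0 < N := by linarith
  have hy := abs_nonneg s.im
  set X := Real.log (N * (2 + |s.im|) ^ 2) with hX
  have hX0 : 0 ≤ X := by
    apply Real.log_nonneg
    nlinarith
  set x := s.re - 1 with hxdef
  have hs : s = 1 + s.im * I + (x : ℂ) := by
    apply Complex.ext <;> simp [hxdef]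
  have hK12 : (12 : ℝ) ≤ max (12:ℝ) (4 * (m₀:ℝ)) := le_max_left _ _
  have hKm : (4 * m₀ : ℝ) ≤ max (12:ℝ) (4 * (m₀:ℝ)) := le_max_right _ _
  have hlog : Real.log (√N / (2 * Real.pi) * (2 + |s.im|)) ≤ X / 2 := by
    have h1 : X / 2 = Real.log (√N * (2 + |s.im|)) := by
      rw [hX]
      have : N * (2 + |s.im|) ^ 2 = (√N * (2 + |s.im|)) ^ 2 := by
        rw [mul_pow, Real.sq_sqrt hN0.le]
      rw [this, Real.log_pow]
      push_cast; ring
    rw [h1]
    have hpi := Real.pi_gt_three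
    have hsq : 0 < √N := Real.sqrt_pos.2 hN0
    apply Real.log_le_log (by positivity)
    gcongr
    apply div_le_self hsq.le
    linarith
  -- the key implication
  have key : (1 + ε') * X + max (12:ℝ) (4 * (m₀:ℝ)) - 2 * |x| * X ≤ 4 * m →
      x = 0 ∧ iteratedDeriv (m + 1) Λ s ≠ 0 := by
    intro h
    have h2 : 2 * |x| * X ≤ 1 * X := by gcongr; linarith
    have hm : m₀ ≤ m := by
      have h3 : 0 ≤ ε' * X := by positivity
      have : (4 * m₀ : ℝ) ≤ 4 * m := by linarith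
      have : (m₀ : ℝ) ≤ m := by linarith
      exact_mod_cast this
    have hlarge := hm₀ m hm
    have hθx : 0 ≤ θ + 4 * ε₁ - |x| := by rw [hθ]; linarith
    have h4 : (θ + 4 * ε₁ - |x|) * (Real.log (√N / (2 * Real.pi) * (2 + |s.im|)) + 3) ≤ m := by
      have h5 : (θ + 4 * ε₁ - |x|) * (Real.log (√N / (2 * Real.pi) * (2 + |s.im|)) + 3)
          ≤ (θ + 4 * ε₁ - |x|) * (X / 2 + 3) := by gcongr
      refine h5.trans ?_
      have h6 : θ + 4 * ε₁ = 1 / 2 + ε' / 8 := by rw [hθ, hε₁]; ring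
      rw [h6]
      have h7 := abs_nonneg x
      have h8 : 0 ≤ ε' * X := by positivity
      have e1 : (1 / 2 + ε' / 8 - |x|) * (X / 2 + 3)
        = 1 / 4 * (X + ε' * X / 4 - 2 * |x| * X) + 3 * (1 / 2 + ε' / 8 - |x|) := by ring
      rw [e1]
      linarith
    have hz := D'.zeros (ε := ε₁) (a := a) (m := m) (x := x) (y := s.im) hε₁0
      (by rw [hε₁]; linarith) ha1 ha2 hlarge
      (by linarith) (by rw [hθ]; linarith) h4 (by rw [← hs]; exact h0)
    rw [← hs] at hz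
    exact hz
  constructor
  · intro hne
    by_contra hcon
    push Not at hcon
    have h1 : (1 + ε') * X ≤ (1 + ε) * X := by gcongr
    have h2 := (key (by linarith)).1
    apply hne
    linarith
  · intro h
    have h1 : (1 + ε') * X ≤ (1 + ε) * X := by gcongr
    have h3 : 0 ≤ 2 * |x| * X := by positivity
    have h2 := key (by linarith)
    exact ⟨by linarith [h2.1], h2.2⟩

end Pool.Agent.H5
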