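import Mathlib

/-!
Real-rooted polynomials under differential operators of order two.
-/

set_option autoImplicit false

open Polynomial Finset
open scoped ComplexConjugate

namespace Pool.Agent.H5

/-- The real inequality behind the lemma. -/
lemma key_real {n : ℕ} (hn : 2 ≤ n) {D : ℝ} (hD : (n : ℝ) ≤ D) (a b : Fin n → ℝ) (hb : ∀ i, 0 < b i)
    {p q : ℝ} (hq : 0 < q) (hpq : (D - 1) * q ≤ D * p ^ 2)
    (him : p * ∑ i, b i = q * ((∑ i, a i) * (∑ i, b i) - ∑ i, a i * b i))
    (hre : 1 - 2 * p * (∑ i, a i) + q * ((∑ i, a i) ^ 2 - (∑ i, b i) ^ 2 - ∑ i, a i ^ 2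
      + ∑ i, b i ^ 2) = 0) : False := by
  have hn0 : 0 < n := by omega
  have hne : (Finset.univ : Finset (Fin n)).Nonempty := ⟨⟨0, hn0⟩, mem_univ _⟩
  set A := ∑ i, a i with hA
  set B := ∑ i, b i with hB
  set C := ∑ i, a i * b i with hC
  set A2 := ∑ i, a i ^ 2 with hA2
  set B2 := ∑ i, b i ^ 2 with hB2
  have hB0 : 0 < B := Finset.sum_pos (fun i _ => hb i) hne
  set m := C / B with hm
  have hp : p = q * (A - m) := by
    rw [hm]; field_simp; linarith
  -- `b i < B`
  have hbB : ∀ i, b i < B := by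
    intro i
    obtain ⟨j, hj⟩ : ∃ j : Fin n, j ≠ i := by
      have : Nontrivial (Fin n) := Fin.nontrivial_iff_two_le.2 hn
      exact exists_ne i
    have h1 : b i + b j ≤ B := by
      rw [hB, ← Finset.add_sum_erase _ _ (mem_univ i)]
      gcongr
      exact Finset.single_le_sum (f := b) (fun k _ => (hb k).le) (by simp [hj])
    linarith [hb j]
  have hBB : B2 < B ^ 2 := by
    have h1 : B ^ 2 = ∑ i, b i * B := by rw [← Finset.sum_mul]; ring
    rw [h1, hB2]
    apply Finset.sum_lt_sum_of_nonempty hne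
    intro i _
    have := hbB i
    have := hb i
    nlinarith
  set E := (∑ i, b i * a i ^ 2) / B with hE
  -- Cauchy-Schwarz, first
  have cs1 : m ^ 2 ≤ E := by
    have h1 := Finset.sum_sq_le_sum_mul_sum_of_sq_le_mul (Finset.univ : Finset (Fin n))
      (r := fun i => a i * b i) (f := fun i => b i) (g := fun i => b i * a i ^ 2)
      (fun i _ => (hb i).le) (fun i _ => by have := hb i; positivity) (fun i _ => le_of_eq (by ring))
    rw [hm, hE, div_pow, div_le_div_iff₀ (by positivity) hB0]
    rw [← hC, ← hB] at h1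
    nlinarith
  -- Cauchy-Schwarz, second
  have cs2 : (A - m) ^ 2 ≤ (n - 1) * (A2 - E) := by
    have h1 := Finset.sum_sq_le_sum_mul_sum_of_sq_le_mul (Finset.univ : Finset (Fin n))
      (r := fun i => (1 - b i / B) * a i) (f := fun i => 1 - b i / B)
      (g := fun i => (1 - b i / B) * a i ^ 2)
      (fun i _ => by
        have := hbB i
        rw [sub_nonneg, div_le_one hB0]; exact this.le)
      (fun i _ => by
        have := hbB i
        have h2 : 0 ≤ 1 - b i / B := by rw [sub_nonneg, div_le_one hB0]; exact this.le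
        positivity) (fun i _ => le_of_eq (by ring))
    have e1 : ∑ i, (1 - b i / B) * a i = A - m := by
      have : ∀ i, (1 - b i / B) * a i = a i - a i * b i / B := fun i => by ring
      rw [Finset.sum_congr rfl (fun i _ => this i), Finset.sum_sub_distrib, ← Finset.sum_div]
    have e2 : ∑ i, (1 - b i / B) = n - 1 := by
      rw [Finset.sum_sub_distrib, ← Finset.sum_div, ← hB, div_self hB0.ne']
      simp
    have e3 : ∑ i, (1 - b i / B) * a i ^ 2 = A2 - E := by
      have : ∀ i, (1 - b i / B) * a i ^ 2 = a i ^ 2 - b i * a i ^ 2 / B := fun i => by ring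
      rw [Finset.sum_congr rfl (fun i _ => this i), Finset.sum_sub_distrib, ← Finset.sum_div]
    rw [e1, e2, e3] at h1
    exact h1
  -- conclusion
  set T := B ^ 2 - B2 + A2 - m ^ 2 with hT
  have h1 : 1 = q * ((A - m) ^ 2 + T) := by
    rw [hp] at hre
    rw [hT]
    linarith
  have h2 : (D - 1) * q ≤ D * (q ^ 2 * (A - m) ^ 2) := by
    rw [hp] at hpq; linarith
  have h3 : D - 1 ≤ D * q * (A - m) ^ 2 := by
    have : (D - 1) * q ≤ (D * q * (A - m) ^ 2) * q := by linarith
    exact le_of_mul_le_mul_right this hq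
  have h4 : (D - 1) * T ≤ (A - m) ^ 2 := by
    have h5 : (D - 1) * 1 = (D - 1) * (q * ((A - m) ^ 2 + T)) := by rw [← h1]
    have h6 : (D - 1) * ((A - m) ^ 2 + T) * q ≤ D * (A - m) ^ 2 * q := by linarith
    have := le_of_mul_le_mul_right h6 hq
    linarith
  have hn2 : (2 : ℝ) ≤ n := by exact_mod_cast hn
  have h7 : A2 - E < T := by rw [hT]; linarith
  have h8 : 0 ≤ A2 - E := by
    by_contra h
    push Not at h
    nlinarith [sq_nonneg (A - m)]
  have h9 : (n - 1) * (A2 - E) < (n - 1) * T := by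
    have : (0:ℝ) < n - 1 := by linarith
    gcongr
  have h10 : ((n:ℝ) - 1) * T ≤ (D - 1) * T := by
    have : 0 ≤ T := by linarith
    gcongr
  linarith

/-- a polynomial with only real zeros -/
def Hyp (g : ℂ[X]) : Prop := g ≠ 0 ∧ ∀ z : ℂ, g.eval z = 0 → z.im = 0

lemma Hyp.exists_prod {g : ℂ[X]} (h : Hyp g) : ∃ (x : Fin g.natDegree → ℝ) (a : ℂ), a ≠ 0 ∧
    g = C a * ∏ i, (X - C (x i : ℂ)) := by
  obtain ⟨h0, hr⟩ := h
  have hs : g.Splits := IsAlgClosed.splits g
  have hcard : g.roots.card = g.natDegree := hs.natDegree_eq_card_roots.symm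
  have hprod := hs.eq_prod_roots
  obtain ⟨l, hl⟩ := Quot.exists_rep g.roots
  have hl' : (l : Multiset ℂ) = g.roots := hl
  have hlen : l.length = g.natDegree := by
    rw [← hcard, ← hl']; simp
  refine ⟨fun i => (l.get (Fin.cast hlen.symm i)).re, g.leadingCoeff, leadingCoeff_ne_zero.2 h0, ?_⟩
  conv_lhs => rw [hprod, ← hl']
  congr 1
  rw [Multiset.map_coe, Multiset.prod_coe]
  have hreal : ∀ y ∈ l, ((y.re : ℝ) : ℂ) = y := by
    intro y hy
    have hy' : y ∈ g.roots := by rw [← hl']; exact hy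
    have h1 := hr y ((mem_roots h0).1 hy')
    apply Complex.ext <;> simp [h1]
  rw [← Fin.prod_univ_getElem]
  simp only [List.getElem_map]
  have hlen2 : (List.map (fun a => X - C a) l).length = g.natDegree := by simpa using hlen
  rw [← Fin.prod_congr' _ hlen2]
  apply Finset.prod_congr rfl
  intro i _
  have h2 := hreal _ (List.getElem_mem (l := l) (n := i.1) (by have := i.2; omega))
  simp [h2]

lemma eval_deriv_prod {ι : Type*} (s : Finset ι) (x : ι → ℂ) (z : ℂ) (hz : ∀ i ∈ s, z ≠ x i) :
    (derivative (∏ i ∈ s, (X - C (x i)))).eval z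
      = (∏ i ∈ s, (X - C (x i))).eval z * ∑ i ∈ s, (z - x i)⁻¹ ∧
    (derivative (derivative (∏ i ∈ s, (X - C (x i))))).eval z
      = (∏ i ∈ s, (X - C (x i))).eval z * ((∑ i ∈ s, (z - x i)⁻¹) ^ 2 - ∑ i ∈ s, ((z - x i)⁻¹) ^ 2) := by
  classical
  induction s using Finset.induction_on with
  | empty => simp
  | insert j s hj ih =>
    have hzj : z - x j ≠ 0 := sub_ne_zero.2 (hz j (mem_insert_self _ _))
    obtain ⟨h1, h2⟩ := ih (fun i hi => hz i (mem_insert_of_mem hi))
    rw [Finset.prod_insert hj, Finset.sum_insert hj, Finset.sum_insert hj]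
    set P := ∏ i ∈ s, (X - C (x i)) with hP
    have e1 : derivative ((X - C (x j)) * P) = P + (X - C (x j)) * derivative P := by
      simp [derivative_mul]
    have e2 : derivative (derivative ((X - C (x j)) * P))
        = 2 * derivative P + (X - C (x j)) * derivative (derivative P) := by
      rw [e1, derivative_add, derivative_mul, derivative_sub, derivative_X, derivative_C]
      ring
    rw [e2, e1]
    simp only [eval_add, eval_mul, eval_sub, eval_X, eval_C, h1, h2, eval_ofNat]
    constructor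
    · field_simp
    · field_simp
      ring

lemma inv_re_im {z : ℂ} {x : ℝ} (hz : 0 < z.im) :
    0 < -((z - x)⁻¹).im ∧ z ≠ x := by
  have hne : z ≠ x := by
    intro h
    rw [h] at hz
    simp at hz
  refine ⟨?_, hne⟩
  rw [Complex.inv_im]
  have h1 : 0 < Complex.normSq (z - x) := Complex.normSq_pos.2 (sub_ne_zero.2 hne)
  have h2 : (z - x).im = z.im := by simp
  rw [h2]
  rw [neg_div, neg_neg]
  positivity

/-- the second order operator does not vanish in the upper half plane -/
lemma op_ne_zero {n : ℕ} {D : ℝ} (hD : (n : ℝ) ≤ D) (x : Fin n → ℝ)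
    {p q : ℝ} (hq : 0 < q) (hpq : (D - 1) * q ≤ D * p ^ 2) {z : ℂ} (hz : 0 < z.im) :
    (1 : ℂ) - 2 * p * (∑ i, (z - x i)⁻¹)
      + q * ((∑ i, (z - x i)⁻¹) ^ 2 - ∑ i, ((z - x i)⁻¹) ^ 2) ≠ 0 := by
  set a : Fin n → ℝ := fun i => ((z - x i)⁻¹).re with ha
  set b : Fin n → ℝ := fun i => -((z - x i)⁻¹).im with hb
  have hb0 : ∀ i, 0 < b i := fun i => (inv_re_im hz).1
  have hw : ∀ i, (z - x i)⁻¹ = (a i : ℂ) - b i * Complex.I := by
    intro i
    apply Complex.ext <;> simp [ha, hb]
  have hS1 : ∑ i, (z - x i)⁻¹ = ((∑ i, a i : ℝ) : ℂ) - ((∑ i, b i : ℝ) : ℂ) * Complex.I := by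
    rw [Finset.sum_congr rfl (fun i _ => hw i), Finset.sum_sub_distrib, ← Finset.sum_mul]
    push_cast; rfl
  have hS2 : ∑ i, ((z - x i)⁻¹) ^ 2 = ((∑ i, a i ^ 2 - ∑ i, b i ^ 2 : ℝ) : ℂ)
      - ((2 * ∑ i, a i * b i : ℝ) : ℂ) * Complex.I := by
    have : ∀ i, ((z - x i)⁻¹) ^ 2 = ((a i ^ 2 - b i ^ 2 : ℝ) : ℂ) - ((2 * (a i * b i) : ℝ) : ℂ) * Complex.I := by
      intro i
      rw [hw i]
      push_cast
      linear_combination (b i : ℂ) ^ 2 * Complex.I_sq
    rw [Finset.sum_congr rfl (fun i _ => this i), Finset.sum_sub_distrib, ← Finset.sum_mul,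
      Finset.mul_sum, ← Finset.sum_sub_distrib]
    push_cast; rfl
  intro h0
  rw [hS1, hS2] at h0
  have hre := congrArg Complex.re h0
  have him := congrArg Complex.im h0
  simp only [pow_two, Complex.add_re, Complex.sub_re, Complex.mul_re, Complex.ofReal_re,
    Complex.ofReal_im, Complex.I_re, Complex.I_im, Complex.one_re, Complex.add_im, Complex.sub_im,
    Complex.mul_im, Complex.one_im, Complex.zero_re, Complex.zero_im, Complex.re_ofNat,
    Complex.im_ofNat] at hre him
  rcases Nat.lt_or_ge n 2 with hn | hn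
  · interval_cases n
    · simp at hre
    · simp only [Finset.univ_unique, Fin.default_eq_zero, Fin.isValue, Finset.sum_singleton] at hre him
      have hb1 := hb0 0
      have hp : p = 0 := by
        have : 2 * p * b 0 = 0 := by linarith
        rcases mul_eq_zero.1 this with h | h
        · linarith
        · linarith
      rw [hp] at hre
      linarith
  · exact key_real hn hD a b hb0 hq hpq (by linarith) (by simp only [pow_two]; linarith)

lemma eval_conj_of_real {g : ℂ[X]} (hg : ∀ k, (g.coeff k).im = 0) (z : ℂ) :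
    g.eval (conj z) = conj (g.eval z) := by
  rw [eval_eq_sum_range, eval_eq_sum_range, map_sum]
  apply Finset.sum_congr rfl
  intro k _
  rw [map_mul, map_pow]
  congr 1
  exact (Complex.conj_eq_iff_im.2 (hg k)).symm

lemma Hyp.congr_im {g : ℂ[X]} (h : Hyp g) : ∀ z : ℂ, z.im ≠ 0 → g.eval z ≠ 0 :=
  fun z hz h0 => hz (h.2 z h0)

/-- up to a constant, hyperbolic polynomials commute with conjugation -/
lemma op_poly_ne_zero {n : ℕ} {D : ℝ} (hD : (n : ℝ) ≤ D) (x : Fin n → ℝ) (a : ℂ) (ha : a ≠ 0)
    {p q : ℝ} (hq : 0 < q) (hpq : (D - 1) * q ≤ D * p ^ 2) {z : ℂ} (hz : z.im ≠ 0) :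
    (C a * ∏ i, (X - C (x i : ℂ)) - C (2 * p : ℂ) * derivative (C a * ∏ i, (X - C (x i : ℂ)))
      + C (q : ℂ) * derivative (derivative (C a * ∏ i, (X - C (x i : ℂ))))).eval z ≠ 0 := by
  have hne : ∀ i, z ≠ (x i : ℂ) := by
    intro i h
    apply hz; rw [h]; simp
  obtain ⟨h1, h2⟩ := eval_deriv_prod Finset.univ (fun i => (x i : ℂ)) z (fun i _ => hne i)
  set P := ∏ i, (X - C (x i : ℂ)) with hP
  have hPz : P.eval z ≠ 0 := by
    rw [hP, eval_prod, Finset.prod_ne_zero_iff]
    intro i _
    simp only [eval_sub, eval_X, eval_C]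
    exact sub_ne_zero.2 (hne i)
  have e : (C a * P - C (2 * p : ℂ) * derivative (C a * P)
      + C (q : ℂ) * derivative (derivative (C a * P))).eval z
      = a * P.eval z * ((1 : ℂ) - 2 * p * (∑ i, (z - x i)⁻¹)
      + q * ((∑ i, (z - x i)⁻¹) ^ 2 - ∑ i, ((z - x i)⁻¹) ^ 2)) := by
    simp only [derivative_C_mul, eval_add, eval_sub, eval_mul, eval_C, h1, h2]
    ring
  rw [e]
  apply mul_ne_zero (mul_ne_zero ha hPz)
  rcases lt_or_gt_of_ne hz with h | h
  · have hz' : 0 < (conj z).im := by simp; linarith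
    have h3 := op_ne_zero hD x hq hpq hz'
    intro h0
    apply h3
    have h4 := congrArg conj h0
    have h5 : conj (2 : ℂ) = 2 := by simpa using Complex.conj_natCast 2
    simpa [h5] using h4
  · exact op_ne_zero hD x hq hpq h

theorem Hyp.op2 {g : ℂ[X]} (h : Hyp g) {D : ℝ} (hD : (g.natDegree : ℝ) ≤ D)
    {p q : ℝ} (hq : 0 < q) (hpq : (D - 1) * q ≤ D * p ^ 2) :
    Hyp (g - C (2 * p : ℂ) * derivative g + C (q : ℂ) * derivative (derivative g)) := by
  obtain ⟨x, a, ha, hg⟩ := h.exists_prod
  have key : ∀ z : ℂ, z.im ≠ 0 →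
      (g - C (2 * p : ℂ) * derivative g + C (q : ℂ) * derivative (derivative g)).eval z ≠ 0 := by
    intro z hz
    have := op_poly_ne_zero hD x a ha hq hpq hz
    rwa [← hg] at this
  constructor
  · intro h0
    apply key Complex.I (by simp)
    rw [h0]; simp
  · intro z hz
    by_contra hcon
    exact key z hcon hz

theorem Hyp.op1 {g : ℂ[X]} (h : Hyp g) (r : ℝ) :
    derivative g - C (r : ℂ) * g = 0 ∨ Hyp (derivative g - C (r : ℂ) * g) := by
  obtain ⟨x, a, ha, hg⟩ := h.exists_prod
  rcases Nat.eq_zero_or_pos g.natDegree with hn | hn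
  · obtain ⟨c, hc⟩ : ∃ c : ℂ, g = C c := ⟨g.coeff 0, eq_C_of_natDegree_eq_zero hn⟩
    have hc0 : c ≠ 0 := by
      intro h0; apply h.1; rw [hc, h0]; simp
    rcases eq_or_ne r 0 with hr | hr
    · left; rw [hc, hr]; simp
    · right
      rw [hc]
      have hrc : (r : ℂ) * c ≠ 0 := mul_ne_zero (by exact_mod_cast hr) hc0
      constructor
      · intro h0
        have := congrArg (eval 0) h0
        simp at this
        rcases this with h1 | h1
        · exact hr h1
        · exact hc0 h1
      · intro z hz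
        simp at hz
        rcases hz with h1 | h1
        · exact absurd h1 hr
        · exact absurd h1 hc0
  · right
    have key : ∀ z : ℂ, z.im ≠ 0 → (derivative g - C (r : ℂ) * g).eval z ≠ 0 := by
      intro z hz
      have hne : ∀ i, z ≠ (x i : ℂ) := by
        intro i h
        apply hz; rw [h]; simp
      obtain ⟨h1, h2⟩ := eval_deriv_prod Finset.univ (fun i => (x i : ℂ)) z (fun i _ => hne i)
      have hPz : (∏ i, (X - C (x i : ℂ))).eval z ≠ 0 := by
        rw [eval_prod, Finset.prod_ne_zero_iff]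
        intro i _
        simp only [eval_sub, eval_X, eval_C]
        exact sub_ne_zero.2 (hne i)
      have e : (derivative g - C (r : ℂ) * g).eval z
          = a * (∏ i, (X - C (x i : ℂ))).eval z * ((∑ i, (z - x i)⁻¹) - r) := by
        conv_lhs => rw [hg]
        simp only [derivative_C_mul, eval_sub, eval_mul, eval_C, h1]
        ring
      rw [e]
      apply mul_ne_zero (mul_ne_zero ha hPz)
      have hne' : (Finset.univ : Finset (Fin g.natDegree)).Nonempty := ⟨⟨0, hn⟩, mem_univ _⟩
      intro h0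
      have him := congrArg Complex.im h0
      simp only [Complex.sub_im, Complex.ofReal_im, sub_zero, Complex.im_sum, Complex.zero_im] at him
      rcases lt_or_gt_of_ne hz with h3 | h3
      · have h4 : 0 < ∑ i, ((z - (x i : ℂ))⁻¹).im := by
          apply Finset.sum_pos _ hne'
          intro i _
          have h5 : 0 < (conj z).im := by simp; linarith
          have h6 := (inv_re_im (x := x i) h5).1
          have h7 : (conj z - (x i : ℂ))⁻¹ = conj ((z - (x i : ℂ))⁻¹) := by simp
          rw [h7, Complex.conj_im, neg_neg] at h6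
          exact h6
        linarith
      · have h4 : 0 < ∑ i, -((z - (x i : ℂ))⁻¹).im := by
          apply Finset.sum_pos _ hne'
          intro i _
          exact (inv_re_im (x := x i) h3).1
        rw [Finset.sum_neg_distrib] at h4
        linarith
    constructor
    · intro h0
      apply key Complex.I (by simp)
      rw [h0]; simp
    · intro z hz
      by_contra hcon
      exact key z hcon hz

end Pool.Agent.H5
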