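import Mathlib
import Pool.Agent.H5.PolyA
import Pool.Agent.H6.SymApprox

/-!
Differential operators attached to real polynomials with few nonreal zeros, and Jensen polynomials.
-/

set_option autoImplicit false

open Polynomial Finset
open scoped ComplexConjugate

namespace Pool.Agent.H5

open Pool.Agent.H6 (SymEntire)

/-- the derivative as an endomorphism -/
noncomputable def dd : Module.End ℂ ℂ[X] := Polynomial.derivative

lemma dd_apply (g : ℂ[X]) : dd g = derivative g := rfl

lemma Hyp.smul {g : ℂ[X]} (h : Hyp g) {a : ℂ} (ha : a ≠ 0) : Hyp (C a * g) := by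
  constructor
  · exact mul_ne_zero (C_ne_zero.2 ha) h.1
  · intro z hz
    rw [eval_mul, eval_C, mul_eq_zero] at hz
    rcases hz with h1 | h1
    · exact absurd h1 ha
    · exact h.2 z h1

lemma map_conj_eq {P : ℂ[X]} (h : ∀ z, P.eval (conj z) = conj (P.eval z)) :
    P.map (starRingEnd ℂ) = P := by
  apply Polynomial.funext
  intro z
  have h1 := Polynomial.eval_map_apply (f := starRingEnd ℂ) (p := P) (x := conj z)
  rw [Complex.conj_conj] at h1
  rw [h1, h z, Complex.conj_conj]

lemma eval_conj_of_map {P : ℂ[X]} (h : P.map (starRingEnd ℂ) = P) (z : ℂ) :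
    P.eval (conj z) = conj (P.eval z) := by
  have h1 := Polynomial.eval_map_apply (f := starRingEnd ℂ) (p := P) (x := z)
  rwa [h] at h1

/-- application of a real polynomial in the derivative -/
theorem Hyp.op {D : ℝ} : ∀ (n : ℕ) (P : ℂ[X]), P.natDegree = n → P ≠ 0 → P.map (starRingEnd ℂ) = P →
    (∀ ρ : ℂ, P.eval ρ = 0 → ρ.im = 0 ∨ (D - 1) * ρ.im ^ 2 ≤ ρ.re ^ 2) →
    ∀ g : ℂ[X], Hyp g → (g.natDegree : ℝ) ≤ D → (aeval dd P g = 0 ∨ Hyp (aeval dd P g)) := by
  intro n
  induction n using Nat.strong_induction_on with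
  | _ n ih =>
    intro P hn hP0 hPr hroots g hg hgD
    rcases Nat.eq_zero_or_pos n with hn0 | hn0
    · obtain ⟨c, hc⟩ : ∃ c : ℂ, P = C c := ⟨P.coeff 0, eq_C_of_natDegree_eq_zero (by omega)⟩
      have hc0 : c ≠ 0 := by
        intro h0; apply hP0; rw [hc, h0]; simp
      right
      rw [hc, aeval_C]
      have : (algebraMap ℂ (Module.End ℂ ℂ[X])) c g = C c * g := by
        rw [Module.algebraMap_end_apply, smul_eq_C_mul]
      rw [this]
      exact hg.smul hc0
    · have hdeg : P.degree ≠ 0 := by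
        intro h
        have := natDegree_eq_of_degree_eq_some (n := 0) (by simpa using h)
        omega
      obtain ⟨ρ, hρ⟩ := IsAlgClosed.exists_root P hdeg
      have hρ' : P.eval ρ = 0 := hρ
      by_cases hre : ρ.im = 0
      · -- real root
        have hρr : ((ρ.re : ℝ) : ℂ) = ρ := by apply Complex.ext <;> simp [hre]
        obtain ⟨Q, hQ⟩ := dvd_iff_isRoot.2 hρ
        have hQ0 : Q ≠ 0 := by rintro rfl; apply hP0; rw [hQ]; simp
        have hQn : Q.natDegree < n := by
          rw [← hn, hQ, natDegree_mul (X_sub_C_ne_zero ρ) hQ0, natDegree_X_sub_C]; omega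
        have hQr : Q.map (starRingEnd ℂ) = Q := by
          have h1 := hPr
          rw [hQ, Polynomial.map_mul, Polynomial.map_sub, map_X, map_C] at h1
          have h2 : (starRingEnd ℂ) ρ = ρ := Complex.conj_eq_iff_im.2 hre
          rw [h2] at h1
          exact mul_left_cancel₀ (X_sub_C_ne_zero ρ) h1
        have hQroots : ∀ σ : ℂ, Q.eval σ = 0 → σ.im = 0 ∨ (D - 1) * σ.im ^ 2 ≤ σ.re ^ 2 := by
          intro σ hσ
          apply hroots
          rw [hQ, eval_mul, hσ, mul_zero]
        have e : aeval dd P g = aeval dd Q (derivative g - C (ρ.re : ℂ) * g) := by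
          rw [hQ, mul_comm, aeval_mul, Module.End.mul_apply]
          congr 1
          rw [map_sub, aeval_X, aeval_C, LinearMap.sub_apply, dd_apply,
            Module.algebraMap_end_apply, smul_eq_C_mul, hρr]
        rw [e]
        rcases hg.op1 ρ.re with h0 | h1
        · left; rw [h0, map_zero]
        · apply ih Q.natDegree hQn Q rfl hQ0 hQr hQroots _ h1
          have h2 : (derivative g - C (ρ.re : ℂ) * g).natDegree ≤ g.natDegree := by
            apply (natDegree_sub_le _ _).trans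
            apply max_le
            · exact (natDegree_derivative_le g).trans (Nat.sub_le _ _)
            · exact natDegree_C_mul_le _ _
          have : ((derivative g - C (ρ.re : ℂ) * g).natDegree : ℝ) ≤ g.natDegree := by exact_mod_cast h2
          linarith
      · -- pair of conjugate roots
        have hρc : P.eval (conj ρ) = 0 := by rw [eval_conj_of_map hPr, hρ', map_zero]
        have hne : conj ρ ≠ ρ := by
          intro h; exact hre (Complex.conj_eq_iff_im.1 h)
        obtain ⟨Q₁, hQ₁⟩ := dvd_iff_isRoot.2 hρ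
        have hQ₁c : Q₁.IsRoot (conj ρ) := by
          rw [hQ₁, eval_mul, eval_sub, eval_X, eval_C, mul_eq_zero] at hρc
          rcases hρc with h | h
          · exact absurd (sub_eq_zero.1 h) hne
          · exact h
        obtain ⟨Q, hQ⟩ := dvd_iff_isRoot.2 hQ₁c
        set F : ℂ[X] := (X - C ρ) * (X - C (conj ρ)) with hF
        have hPF : P = F * Q := by rw [hQ₁, hQ, hF]; ring
        have hF0 : F ≠ 0 := mul_ne_zero (X_sub_C_ne_zero _) (X_sub_C_ne_zero _)
        have hFr : F.map (starRingEnd ℂ) = F := by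
          rw [hF, Polynomial.map_mul, Polynomial.map_sub, Polynomial.map_sub, map_X, map_C, map_C,
            Complex.conj_conj]; ring
        have hQ0 : Q ≠ 0 := by rintro rfl; apply hP0; rw [hPF]; simp
        have hQn : Q.natDegree < n := by
          rw [← hn, hPF, natDegree_mul hF0 hQ0, hF, natDegree_mul (X_sub_C_ne_zero _)
            (X_sub_C_ne_zero _), natDegree_X_sub_C, natDegree_X_sub_C]; omega
        have hQr : Q.map (starRingEnd ℂ) = Q := by
          have h1 := hPr
          rw [hPF, Polynomial.map_mul, hFr] at h1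
          exact mul_left_cancel₀ hF0 h1
        have hQroots : ∀ σ : ℂ, Q.eval σ = 0 → σ.im = 0 ∨ (D - 1) * σ.im ^ 2 ≤ σ.re ^ 2 := by
          intro σ hσ
          apply hroots
          rw [hPF, eval_mul, hσ, mul_zero]
        have hcond : (D - 1) * ρ.im ^ 2 ≤ ρ.re ^ 2 := by
          rcases hroots ρ hρ' with h | h
          · exact absurd h hre
          · exact h
        set N := ρ.re ^ 2 + ρ.im ^ 2 with hN
        have hN0 : 0 < N := by
          have : 0 < ρ.im ^ 2 := by positivity
          rw [hN]; positivity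
        set p := ρ.re / N with hp
        set q := 1 / N with hq
        have hq0 : 0 < q := by rw [hq]; positivity
        have hpq : (D - 1) * q ≤ D * p ^ 2 := by
          rw [hp, hq, div_pow, mul_one_div, mul_div_assoc']
          rw [div_le_div_iff₀ hN0 (by positivity)]
          have : (D - 1) * N ≤ D * ρ.re ^ 2 := by rw [hN]; linarith
          nlinarith
        set g₁ := g - C (2 * p : ℂ) * derivative g + C (q : ℂ) * derivative (derivative g) with hg₁
        have hg₁H : Hyp g₁ := hg.op2 hgD hq0 hpq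
        have e : aeval dd P g = aeval dd Q (C (N : ℂ) * g₁) := by
          rw [hPF, mul_comm, aeval_mul, Module.End.mul_apply]
          congr 1
          have hF2 : F = X ^ 2 - C (2 * (ρ.re : ℂ)) * X + C (N : ℂ) := by
            have h1 : C (conj ρ) + C ρ = C (2 * (ρ.re : ℂ)) := by
              rw [← C_add]; congr 1; apply Complex.ext <;> simp; ring
            have h2 : C ρ * C (conj ρ) = C (N : ℂ) := by
              rw [← C_mul]; congr 1
              rw [Complex.mul_conj, Complex.normSq_apply, hN]; congr 1; ring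
            rw [hF, ← h1, ← h2]; ring
          rw [hF2, map_add, map_sub, map_mul, map_pow, aeval_X, aeval_C, aeval_C]
          rw [LinearMap.add_apply, LinearMap.sub_apply, Module.End.mul_apply,
            Module.algebraMap_end_apply, Module.algebraMap_end_apply, pow_two,
            Module.End.mul_apply, dd_apply, dd_apply, hg₁, smul_eq_C_mul, smul_eq_C_mul]
          have hNc : (N : ℂ) ≠ 0 := by exact_mod_cast hN0.ne'
          have h3 : (N : ℂ) * (2 * (p : ℂ)) = 2 * (ρ.re : ℂ) := by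
            rw [hp]; push_cast; field_simp
          have h4 : (N : ℂ) * (q : ℂ) = 1 := by
            rw [hq]; push_cast; field_simp
          have h5 : C (N : ℂ) * (g - C (2 * p : ℂ) * derivative g + C (q : ℂ) * derivative (derivative g))
              = C (N : ℂ) * g - C ((N : ℂ) * (2 * (p : ℂ))) * derivative g
                + C ((N : ℂ) * (q : ℂ)) * derivative (derivative g) := by
            simp only [C_mul]; ring
          rw [h5, h3, h4, C_1]
          ring
        rw [e]
        have hNc : (N : ℂ) ≠ 0 := by exact_mod_cast hN0.ne'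
        apply ih Q.natDegree hQn Q rfl hQ0 hQr hQroots _ (hg₁H.smul hNc)
        have h2 : (C (N : ℂ) * g₁).natDegree ≤ g.natDegree := by
          refine (natDegree_C_mul_le _ _).trans ?_
          rw [hg₁]
          apply (natDegree_add_le _ _).trans
          apply max_le
          · apply (natDegree_sub_le _ _).trans
            apply max_le le_rfl
            exact (natDegree_C_mul_le _ _).trans ((natDegree_derivative_le g).trans (Nat.sub_le _ _))
          · refine (natDegree_C_mul_le _ _).trans ((natDegree_derivative_le _).trans ?_)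
            exact (Nat.sub_le _ _).trans ((natDegree_derivative_le g).trans (Nat.sub_le _ _))
        have : ((C (N : ℂ) * g₁).natDegree : ℝ) ≤ g.natDegree := by exact_mod_cast h2
        linarith

/-- comparison of the values of a real-rooted polynomial -/
lemma Hyp.ratio {g : ℂ[X]} (h : Hyp g) {D : ℕ} (hD : g.natDegree ≤ D) {z₀ : ℂ} (hz : z₀.im ≠ 0)
    (z₁ : ℂ) : ‖g.eval z₁‖ ≤ (1 + ‖z₁ - z₀‖ / |z₀.im|) ^ D * ‖g.eval z₀‖ := by
  obtain ⟨x, a, ha, hg⟩ := h.exists_prod
  have hz' : 0 < |z₀.im| := abs_pos.2 hz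
  set κ := 1 + ‖z₁ - z₀‖ / |z₀.im| with hκ
  have hκ1 : 1 ≤ κ := by
    have : 0 ≤ ‖z₁ - z₀‖ / |z₀.im| := by positivity
    rw [hκ]; linarith
  have hfac : ∀ i, ‖z₁ - (x i : ℂ)‖ ≤ κ * ‖z₀ - (x i : ℂ)‖ := by
    intro i
    have h1 : |z₀.im| ≤ ‖z₀ - (x i : ℂ)‖ := by
      have := Complex.abs_im_le_norm (z₀ - (x i : ℂ))
      simpa using this
    have h2 : ‖z₁ - (x i : ℂ)‖ ≤ ‖z₁ - z₀‖ + ‖z₀ - (x i : ℂ)‖ := by
      have := norm_add_le (z₁ - z₀) (z₀ - (x i : ℂ))
      rwa [sub_add_sub_cancel] at this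
    have h3 : ‖z₁ - z₀‖ ≤ ‖z₁ - z₀‖ / |z₀.im| * ‖z₀ - (x i : ℂ)‖ := by
      calc ‖z₁ - z₀‖ = ‖z₁ - z₀‖ / |z₀.im| * |z₀.im| := by field_simp
        _ ≤ _ := by gcongr
    rw [hκ, add_mul, one_mul]
    linarith
  have e : ∀ z : ℂ, ‖g.eval z‖ = ‖a‖ * ∏ i, ‖z - (x i : ℂ)‖ := by
    intro z
    conv_lhs => rw [hg]
    rw [eval_mul, eval_C, norm_mul, eval_prod, norm_prod]
    simp
  rw [e, e]
  have h4 : ∏ i, ‖z₁ - (x i : ℂ)‖ ≤ κ ^ D * ∏ i, ‖z₀ - (x i : ℂ)‖ := by
    calc ∏ i, ‖z₁ - (x i : ℂ)‖ ≤ ∏ i, (κ * ‖z₀ - (x i : ℂ)‖) :=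
          Finset.prod_le_prod (fun _ _ => norm_nonneg _) (fun i _ => hfac i)
      _ = κ ^ g.natDegree * ∏ i, ‖z₀ - (x i : ℂ)‖ := by
          rw [Finset.prod_mul_distrib]; simp
      _ ≤ _ := by gcongr
  calc ‖a‖ * ∏ i, ‖z₁ - (x i : ℂ)‖ ≤ ‖a‖ * (κ ^ D * ∏ i, ‖z₀ - (x i : ℂ)‖) := by gcongr
    _ = _ := by ring

/-- The Jensen polynomial of degree `D` of the Taylor series `∑ f^{(j)}(0) z^j / j!`. -/
noncomputable def jensenPoly (f : ℂ → ℂ) (D : ℕ) : ℂ[X] :=
  ∑ j ∈ range (D + 1), C ((D.choose j : ℂ) * iteratedDeriv j f 0) * X ^ j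

/-- the polynomial `∑ c_j ∂^j X^D` -/
noncomputable def GG (c : ℕ → ℂ) (D : ℕ) : ℂ[X] :=
  ∑ j ∈ range (D + 1), C (c j * (D.descFactorial j : ℂ)) * X ^ (D - j)

lemma aeval_dd_X_pow (P : ℂ[X]) (D : ℕ) : aeval dd P (X ^ D) = GG P.coeff D := by
  have h1 : aeval dd P = ∑ j ∈ range (max P.natDegree D + 1), P.coeff j • dd ^ j :=
    aeval_eq_sum_range' (by omega) dd
  rw [h1, LinearMap.sum_apply]
  have h2 : ∀ j, (P.coeff j • dd ^ j) (X ^ D : ℂ[X])
      = C (P.coeff j * (D.descFactorial j : ℂ)) * X ^ (D - j) := by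
    intro j
    rw [LinearMap.smul_apply, Module.End.pow_apply]
    have : (⇑dd)^[j] (X ^ D : ℂ[X]) = derivative^[j] (X ^ D : ℂ[X]) := rfl
    rw [this, iterate_derivative_X_pow_eq_C_mul, smul_eq_C_mul, C_mul, mul_assoc]
  rw [Finset.sum_congr rfl (fun j _ => h2 j)]
  unfold GG
  symm
  apply Finset.sum_subset
  · intro j hj
    rw [mem_range] at hj ⊢
    omega
  · intro j _ hj
    rw [mem_range, not_lt] at hj
    rw [Nat.descFactorial_eq_zero_iff_lt.2 (by omega)]
    simp

lemma natDegree_GG (c : ℕ → ℂ) (D : ℕ) : (GG c D).natDegree ≤ D := by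
  unfold GG
  apply natDegree_sum_le_of_forall_le
  intro j _
  refine (natDegree_C_mul_le _ _).trans ?_
  rw [natDegree_X_pow]; omega

lemma GG_sub (c c' : ℕ → ℂ) {D : ℕ} {δ : ℝ} (h : ∀ j, j ≤ D → ‖c j - c' j‖ ≤ δ) (z : ℂ) :
    ‖(GG c D).eval z - (GG c' D).eval z‖
      ≤ δ * ∑ j ∈ range (D + 1), (D.descFactorial j : ℝ) * ‖z‖ ^ (D - j) := by
  unfold GG
  rw [eval_finsetSum, eval_finsetSum, ← Finset.sum_sub_distrib, Finset.mul_sum]
  refine (norm_sum_le _ _).trans (Finset.sum_le_sum ?_)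
  intro j hj
  rw [mem_range] at hj
  have e : eval z (C (c j * (D.descFactorial j : ℂ)) * X ^ (D - j))
      - eval z (C (c' j * (D.descFactorial j : ℂ)) * X ^ (D - j))
      = (c j - c' j) * ((D.descFactorial j : ℂ) * z ^ (D - j)) := by
    simp only [eval_mul, eval_C, eval_pow, eval_X]; ring
  rw [e, norm_mul, norm_mul, norm_pow, Complex.norm_natCast]
  gcongr
  exact h j (by omega)

lemma coeff_close {f : ℂ → ℂ} (hf : Differentiable ℂ f) {P : ℂ[X]} {δ : ℝ}
    (h : ∀ z, ‖z‖ ≤ 1 → ‖f z - P.eval z‖ ≤ δ) (j : ℕ) :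
    ‖iteratedDeriv j f 0 / (j.factorial : ℂ) - P.coeff j‖ ≤ δ := by
  have hd : Differentiable ℂ (fun z => f z - P.eval z) := hf.sub P.differentiable
  have h1 := Complex.norm_iteratedDeriv_le_of_forall_mem_sphere_norm_le (F := ℂ) (c := (0:ℂ)) (R := 1)
    (C := δ) (f := fun z => f z - P.eval z) j one_pos hd.diffContOnCl (by
      intro z hz
      apply h
      have : ‖z‖ = 1 := by simpa using hz
      exact this.le)
  rw [one_pow, div_one] at h1
  have h2 : iteratedDeriv j (fun z => f z - P.eval z) 0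
      = iteratedDeriv j f 0 - (j.factorial : ℂ) * P.coeff j := by
    have h3 : iteratedDeriv j (fun z => f z - P.eval z) 0
        = iteratedDeriv j f 0 - iteratedDeriv j (fun z => P.eval z) 0 := by
      apply iteratedDeriv_fun_sub
      · exact (hf.contDiff (n := j)).contDiffAt
      · exact (P.differentiable.contDiff (n := j)).contDiffAt
    rw [h3, Pool.Agent.H6.iteratedDeriv_poly]
    simp only
    rw [← coeff_zero_eq_eval_zero, coeff_iterate_derivative, zero_add, Nat.descFactorial_self]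
    simp
  rw [h2] at h1
  have hj : (0:ℝ) < j.factorial := by exact_mod_cast j.factorial_pos
  have hj' : (j.factorial : ℂ) ≠ 0 := by exact_mod_cast j.factorial_ne_zero
  have e : iteratedDeriv j f 0 / (j.factorial : ℂ) - P.coeff j
      = (iteratedDeriv j f 0 - (j.factorial : ℂ) * P.coeff j) / (j.factorial : ℂ) := by
    field_simp
  rw [e, norm_div, Complex.norm_natCast, div_le_iff₀ hj, mul_comm δ]
  exact h1

lemma hyp_X_pow (D : ℕ) : Hyp (X ^ D : ℂ[X]) := by
  constructor
  · exact pow_ne_zero _ X_ne_zero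
  · intro z hz
    rw [eval_pow, eval_X] at hz
    by_cases hD : D = 0
    · subst hD; simp at hz
    · rw [pow_eq_zero_iff hD] at hz
      rw [hz]; simp

lemma jensen_eval (f : ℂ → ℂ) (D : ℕ) {z : ℂ} (hz : z ≠ 0) :
    (jensenPoly f D).eval z
      = z ^ D * (GG (fun j => iteratedDeriv j f 0 / (j.factorial : ℂ)) D).eval z⁻¹ := by
  unfold jensenPoly GG
  rw [eval_finsetSum, eval_finsetSum, Finset.mul_sum]
  apply Finset.sum_congr rfl
  intro j hj
  rw [mem_range] at hj
  simp only [eval_mul, eval_C, eval_pow, eval_X]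
  have hj' : (j.factorial : ℂ) ≠ 0 := by exact_mod_cast j.factorial_ne_zero
  have e1 : (D.descFactorial j : ℂ) = (j.factorial : ℂ) * (D.choose j : ℂ) := by
    rw [Nat.descFactorial_eq_factorial_mul_choose]; push_cast; rfl
  have e2 : z ^ D = z ^ j * z ^ (D - j) := by rw [← pow_add]; congr 1; omega
  rw [e1, e2, inv_pow]
  field_simp

/-- **Jensen polynomials**: if the nonreal zeros of the real entire function `f` are far from the
imaginary axis then the Jensen polynomial of degree `D` has only real zeros. -/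
theorem jensen_hyp {f : ℂ → ℂ} (F : SymEntire f) (hne : ∃ z, f z ≠ 0)
    (hreal : ∀ z, f (conj z) = conj (f z)) {D : ℕ}
    (hz : ∀ z, f z = 0 → z.im = 0 ∨ ((D : ℝ) - 1) * z.im ^ 2 ≤ z.re ^ 2) :
    jensenPoly f D = 0 ∨ Hyp (jensenPoly f D) := by
  set c : ℕ → ℂ := fun j => iteratedDeriv j f 0 / (j.factorial : ℂ) with hc
  set G := GG c D with hG
  set S : ℂ → ℝ := fun z => ∑ j ∈ range (D + 1), (D.descFactorial j : ℝ) * ‖z‖ ^ (D - j) with hS
  have hS0 : ∀ z, 0 ≤ S z := fun z => Finset.sum_nonneg fun j _ => by positivity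
  have hlim : ∀ z₀ : ℂ, z₀.im ≠ 0 → ∀ z₁ : ℂ,
      ‖G.eval z₁‖ ≤ (1 + ‖z₁ - z₀‖ / |z₀.im|) ^ D * ‖G.eval z₀‖ := by
    intro z₀ hz₀ z₁
    set κ := (1 + ‖z₁ - z₀‖ / |z₀.im|) ^ D with hκ
    have hκ0 : 0 ≤ κ := by positivity
    apply le_of_forall_pos_le_add
    intro ε hε
    set δ := ε / (S z₁ + κ * S z₀ + 1) with hδ
    have hden : 0 < S z₁ + κ * S z₀ + 1 := by
      have := hS0 z₁
      have := hS0 z₀
      positivity
    have hδ0 : 0 < δ := by positivity
    obtain ⟨P, hP0, hProots, hPclose, hPreal⟩ := F.approx hne 1 hδ0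
    have hPr := map_conj_eq (hPreal hreal)
    have hop := Hyp.op (D := (D : ℝ)) P.natDegree P rfl hP0 hPr
      (fun ρ hρ => hz ρ (hProots ρ hρ)) (X ^ D) (hyp_X_pow D) (by rw [natDegree_X_pow])
    rw [aeval_dd_X_pow] at hop
    have hcl : ∀ j, j ≤ D → ‖c j - P.coeff j‖ ≤ δ := fun j _ => coeff_close F.diff hPclose j
    have h1 := GG_sub c P.coeff hcl z₁
    have h0 := GG_sub c P.coeff hcl z₀
    have h2 : ‖(GG P.coeff D).eval z₁‖ ≤ κ * ‖(GG P.coeff D).eval z₀‖ := by
      rcases hop with h | h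
      · rw [h]; simp
      · exact h.ratio (natDegree_GG _ _) hz₀ z₁
    have h3 : ‖G.eval z₁‖ ≤ ‖(GG P.coeff D).eval z₁‖ + δ * S z₁ := by
      have := norm_sub_norm_le (G.eval z₁) ((GG P.coeff D).eval z₁)
      linarith
    have h4 : ‖(GG P.coeff D).eval z₀‖ ≤ ‖G.eval z₀‖ + δ * S z₀ := by
      have := norm_sub_norm_le ((GG P.coeff D).eval z₀) (G.eval z₀)
      rw [norm_sub_rev] at this
      linarith
    have h5 : δ * (S z₁ + κ * S z₀ + 1) = ε := by rw [hδ]; field_simp
    have h6 : κ * ‖(GG P.coeff D).eval z₀‖ ≤ κ * (‖G.eval z₀‖ + δ * S z₀) := by gcongr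
    nlinarith
  by_cases hJ : jensenPoly f D = 0
  · exact Or.inl hJ
  right
  refine ⟨hJ, ?_⟩
  intro X₀ hX
  by_contra him
  apply hJ
  have hX0 : X₀ ≠ 0 := by
    intro h; apply him; rw [h]; simp
  have hG0 : G.eval X₀⁻¹ = 0 := by
    rw [jensen_eval f D hX0] at hX
    rcases mul_eq_zero.1 hX with h | h
    · exact absurd h (pow_ne_zero _ hX0)
    · exact h
  have him' : (X₀⁻¹).im ≠ 0 := by
    rw [Complex.inv_im]
    have : Complex.normSq X₀ ≠ 0 := by
      rw [Ne, Complex.normSq_eq_zero]; exact hX0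
    exact div_ne_zero (neg_ne_zero.2 him) this
  have hall : ∀ z, G.eval z = 0 := by
    intro z
    have := hlim X₀⁻¹ him' z
    rw [hG0, norm_zero, mul_zero] at this
    exact norm_le_zero_iff.1 this
  have hmul : jensenPoly f D * X = 0 := by
    apply Polynomial.funext
    intro z
    rcases eq_or_ne z 0 with h | h
    · rw [h]; simp
    · rw [eval_mul, jensen_eval f D h, hall, mul_zero, zero_mul, eval_zero]
  rcases mul_eq_zero.1 hmul with h | h
  · exact h
  · exact absurd h X_ne_zero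

end Pool.Agent.H5
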