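import Mathlib
import Pool.Agent.H5.PolyB
import Pool.Agent.H5.MainZ
import Pool.Agent.H5.GenStrip

/-!
Jensen polynomials of completed L-functions of elliptic curves.
-/

set_option autoImplicit false

open Polynomial Finset
open scoped ComplexConjugate

namespace Pool.Agent.H5

open Pool.Agent.H6 (SymEntire)

lemma symEntire_rot {f : ℂ → ℂ} (F : SymEntire f) : SymEntire (fun z => f (Complex.I * z)) where
  diff := F.diff.comp (by fun_prop)
  symm := by
    rcases F.symm with h | h
    · left; intro z; simp only [mul_neg]; exact h _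
    · right; intro z; simp only [mul_neg]; exact h _
  growth := by
    obtain ⟨A, B, ρ, hA, hB, h0, h2, hg⟩ := F.growth
    refine ⟨A, B, ρ, hA, hB, h0, h2, fun z => ?_⟩
    have := hg (Complex.I * z)
    rwa [norm_mul, Complex.norm_I, one_mul] at this

lemma symEntire_const_mul {f : ℂ → ℂ} (F : SymEntire f) (u : ℂ) : SymEntire (fun z => u * f z) where
  diff := F.diff.const_mul u
  symm := by
    rcases F.symm with h | h
    · left; intro z; simp only [h]
    · right; intro z; simp only [h, mul_neg]
  growth := by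
    obtain ⟨A, B, ρ, hA, hB, h0, h2, hg⟩ := F.growth
    refine ⟨‖u‖ * A, B, ρ, by positivity, hB, h0, h2, fun z => ?_⟩
    rw [norm_mul, mul_assoc]
    gcongr
    exact hg z

/-- derivatives of a function with `f (conj z) = w * conj (f z)` -/
lemma conj_iteratedDeriv {f : ℂ → ℂ} {w : ℂ} (hf : ∀ z, f (conj z) = w * conj (f z)) (n : ℕ) :
    ∀ z, iteratedDeriv n f (conj z) = w * conj (iteratedDeriv n f z) := by
  induction n with
  | zero => intro z; rw [iteratedDeriv_zero]; exact hf z
  | succ n ih =>
    intro z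
    rw [iteratedDeriv_succ]
    set g := iteratedDeriv n f with hg
    have h1 : g = fun z => w * (conj ∘ g ∘ conj) z := by
      funext z
      have := ih (conj z)
      rw [Complex.conj_conj] at this
      simpa using this
    have h2 : deriv g (conj z) = w * deriv (conj ∘ g ∘ conj) (conj z) := by
      conv_lhs => rw [h1]
      rw [deriv_const_mul_field]
    rw [h2, deriv_conj_conj]
    simp

variable {c : ℕ → ℤ} {e : ℕ → ℕ} {N w : ℝ} {L Λ : ℂ → ℂ}

/-- the Jensen polynomials in terms of the completed L-function -/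
theorem EulerData.jensen {ε : ℝ} (hε : 0 < ε) : ∃ K : ℝ, ∀ (c : ℕ → ℤ) (e : ℕ → ℕ) (N w : ℝ)
    (L Λ : ℂ → ℂ), EulerData c e N w L Λ → ∀ D n : ℕ, 1 ≤ D →
    (1 + ε) * Real.log (N * D) + K ≤ 4 * n →
    Hyp (∑ j ∈ range (D + 1),
      Polynomial.C ((D.choose j : ℂ) * iteratedDeriv (n + j) (fun z => Λ (1 + Complex.I * z)) 0) * X ^ j) := by
  obtain ⟨K₀, hK₀⟩ := EulerData.zeros hε
  refine ⟨K₀ + (1 + ε) * Real.log 8 + 1, ?_⟩
  intro c e N w L Λ E D n hD hn
  have hN := E.level
  have hN0 : 0 < N := by linarith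
  have hD1 : (1:ℝ) ≤ D := by exact_mod_cast hD
  have hlog8 : 0 < Real.log 8 := Real.log_pos (by norm_num)
  set f : ℂ → ℂ := fun z => Λ (1 + Complex.I * z) with hf
  have F0 : SymEntire f := symEntire_rot E.symEntire
  have hfcd : ContDiff ℂ n f := F0.diff.contDiff
  -- conjugation
  have hconj : ∀ z, f (conj z) = (w : ℂ) * conj (f z) := by
    intro z
    have h1 : (1 : ℂ) + Complex.I * conj z = conj (1 - Complex.I * z) := by
      rw [map_sub, map_one, map_mul, Complex.conj_I]; ring
    have h2 : (1 : ℂ) - Complex.I * z = 2 - (1 + Complex.I * z) := by ring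
    simp only [hf]
    rw [h1, E.real_Λ, h2, E.fe, map_mul, Complex.conj_ofReal]
  have hgconj := conj_iteratedDeriv hconj n
  obtain ⟨u, hu0, hu⟩ : ∃ u : ℂ, u ≠ 0 ∧ u * w = conj u := by
    rcases E.sign with h | h
    · exact ⟨1, one_ne_zero, by simp [h]⟩
    · exact ⟨Complex.I, Complex.I_ne_zero, by simp [h]⟩
  set g : ℂ → ℂ := fun z => u * iteratedDeriv n f z with hg
  have G : SymEntire g := symEntire_const_mul (F0.iteratedDeriv n) u
  have hgr : ∀ z, g (conj z) = conj (g z) := by
    intro z
    simp only [hg]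
    rw [hgconj, map_mul, ← hu]; ring
  -- relation to the derivatives of `Λ`
  have hder : ∀ k : ℕ, ∀ z, iteratedDeriv k f z
      = Complex.I ^ k * iteratedDeriv k Λ (1 + Complex.I * z) := by
    intro k z
    have h1 : ContDiff ℂ k (fun z => Λ (1 + z)) :=
      (E.symEntire.diff).contDiff
    have h2 := congrFun (iteratedDeriv_comp_const_mul h1 Complex.I) z
    rw [hf, h2, iteratedDeriv_comp_const_add]
  have hzero : ∀ z, g z = 0 → iteratedDeriv n Λ (1 + Complex.I * z) = 0 := by
    intro z hz
    simp only [hg] at hz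
    rcases mul_eq_zero.1 hz with h | h
    · exact absurd h hu0
    · rw [hder] at h
      rcases mul_eq_zero.1 h with h' | h'
      · exact absurd h' (pow_ne_zero _ Complex.I_ne_zero)
      · exact h'
  have hgne : ∃ z, g z ≠ 0 := by
    obtain ⟨z1, hz1⟩ := E.iteratedDeriv_ne_zero n
    refine ⟨-Complex.I * (z1 - 1), fun h => hz1 ?_⟩
    have := hzero _ h
    have e1 : (1 : ℂ) + Complex.I * (-Complex.I * (z1 - 1)) = z1 := by
      linear_combination (1 - z1) * Complex.I_sq
    rwa [e1] at this
  -- logarithms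
  have hlogD : Real.log (8 * (N * D)) = Real.log 8 + Real.log (N * D) :=
    Real.log_mul (by norm_num) (by positivity)
  -- location of the zeros
  have hloc : ∀ z, g z = 0 → z.im = 0 ∨ ((D : ℝ) - 1) * z.im ^ 2 ≤ z.re ^ 2 := by
    intro z hz
    by_contra hcon
    push Not at hcon
    obtain ⟨him, hlt⟩ := hcon
    have h0 := hzero z hz
    have hstrip := E.deriv_zero_strip n h0
    have hre1 : (1 + Complex.I * z).re = 1 - z.im := by simp; ring
    have him1 : (1 + Complex.I * z).im = z.re := by simp
    obtain ⟨h1, -⟩ := hK₀ c e N w L Λ E n _ h0 hstrip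
    rw [hre1, him1] at h1
    rw [hre1] at hstrip
    have h2 := h1 (by intro h; apply him; linarith)
    have h3 : (1 - z.im - 1) = -z.im := by ring
    rw [h3, abs_neg] at h2 hstrip
    have h4 : z.im ^ 2 ≤ 1 / 4 := by
      rw [← sq_abs]; nlinarith [abs_nonneg z.im]
    have h5 : z.re ^ 2 ≤ (D - 1) / 4 := by nlinarith
    have h6 : (2 + |z.re|) ^ 2 ≤ 8 * D := by
      have : |z.re| ^ 2 = z.re ^ 2 := sq_abs _
      nlinarith [sq_nonneg (|z.re| - 2)]
    have h7 : Real.log (N * (2 + |z.re|) ^ 2) ≤ Real.log (8 * (N * D)) := by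
      apply Real.log_le_log (by positivity)
      have := mul_le_mul_of_nonneg_left h6 hN0.le
      linarith
    have h8 : 0 ≤ Real.log (N * (2 + |z.re|) ^ 2) := by
      apply Real.log_nonneg
      nlinarith [abs_nonneg z.re]
    have h9 : 0 ≤ 2 * |z.im| * Real.log (N * (2 + |z.re|) ^ 2) := by positivity
    rw [hlogD] at h7
    have h10 : (1 + ε) * Real.log (N * (2 + |z.re|) ^ 2)
        ≤ (1 + ε) * (Real.log 8 + Real.log (N * D)) := by gcongr
    linarith
  -- the Jensen polynomial of `g`
  have hJ := jensen_hyp G hgne hgr hloc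
  have hrel : jensenPoly g D = Polynomial.C u * (∑ j ∈ range (D + 1),
      Polynomial.C ((D.choose j : ℂ) * iteratedDeriv (n + j) f 0) * X ^ j) := by
    unfold jensenPoly
    rw [Finset.mul_sum]
    apply Finset.sum_congr rfl
    intro j _
    have h1 : iteratedDeriv j g 0 = u * iteratedDeriv (n + j) f 0 := by
      rw [hg, iteratedDeriv_const_mul_field]
      congr 1
      rw [iteratedDeriv_eq_iterate, iteratedDeriv_eq_iterate, iteratedDeriv_eq_iterate,
        ← Function.iterate_add_apply, add_comm]
    rw [h1]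
    simp only [Polynomial.C_mul]
    ring
  set J := ∑ j ∈ range (D + 1), Polynomial.C ((D.choose j : ℂ) * iteratedDeriv (n + j) f 0) * X ^ j with hJdef
  -- it does not vanish
  have hcoeff : ∀ k, k ≤ D → J.coeff k = (D.choose k : ℂ) * iteratedDeriv (n + k) f 0 := by
    intro k hk
    rw [hJdef, finsetSum_coeff]
    simp only [coeff_C_mul, coeff_X_pow]
    rw [Finset.sum_eq_single k]
    · simp
    · intro j _ hj
      rw [if_neg (Ne.symm hj), mul_zero]
    · intro h; exfalso; apply h; rw [mem_range]; omega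
  have hJ0 : J ≠ 0 := by
    intro h
    have h1 := hcoeff 0 (by omega)
    have h2 := hcoeff 1 hD
    rw [h, coeff_zero] at h1 h2
    have h3 : iteratedDeriv n Λ 1 = 0 := by
      have : iteratedDeriv (n + 0) f 0 = 0 := by
        have h4 : (D.choose 0 : ℂ) = 1 := by simp
        rw [h4, one_mul] at h1; exact h1.symm
      rw [add_zero, hder] at this
      rcases mul_eq_zero.1 this with h' | h'
      · exact absurd h' (pow_ne_zero _ Complex.I_ne_zero)
      · simpa using h'
    have h4 : iteratedDeriv (n + 1) Λ 1 = 0 := by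
      have : iteratedDeriv (n + 1) f 0 = 0 := by
        have h5 : (D.choose 1 : ℂ) ≠ 0 := by
          rw [Nat.choose_one_right]; exact_mod_cast (by omega : D ≠ 0)
        rcases mul_eq_zero.1 h2.symm with h' | h'
        · exact absurd h' h5
        · exact h'
      rw [hder] at this
      rcases mul_eq_zero.1 this with h' | h'
      · exact absurd h' (pow_ne_zero _ Complex.I_ne_zero)
      · simpa using h'
    obtain ⟨-, h5⟩ := hK₀ c e N w L Λ E n 1 h3 (by simp)
    have h6 : Real.log (N * (2 + |(1:ℂ).im|) ^ 2) ≤ Real.log (8 * (N * D)) := by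
      rw [Complex.one_im, abs_zero]
      apply Real.log_le_log (by positivity)
      nlinarith
    rw [hlogD] at h6
    have h7 : (1 + ε) * Real.log (N * (2 + |(1:ℂ).im|) ^ 2)
        ≤ (1 + ε) * (Real.log 8 + Real.log (N * D)) := by gcongr
    exact (h5 (by linarith)).2 h4
  refine ⟨hJ0, ?_⟩
  rw [hrel] at hJ
  rcases hJ with h | h
  · exact absurd h (mul_ne_zero (C_ne_zero.2 hu0) hJ0)
  · intro z hz
    apply h.2 z
    rw [eval_mul, hz, mul_zero]

end Pool.Agent.H5
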